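import Pool.Agent.Lib.MP_3309cd_pr.Defs

/-! Union bound for the marks: the probability that some mirror near the origin has its angle
outside `T` is at most `C(R) μ(Tᶜ)`. -/

namespace Pool.Agent.Lib.MP_3309cd_pr

open MeasureTheory ProbabilityTheory Set Filter Topology

instance marks_isProb_ptLaw (μ : Measure ℝ) [IsProbabilityMeasure μ] :
    IsProbabilityMeasure (ptLaw μ) := by unfold ptLaw; infer_instance

instance marks_isProb_cellLaw (μ : Measure ℝ) [IsProbabilityMeasure μ] :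
    IsProbabilityMeasure (cellLaw μ) := by unfold cellLaw; infer_instance

instance marks_isProb_PP (μ : Measure ℝ) [IsProbabilityMeasure μ] :
    IsProbabilityMeasure (PP μ) := by unfold PP; infer_instance

/-- The mean number of mirrors in a cell is finite. -/
theorem marks_mean_lt_top :
    ∫⁻ n : ℕ, (n : ENNReal) ∂(poissonMeasure ⟨sd ^ 2, sq_nonneg sd⟩) < ⊤ := by
  unfold poissonMeasure
  rw [lintegral_sum_measure]
  have hsum : Summable fun n : ℕ => (n : ℝ) * (1 / 2 : ℝ) ^ n := by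
    simpa using summable_pow_mul_geometric_of_norm_lt_one 1
      (show ‖(1 / 2 : ℝ)‖ < 1 by rw [Real.norm_eq_abs]; norm_num [abs_of_pos])
  have hle : ∀ n : ℕ, ∫⁻ k : ℕ, (k : ENNReal)
      ∂(ENNReal.ofReal (Real.exp (-((⟨sd ^ 2, sq_nonneg sd⟩ : NNReal) : ℝ)) *
        ((⟨sd ^ 2, sq_nonneg sd⟩ : NNReal) : ℝ) ^ n / (n.factorial : ℝ)) •
          Measure.dirac n) ≤ ENNReal.ofReal ((n : ℝ) * (1 / 2 : ℝ) ^ n) := by
    intro n
    rw [lintegral_smul_measure, lintegral_dirac, smul_eq_mul]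
    rw [← ENNReal.ofReal_natCast n, ← ENNReal.ofReal_mul' (by positivity)]
    apply ENNReal.ofReal_le_ofReal
    rw [mul_comm]
    refine mul_le_mul_of_nonneg_left ?_ (by positivity)
    have h1 : Real.exp (-((⟨sd ^ 2, sq_nonneg sd⟩ : NNReal) : ℝ)) ≤ 1 :=
      Real.exp_le_one_iff.2 (neg_nonpos.2 (sq_nonneg sd))
    have h2 : ((⟨sd ^ 2, sq_nonneg sd⟩ : NNReal) : ℝ) ^ n ≤ (1 / 2) ^ n := by
      refine pow_le_pow_left₀ (sq_nonneg sd) ?_ n
      change sd ^ 2 ≤ 1 / 2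
      unfold sd
      norm_num
    have h3 : (1 : ℝ) ≤ (n.factorial : ℝ) := by exact_mod_cast n.factorial_pos
    refine le_trans (div_le_self (by positivity) h3) ?_
    calc Real.exp (-((⟨sd ^ 2, sq_nonneg sd⟩ : NNReal) : ℝ)) *
          ((⟨sd ^ 2, sq_nonneg sd⟩ : NNReal) : ℝ) ^ n ≤ 1 * (1 / 2) ^ n :=
        mul_le_mul h1 h2 (by positivity) zero_le_one
      _ = (1 / 2) ^ n := one_mul _
  refine lt_of_le_of_lt (ENNReal.tsum_le_tsum hle) ?_
  rw [← ENNReal.ofReal_tsum_of_nonneg (fun n => by positivity) hsum]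
  exact ENNReal.ofReal_lt_top

/-- Sum of the tails of the number of mirrors. -/
theorem marks_tsum_tail :
    ∑' i : ℕ, (poissonMeasure ⟨sd ^ 2, sq_nonneg sd⟩) {n : ℕ | i < n} =
      ∫⁻ n : ℕ, (n : ENNReal) ∂(poissonMeasure ⟨sd ^ 2, sq_nonneg sd⟩) := by
  have h1 : ∀ i : ℕ, (poissonMeasure ⟨sd ^ 2, sq_nonneg sd⟩) {n : ℕ | i < n} =
      ∫⁻ n : ℕ, ({n : ℕ | i < n}.indicator 1 n : ENNReal)
        ∂(poissonMeasure ⟨sd ^ 2, sq_nonneg sd⟩) := fun i => by
    rw [lintegral_indicator_one (by measurability)]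
  simp_rw [h1]
  rw [← lintegral_tsum (fun i => (Measurable.aemeasurable (by fun_prop)))]
  congr 1
  ext n
  rw [tsum_eq_sum (s := Finset.range n)]
  · rw [Finset.sum_congr rfl (g := fun _ => (1 : ENNReal))]
    · simp
    · intro i hi
      simp [Finset.mem_range.1 hi]
  · intro i hi
    simp only [Finset.mem_range, not_lt] at hi
    simp [hi]

/-- Probability that the `i`-th mirror of the cell `κ` is present and has its angle outside
`T`. -/
theorem marks_one (μ : Measure ℝ) [IsProbabilityMeasure μ] {T : Set ℝ} (hT : MeasurableSet T)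
    (κ : Cell) (i : ℕ) :
    PP μ {ω : Om | i < (ω κ).1 ∧ ((ω κ).2 i).2 ∉ T} =
      (poissonMeasure ⟨sd ^ 2, sq_nonneg sd⟩) {n : ℕ | i < n} * μ Tᶜ := by
  have hB : MeasurableSet ({n : ℕ | i < n} ×ˢ
      ((fun x : ℕ → (unitInterval × unitInterval) × ℝ => x i) ⁻¹' (univ ×ˢ Tᶜ)) : Set CC) := by
    refine MeasurableSet.prod (by measurability) ?_
    exact measurable_pi_apply i (MeasurableSet.univ.prod hT.compl)
  have hA : {ω : Om | i < (ω κ).1 ∧ ((ω κ).2 i).2 ∉ T} = (fun ω : Om => ω κ) ⁻¹'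
      ({n : ℕ | i < n} ×ˢ
        ((fun x : ℕ → (unitInterval × unitInterval) × ℝ => x i) ⁻¹' (univ ×ˢ Tᶜ)) : Set CC) := by
    ext ω
    simp
  have hev : MeasurePreserving (fun ω : Om => ω κ) (PP μ) (cellLaw μ) :=
    measurePreserving_eval_infinitePi (fun _ : Cell => cellLaw μ) κ
  have hev2 : MeasurePreserving (fun x : ℕ → (unitInterval × unitInterval) × ℝ => x i)
      (Measure.infinitePi fun _ : ℕ => ptLaw μ) (ptLaw μ) :=
    measurePreserving_eval_infinitePi (fun _ : ℕ => ptLaw μ) i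
  rw [hA, hev.measure_preimage hB.nullMeasurableSet, cellLaw, Measure.prod_prod,
    hev2.measure_preimage (MeasurableSet.univ.prod hT.compl).nullMeasurableSet, ptLaw,
    Measure.prod_prod, measure_univ, one_mul]

theorem marks_bound : ∃ C : ℝ → ℝ, (∀ R, 0 < C R) ∧
    ∀ (μ : Measure ℝ) [IsProbabilityMeasure μ] (T : Set ℝ), MeasurableSet T → ∀ R : ℝ,
      PP μ {ω | ∃ m ∈ conf ω, ‖m.1‖ ≤ R ∧ m.2 ∉ T} ≤ ENNReal.ofReal (C R) * μ Tᶜ := by
  set M : ENNReal := ∫⁻ n : ℕ, (n : ENNReal) ∂(poissonMeasure ⟨sd ^ 2, sq_nonneg sd⟩) with hMdef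
  have hM : M < ⊤ := marks_mean_lt_top
  let F : ℝ → Finset Cell := fun R =>
    Finset.Icc (-(⌈1000 * R⌉ + 1)) (⌈1000 * R⌉ + 1) ×ˢ
      Finset.Icc (-(⌈1000 * R⌉ + 1)) (⌈1000 * R⌉ + 1)
  refine ⟨fun R => (F R).card * M.toReal + 1, fun R => by positivity, ?_⟩
  intro μ _ T hT R
  have hsub : {ω : Om | ∃ m ∈ conf ω, ‖m.1‖ ≤ R ∧ m.2 ∉ T} ⊆
      ⋃ κ ∈ F R, ⋃ i : ℕ, {ω : Om | i < (ω κ).1 ∧ ((ω κ).2 i).2 ∉ T} := by
    rintro ω ⟨m, ⟨l, hl1, rfl⟩, hm, hmT⟩
    simp only [mem_iUnion]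
    have hbd : ∀ (a : ℤ) (U : unitInterval), |sd * ((a : ℝ) + (U : ℝ))| ≤ R →
        a ∈ Finset.Icc (-(⌈1000 * R⌉ + 1)) (⌈1000 * R⌉ + 1) := by
      intro a U h
      rw [Finset.mem_Icc]
      have h1 := abs_le.1 h
      have hU0 := U.2.1
      have hU1 := U.2.2
      unfold sd at h1
      have h2 := Int.le_ceil (1000 * R)
      constructor
      · have : (-(⌈1000 * R⌉ + 1) : ℝ) ≤ (a : ℝ) := by linarith [h1.1]
        exact_mod_cast this
      · have : (a : ℝ) ≤ (⌈1000 * R⌉ + 1 : ℝ) := by linarith [h1.2]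
        exact_mod_cast this
    refine ⟨l.1, ?_, l.2, hl1, ?_⟩
    · refine Finset.mem_product.2 ⟨hbd l.1.1 ((ω l.1).2 l.2).1.1 ?_,
        hbd l.1.2 ((ω l.1).2 l.2).1.2 ?_⟩
      · exact (Complex.abs_re_le_norm (mir ω l).1).trans hm
      · exact (Complex.abs_im_le_norm (mir ω l).1).trans hm
    · exact hmT
  calc PP μ {ω : Om | ∃ m ∈ conf ω, ‖m.1‖ ≤ R ∧ m.2 ∉ T}
      ≤ PP μ (⋃ κ ∈ F R, ⋃ i : ℕ, {ω : Om | i < (ω κ).1 ∧ ((ω κ).2 i).2 ∉ T}) :=
        measure_mono hsub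
    _ ≤ ∑ κ ∈ F R, PP μ (⋃ i : ℕ, {ω : Om | i < (ω κ).1 ∧ ((ω κ).2 i).2 ∉ T}) :=
        measure_biUnion_finset_le _ _
    _ ≤ ∑ κ ∈ F R, M * μ Tᶜ := by
        refine Finset.sum_le_sum fun κ _ => ?_
        refine (measure_iUnion_le _).trans ?_
        simp_rw [marks_one μ hT κ]
        rw [ENNReal.tsum_mul_right, marks_tsum_tail]
    _ = (F R).card * M * μ Tᶜ := by
        rw [Finset.sum_const, nsmul_eq_mul, mul_assoc]
    _ ≤ ENNReal.ofReal ((F R).card * M.toReal + 1) * μ Tᶜ := by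
        refine mul_le_mul_left ?_ _
        rw [ENNReal.ofReal_add (by positivity) zero_le_one, ENNReal.ofReal_mul (by positivity),
          ENNReal.ofReal_toReal hM.ne, ENNReal.ofReal_natCast]
        exact le_self_add

end Pool.Agent.Lib.MP_3309cd_pr
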