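import Pool.Agent.Lib.MP_3309cd_pr.Resample
import Pool.Agent.Lib.MP_3309cd_pr.Marks

/-! Almost sure properties of the configuration: the origin is on no mirror, two different mirrors
meet in at most one point. -/

namespace Pool.Agent.Lib.MP_3309cd_pr

open MeasureTheory ProbabilityTheory Set Filter Topology

/-- Replace the mark with label `l` by `x`. -/
noncomputable def aebUpd (l : Cell × ℕ) (ω : Om) (x : (unitInterval × unitInterval) × ℝ) : Om :=
  Function.update ω l.1 ((ω l.1).1, Function.update (ω l.1).2 l.2 x)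

/-- Resampling one mark. -/
theorem aeb_resample_pt (μ : Measure ℝ) [IsProbabilityMeasure μ] (l : Cell × ℕ) :
    MeasurePreserving (fun p : Om × ((unitInterval × unitInterval) × ℝ) => aebUpd l p.1 p.2)
      ((PP μ).prod (ptLaw μ)) (PP μ) := by
  obtain ⟨κ, i⟩ := l
  -- resampling inside the content of a cell
  have hcell : MeasurePreserving
      (fun q : CC × ((unitInterval × unitInterval) × ℝ) =>
        ((q.1.1, Function.update q.1.2 i q.2) : CC))
      ((cellLaw μ).prod (ptLaw μ)) (cellLaw μ) := by
    have h1 : MeasurePreserving (MeasurableEquiv.prodAssoc :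
        (ℕ × (ℕ → (unitInterval × unitInterval) × ℝ)) × ((unitInterval × unitInterval) × ℝ) ≃ᵐ _)
        ((cellLaw μ).prod (ptLaw μ))
        ((poissonMeasure ⟨sd ^ 2, sq_nonneg sd⟩).prod
          ((Measure.infinitePi fun _ : ℕ => ptLaw μ).prod (ptLaw μ))) := by
      unfold cellLaw
      exact measurePreserving_prodAssoc _ _ _
    have h2 := (MeasurePreserving.id (poissonMeasure ⟨sd ^ 2, sq_nonneg sd⟩)).prod
      (resample_infinitePi (ptLaw μ) i)
    exact h2.comp h1
  -- the map on triples
  have hF : Measurable (fun p : Om × ((unitInterval × unitInterval) × ℝ) =>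
      aebUpd (κ, i) p.1 p.2) := by
    rw [measurable_pi_iff]
    intro κ'
    by_cases hκ : κ' = κ
    · subst hκ
      simp only [aebUpd, Function.update_self]
      have h : Measurable fun a : Om × ((unitInterval × unitInterval) × ℝ) => (a.1 κ', a.2) :=
        ((measurable_pi_apply κ').comp measurable_fst).prodMk measurable_snd
      exact hcell.measurable.comp h
    · simp only [aebUpd, Function.update_of_ne hκ]
      exact (measurable_pi_apply κ').comp measurable_fst
  have hA : MeasurePreserving
      (fun q : (Om × CC) × ((unitInterval × unitInterval) × ℝ) =>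
        (Function.update q.1.1 κ q.1.2, q.2))
      (((PP μ).prod (cellLaw μ)).prod (ptLaw μ)) ((PP μ).prod (ptLaw μ)) :=
    (resample μ κ).prod (MeasurePreserving.id (ptLaw μ))
  have hB : MeasurePreserving
      (fun q : (Om × CC) × ((unitInterval × unitInterval) × ℝ) =>
        Function.update q.1.1 κ ((q.1.2.1, Function.update q.1.2.2 i q.2) : CC))
      (((PP μ).prod (cellLaw μ)).prod (ptLaw μ)) (PP μ) := by
    have h1 : MeasurePreserving (MeasurableEquiv.prodAssoc :
        (Om × CC) × ((unitInterval × unitInterval) × ℝ) ≃ᵐ _)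
        (((PP μ).prod (cellLaw μ)).prod (ptLaw μ))
        ((PP μ).prod ((cellLaw μ).prod (ptLaw μ))) := measurePreserving_prodAssoc _ _ _
    have h2 := (MeasurePreserving.id (PP μ)).prod hcell
    exact ((resample μ κ).comp h2).comp h1
  refine ⟨hF, ?_⟩
  rw [← hA.map_eq, Measure.map_map hF hA.measurable]
  refine Eq.trans ?_ hB.map_eq
  congr 1
  funext q
  simp [aebUpd]

/-- An event whose slices in the mark `l` are all null is null. -/
theorem aeb_null_of_slices (μ : Measure ℝ) [IsProbabilityMeasure μ] (l : Cell × ℕ) {E : Set Om}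
    (hE : MeasurableSet E) (h : ∀ ω, ptLaw μ {x | aebUpd l ω x ∈ E} = 0) : PP μ E = 0 := by
  rw [← (aeb_resample_pt μ l).measure_preimage hE.nullMeasurableSet,
    Measure.measure_prod_null ((aeb_resample_pt μ l).measurable hE)]
  exact Eventually.of_forall h

/-- The centre of the mirror with relative position `U` in the cell `κ`. -/
noncomputable def aebC (κ : Cell) (U : unitInterval × unitInterval) : ℂ :=
  ⟨sd * (κ.1 + (U.1 : ℝ)), sd * (κ.2 + (U.2 : ℝ))⟩

theorem aeb_line_null (d c : ℂ) (hd : d ≠ 0) (κ : Cell) :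
    (volume : Measure (unitInterval × unitInterval)) {U | cr d (aebC κ U - c) = 0} = 0 := by
  have hm : MeasurableSet {U : unitInterval × unitInterval | cr d (aebC κ U - c) = 0} := by
    have : Measurable fun U : unitInterval × unitInterval => cr d (aebC κ U - c) := by
      unfold cr aebC
      simp only [Complex.sub_im, Complex.sub_re]
      fun_prop
    exact this (measurableSet_singleton 0)
  have hsd : (sd : ℝ) ≠ 0 := by unfold sd; norm_num
  by_cases hre : d.re = 0
  · have him : d.im ≠ 0 := fun h => hd (Complex.ext hre h)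
    rw [Measure.volume_eq_prod, Measure.prod_apply_symm hm]
    rw [lintegral_eq_zero_iff' (by
      exact (measurable_measure_prodMk_right hm).aemeasurable)]
    refine Eventually.of_forall fun y => ?_
    refine Set.Subsingleton.measure_zero ?_ _
    intro s hs t ht
    simp only [mem_preimage, mem_ofPred_eq, cr, aebC, Complex.sub_im, Complex.sub_re, hre,
      zero_mul, zero_sub, neg_eq_zero, mul_eq_zero, him, false_or] at hs ht
    have : sd * ((s : ℝ) - t) = 0 := by linarith
    have h2 := (mul_eq_zero.1 this).resolve_left hsd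
    exact Subtype.ext (by linarith)
  · rw [Measure.volume_eq_prod, Measure.measure_prod_null hm]
    refine Eventually.of_forall fun y => ?_
    refine Set.Subsingleton.measure_zero ?_ _
    intro s hs t ht
    simp only [mem_preimage, mem_ofPred_eq, cr, aebC, Complex.sub_im, Complex.sub_re] at hs ht
    have : (d.re * sd) * ((s : ℝ) - t) = 0 := by linarith
    have h2 := (mul_eq_zero.1 this).resolve_left (mul_ne_zero hre hsd)
    exact Subtype.ext (by linarith)

theorem aeb_dir_ne_zero (θ : ℝ) : dir θ ≠ 0 := by
  intro h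
  have h1 : Real.cos θ = 0 := congrArg Complex.re h
  have h2 : Real.sin θ = 0 := congrArg Complex.im h
  have := Real.sin_sq_add_cos_sq θ
  rw [h1, h2] at this
  norm_num at this

theorem aeb_meas_mark (l : Cell × ℕ) : Measurable fun ω : Om => (ω l.1).2 l.2 :=
  (measurable_pi_apply l.2).comp (measurable_snd.comp (measurable_pi_apply l.1))

theorem aeb_meas_re (l : Cell × ℕ) : Measurable fun ω : Om => (mir ω l).1.re := by
  have h := aeb_meas_mark l
  change Measurable fun ω : Om => sd * ((l.1.1 : ℝ) + (((ω l.1).2 l.2).1.1 : ℝ))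
  fun_prop

theorem aeb_meas_im (l : Cell × ℕ) : Measurable fun ω : Om => (mir ω l).1.im := by
  have h := aeb_meas_mark l
  change Measurable fun ω : Om => sd * ((l.1.2 : ℝ) + (((ω l.1).2 l.2).1.2 : ℝ))
  fun_prop

theorem aeb_meas_ang (l : Cell × ℕ) : Measurable fun ω : Om => (mir ω l).2 := by
  have h : Measurable fun ω : Om => ((ω l.1).2 l.2).2 := measurable_snd.comp (aeb_meas_mark l)
  exact h

/-- The origin is not on the line of a given mirror. -/
theorem aeb_zero_line (μ : Measure ℝ) [IsProbabilityMeasure μ] (l : Cell × ℕ) :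
    ∀ᵐ ω ∂(PP μ), cr (dir (mir ω l).2) (0 - (mir ω l).1) ≠ 0 := by
  have hm : MeasurableSet {ω : Om | cr (dir (mir ω l).2) (0 - (mir ω l).1) = 0} := by
    have h1 := aeb_meas_re l
    have h2 := aeb_meas_im l
    have h3 := aeb_meas_ang l
    have : Measurable fun ω : Om => cr (dir (mir ω l).2) (0 - (mir ω l).1) := by
      unfold cr dir
      simp only [Complex.sub_im, Complex.sub_re]
      fun_prop
    exact this (measurableSet_singleton 0)
  rw [ae_iff]
  simp only [ne_eq, not_not]
  refine aeb_null_of_slices μ l hm fun ω => ?_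
  have heq : {x | aebUpd l ω x ∈ {ω : Om | cr (dir (mir ω l).2) (0 - (mir ω l).1) = 0}} =
      {x : (unitInterval × unitInterval) × ℝ | cr (dir x.2) (aebC l.1 x.1 - 0) = 0} := by
    ext x
    simp only [mem_ofPred_eq, mir, aebUpd, Function.update_self, cr, aebC, Complex.sub_im,
      Complex.sub_re, Complex.zero_re, Complex.zero_im]
    constructor <;> intro h <;> linarith
  rw [heq]
  have hm2 : MeasurableSet {x : (unitInterval × unitInterval) × ℝ |
      cr (dir x.2) (aebC l.1 x.1 - 0) = 0} := by
    have : Measurable fun x : (unitInterval × unitInterval) × ℝ =>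
        cr (dir x.2) (aebC l.1 x.1 - 0) := by
      unfold cr dir aebC
      simp only [Complex.sub_im, Complex.sub_re]
      fun_prop
    exact this (measurableSet_singleton 0)
  rw [ptLaw, Measure.prod_apply_symm hm2, lintegral_eq_zero_iff'
    (measurable_measure_prodMk_right hm2).aemeasurable]
  exact Eventually.of_forall fun θ => aeb_line_null (dir θ) 0 (aeb_dir_ne_zero θ) l.1

/-- The centre of a given mirror is not on the line of another given mirror. -/
theorem aeb_pair_line (μ : Measure ℝ) [IsProbabilityMeasure μ] {l l' : Cell × ℕ} (hl : l ≠ l') :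
    ∀ᵐ ω ∂(PP μ), cr (dir (mir ω l).2) ((mir ω l').1 - (mir ω l).1) ≠ 0 := by
  have hm : MeasurableSet {ω : Om | cr (dir (mir ω l).2) ((mir ω l').1 - (mir ω l).1) = 0} := by
    have h1 := aeb_meas_re l
    have h2 := aeb_meas_im l
    have h3 := aeb_meas_ang l
    have h4 := aeb_meas_re l'
    have h5 := aeb_meas_im l'
    have : Measurable fun ω : Om => cr (dir (mir ω l).2) ((mir ω l').1 - (mir ω l).1) := by
      unfold cr dir
      simp only [Complex.sub_im, Complex.sub_re]
      fun_prop
    exact this (measurableSet_singleton 0)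
  rw [ae_iff]
  simp only [ne_eq, not_not]
  refine aeb_null_of_slices μ l' hm fun ω => ?_
  have hmir : ∀ x, mir (aebUpd l' ω x) l = mir ω l := by
    intro x
    unfold mir aebUpd
    by_cases hc : l.1 = l'.1
    · have hi : l.2 ≠ l'.2 := fun h => hl (Prod.ext hc h)
      rw [hc]
      simp [Function.update_of_ne hi]
    · simp [Function.update_of_ne hc]
  have heq : {x | aebUpd l' ω x ∈
      {ω : Om | cr (dir (mir ω l).2) ((mir ω l').1 - (mir ω l).1) = 0}} =
      (fun x : (unitInterval × unitInterval) × ℝ => x.1) ⁻¹'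
        {U : unitInterval × unitInterval |
          cr (dir (mir ω l).2) (aebC l'.1 U - (mir ω l).1) = 0} := by
    ext x
    simp only [mem_ofPred_eq, mem_preimage, hmir]
    simp only [mir, aebUpd, Function.update_self, aebC]
  rw [heq]
  have h0 := aeb_line_null (dir (mir ω l).2) (mir ω l).1 (aeb_dir_ne_zero _) l'.1
  exact (Measure.quasiMeasurePreserving_fst (μ := (volume : Measure (unitInterval × unitInterval)))
    (ν := μ)).preimage_null h0

theorem ae_zero (μ : Measure ℝ) [IsProbabilityMeasure μ] :
    ∀ᵐ ω ∂(PP μ), ∀ m ∈ conf ω, (0 : ℂ) ∉ seg hl m := by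
  have h : ∀ᵐ ω ∂(PP μ), ∀ l : Cell × ℕ, cr (dir (mir ω l).2) (0 - (mir ω l).1) ≠ 0 :=
    ae_all_iff.2 fun l => aeb_zero_line μ l
  filter_upwards [h] with ω hω
  rintro m ⟨l, -, rfl⟩ hm
  exact hω l hm.1

theorem aeb_parallel {a b a' b' e₁ e₂ x y : ℝ} (h' : a' ^ 2 + b' ^ 2 = 1)
    (he : ¬ (e₁ = 0 ∧ e₂ = 0)) (h1 : a * e₂ = b * e₁) (h2 : a' * e₂ = b' * e₁)
    (h3 : a' * y = b' * x) : a * y = b * x := by
  have hab : a * b' = b * a' := by
    by_cases h10 : e₁ = 0
    · have h20 : e₂ ≠ 0 := fun h => he ⟨h10, h⟩
      have : (a * b' - b * a') * e₂ = 0 := by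
        subst h10
        have ha : a = 0 := by
          have : a * e₂ = 0 := by simpa using h1
          exact (mul_eq_zero.1 this).resolve_right h20
        have ha' : a' = 0 := by
          have : a' * e₂ = 0 := by simpa using h2
          exact (mul_eq_zero.1 this).resolve_right h20
        rw [ha, ha']
        ring
      have h4 := (mul_eq_zero.1 this).resolve_right h20
      linarith
    · have : (a * b' - b * a') * e₁ = 0 := by
        calc (a * b' - b * a') * e₁ = a * (b' * e₁) - b * e₁ * a' := by ring
          _ = a * (a' * e₂) - a * e₂ * a' := by rw [h2, h1]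
          _ = 0 := by ring
      have h4 := (mul_eq_zero.1 this).resolve_right h10
      linarith
  have hp : a' * (a * y - b * x) = 0 := by
    calc a' * (a * y - b * x) = a * (a' * y) - b * a' * x := by ring
      _ = a * (b' * x) - a * b' * x := by rw [h3, hab]
      _ = 0 := by ring
  have hq : b' * (a * y - b * x) = 0 := by
    calc b' * (a * y - b * x) = a * b' * y - b * (b' * x) := by ring
      _ = b * a' * y - b * (a' * y) := by rw [hab, h3]
      _ = 0 := by ring
  have : a * y - b * x = (a' ^ 2 + b' ^ 2) * (a * y - b * x) := by rw [h']; ring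
  have h5 : (a' ^ 2 + b' ^ 2) * (a * y - b * x) = a' * (a' * (a * y - b * x)) +
      b' * (b' * (a * y - b * x)) := by ring
  rw [h5, hp, hq] at this
  linarith

/-- If the centre of `m'` is not on the line of `m` then the two mirrors meet in at most one
point. -/
theorem aeb_subsingleton {h : ℝ} {m m' : Mir} (hne : cr (dir m.2) (m'.1 - m.1) ≠ 0) :
    (seg h m ∩ seg h m').Subsingleton := by
  rintro z ⟨⟨hz, -⟩, ⟨hz', -⟩⟩ w ⟨⟨hw, -⟩, ⟨hw', -⟩⟩
  by_contra hzw
  apply hne
  simp only [cr, Complex.sub_im, Complex.sub_re] at *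
  have he : ¬ (z.re - w.re = 0 ∧ z.im - w.im = 0) := by
    rintro ⟨h1, h2⟩
    exact hzw (Complex.ext (by linarith) (by linarith))
  have h' : (dir m'.2).re ^ 2 + (dir m'.2).im ^ 2 = 1 := by
    simp only [dir]
    exact Real.cos_sq_add_sin_sq m'.2
  have := aeb_parallel (a := (dir m.2).re) (b := (dir m.2).im) h' he (by linarith) (by linarith)
    (x := z.re - m'.1.re) (y := z.im - m'.1.im) (by linarith)
  linarith

theorem ae_noov (μ : Measure ℝ) [IsProbabilityMeasure μ] :
    ∀ᵐ ω ∂(PP μ), NoOv hl (conf ω) := by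
  have h : ∀ᵐ ω ∂(PP μ), ∀ l l' : Cell × ℕ, l ≠ l' →
      cr (dir (mir ω l).2) ((mir ω l').1 - (mir ω l).1) ≠ 0 := by
    rw [ae_all_iff]
    intro l
    rw [ae_all_iff]
    intro l'
    by_cases hl : l = l'
    · exact Eventually.of_forall fun ω h => absurd hl h
    · filter_upwards [aeb_pair_line μ hl] with ω hω _
      exact hω
  filter_upwards [h] with ω hω
  rintro m ⟨l, -, rfl⟩ m' ⟨l', -, rfl⟩ hmm
  exact aeb_subsingleton (hω l l' fun h => hmm (by rw [h]))

end Pool.Agent.Lib.MP_3309cd_pr
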