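import Pool.Agent.Lib.MP_3309cd_pr.Defs

/-!
Almost surely there is no generalised saddle connection, for all but countably many directions.
-/

namespace Pool.Agent.Lib.MP_3309cd_pr

open MeasureTheory ProbabilityTheory Set Filter Topology

private theorem aenc_dir_unit (θ : ℝ) : (dir θ).re ^ 2 + (dir θ).im ^ 2 = 1 := by
  simp [dir, Real.cos_sq_add_sin_sq]

private theorem aenc_decomp (θ : ℝ) (z : ℂ) (h : cr (dir θ) z = 0) :
    z = (dt (dir θ) z) • dir θ := by
  have hu := aenc_dir_unit θ
  unfold cr at h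
  unfold dt
  set a := (dir θ).re
  set b := (dir θ).im
  apply Complex.ext
  · simp only [Complex.real_smul, Complex.mul_re, Complex.ofReal_re, Complex.ofReal_im]
    change z.re = (a * z.re + b * z.im) * a - 0 * b
    linear_combination (-z.re) * hu - b * h
  · simp only [Complex.real_smul, Complex.mul_im, Complex.ofReal_re, Complex.ofReal_im]
    change z.im = (a * z.re + b * z.im) * b + 0 * a
    linear_combination (-z.im) * hu + a * h

/-- Index type of the special points. -/
private abbrev PtIdx : Type :=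
  Unit ⊕ ((Cell × ℕ) × Bool) ⊕ ((Cell × ℕ) × (Cell × ℕ))

/-- Special points. -/
private noncomputable def ptOf (h : ℝ) (f : Cell × ℕ → Mir) : PtIdx → ℂ
  | Sum.inl _ => 0
  | Sum.inr (Sum.inl (l, b)) => (f l).1 + (if b then h else -h) • dir (f l).2
  | Sum.inr (Sum.inr (l, l')) =>
      (f l).1 + hitS (f l') (f l).1 (dir (f l).2) • dir (f l).2

private theorem aenc_mem_seg {h : ℝ} {m : Mir} {q : ℂ} (hq : q ∈ seg h m) :
    q = m.1 + (dt (dir m.2) (q - m.1)) • dir m.2 := by
  have := aenc_decomp m.2 (q - m.1) hq.1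
  rw [← this]; ring

private theorem aenc_seg_of {h : ℝ} {m : Mir} {t : ℝ} (ht : |t| ≤ h) :
    m.1 + t • dir m.2 ∈ seg h m := by
  have hu := aenc_dir_unit m.2
  constructor
  · simp only [cr, add_sub_cancel_left, Complex.real_smul, Complex.mul_re, Complex.mul_im,
      Complex.ofReal_re, Complex.ofReal_im]
    ring
  · have : dt (dir m.2) (m.1 + t • dir m.2 - m.1) = t := by
      simp only [dt, add_sub_cancel_left, Complex.real_smul, Complex.mul_re, Complex.mul_im,
        Complex.ofReal_re, Complex.ofReal_im]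
      linear_combination t * hu
    rw [this]; exact ht

private theorem aenc_tip {h : ℝ} {m : Mir} {q : ℂ} (hq : q ∈ seg h m) (hq' : q ∉ oseg h m) :
    q = m.1 + h • dir m.2 ∨ q = m.1 + (-h) • dir m.2 := by
  have h1 := aenc_mem_seg hq
  have h2 : |dt (dir m.2) (q - m.1)| = h := by
    apply le_antisymm hq.2
    by_contra hlt
    exact hq' ⟨hq.1, not_le.mp hlt⟩
  rcases abs_choice (dt (dir m.2) (q - m.1)) with h3 | h3
  · left
    rw [h3] at h2
    rw [← h2]; exact h1
  · right
    rw [h3] at h2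
    have : dt (dir m.2) (q - m.1) = -h := by linarith
    rw [← this]; exact h1

private theorem aenc_cross {h : ℝ} {m m' : Mir} {q : ℂ} (hq : q ∈ seg h m) (hq' : q ∈ seg h m')
    (hc : cr (dir m'.2) (dir m.2) ≠ 0) :
    q = m.1 + hitS m' m.1 (dir m.2) • dir m.2 := by
  have h1 := aenc_mem_seg hq
  have h2 := hq'.1
  set t := dt (dir m.2) (q - m.1) with ht
  have h3 : cr (dir m'.2) (m'.1 - m.1) = t * cr (dir m'.2) (dir m.2) := by
    rw [h1] at h2
    simp only [cr, Complex.real_smul, Complex.mul_re, Complex.mul_im,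
      Complex.ofReal_re, Complex.ofReal_im, Complex.sub_re, Complex.sub_im, Complex.add_re,
      Complex.add_im] at h2 ⊢
    linear_combination -h2
  have h4 : hitS m' m.1 (dir m.2) = t := by
    unfold hitS
    rw [h3]; field_simp
  rw [h4]; exact h1

private theorem aenc_par {h : ℝ} (hh : 0 < h) {m m' : Mir} {q : ℂ} (hq : q ∈ seg h m)
    (hq' : q ∈ seg h m') (hc : cr (dir m'.2) (dir m.2) = 0)
    (hs : (seg h m ∩ seg h m').Subsingleton) : q ∉ oseg h m := by
  intro ho
  have h1 := aenc_mem_seg hq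
  have h2 := aenc_mem_seg hq'
  have hu := aenc_dir_unit m.2
  have hu' := aenc_dir_unit m'.2
  -- dir m.2 = c • dir m'.2 with |c| = 1
  have h5 := aenc_decomp m'.2 (dir m.2) hc
  set c := dt (dir m'.2) (dir m.2) with hcdef
  have hc2 : c ^ 2 = 1 := by
    have e1 : (dir m.2).re = c * (dir m'.2).re := by
      have := congrArg Complex.re h5
      simpa [Complex.real_smul] using this
    have e2 : (dir m.2).im = c * (dir m'.2).im := by
      have := congrArg Complex.im h5
      simpa [Complex.real_smul] using this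
    rw [e1, e2] at hu
    linear_combination hu - c ^ 2 * hu'
  set t := dt (dir m.2) (q - m.1) with ht
  set t' := dt (dir m'.2) (q - m'.1) with ht'
  have hto : |t| < h := ho.2
  have ht'h : |t'| ≤ h := hq'.2
  have hcabs : |c| = 1 := by
    have := sq_abs c
    have h0 := abs_nonneg c
    nlinarith
  -- choose ε
  obtain ⟨e, he0, he1, he2⟩ : ∃ e : ℝ, e ≠ 0 ∧ |t + e| ≤ h ∧ |t' + c * e| ≤ h := by
    rw [abs_lt] at hto
    rw [abs_le] at ht'h
    set d := min (min (h - t) (h + t)) h with hd
    have hd0 : 0 < d := by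
      apply lt_min (lt_min _ _) hh <;> linarith
    have hd1 : d ≤ h - t := le_trans (min_le_left _ _) (min_le_left _ _)
    have hd2 : d ≤ h + t := le_trans (min_le_left _ _) (min_le_right _ _)
    have hd3 : d ≤ h := min_le_right _ _
    have hc' : c = 1 ∨ c = -1 := by
      have : (c - 1) * (c + 1) = 0 := by linear_combination hc2
      rcases mul_eq_zero.mp this with h | h
      · left; linarith
      · right; linarith
    rcases le_total 0 t' with hp | hp
    · -- move so that t' decreases
      rcases hc' with hc' | hc'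
      · refine ⟨-d, by linarith, ?_, ?_⟩
        · rw [abs_le]; constructor <;> linarith
        · rw [hc', abs_le]; constructor <;> linarith
      · refine ⟨d, hd0.ne', ?_, ?_⟩
        · rw [abs_le]; constructor <;> linarith
        · rw [hc', abs_le]; constructor <;> linarith
    · rcases hc' with hc' | hc'
      · refine ⟨d, hd0.ne', ?_, ?_⟩
        · rw [abs_le]; constructor <;> linarith
        · rw [hc', abs_le]; constructor <;> linarith
      · refine ⟨-d, by linarith, ?_, ?_⟩
        · rw [abs_le]; constructor <;> linarith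
        · rw [hc', abs_le]; constructor <;> linarith
  have hA : q + e • dir m.2 ∈ seg h m := by
    have : q + e • dir m.2 = m.1 + (t + e) • dir m.2 := by
      rw [add_smul, ← add_assoc, ← h1]
    rw [this]; exact aenc_seg_of he1
  have hB : q + e • dir m.2 ∈ seg h m' := by
    have : q + e • dir m.2 = m'.1 + (t' + c * e) • dir m'.2 := by
      rw [add_smul, ← add_assoc, ← h2]
      congr 1
      rw [h5, smul_smul, mul_comm]
    rw [this]; exact aenc_seg_of he2
  have hCC := hs ⟨hA, hB⟩ ⟨hq, hq'⟩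
  have hz : e • dir m.2 = 0 := by
    have : q + e • dir m.2 = q + 0 := by rw [hCC, add_zero]
    exact add_left_cancel this
  rcases smul_eq_zero.mp hz with h | h
  · exact he0 h
  · rw [h] at hu
    simp at hu

private theorem aenc_point {h : ℝ} (hh : 0 < h) (f : Cell × ℕ → Mir) {M : Set Mir}
    (hM : ∀ m ∈ M, ∃ l, f l = m) (hov : NoOv h M) {q : ℂ} (hq : q ∈ insert 0 (Sg h M)) :
    ∃ a : PtIdx, q = ptOf h f a := by
  have tip : ∀ m ∈ M, q ∈ seg h m → q ∉ oseg h m → ∃ a : PtIdx, q = ptOf h f a := by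
    intro m hm h1 h2
    obtain ⟨l, rfl⟩ := hM m hm
    rcases aenc_tip h1 h2 with h3 | h3
    · exact ⟨Sum.inr (Sum.inl (l, true)), by simpa [ptOf] using h3⟩
    · exact ⟨Sum.inr (Sum.inl (l, false)), by simpa [ptOf] using h3⟩
  rcases hq with hq | hq | hq
  · exact ⟨Sum.inl (), by simpa [ptOf] using hq⟩
  · obtain ⟨m, hm, h1, h2⟩ := hq
    exact tip m hm h1 h2
  · obtain ⟨m, hm, m', hm', hne, h1, h2⟩ := hq
    by_cases hc : cr (dir m'.2) (dir m.2) = 0
    · exact tip m hm h1 (aenc_par hh h1 h2 hc (hov m hm m' hm' hne))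
    · obtain ⟨l, rfl⟩ := hM m hm
      obtain ⟨l', rfl⟩ := hM m' hm'
      exact ⟨Sum.inr (Sum.inr (l, l')), aenc_cross h1 h2 hc⟩

private theorem aenc_list {M : Set Mir} (f : Cell × ℕ → Mir) (hM : ∀ m ∈ M, ∃ l, f l = m)
    (L : List Mir) (hL : ∀ m ∈ L, m ∈ M) : ∃ Λ : List (Cell × ℕ), L = Λ.map f := by
  induction L with
  | nil => exact ⟨[], rfl⟩
  | cons m L ih =>
    obtain ⟨Λ, hΛ⟩ := ih (fun m' hm' => hL m' (List.mem_cons_of_mem _ hm'))
    obtain ⟨l, hl⟩ := hM m (hL m List.mem_cons_self)
    exact ⟨l :: Λ, by simp [hl, hΛ]⟩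

/-! ### Measurability -/

private theorem meas_dir : Measurable dir := by
  have : dir = fun θ : ℝ => ((Real.cos θ : ℝ) : ℂ) + ((Real.sin θ : ℝ) : ℂ) * Complex.I := by
    funext θ
    apply Complex.ext
    · simp only [dir, Complex.add_re, Complex.ofReal_re, Complex.mul_re, Complex.I_re,
        Complex.ofReal_im, Complex.I_im]
      ring
    · simp only [dir, Complex.add_im, Complex.ofReal_im, Complex.mul_im, Complex.I_re,
        Complex.ofReal_re, Complex.I_im]
      ring
  rw [this]
  fun_prop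

private theorem meas_mir (l : Cell × ℕ) : Measurable fun ω : Om => mir ω l := by
  have h1 : Measurable fun ω : Om => (ω l.1).2 l.2 := by
    exact (measurable_pi_apply l.2).comp (measurable_snd.comp (measurable_pi_apply l.1))
  have h2 : (fun ω : Om => mir ω l) = fun ω : Om =>
      (((sd * (l.1.1 + (((ω l.1).2 l.2).1.1 : ℝ)) : ℝ) : ℂ) +
        ((sd * (l.1.2 + (((ω l.1).2 l.2).1.2 : ℝ)) : ℝ) : ℂ) * Complex.I,
        ((ω l.1).2 l.2).2) := by
    funext ω
    unfold mir
    congr 1
    apply Complex.ext <;> simp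
  rw [h2]
  have h3 : Measurable fun ω : Om => (((ω l.1).2 l.2).1.1 : ℝ) :=
    measurable_subtype_coe.comp (measurable_fst.comp (measurable_fst.comp h1))
  have h4 : Measurable fun ω : Om => (((ω l.1).2 l.2).1.2 : ℝ) :=
    measurable_subtype_coe.comp (measurable_snd.comp (measurable_fst.comp h1))
  have h5 : Measurable fun ω : Om => ((ω l.1).2 l.2).2 := measurable_snd.comp h1
  refine Measurable.prodMk ?_ h5
  fun_prop

private theorem meas_rl {Ω : Type*} [MeasurableSpace Ω] {m : Ω → Mir} {v : Ω → ℂ}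
    (hm : Measurable m) (hv : Measurable v) : Measurable fun ω => rl (m ω) (v ω) := by
  unfold rl
  have h1 : Measurable fun ω => dir (m ω).2 := meas_dir.comp (measurable_snd.comp hm)
  have h2 : Measurable fun ω => (starRingEnd ℂ) (v ω) :=
    (Complex.continuous_conj.measurable).comp hv
  exact (h1.pow_const 2).mul h2

private theorem meas_rf {Ω : Type*} [MeasurableSpace Ω] {m : Ω → Mir} {v : Ω → ℂ}
    (hm : Measurable m) (hv : Measurable v) : Measurable fun ω => rf (m ω) (v ω) := by
  unfold rf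
  have h0 : Measurable fun ω => (m ω).1 := measurable_fst.comp hm
  exact h0.add (meas_rl hm (hv.sub h0))

private theorem meas_unf (Λ : List (Cell × ℕ)) : ∀ z : Om → ℂ, Measurable z →
    Measurable fun ω => unf (Λ.map (mir ω)) (z ω) := by
  induction Λ with
  | nil => intro z hz; simpa [unf] using hz
  | cons l Λ ih =>
    intro z hz
    simp only [List.map_cons, unf]
    exact ih (fun ω => rf (mir ω l) (z ω)) (meas_rf (meas_mir l) hz)

private theorem meas_lin (Λ : List (Cell × ℕ)) : ∀ z : Om → ℂ, Measurable z →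
    Measurable fun ω => lin (Λ.map (mir ω)) (z ω) := by
  induction Λ with
  | nil => intro z hz; simpa [lin] using hz
  | cons l Λ ih =>
    intro z hz
    simp only [List.map_cons, lin]
    exact ih (fun ω => rl (mir ω l) (z ω)) (meas_rl (meas_mir l) hz)

private theorem meas_cr {Ω : Type*} [MeasurableSpace Ω] {a b : Ω → ℂ}
    (ha : Measurable a) (hb : Measurable b) : Measurable fun ω => cr (a ω) (b ω) := by
  unfold cr
  exact ((Complex.measurable_re.comp ha).mul (Complex.measurable_im.comp hb)).sub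
    ((Complex.measurable_im.comp ha).mul (Complex.measurable_re.comp hb))

private theorem meas_pt (h : ℝ) (a : PtIdx) : Measurable fun ω : Om => ptOf h (mir ω) a := by
  rcases a with a | ⟨l, b⟩ | ⟨l, l'⟩
  · simp only [ptOf]; exact measurable_const
  · simp only [ptOf]
    have h1 := meas_mir l
    have h2 : Measurable fun ω : Om => dir (mir ω l).2 := meas_dir.comp (measurable_snd.comp h1)
    exact (measurable_fst.comp h1).add (h2.const_smul (if b = true then h else -h))
  · simp only [ptOf]
    have h1 := meas_mir l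
    have h1' := meas_mir l'
    have h2 : Measurable fun ω : Om => dir (mir ω l).2 := meas_dir.comp (measurable_snd.comp h1)
    have h2' : Measurable fun ω : Om => dir (mir ω l').2 :=
      meas_dir.comp (measurable_snd.comp h1')
    have h3 : Measurable fun ω : Om => hitS (mir ω l') (mir ω l).1 (dir (mir ω l).2) := by
      unfold hitS
      exact (meas_cr h2' ((measurable_fst.comp h1').sub (measurable_fst.comp h1))).div
        (meas_cr h2' h2)
    exact (measurable_fst.comp h1).add (h3.smul h2)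

/-- Index of the difference vectors. -/
private abbrev DIdx : Type :=
  List (Cell × ℕ) × List (Cell × ℕ) × List (Cell × ℕ) × PtIdx × PtIdx

private noncomputable def dOf (a : DIdx) (ω : Om) : ℂ :=
  lin (a.2.2.1.map (mir ω)) (unf (a.1.map (mir ω)) (ptOf hl (mir ω) a.2.2.2.1) -
    unf (a.2.1.map (mir ω)) (ptOf hl (mir ω) a.2.2.2.2))

private theorem meas_dOf (a : DIdx) : Measurable (dOf a) := by
  unfold dOf
  exact meas_lin _ _ ((meas_unf _ _ (meas_pt _ _)).sub (meas_unf _ _ (meas_pt _ _)))

private instance aenc_prob_cell (μ : Measure ℝ) [IsProbabilityMeasure μ] :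
    IsProbabilityMeasure (cellLaw μ) := by
  unfold cellLaw ptLaw
  infer_instance

private instance aenc_prob (μ : Measure ℝ) [IsProbabilityMeasure μ] :
    IsProbabilityMeasure (PP μ) := by
  unfold PP
  infer_instance

theorem exists_countable_nc_of (μ : Measure ℝ) [IsProbabilityMeasure μ]
    (hnoov : ∀ᵐ ω ∂(PP μ), NoOv hl (conf ω)) :
    ∃ C : Set ℂ, C.Countable ∧ ∀ u : ℂ, ‖u‖ = 1 → u ∉ C →
      ∀ᵐ ω ∂(PP μ), NC hl (conf ω) u := by
  let g : DIdx → Om → ℂ := fun a ω => ((‖dOf a ω‖⁻¹ : ℝ) : ℂ) * dOf a ω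
  have hg : ∀ a, Measurable (g a) := fun a =>
    (Complex.measurable_ofReal.comp (meas_dOf a).norm.inv).mul (meas_dOf a)
  refine ⟨⋃ a : DIdx, {t | 0 < PP μ {ω | g a ω = t}}, ?_, ?_⟩
  · exact countable_iUnion fun a => Measure.countable_meas_level_set_pos (hg a)
  · intro u hu huC
    have h1 : ∀ a, PP μ {ω | g a ω = u} = 0 := by
      intro a
      by_contra h
      exact huC (mem_iUnion.mpr ⟨a, pos_iff_ne_zero.mpr h⟩)
    have h2 : ∀ᵐ ω ∂(PP μ), ∀ a, g a ω ≠ u := by
      rw [ae_all_iff]
      intro a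
      rw [ae_iff]
      simpa using h1 a
    filter_upwards [h2, hnoov] with ω hω hov
    intro L₁ L₂ L₃ hL₁ hL₂ hL₃ q hq q' hq' s hs heq
    have hM : ∀ m ∈ conf ω, ∃ l, mir ω l = m := by
      rintro m ⟨l, _, rfl⟩
      exact ⟨l, rfl⟩
    have hhl : 0 < hl := by unfold hl sd; norm_num
    obtain ⟨Λ₁, rfl⟩ := aenc_list (mir ω) hM L₁ hL₁
    obtain ⟨Λ₂, rfl⟩ := aenc_list (mir ω) hM L₂ hL₂
    obtain ⟨Λ₃, rfl⟩ := aenc_list (mir ω) hM L₃ hL₃
    obtain ⟨a, rfl⟩ := aenc_point hhl (mir ω) hM hov hq
    obtain ⟨a', rfl⟩ := aenc_point hhl (mir ω) hM hov hq'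
    apply hω (Λ₁, Λ₂, Λ₃, a, a')
    have h3 : dOf (Λ₁, Λ₂, Λ₃, a, a') ω = s • u := heq
    change ((‖dOf (Λ₁, Λ₂, Λ₃, a, a') ω‖⁻¹ : ℝ) : ℂ) * dOf (Λ₁, Λ₂, Λ₃, a, a') ω = u
    rw [h3, norm_smul, hu, mul_one, Real.norm_of_nonneg hs.le, Complex.real_smul, ← mul_assoc,
      ← Complex.ofReal_mul, inv_mul_cancel₀ hs.ne']
    simp

end Pool.Agent.Lib.MP_3309cd_pr
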