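import Pool.Agent.Lib.MP_3309cd_pr.Defs

namespace Pool.Agent.Lib.MP_3309cd_pr

open MeasureTheory ProbabilityTheory Set Filter Topology

/-! ### Resampling one coordinate -/

theorem asr_pi {ι : Type*} [DecidableEq ι] {X : ι → Type*} [∀ i, MeasurableSpace (X i)]
    {Y : Type*} [MeasurableSpace Y] (μ : ∀ i, Measure (X i)) [∀ i, IsProbabilityMeasure (μ i)]
    (ν : Measure Y) [IsProbabilityMeasure ν] (i : ι) (T : X i × Y → X i)
    (hT : MeasurePreserving T ((μ i).prod ν) (μ i)) :
    MeasurePreserving (fun p : (∀ i, X i) × Y => Function.update p.1 i (T (p.1 i, p.2)))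
      ((Measure.infinitePi μ).prod ν) (Measure.infinitePi μ) := by
  have hm : Measurable (fun p : (∀ i, X i) × Y => Function.update p.1 i (T (p.1 i, p.2))) := by
    refine measurable_pi_lambda _ fun j => ?_
    by_cases h : j = i
    · subst h
      simp only [Function.update_self]
      exact hT.measurable.comp
        (((measurable_pi_apply j).comp measurable_fst).prodMk measurable_snd)
    · simp only [Function.update_of_ne h]
      exact (measurable_pi_apply j).comp measurable_fst
  refine ⟨hm, Measure.eq_infinitePi μ fun s t ht => ?_⟩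
  have hs : MeasurableSet (Set.pi (s : Set ι) t) :=
    MeasurableSet.pi s.countable_toSet fun j _ => ht j
  rw [Measure.map_apply hm hs, Measure.prod_apply_symm (hm hs)]
  have hsec : ∀ y : Y, MeasurableSet {x : X i | T (x, y) ∈ t i} := fun y =>
    (hT.measurable.comp measurable_prodMk_right) (ht i)
  have key : ∀ y : Y, (Measure.infinitePi μ) ((fun x => (x, y)) ⁻¹'
      ((fun p : (∀ i, X i) × Y => Function.update p.1 i (T (p.1 i, p.2))) ⁻¹'
        (Set.pi (s : Set ι) t))) =
      ∏ j ∈ s, μ j ((Function.update t i {x : X i | T (x, y) ∈ t i}) j) := by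
    intro y
    rw [← Measure.infinitePi_pi]
    · congr 1
      ext x
      simp only [Set.mem_preimage, Set.mem_pi]
      refine forall_congr' fun j => ?_
      refine imp_congr_right fun hj => ?_
      by_cases h : j = i
      · subst h
        simp
      · simp [Function.update_of_ne h]
    · intro j _
      by_cases h : j = i
      · subst h
        simpa using hsec y
      · simpa [Function.update_of_ne h] using ht j
  simp_rw [key]
  by_cases hi : i ∈ s
  · have h1 : ∀ y : Y, ∏ j ∈ s, μ j ((Function.update t i {x : X i | T (x, y) ∈ t i}) j) =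
        μ i {x : X i | T (x, y) ∈ t i} * ∏ j ∈ s.erase i, μ j (t j) := by
      intro y
      rw [← Finset.mul_prod_erase s _ hi]
      congr 1
      · simp
      · refine Finset.prod_congr rfl fun j hj => ?_
        rw [Function.update_of_ne (Finset.ne_of_mem_erase hj)]
    simp_rw [h1]
    rw [lintegral_mul_const', ← Finset.mul_prod_erase s _ hi]
    · congr 1
      rw [← hT.measure_preimage (ht i).nullMeasurableSet,
        Measure.prod_apply_symm (hT.measurable (ht i))]
      rfl
    · refine ne_of_lt (lt_of_le_of_lt (Finset.prod_le_one' fun j _ => prob_le_one) ENNReal.one_lt_top)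
  · have h1 : ∀ y : Y, ∏ j ∈ s, μ j ((Function.update t i {x : X i | T (x, y) ∈ t i}) j) =
        ∏ j ∈ s, μ j (t j) := by
      intro y
      refine Finset.prod_congr rfl fun j hj => ?_
      rw [Function.update_of_ne]
      rintro rfl
      exact hi hj
    simp_rw [h1]
    simp

/-- Act on the first component. -/
theorem asr_fst {X Z Y : Type*} [MeasurableSpace X] [MeasurableSpace Z] [MeasurableSpace Y]
    {μ : Measure X} [SFinite μ] {τ : Measure Z} [SFinite τ] {ν : Measure Y} [SFinite ν]
    {T : X × Y → X} (hT : MeasurePreserving T (μ.prod ν) μ) :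
    MeasurePreserving (fun p : (X × Z) × Y => (T (p.1.1, p.2), p.1.2))
      ((μ.prod τ).prod ν) (μ.prod τ) := by
  have h1 : MeasurePreserving (MeasurableEquiv.prodAssoc : (X × Z) × Y ≃ᵐ X × (Z × Y))
      ((μ.prod τ).prod ν) (μ.prod (τ.prod ν)) :=
    ⟨MeasurableEquiv.prodAssoc.measurable, Measure.prodAssoc_prod⟩
  have h2 : MeasurePreserving (Prod.map id Prod.swap : X × (Z × Y) → X × (Y × Z))
      (μ.prod (τ.prod ν)) (μ.prod (ν.prod τ)) :=
    (MeasurePreserving.id μ).prod Measure.measurePreserving_swap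
  have h3 : MeasurePreserving (MeasurableEquiv.prodAssoc.symm : X × (Y × Z) ≃ᵐ (X × Y) × Z)
      (μ.prod (ν.prod τ)) ((μ.prod ν).prod τ) :=
    MeasurePreserving.symm (MeasurableEquiv.prodAssoc : (X × Y) × Z ≃ᵐ X × (Y × Z))
      ⟨MeasurableEquiv.prodAssoc.measurable, Measure.prodAssoc_prod⟩
  exact ((hT.prod (MeasurePreserving.id τ)).comp h3).comp (h2.comp h1)

/-- Act on the second component. -/
theorem asr_snd {X Z Y : Type*} [MeasurableSpace X] [MeasurableSpace Z] [MeasurableSpace Y]
    {μ : Measure X} [SFinite μ] {τ : Measure Z} [SFinite τ] {ν : Measure Y} [SFinite ν]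
    {T : X × Y → X} (hT : MeasurePreserving T (μ.prod ν) μ) :
    MeasurePreserving (fun p : (Z × X) × Y => (p.1.1, T (p.1.2, p.2)))
      ((τ.prod μ).prod ν) (τ.prod μ) := by
  have h1 : MeasurePreserving (MeasurableEquiv.prodAssoc : (Z × X) × Y ≃ᵐ Z × (X × Y))
      ((τ.prod μ).prod ν) (τ.prod (μ.prod ν)) :=
    ⟨MeasurableEquiv.prodAssoc.measurable, Measure.prodAssoc_prod⟩
  exact ((MeasurePreserving.id τ).prod hT).comp h1

/-- Resample one of the two coordinates of a point of the unit square. -/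
def asr_T (a : Bool) (p : (unitInterval × unitInterval) × unitInterval) :
    unitInterval × unitInterval :=
  match a with
  | true => (p.2, p.1.2)
  | false => (p.1.1, p.2)

theorem asr_T_mp (a : Bool) : MeasurePreserving (asr_T a)
    ((volume : Measure (unitInterval × unitInterval)).prod (volume : Measure unitInterval))
    (volume : Measure (unitInterval × unitInterval)) := by
  have h : MeasurePreserving (Prod.snd : unitInterval × unitInterval → unitInterval)
      ((volume : Measure unitInterval).prod (volume : Measure unitInterval))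
      (volume : Measure unitInterval) := measurePreserving_snd
  cases a
  · exact asr_snd (τ := (volume : Measure unitInterval)) h
  · exact asr_fst (τ := (volume : Measure unitInterval)) h

/-- Resample one coordinate of the point with label `l`. -/
def asr_upd (l : Cell × ℕ) (a : Bool) (p : Om × unitInterval) : Om :=
  Function.update p.1 l.1 ((p.1 l.1).1, Function.update (p.1 l.1).2 l.2
    (asr_T a (((p.1 l.1).2 l.2).1, p.2), ((p.1 l.1).2 l.2).2))

instance asr_ptLaw_prob (μ : Measure ℝ) [IsProbabilityMeasure μ] :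
    IsProbabilityMeasure (ptLaw μ) := by
  unfold ptLaw; infer_instance

theorem asr_poisson_prob (r : NNReal) : IsProbabilityMeasure (poissonMeasure r) := inferInstance

instance asr_cellLaw_prob (μ : Measure ℝ) [IsProbabilityMeasure μ] :
    IsProbabilityMeasure (cellLaw μ) := by
  have := asr_poisson_prob ⟨sd ^ 2, sq_nonneg sd⟩
  unfold cellLaw; infer_instance

theorem asr_upd_mp (μ : Measure ℝ) [IsProbabilityMeasure μ] (l : Cell × ℕ) (a : Bool) :
    MeasurePreserving (asr_upd l a) ((PP μ).prod (volume : Measure unitInterval)) (PP μ) := by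
  have h1 : MeasurePreserving
      (fun p : ((unitInterval × unitInterval) × ℝ) × unitInterval =>
        (asr_T a (p.1.1, p.2), p.1.2))
      ((ptLaw μ).prod (volume : Measure unitInterval)) (ptLaw μ) :=
    asr_fst (τ := μ) (asr_T_mp a)
  have h2 := asr_pi (fun _ : ℕ => ptLaw μ) (volume : Measure unitInterval) l.2 _ h1
  have := asr_poisson_prob ⟨sd ^ 2, sq_nonneg sd⟩
  have h3 := asr_snd (τ := poissonMeasure ⟨sd ^ 2, sq_nonneg sd⟩) h2
  exact asr_pi (fun _ : Cell => cellLaw μ) (volume : Measure unitInterval) l.1 _ h3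

/-- Coordinates. -/
noncomputable def asr_U (l : Cell × ℕ) (a : Bool) (ω : Om) : ℝ :=
  match a with
  | true => (((ω l.1).2 l.2).1.1 : ℝ)
  | false => (((ω l.1).2 l.2).1.2 : ℝ)

/-- Unit vectors. -/
noncomputable def asr_e (a : Bool) : ℂ :=
  match a with
  | true => 1
  | false => Complex.I

theorem asr_upd_ang (l : Cell × ℕ) (a : Bool) (ω : Om) (x : unitInterval) (l' : Cell × ℕ) :
    (mir (asr_upd l a (ω, x)) l').2 = (mir ω l').2 := by
  by_cases h1 : l'.1 = l.1
  · by_cases h2 : l'.2 = l.2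
    · simp [mir, asr_upd, h1, h2]
    · simp [mir, asr_upd, h1, h2]
  · simp [mir, asr_upd, h1]

theorem asr_upd_ctr (l : Cell × ℕ) (a : Bool) (ω : Om) (x : unitInterval) :
    (fun l' => (mir (asr_upd l a (ω, x)) l').1) =
      (fun l' => (mir ω l').1) + (sd * ((x : ℝ) - asr_U l a ω)) •
        (Pi.single l (asr_e a) : Cell × ℕ → ℂ) := by
  funext l'
  by_cases h1 : l' = l
  · subst h1
    cases a
    · apply Complex.ext
      · simp [mir, asr_upd, asr_e, asr_T, asr_U]
      · simp [mir, asr_upd, asr_e, asr_T, asr_U]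
        ring
    · apply Complex.ext
      · simp [mir, asr_upd, asr_e, asr_T, asr_U]
        ring
      · simp [mir, asr_upd, asr_e, asr_T, asr_U]
  · have h3 : (mir (asr_upd l a (ω, x)) l').1 = (mir ω l').1 := by
      by_cases h1' : l'.1 = l.1
      · by_cases h2 : l'.2 = l.2
        · exact absurd (Prod.ext h1' h2) h1
        · simp [mir, asr_upd, h1', h2]
      · simp [mir, asr_upd, h1']
    simp [h3, Pi.single_eq_of_ne h1]

/-! ### The null lemma -/

theorem asr_null (μ : Measure ℝ) [IsProbabilityMeasure μ] (l : Cell × ℕ) (a : Bool)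
    {H : (Cell × ℕ → ℂ) → (Cell × ℕ → ℝ) → ℝ} {K : (Cell × ℕ → ℝ) → ℝ}
    (hH : ∀ c θ (t : ℝ), H (c + t • (Pi.single l (asr_e a) : Cell × ℕ → ℂ)) θ =
      H c θ + t * K θ)
    (mH : Measurable fun ω : Om => H (fun l' => (mir ω l').1) (fun l' => (mir ω l').2))
    (mK : Measurable fun ω : Om => K (fun l' => (mir ω l').2)) :
    ∀ᵐ ω ∂(PP μ), H (fun l' => (mir ω l').1) (fun l' => (mir ω l').2) = 0 →
      K (fun l' => (mir ω l').2) = 0 := by
  set b : Om → ℝ := fun ω => H (fun l' => (mir ω l').1) (fun l' => (mir ω l').2) with hb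
  set B : Om → ℝ := fun ω => K (fun l' => (mir ω l').2) with hB
  have hang : ∀ ω x, (fun l' => (mir (asr_upd l a (ω, x)) l').2) = fun l' => (mir ω l').2 :=
    fun ω x => funext fun l' => asr_upd_ang l a ω x l'
  have hbu : ∀ ω x, b (asr_upd l a (ω, x)) =
      b ω + (sd * ((x : ℝ) - asr_U l a ω)) * B ω := by
    intro ω x
    simp only [hb, hB]
    rw [asr_upd_ctr, hH, hang]
  have hBu : ∀ ω x, B (asr_upd l a (ω, x)) = B ω := by
    intro ω x
    simp only [hB]
    rw [hang]
  have hmeas : MeasurableSet {ω | b ω = 0 ∧ B ω ≠ 0} :=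
    (measurableSet_eq_fun mH measurable_const).inter
      (measurableSet_eq_fun mK measurable_const).compl
  have h0 : PP μ {ω | b ω = 0 ∧ B ω ≠ 0} = 0 := by
    rw [← (asr_upd_mp μ l a).measure_preimage hmeas.nullMeasurableSet,
      Measure.measure_prod_null ((asr_upd_mp μ l a).measurable hmeas)]
    filter_upwards with ω
    refine Set.Subsingleton.measure_zero ?_ _
    intro x hx y hy
    simp only [mem_preimage, mem_ofPred_eq, hbu, hBu] at hx hy
    have hsd : sd ≠ 0 := by unfold sd; norm_num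
    have h1 : (sd * ((x : ℝ) - y)) * B ω = 0 := by linarith [hx.1, hy.1]
    have h2 : (x : ℝ) - y = 0 := by
      rcases mul_eq_zero.1 h1 with h | h
      · rcases mul_eq_zero.1 h with h | h
        · exact absurd h hsd
        · exact h
      · exact absurd h hx.2
    exact Subtype.ext (sub_eq_zero.1 h2)
  have h1 : ∀ᵐ ω ∂(PP μ), ω ∉ {ω | b ω = 0 ∧ B ω ≠ 0} := measure_eq_zero_iff_ae_notMem.1 h0
  filter_upwards [h1] with ω hω hbω
  by_contra hne
  exact hω ⟨hbω, hne⟩

/-! ### Affine functions of the centres -/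

structure asr_Aff (F : Finset (Cell × ℕ)) (g : (Cell × ℕ → ℂ) → ℂ) : Prop where
  lin : ∀ (c c' : Cell × ℕ → ℂ) (t : ℝ), g (c + t • c') = g c + t • (g c' - g 0)
  tr : ∀ (c : Cell × ℕ → ℂ) (w : ℂ), g (fun l => c l + w) = g c + w
  dep : ∀ c c' : Cell × ℕ → ℂ, (∀ l ∈ F, c l = c' l) → g c = g c'

theorem asr_Aff_absurd {F : Finset (Cell × ℕ)} {g : (Cell × ℕ → ℂ) → ℂ} (hg : asr_Aff F g)
    {u : ℂ} (hu : ‖u‖ = 1)
    (h : ∀ l ∈ F, ∀ a, cr u (g (Pi.single l (asr_e a)) - g 0) = 0) : False := by
  have hadd : ∀ (c c' : Cell × ℕ → ℂ) (t : ℝ), cr u (g (c + t • c') - g 0) =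
      cr u (g c - g 0) + t * cr u (g c' - g 0) := by
    intro c c' t
    rw [hg.lin]
    simp [cr]
    ring
  have hsing : ∀ l ∈ F, ∀ w : ℂ, cr u (g (Pi.single l w) - g 0) = 0 := by
    intro l hl w
    have h1 : (Pi.single l w : Cell × ℕ → ℂ) =
        (0 + w.re • (Pi.single l (asr_e true) : Cell × ℕ → ℂ)) +
          w.im • (Pi.single l (asr_e false) : Cell × ℕ → ℂ) := by
      funext l'
      by_cases h : l' = l
      · subst h
        apply Complex.ext <;> simp [asr_e]
      · simp [Pi.single_eq_of_ne h]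
    rw [h1, hadd, hadd, h l hl true, h l hl false]
    simp [cr]
  have hF : ∀ F' : Finset (Cell × ℕ), F' ⊆ F → ∀ w : ℂ,
      cr u (g (fun l => if l ∈ F' then w else 0) - g 0) = 0 := by
    intro F'
    induction F' using Finset.induction_on with
    | empty =>
      intro _ w
      have : (fun l : Cell × ℕ => if l ∈ (∅ : Finset (Cell × ℕ)) then w else 0) = 0 := by
        funext l; simp
      rw [this]
      simp [cr]
    | insert l F' hl ih =>
      intro hsub w
      have h1 : (fun l' : Cell × ℕ => if l' ∈ insert l F' then w else 0) =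
          (fun l' => if l' ∈ F' then w else 0) + (1 : ℝ) • (Pi.single l w : Cell × ℕ → ℂ) := by
        funext l'
        by_cases h : l' = l
        · subst h
          simp [hl]
        · simp [h]
      rw [h1, hadd, ih (fun x hx => hsub (Finset.mem_insert_of_mem hx)),
        hsing l (hsub (Finset.mem_insert_self l F'))]
      simp
  have h2 : g (fun l => if l ∈ F then u * Complex.I else 0) =
      g (fun l => (0 : Cell × ℕ → ℂ) l + u * Complex.I) :=
    hg.dep _ _ fun l hl => by simp [hl]
  have h3 := hF F subset_rfl (u * Complex.I)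
  rw [h2, hg.tr] at h3
  have h4 : u.re ^ 2 + u.im ^ 2 = 1 := by
    have h5 : Complex.normSq u = 1 := by rw [Complex.normSq_eq_norm_sq, hu]; norm_num
    rw [Complex.normSq_apply] at h5
    nlinarith [h5]
  simp [cr] at h3
  nlinarith [h3, h4]

theorem asr_Aff_rf {F : Finset (Cell × ℕ)} {g : (Cell × ℕ → ℂ) → ℂ} (hg : asr_Aff F g)
    {l : Cell × ℕ} (hl : l ∈ F) (θ : ℝ) : asr_Aff F (fun c => rf (c l, θ) (g c)) := by
  constructor
  · intro c c' t
    simp only [rf, rl, hg.lin c c' t, Pi.add_apply, Pi.smul_apply, Pi.zero_apply,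
      Complex.real_smul, map_add, map_sub, map_mul, map_zero, Complex.conj_ofReal]
    ring
  · intro c w
    simp only [rf, rl, hg.tr c w, map_add, map_sub]
    ring
  · intro c c' h
    simp only [rf, rl, hg.dep c c' h, h l hl]

theorem asr_Aff_unf {F : Finset (Cell × ℕ)} (θ : Cell × ℕ → ℝ) (Λ : List (Cell × ℕ)) :
    ∀ {g : (Cell × ℕ → ℂ) → ℂ}, asr_Aff F g → (∀ l ∈ Λ, l ∈ F) →
      asr_Aff F (fun c => unf (Λ.map fun l => (c l, θ l)) (g c)) := by
  induction Λ with
  | nil => intro g hg _; exact hg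
  | cons l Λ ih =>
    intro g hg hΛ
    exact ih (asr_Aff_rf hg (hΛ l (by simp)) (θ l)) fun l' hl' => hΛ l' (by simp [hl'])

/-- Singular points. -/
noncomputable def asr_pt (σ : ((Cell × ℕ) × Bool) ⊕ ((Cell × ℕ) × (Cell × ℕ)))
    (c : Cell × ℕ → ℂ) (θ : Cell × ℕ → ℝ) : ℂ :=
  match σ with
  | Sum.inl (l, true) => c l + hl • dir (θ l)
  | Sum.inl (l, false) => c l + (-hl) • dir (θ l)
  | Sum.inr (l, l') => c l +
      (cr (dir (θ l')) (c l' - c l) / cr (dir (θ l')) (dir (θ l))) • dir (θ l)

/-- Labels of a singular point. -/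
def asr_F (σ : ((Cell × ℕ) × Bool) ⊕ ((Cell × ℕ) × (Cell × ℕ))) : Finset (Cell × ℕ) :=
  match σ with
  | Sum.inl (l, _) => {l}
  | Sum.inr (l, l') => {l, l'}

theorem asr_Aff_pt (σ : ((Cell × ℕ) × Bool) ⊕ ((Cell × ℕ) × (Cell × ℕ)))
    (θ : Cell × ℕ → ℝ) {F : Finset (Cell × ℕ)} (hF : asr_F σ ⊆ F) :
    asr_Aff F (fun c => asr_pt σ c θ) := by
  have h1 : ∀ (l : Cell × ℕ) (k : ℂ), l ∈ F → asr_Aff F (fun c => c l + k) := by
    intro l k hl
    constructor
    · intro c c' t
      simp only [Pi.add_apply, Pi.smul_apply, Pi.zero_apply, Complex.real_smul]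
      ring
    · intro c w
      ring
    · intro c c' h
      simp only [h l hl]
  match σ with
  | Sum.inl (l, true) => exact h1 l _ (hF (by simp [asr_F]))
  | Sum.inl (l, false) => exact h1 l _ (hF (by simp [asr_F]))
  | Sum.inr (l, l') =>
    have hl : l ∈ F := hF (by simp [asr_F])
    have hl' : l' ∈ F := hF (by simp [asr_F])
    constructor
    · intro c c' t
      have e1 : (c + t • c') l' - (c + t • c') l = (c l' - c l) + t • (c' l' - c' l) := by
        simp only [Pi.add_apply, Pi.smul_apply]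
        module
      have e2 : cr (dir (θ l')) ((c l' - c l) + t • (c' l' - c' l)) =
          cr (dir (θ l')) (c l' - c l) + t * cr (dir (θ l')) (c' l' - c' l) := by
        simp [cr]
        ring
      have e3 : cr (dir (θ l')) ((0 : Cell × ℕ → ℂ) l' - (0 : Cell × ℕ → ℂ) l) = 0 := by
        simp [cr]
      simp only [asr_pt]
      rw [e1, e2, e3, add_div, zero_div, mul_div_assoc]
      simp only [Pi.add_apply, Pi.smul_apply, Pi.zero_apply]
      module
    · intro c w
      simp only [asr_pt, cr, add_sub_add_right_eq_sub]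
      ring
    · intro c c' h
      simp only [asr_pt, h l hl, h l' hl']

/-! ### Measurability -/

theorem asr_meas_dir {f : Om → ℝ} (hf : Measurable f) : Measurable fun ω => dir (f ω) := by
  exact Complex.measurableEquivRealProd.symm.measurable.comp
    ((Real.measurable_cos.comp hf).prodMk (Real.measurable_sin.comp hf))

theorem asr_meas_cr {f g : Om → ℂ} (hf : Measurable f) (hg : Measurable g) :
    Measurable fun ω => cr (f ω) (g ω) := by
  unfold cr
  exact ((Complex.measurable_re.comp hf).mul (Complex.measurable_im.comp hg)).sub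
    ((Complex.measurable_im.comp hf).mul (Complex.measurable_re.comp hg))

theorem asr_meas_rf {c z : Om → ℂ} {θ : Om → ℝ} (hc : Measurable c) (hz : Measurable z)
    (hθ : Measurable θ) : Measurable fun ω => rf (c ω, θ ω) (z ω) := by
  unfold rf rl
  exact hc.add (((asr_meas_dir hθ).pow_const 2).mul
    (Complex.continuous_conj.measurable.comp (hz.sub hc)))

theorem asr_meas_unf {C : Om → Cell × ℕ → ℂ} {Θ : Om → Cell × ℕ → ℝ}
    (hC : ∀ l, Measurable fun ω => C ω l) (hΘ : ∀ l, Measurable fun ω => Θ ω l)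
    (Λ : List (Cell × ℕ)) : ∀ {z : Om → ℂ}, Measurable z →
      Measurable fun ω => unf (Λ.map fun l => (C ω l, Θ ω l)) (z ω) := by
  induction Λ with
  | nil => intro z hz; exact hz
  | cons l Λ ih =>
    intro z hz
    exact ih (asr_meas_rf (hC l) hz (hΘ l))

theorem asr_meas_pt {C : Om → Cell × ℕ → ℂ} {Θ : Om → Cell × ℕ → ℝ}
    (hC : ∀ l, Measurable fun ω => C ω l) (hΘ : ∀ l, Measurable fun ω => Θ ω l)
    (σ : ((Cell × ℕ) × Bool) ⊕ ((Cell × ℕ) × (Cell × ℕ))) :
    Measurable fun ω => asr_pt σ (C ω) (Θ ω) := by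
  match σ with
  | Sum.inl (l, true) => exact (hC l).add ((asr_meas_dir (hΘ l)).const_smul hl)
  | Sum.inl (l, false) => exact (hC l).add ((asr_meas_dir (hΘ l)).const_smul (-hl))
  | Sum.inr (l, l') =>
    exact (hC l).add (((asr_meas_cr (asr_meas_dir (hΘ l')) ((hC l').sub (hC l))).div
      (asr_meas_cr (asr_meas_dir (hΘ l')) (asr_meas_dir (hΘ l)))).smul (asr_meas_dir (hΘ l)))

theorem asr_meas_mark (l : Cell × ℕ) : Measurable fun ω : Om => (ω l.1).2 l.2 :=
  (measurable_pi_apply l.2).comp (measurable_snd.comp (measurable_pi_apply l.1))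

theorem asr_meas_ang (l : Cell × ℕ) : Measurable fun ω : Om => (mir ω l).2 := by
  change Measurable fun ω : Om => ((ω l.1).2 l.2).2
  exact measurable_snd.comp (asr_meas_mark l)

theorem asr_meas_ctr (l : Cell × ℕ) : Measurable fun ω : Om => (mir ω l).1 := by
  have h1 : Measurable fun ω : Om => sd * ((l.1.1 : ℝ) + (((ω l.1).2 l.2).1.1 : ℝ)) :=
    ((measurable_subtype_coe.comp
      (measurable_fst.comp (measurable_fst.comp (asr_meas_mark l)))).const_add _).const_mul _
  have h2 : Measurable fun ω : Om => sd * ((l.1.2 : ℝ) + (((ω l.1).2 l.2).1.2 : ℝ)) :=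
    ((measurable_subtype_coe.comp
      (measurable_snd.comp (measurable_fst.comp (asr_meas_mark l)))).const_add _).const_mul _
  exact Complex.measurableEquivRealProd.symm.measurable.comp (h1.prodMk h2)

/-! ### Almost sure statements -/

theorem asr_ae (μ : Measure ℝ) [IsProbabilityMeasure μ] {u : ℂ} (hu : ‖u‖ = 1)
    (Λ : List (Cell × ℕ)) (σ : ((Cell × ℕ) × Bool) ⊕ ((Cell × ℕ) × (Cell × ℕ))) :
    ∀ᵐ ω ∂(PP μ), cr u (unf (Λ.map (mir ω))
      (asr_pt σ (fun l => (mir ω l).1) (fun l => (mir ω l).2))) ≠ 0 := by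
  classical
  set F : Finset (Cell × ℕ) := Λ.toFinset ∪ asr_F σ with hF
  have hAff : ∀ θ : Cell × ℕ → ℝ,
      asr_Aff F (fun c => unf (Λ.map fun l => (c l, θ l)) (asr_pt σ c θ)) := fun θ =>
    asr_Aff_unf θ Λ (asr_Aff_pt σ θ Finset.subset_union_right)
      fun l hl => Finset.mem_union_left _ (List.mem_toFinset.2 hl)
  have hnull : ∀ (l : Cell × ℕ) (a : Bool), ∀ᵐ ω ∂(PP μ),
      cr u (unf (Λ.map fun l => ((mir ω l).1, (mir ω l).2))
        (asr_pt σ (fun l => (mir ω l).1) (fun l => (mir ω l).2))) = 0 →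
      cr u (unf (Λ.map fun l' => ((Pi.single l (asr_e a) : Cell × ℕ → ℂ) l', (mir ω l').2))
          (asr_pt σ (Pi.single l (asr_e a)) (fun l => (mir ω l).2)) -
        unf (Λ.map fun l' => ((0 : Cell × ℕ → ℂ) l', (mir ω l').2))
          (asr_pt σ 0 (fun l => (mir ω l).2))) = 0 := by
    intro l a
    refine asr_null μ l a (H := fun c θ => cr u (unf (Λ.map fun l => (c l, θ l)) (asr_pt σ c θ)))
      (K := fun θ =>
        cr u (unf (Λ.map fun l' => ((Pi.single l (asr_e a) : Cell × ℕ → ℂ) l', θ l'))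
          (asr_pt σ (Pi.single l (asr_e a)) θ) -
        unf (Λ.map fun l' => ((0 : Cell × ℕ → ℂ) l', θ l'))
          (asr_pt σ 0 θ))) ?_ ?_ ?_
    · intro c θ t
      have h : unf (Λ.map fun l' => ((c + t • (Pi.single l (asr_e a) : Cell × ℕ → ℂ)) l', θ l'))
          (asr_pt σ (c + t • (Pi.single l (asr_e a) : Cell × ℕ → ℂ)) θ) = _ :=
        (hAff θ).lin c (Pi.single l (asr_e a)) t
      rw [h]
      simp [cr]
      ring
    · exact asr_meas_cr measurable_const
        (asr_meas_unf asr_meas_ctr asr_meas_ang Λ (asr_meas_pt asr_meas_ctr asr_meas_ang σ))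
    · exact asr_meas_cr measurable_const
        ((asr_meas_unf (C := fun _ => Pi.single l (asr_e a)) (fun _ => measurable_const)
          asr_meas_ang Λ (asr_meas_pt (C := fun _ => Pi.single l (asr_e a))
            (fun _ => measurable_const) asr_meas_ang σ)).sub
        (asr_meas_unf (C := fun _ => 0) (fun _ => measurable_const)
          asr_meas_ang Λ (asr_meas_pt (C := fun _ => 0)
            (fun _ => measurable_const) asr_meas_ang σ)))
  have hall : ∀ᵐ ω ∂(PP μ), ∀ (l : Cell × ℕ) (a : Bool), _ :=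
    ae_all_iff.2 fun l => ae_all_iff.2 fun a => hnull l a
  filter_upwards [hall] with ω hω h0
  exact asr_Aff_absurd (hAff (fun l => (mir ω l).2)) hu fun l _ a => hω l a h0

theorem asr_par (μ : Measure ℝ) [IsProbabilityMeasure μ] {l l' : Cell × ℕ} (hne : l ≠ l') :
    ∀ᵐ ω ∂(PP μ), cr (dir (mir ω l').2) ((mir ω l').1 - (mir ω l).1) ≠ 0 := by
  have hnull : ∀ a : Bool, ∀ᵐ ω ∂(PP μ),
      cr (dir (mir ω l').2) ((mir ω l').1 - (mir ω l).1) = 0 →
      -cr (dir (mir ω l').2) (asr_e a) = 0 := by
    intro a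
    refine asr_null μ l a (H := fun c θ => cr (dir (θ l')) (c l' - c l))
      (K := fun θ => -cr (dir (θ l')) (asr_e a)) ?_ ?_ ?_
    · intro c θ t
      simp only [Pi.add_apply, Pi.smul_apply, Pi.single_eq_same, Pi.single_eq_of_ne hne.symm, cr]
      simp
      ring
    · exact asr_meas_cr (asr_meas_dir (asr_meas_ang l')) ((asr_meas_ctr l').sub (asr_meas_ctr l))
    · exact (asr_meas_cr (asr_meas_dir (asr_meas_ang l')) measurable_const).neg
  filter_upwards [hnull true, hnull false] with ω h1 h2 h0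
  have h1' := h1 h0
  have h2' := h2 h0
  simp [cr, asr_e, dir] at h1' h2'
  have := Real.sin_sq_add_cos_sq (mir ω l').2
  rw [h1', h2'] at this
  norm_num at this

theorem asr_labels (ω : Om) : ∀ L : List Mir, (∀ m ∈ L, m ∈ conf ω) →
    ∃ Λ : List (Cell × ℕ), L = Λ.map (mir ω) := by
  intro L
  induction L with
  | nil => intro _; exact ⟨[], rfl⟩
  | cons m L ih =>
    intro h
    obtain ⟨Λ, hΛ⟩ := ih fun m' hm' => h m' (by simp [hm'])
    obtain ⟨l, _, hl⟩ := h m (by simp)
    exact ⟨l :: Λ, by simp [hΛ, hl]⟩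

theorem asr_decomp (θ : ℝ) (z : ℂ) (h : cr (dir θ) z = 0) : z = (dt (dir θ) z) • dir θ := by
  have h1 := Real.sin_sq_add_cos_sq θ
  simp only [cr, dir] at h
  apply Complex.ext
  · simp only [dt, dir, Complex.real_smul, Complex.mul_re, Complex.ofReal_re, Complex.ofReal_im]
    linear_combination (-z.re) * h1 - Real.sin θ * h
  · simp only [dt, dir, Complex.real_smul, Complex.mul_im, Complex.ofReal_re, Complex.ofReal_im]
    linear_combination (-z.im) * h1 + Real.cos θ * h

theorem ae_sreg (μ : Measure ℝ) [IsProbabilityMeasure μ] {u : ℂ} (hu : ‖u‖ = 1) :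
    ∀ᵐ ω ∂(PP μ), SReg hl (conf ω) 0 u := by
  have h1 : ∀ᵐ ω ∂(PP μ), ∀ (Λ : List (Cell × ℕ))
      (σ : ((Cell × ℕ) × Bool) ⊕ ((Cell × ℕ) × (Cell × ℕ))), _ :=
    ae_all_iff.2 fun Λ => ae_all_iff.2 fun σ => asr_ae μ hu Λ σ
  have h2 : ∀ᵐ ω ∂(PP μ), ∀ (l l' : Cell × ℕ), l ≠ l' →
      cr (dir (mir ω l').2) ((mir ω l').1 - (mir ω l).1) ≠ 0 := by
    refine ae_all_iff.2 fun l => ae_all_iff.2 fun l' => ?_
    by_cases h : l = l'
    · exact Eventually.of_forall fun ω hne => absurd h hne
    · filter_upwards [asr_par μ h] with ω hω _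
      exact hω
  filter_upwards [h1, h2] with ω hω1 hω2
  intro L hL q hq s hs heq
  obtain ⟨Λ, rfl⟩ := asr_labels ω L hL
  have hpt : ∃ σ, q = asr_pt σ (fun l => (mir ω l).1) (fun l => (mir ω l).2) := by
    rcases hq with ⟨m, ⟨l, _, hm⟩, hq1, hq2⟩ | ⟨m, ⟨l, _, hm⟩, m', ⟨l', _, hm'⟩, hmm, hq1, hq2⟩
    · subst hm
      have h3 : |dt (dir (mir ω l).2) (q - (mir ω l).1)| = hl := by
        refine le_antisymm hq1.2 (not_lt.1 fun hlt => hq2 ⟨hq1.1, hlt⟩)
      have h4 := asr_decomp _ _ hq1.1
      have hpos : 0 ≤ hl := by unfold hl sd; norm_num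
      rcases (abs_eq hpos).1 h3 with h5 | h5
      · refine ⟨Sum.inl (l, true), ?_⟩
        rw [h5] at h4
        simp only [asr_pt]
        rw [← h4]
        ring
      · refine ⟨Sum.inl (l, false), ?_⟩
        rw [h5] at h4
        simp only [asr_pt]
        rw [← h4]
        ring
    · subst hm hm'
      have hne : l ≠ l' := fun h => hmm (by rw [h])
      have h3 := hω2 l l' hne
      have h4 := asr_decomp _ _ hq1.1
      set s' := dt (dir (mir ω l).2) (q - (mir ω l).1) with hs'
      have h5 : q = (mir ω l).1 + s' • dir (mir ω l).2 := by rw [← h4]; ring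
      have h6 : cr (dir (mir ω l').2) (q - (mir ω l').1) = 0 := hq2.1
      have h7 : s' * cr (dir (mir ω l').2) (dir (mir ω l).2) =
          cr (dir (mir ω l').2) ((mir ω l').1 - (mir ω l).1) := by
        rw [h5] at h6
        simp [cr] at h6 ⊢
        linarith
      have h8 : cr (dir (mir ω l').2) (dir (mir ω l).2) ≠ 0 := by
        intro h9
        rw [h9, mul_zero] at h7
        exact h3 h7.symm
      refine ⟨Sum.inr (l, l'), ?_⟩
      simp only [asr_pt]
      rw [← h7, mul_div_assoc, div_self h8, mul_one]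
      exact h5
  obtain ⟨σ, hσ⟩ := hpt
  apply hω1 Λ σ
  rw [← hσ, heq]
  simp [cr]
  ring

end Pool.Agent.Lib.MP_3309cd_pr
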