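import Pool.Agent.Lib.MP_3309cd_pr.Defs

/-!
MP_3309cd_pr: probability of a chain of occupied cells.
-/

namespace Pool.Agent.Lib.MP_3309cd_pr

open MeasureTheory ProbabilityTheory Set Filter Topology

instance chain_ptLaw_prob (μ : Measure ℝ) [IsProbabilityMeasure μ] :
    IsProbabilityMeasure (ptLaw μ) := by
  unfold ptLaw; infer_instance

/-- The intensity. -/
noncomputable def chain_r : NNReal := Real.toNNReal (sd ^ 2)

theorem chain_r_coe : (chain_r : ℝ) = sd ^ 2 := Real.coe_toNNReal _ (sq_nonneg _)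

theorem chain_cellLaw_eq (μ : Measure ℝ) :
    cellLaw μ = (poissonMeasure chain_r).prod (Measure.infinitePi fun _ : ℕ => ptLaw μ) := by
  have h : (⟨sd ^ 2, sq_nonneg sd⟩ : NNReal) = chain_r := by
    apply NNReal.eq
    rw [chain_r_coe]
    rfl
  unfold cellLaw
  exact congrArg (fun r : NNReal =>
    (poissonMeasure r).prod (Measure.infinitePi fun _ : ℕ => ptLaw μ)) h

instance chain_cellLaw_prob (μ : Measure ℝ) [IsProbabilityMeasure μ] :
    IsProbabilityMeasure (cellLaw μ) := by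
  rw [chain_cellLaw_eq]; infer_instance

instance chain_PP_prob (μ : Measure ℝ) [IsProbabilityMeasure μ] :
    IsProbabilityMeasure (PP μ) := by
  unfold PP; infer_instance

/-- A cell is nonempty with probability at most `sd ^ 2`. -/
theorem chain_cell_occ (μ : Measure ℝ) [IsProbabilityMeasure μ] :
    cellLaw μ {c | 0 < c.1} ≤ ENNReal.ofReal (sd ^ 2) := by
  have h1 : {c : CC | 0 < c.1} = {k : ℕ | 0 < k} ×ˢ (univ : Set (ℕ → (unitInterval × unitInterval) × ℝ)) := by
    ext c; simp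
  have h2 : {k : ℕ | 0 < k} = ({0} : Set ℕ)ᶜ := by
    ext k; simp [Nat.pos_iff_ne_zero]
  rw [h1, chain_cellLaw_eq, Measure.prod_prod, measure_univ, mul_one, h2,
    prob_compl_eq_one_sub (measurableSet_singleton 0), poissonMeasure_singleton, chain_r_coe]
  have h3 : (1 : ENNReal) = ENNReal.ofReal 1 := by simp
  rw [h3, ← ENNReal.ofReal_sub _ (by positivity)]
  apply ENNReal.ofReal_le_ofReal
  have h4 := Real.add_one_le_exp (-(sd ^ 2))
  simp only [pow_zero, mul_one, Nat.factorial_zero, Nat.cast_one, div_one]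
  linarith

/-- All the cells of a finite set are nonempty: probability. -/
theorem chain_occ_finset (μ : Measure ℝ) [IsProbabilityMeasure μ] (s : Finset Cell) :
    PP μ {ω | ∀ a ∈ s, occ ω a} ≤ ENNReal.ofReal ((sd ^ 2) ^ s.card) := by
  have h1 : {ω : Om | ∀ a ∈ s, occ ω a} =
      Set.pi (s : Set Cell) (fun _ => {c : CC | 0 < c.1}) := by
    ext ω; simp [occ, Set.mem_pi]
  rw [h1, PP, Measure.infinitePi_pi]
  · calc ∏ i ∈ s, cellLaw μ {c | 0 < c.1} ≤ ∏ i ∈ s, ENNReal.ofReal (sd ^ 2) :=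
          Finset.prod_le_prod' fun i _ => chain_cell_occ μ
      _ = ENNReal.ofReal ((sd ^ 2) ^ s.card) := by
          rw [Finset.prod_const, ENNReal.ofReal_pow (sq_nonneg _)]
  · intro i _
    exact measurable_fst (measurableSet_Ioi : MeasurableSet (Ioi (0 : ℕ)))

/-- The box of radius `J` around `κ`. -/
noncomputable def chain_box (J : ℕ) (κ : Cell) : Finset Cell :=
  Finset.Icc (κ.1 - J) (κ.1 + J) ×ˢ Finset.Icc (κ.2 - J) (κ.2 + J)

theorem chain_mem_box {J : ℕ} {κ κ' : Cell} : κ' ∈ chain_box J κ ↔ cn (κ' - κ) ≤ J := by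
  simp only [chain_box, Finset.mem_product, Finset.mem_Icc, cn, Prod.fst_sub, Prod.snd_sub,
    max_le_iff]
  omega

theorem chain_card_box (J : ℕ) (κ : Cell) : (chain_box J κ).card = (2 * J + 1) ^ 2 := by
  simp only [chain_box, Finset.card_product, Int.card_Icc]
  have h1 : (κ.1 + J + 1 - (κ.1 - J)).toNat = 2 * J + 1 := by omega
  have h2 : (κ.2 + J + 1 - (κ.2 - J)).toNat = 2 * J + 1 := by omega
  rw [h1, h2, sq]

/-- Lists of `n + 1` cells starting at `κ` with jumps at most `J`. -/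
noncomputable def chain_paths (J : ℕ) : ℕ → Cell → Finset (List Cell)
  | 0, κ => {[κ]}
  | n + 1, κ => (chain_box J κ).biUnion fun b => (chain_paths J n b).image (fun l => κ :: l)

theorem chain_card_paths (J n : ℕ) (κ : Cell) :
    (chain_paths J n κ).card ≤ ((2 * J + 1) ^ 2) ^ n := by
  induction n generalizing κ with
  | zero => simp [chain_paths]
  | succ n ih =>
    rw [chain_paths, pow_succ']
    calc ((chain_box J κ).biUnion fun b => (chain_paths J n b).image (fun l => κ :: l)).card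
        ≤ (chain_box J κ).card * ((2 * J + 1) ^ 2) ^ n :=
          Finset.card_biUnion_le_card_mul _ _ _ fun b _ =>
            Finset.card_image_le.trans (ih b)
      _ = _ := by rw [chain_card_box]

theorem chain_cn_triangle (a b c : Cell) : cn (c - a) ≤ cn (c - b) + cn (b - a) := by
  simp only [cn, Prod.fst_sub, Prod.snd_sub]
  omega

theorem chain_cn_comm (a b : Cell) : cn (a - b) = cn (b - a) := by
  simp only [cn, Prod.fst_sub, Prod.snd_sub]
  omega

/-- The graph of occupied cells at distance at most `J`. -/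
def chain_graph (J : ℕ) (ω : Om) : SimpleGraph Cell where
  Adj a b := a ≠ b ∧ Lnk J ω a b
  symm := ⟨by
    rintro a b ⟨h1, h2, h3, h4⟩
    exact ⟨h1.symm, h3, h2, by rw [chain_cn_comm]; exact h4⟩⟩
  loopless := ⟨by rintro a ⟨h, _⟩; exact h rfl⟩

theorem chain_reachable {J : ℕ} {ω : Om} {κ κ' : Cell}
    (h : Relation.ReflTransGen (Lnk J ω) κ κ') : (chain_graph J ω).Reachable κ κ' := by
  induction h with
  | refl => exact SimpleGraph.Reachable.refl _
  | @tail b c _ hbc ih =>
    by_cases hne : b = c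
    · rw [← hne]; exact ih
    · exact ih.trans (SimpleGraph.Adj.reachable (G := chain_graph J ω) ⟨hne, hbc⟩)

theorem chain_walk_len {J : ℕ} {ω : Om} {κ κ' : Cell} (p : (chain_graph J ω).Walk κ κ') :
    cn (κ' - κ) ≤ J * p.length := by
  induction p with
  | nil => simp [cn]
  | @cons a b c h q ih =>
    have h1 : cn (b - a) ≤ J := h.2.2.2
    have h2 := chain_cn_triangle a b c
    rw [SimpleGraph.Walk.length_cons, mul_add, mul_one]
    omega

theorem chain_walk_mem {J : ℕ} {ω : Om} {κ κ' : Cell} (p : (chain_graph J ω).Walk κ κ') :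
    ∀ n ≤ p.length, p.support.take (n + 1) ∈ chain_paths J n κ := by
  induction p with
  | nil =>
    intro n hn
    simp only [SimpleGraph.Walk.length_nil, nonpos_iff_eq_zero] at hn
    subst hn
    simp [chain_paths]
  | @cons a b c h q ih =>
    intro n hn
    cases n with
    | zero => simp [chain_paths]
    | succ n =>
      rw [SimpleGraph.Walk.support_cons, List.take_succ_cons, chain_paths]
      simp only [Finset.mem_biUnion, Finset.mem_image]
      exact ⟨b, chain_mem_box.2 h.2.2.2, _, ih n (by simpa using hn), rfl⟩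

theorem chain_walk_occ {J : ℕ} {ω : Om} {κ κ' : Cell} (p : (chain_graph J ω).Walk κ κ')
    (hκ : occ ω κ) : ∀ a ∈ p.support, occ ω a := by
  induction p with
  | nil => simpa using hκ
  | @cons a b c h q ih =>
    intro x hx
    rw [SimpleGraph.Walk.support_cons, List.mem_cons] at hx
    rcases hx with rfl | hx
    · exact hκ
    · exact ih h.2.2.1 x hx

/-- The deterministic part: a long chain contains a nonrepeating chain of `n + 1` cells. -/
theorem chain_det {J n : ℕ} (hJ : 0 < J) {ω : Om} {κ κ' : Cell} (hκ : occ ω κ)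
    (h : Relation.ReflTransGen (Lnk J ω) κ κ') (hn : J * n ≤ cn (κ' - κ)) :
    ∃ l ∈ chain_paths J n κ, l.Nodup ∧ l.length = n + 1 ∧ ∀ a ∈ l, occ ω a := by
  classical
  obtain ⟨p, hp⟩ := (chain_reachable h).exists_isPath
  have h1 : J * n ≤ J * p.length := hn.trans (chain_walk_len p)
  have h2 : n ≤ p.length := Nat.le_of_mul_le_mul_left h1 hJ
  refine ⟨p.support.take (n + 1), chain_walk_mem p n h2,
    hp.support_nodup.sublist (List.take_sublist _ _), ?_, ?_⟩
  · rw [List.length_take, SimpleGraph.Walk.length_support]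
    omega
  · intro a ha
    exact chain_walk_occ p hκ a (List.mem_of_mem_take ha)

theorem chain_bound (μ : Measure ℝ) [IsProbabilityMeasure μ] (J n : ℕ) (hJ : 0 < J) (κ : Cell) :
    PP μ {ω | occ ω κ ∧ ∃ κ', Relation.ReflTransGen (Lnk J ω) κ κ' ∧ J * n ≤ cn (κ' - κ)} ≤
      ENNReal.ofReal ((((2 * J + 1 : ℕ) : ℝ) ^ 2) ^ n * (sd ^ 2) ^ (n + 1)) := by
  classical
  have hsub : {ω | occ ω κ ∧ ∃ κ', Relation.ReflTransGen (Lnk J ω) κ κ' ∧
      J * n ≤ cn (κ' - κ)} ⊆ ⋃ l ∈ chain_paths J n κ,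
        {ω | l.Nodup ∧ l.length = n + 1 ∧ ∀ a ∈ l, occ ω a} := by
    rintro ω ⟨hκ, κ', hκ', hn⟩
    obtain ⟨l, hl, h1, h2, h3⟩ := chain_det hJ hκ hκ' hn
    simp only [mem_iUnion]
    exact ⟨l, hl, h1, h2, h3⟩
  have hone : ∀ l ∈ chain_paths J n κ,
      PP μ {ω | l.Nodup ∧ l.length = n + 1 ∧ ∀ a ∈ l, occ ω a} ≤
        ENNReal.ofReal ((sd ^ 2) ^ (n + 1)) := by
    intro l _
    by_cases h : l.Nodup ∧ l.length = n + 1
    · have h1 : {ω : Om | l.Nodup ∧ l.length = n + 1 ∧ ∀ a ∈ l, occ ω a} =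
          {ω | ∀ a ∈ l.toFinset, occ ω a} := by
        ext ω; simp [h.1, h.2]
      rw [h1]
      refine (chain_occ_finset μ l.toFinset).trans_eq ?_
      rw [List.toFinset_card_of_nodup h.1, h.2]
    · have h1 : {ω : Om | l.Nodup ∧ l.length = n + 1 ∧ ∀ a ∈ l, occ ω a} = ∅ := by
        ext ω
        simp only [mem_empty_iff_false, iff_false]
        rintro ⟨h2, h3, _⟩
        exact h ⟨h2, h3⟩
      rw [h1, measure_empty]
      exact bot_le
  calc PP μ {ω | occ ω κ ∧ ∃ κ', Relation.ReflTransGen (Lnk J ω) κ κ' ∧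
          J * n ≤ cn (κ' - κ)}
      ≤ PP μ (⋃ l ∈ chain_paths J n κ,
          {ω | l.Nodup ∧ l.length = n + 1 ∧ ∀ a ∈ l, occ ω a}) := measure_mono hsub
    _ ≤ ∑ l ∈ chain_paths J n κ,
          PP μ {ω | l.Nodup ∧ l.length = n + 1 ∧ ∀ a ∈ l, occ ω a} :=
        measure_biUnion_finset_le _ _
    _ ≤ ∑ l ∈ chain_paths J n κ, ENNReal.ofReal ((sd ^ 2) ^ (n + 1)) :=
        Finset.sum_le_sum hone
    _ = (chain_paths J n κ).card * ENNReal.ofReal ((sd ^ 2) ^ (n + 1)) := by
        rw [Finset.sum_const, nsmul_eq_mul]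
    _ ≤ ENNReal.ofReal ((((2 * J + 1 : ℕ) : ℝ) ^ 2) ^ n) *
          ENNReal.ofReal ((sd ^ 2) ^ (n + 1)) := by
        gcongr
        have h1 := chain_card_paths J n κ
        have h2 : ((((2 * J + 1 : ℕ) : ℝ) ^ 2) ^ n) = (((((2 * J + 1) ^ 2) ^ n : ℕ)) : ℝ) := by
          push_cast; ring
        rw [h2, ENNReal.ofReal_natCast]
        exact_mod_cast h1
    _ = _ := by rw [← ENNReal.ofReal_mul (by positivity)]

end Pool.Agent.Lib.MP_3309cd_pr
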