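import Pool.Agent.Lib.MP_3309cd_pr.Defs

/-!
The configuration is locally finite.
-/

namespace Pool.Agent.Lib.MP_3309cd_pr

open MeasureTheory ProbabilityTheory Set Filter Topology

theorem confLF_sd_pos : 0 < sd := by unfold sd; norm_num

/-- The coordinates of the centre of a labelled mirror. -/
theorem confLF_re (ω : Om) (l : Cell × ℕ) :
    sd * l.1.1 ≤ (mir ω l).1.re ∧ (mir ω l).1.re ≤ sd * (l.1.1 + 1) := by
  have h := ((ω l.1).2 l.2).1.1.2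
  have hs := confLF_sd_pos
  simp only [mir]
  constructor
  · have : sd * (l.1.1 : ℝ) ≤ sd * ((l.1.1 : ℝ) + (((ω l.1).2 l.2).1.1 : ℝ)) :=
      mul_le_mul_of_nonneg_left (by linarith [h.1]) hs.le
    exact this
  · have : sd * ((l.1.1 : ℝ) + (((ω l.1).2 l.2).1.1 : ℝ)) ≤ sd * ((l.1.1 : ℝ) + 1) :=
      mul_le_mul_of_nonneg_left (by linarith [h.2]) hs.le
    exact this

theorem confLF_im (ω : Om) (l : Cell × ℕ) :
    sd * l.1.2 ≤ (mir ω l).1.im ∧ (mir ω l).1.im ≤ sd * (l.1.2 + 1) := by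
  have h := ((ω l.1).2 l.2).1.2.2
  have hs := confLF_sd_pos
  simp only [mir]
  constructor
  · have : sd * (l.1.2 : ℝ) ≤ sd * ((l.1.2 : ℝ) + (((ω l.1).2 l.2).1.2 : ℝ)) :=
      mul_le_mul_of_nonneg_left (by linarith [h.1]) hs.le
    exact this
  · have : sd * ((l.1.2 : ℝ) + (((ω l.1).2 l.2).1.2 : ℝ)) ≤ sd * ((l.1.2 : ℝ) + 1) :=
      mul_le_mul_of_nonneg_left (by linarith [h.2]) hs.le
    exact this

private theorem bound_aux {x R : ℝ} {a : ℤ} (h1 : sd * a ≤ x) (h2 : x ≤ sd * (a + 1))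
    (hx : |x| ≤ R) : a ∈ Icc (-⌈R / sd + 1⌉) ⌈R / sd + 1⌉ := by
  have hs := confLF_sd_pos
  rw [abs_le] at hx
  have e1 : (a : ℝ) ≤ R / sd := by
    rw [le_div_iff₀ hs]; linarith [hx.2]
  have e2 : -(R / sd) ≤ (a : ℝ) + 1 := by
    rw [← neg_div, div_le_iff₀ hs]; linarith [hx.1]
  have e3 := Int.le_ceil (R / sd + 1)
  constructor
  · have : (-(⌈R / sd + 1⌉ : ℤ) : ℝ) ≤ (a : ℝ) := by linarith
    exact_mod_cast this
  · have : (a : ℝ) ≤ ((⌈R / sd + 1⌉ : ℤ) : ℝ) := by linarith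
    exact_mod_cast this

/-- Only finitely many labels have their mirror in a given ball. -/
theorem confLF_labels (ω : Om) (R : ℝ) :
    {l : Cell × ℕ | l.2 < (ω l.1).1 ∧ ‖(mir ω l).1‖ ≤ R}.Finite := by
  set N := ⌈R / sd + 1⌉ with hN
  have hfin : (⋃ κ ∈ (Icc (-N) N ×ˢ Icc (-N) N : Set Cell),
      (fun i : ℕ => ((κ, i) : Cell × ℕ)) '' (Iio (ω κ).1)).Finite := by
    refine Set.Finite.biUnion ((Set.finite_Icc _ _).prod (Set.finite_Icc _ _)) ?_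
    intro κ _
    exact (Set.finite_Iio _).image _
  refine hfin.subset ?_
  rintro ⟨κ, i⟩ ⟨hi, hn⟩
  simp only [mem_iUnion, mem_image, mem_Iio, exists_prop]
  refine ⟨κ, ?_, i, hi, rfl⟩
  have h1 := confLF_re ω (κ, i)
  have h2 := confLF_im ω (κ, i)
  have h3 := (Complex.abs_re_le_norm (mir ω (κ, i)).1).trans hn
  have h4 := (Complex.abs_im_le_norm (mir ω (κ, i)).1).trans hn
  exact ⟨bound_aux h1.1 h1.2 h3, bound_aux h2.1 h2.2 h4⟩

theorem conf_LF (ω : Om) : LF (conf ω) := by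
  intro R
  refine ((confLF_labels ω R).image (mir ω)).subset ?_
  rintro m ⟨⟨l, hl, rfl⟩, hn⟩
  exact ⟨l, ⟨hl, hn⟩, rfl⟩

end Pool.Agent.Lib.MP_3309cd_pr
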