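import Mathlib

/-!
Definitions for MP_3309cd_pr (light ray among Poisson mirrors).
A mirror is a pair (centre, angle); lists of mirrors have the LATEST reflection first.
-/

namespace Pool.Agent.Lib.MP_3309cd_pr

open MeasureTheory ProbabilityTheory Set Filter Topology

/-- A mirror: centre and angle. -/
abbrev Mir : Type := ℂ × ℝ

/-- Unit vector of angle `θ`. -/
noncomputable def dir (θ : ℝ) : ℂ := ⟨Real.cos θ, Real.sin θ⟩

/-- Dot product. -/
def dt (a b : ℂ) : ℝ := a.re * b.re + a.im * b.im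

/-- Cross product. -/
def cr (a b : ℂ) : ℝ := a.re * b.im - a.im * b.re

/-- The closed segment of the mirror `m` with half-length `h`. -/
def seg (h : ℝ) (m : Mir) : Set ℂ :=
  {z | cr (dir m.2) (z - m.1) = 0 ∧ |dt (dir m.2) (z - m.1)| ≤ h}

/-- The mirror without its two tips. -/
def oseg (h : ℝ) (m : Mir) : Set ℂ :=
  {z | cr (dir m.2) (z - m.1) = 0 ∧ |dt (dir m.2) (z - m.1)| < h}

/-- Reflection of vectors in the direction of the mirror `m`. -/
noncomputable def rl (m : Mir) (v : ℂ) : ℂ := dir m.2 ^ 2 * (starRingEnd ℂ) v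

/-- Reflection of points in the line of the mirror `m`. -/
noncomputable def rf (m : Mir) (z : ℂ) : ℂ := m.1 + rl m (z - m.1)

/-- The time at which `p + s v` meets the line of the mirror `m` (junk `0` if parallel). -/
noncomputable def hitS (m : Mir) (p v : ℂ) : ℝ :=
  cr (dir m.2) (m.1 - p) / cr (dir m.2) v

/-- Velocity after the reflections in `L` (latest first). -/
noncomputable def vel (u : ℂ) : List Mir → ℂ
  | [] => u
  | m :: L => rl m (vel u L)

/-- Position at the last reflection of `L` (latest first), starting from `x` with velocity `u`. -/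
noncomputable def pos (x u : ℂ) : List Mir → ℂ
  | [] => x
  | m :: L => pos x u L + hitS m (pos x u L) (vel u L) • vel u L

/-- Time of the last reflection of `L`. -/
noncomputable def tim (x u : ℂ) : List Mir → ℝ
  | [] => 0
  | m :: L => tim x u L + hitS m (pos x u L) (vel u L)

/-- From `p` (excluded) in direction `v` the first mirror of `M` met is `m`, transversally, at a
point which is not a tip of `m` and lies on no other mirror. -/
def HitAt (h : ℝ) (M : Set Mir) (p v : ℂ) (m : Mir) : Prop :=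
  m ∈ M ∧ cr (dir m.2) v ≠ 0 ∧ 0 < hitS m p v ∧ p + hitS m p v • v ∈ oseg h m ∧
    ∀ m' ∈ M, m' ≠ m → ∀ r : ℝ, 0 < r → r ≤ hitS m p v → p + r • v ∉ seg h m'

/-- The ray from `x` with velocity `u` makes regular reflections in the mirrors of `L`
(latest first). -/
def Run (h : ℝ) (M : Set Mir) (x u : ℂ) : List Mir → Prop
  | [] => ∀ m ∈ M, x ∉ seg h m
  | m :: L => Run h M x u L ∧ HitAt h M (pos x u L) (vel u L) m

/-- No mirror is met on `p + (0, r] v`. -/
def Free (h : ℝ) (M : Set Mir) (p v : ℂ) (r : ℝ) : Prop :=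
  ∀ m ∈ M, ∀ r' : ℝ, 0 < r' → r' ≤ r → p + r' • v ∉ seg h m

/-- Unfolding of points. -/
noncomputable def unf : List Mir → ℂ → ℂ
  | [], z => z
  | m :: L, z => unf L (rf m z)

/-- Linear part of the unfolding. -/
noncomputable def lin : List Mir → ℂ → ℂ
  | [], v => v
  | m :: L, v => lin L (rl m v)

/-- Singular points: tips, and points on two different mirrors. -/
def Sg (h : ℝ) (M : Set Mir) : Set ℂ :=
  {q | (∃ m ∈ M, q ∈ seg h m ∧ q ∉ oseg h m) ∨
    ∃ m ∈ M, ∃ m' ∈ M, m ≠ m' ∧ q ∈ seg h m ∧ q ∈ seg h m'}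

/-- No unfolded singular point lies on the open ray from `x` with direction `u`. -/
def SReg (h : ℝ) (M : Set Mir) (x u : ℂ) : Prop :=
  ∀ L : List Mir, (∀ m ∈ L, m ∈ M) → ∀ q ∈ Sg h M, ∀ s : ℝ, 0 < s → unf L q ≠ x + s • u

/-- No generalised saddle connection in the directions of the orbit of `u`. -/
def NC (h : ℝ) (M : Set Mir) (u : ℂ) : Prop :=
  ∀ L₁ L₂ L₃ : List Mir, (∀ m ∈ L₁, m ∈ M) → (∀ m ∈ L₂, m ∈ M) → (∀ m ∈ L₃, m ∈ M) →
    ∀ q ∈ insert 0 (Sg h M), ∀ q' ∈ insert 0 (Sg h M), ∀ s : ℝ, 0 < s →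
      lin L₃ (unf L₁ q - unf L₂ q') ≠ s • u

/-- Two different mirrors meet in at most one point. -/
def NoOv (h : ℝ) (M : Set Mir) : Prop :=
  ∀ m ∈ M, ∀ m' ∈ M, m ≠ m' → (seg h m ∩ seg h m').Subsingleton

/-- Locally finite set of mirrors. -/
def LF (M : Set Mir) : Prop := ∀ R : ℝ, {m ∈ M | ‖m.1‖ ≤ R}.Finite

/-- The ray from `0` in direction `u` leaves the closed ball of radius `R`. -/
def Exit (h : ℝ) (M : Set Mir) (u : ℂ) (R : ℝ) : Prop :=
  ∃ L, Run h M 0 u L ∧ ∃ r : ℝ, 0 ≤ r ∧ Free h M (pos 0 u L) (vel u L) r ∧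
    R < ‖pos 0 u L + r • vel u L‖

/-- The ray from `0` in direction `u` stays in the open ball of radius `ρ` until some time
larger than `t`. -/
def Stay (h : ℝ) (M : Set Mir) (u : ℂ) (t ρ : ℝ) : Prop :=
  ∃ L, Run h M 0 u L ∧ t < tim 0 u L ∧ ∀ L', L' <:+ L → ‖pos 0 u L'‖ < ρ

/-- No perpendicular reflection in `L`. -/
def NoPerp (u : ℂ) (L : List Mir) : Prop :=
  ∀ m L', m :: L' <:+ L → dt (dir m.2) (vel u L') ≠ 0

/-- The ray from `0` makes a perpendicular reflection, before leaving the closed ball of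
radius `R`. -/
def PerpIn (h : ℝ) (M : Set Mir) (u : ℂ) (R : ℝ) : Prop :=
  ∃ m L, Run h M 0 u (m :: L) ∧ dt (dir m.2) (vel u L) = 0 ∧
    ∀ L', L' <:+ m :: L → ‖pos 0 u L'‖ ≤ R

/-- All reflections of the ray from `0` are in the closed ball of radius `R`. -/
def AllIn (h : ℝ) (M : Set Mir) (u : ℂ) (R : ℝ) : Prop :=
  ∀ L, Run h M 0 u L → ‖pos 0 u L‖ ≤ R

/-- The first perpendicular reflection of the ray from `0` happens at the mirror `m`. -/
def FirstPerp (h : ℝ) (M : Set Mir) (u : ℂ) (m : Mir) : Prop :=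
  ∃ L, Run h M 0 u (m :: L) ∧ dt (dir m.2) (vel u L) = 0 ∧ NoPerp u L

/-! ### The Poisson configuration -/

/-- Cell side. -/
noncomputable def sd : ℝ := 1 / 1000

/-- Half-length of the mirrors. -/
noncomputable def hl : ℝ := 2 * sd

/-- Cells of the square lattice of side `sd`. -/
abbrev Cell : Type := ℤ × ℤ

/-- Content of a cell: number of mirrors, relative positions and angles. -/
abbrev CC : Type := ℕ × (ℕ → (unitInterval × unitInterval) × ℝ)

/-- The sample space. -/
abbrev Om : Type := Cell → CC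

/-- Law of a single mark. -/
noncomputable def ptLaw (μ : Measure ℝ) : Measure ((unitInterval × unitInterval) × ℝ) :=
  (volume : Measure (unitInterval × unitInterval)).prod μ

/-- Law of the content of a cell. -/
noncomputable def cellLaw (μ : Measure ℝ) : Measure CC :=
  (poissonMeasure ⟨sd ^ 2, sq_nonneg sd⟩).prod (Measure.infinitePi fun _ : ℕ => ptLaw μ)

/-- The law of the configuration. -/
noncomputable def PP (μ : Measure ℝ) : Measure Om := Measure.infinitePi fun _ : Cell => cellLaw μ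

/-- The mirror with label `l`. -/
noncomputable def mir (ω : Om) (l : Cell × ℕ) : Mir :=
  (⟨sd * (l.1.1 + (((ω l.1).2 l.2).1.1 : ℝ)), sd * (l.1.2 + (((ω l.1).2 l.2).1.2 : ℝ))⟩,
    ((ω l.1).2 l.2).2)

/-- The configuration of mirrors. -/
def conf (ω : Om) : Set Mir := {m | ∃ l : Cell × ℕ, l.2 < (ω l.1).1 ∧ m = mir ω l}

/-- Occupied cell. -/
def occ (ω : Om) (κ : Cell) : Prop := 0 < (ω κ).1

/-- The cell of a point. -/
noncomputable def cell (z : ℂ) : Cell := (⌊z.re / sd⌋, ⌊z.im / sd⌋)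

/-- sup norm of a cell index (as a difference of cells). -/
def cn (κ : Cell) : ℕ := max κ.1.natAbs κ.2.natAbs

/-- Occupied cells at distance at most `J`. -/
def Lnk (J : ℕ) (ω : Om) (κ κ' : Cell) : Prop := occ ω κ ∧ occ ω κ' ∧ cn (κ' - κ) ≤ J

/-- All cells within distance 5 of `κ` are empty. -/
def Clear (ω : Om) (κ : Cell) : Prop := ∀ κ', cn (κ' - κ) ≤ 5 → (ω κ').1 = 0

/-- The good event at the origin. -/
def E0 (ω : Om) : Prop :=
  ∀ κ : Cell, κ.2.natAbs ≤ 3 → -3 ≤ κ.1 → occ ω κ →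
    ∀ κ', Relation.ReflTransGen (Lnk 5 ω) κ κ' → 3 < κ'.1

/-- Angles of level `k`. -/
def Th (k : ℕ) : Set ℝ := {θ | ∃ j : ℕ, j < k.factorial ∧ θ = Real.pi * j / k.factorial}

/-- Directions of level `k`. -/
def Dk (k : ℕ) : Set ℂ := {u | ∃ j : ℤ, u = dir (Real.pi * j / k.factorial)}

/-- The ray reaches the cell `κ`, reflecting only at mirrors with angles of level `k` and
without perpendicular reflection. -/
def Reach (k : ℕ) (u : ℂ) (ω : Om) (κ : Cell) : Prop :=
  ∃ L, Run hl (conf ω) 0 u L ∧ (∀ m ∈ L, m.2 ∈ Th k) ∧ NoPerp u L ∧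
    ∃ r : ℝ, 0 ≤ r ∧ Free hl (conf ω) (pos 0 u L) (vel u L) r ∧
      cell (pos 0 u L + r • vel u L) = κ

/-- Clear cells reached. -/
def GG (k : ℕ) (u : ℂ) (κ : Cell) : Set Om := {ω | Clear ω κ ∧ 5 ≤ cn κ ∧ Reach k u ω κ}

/-- The cell `κ` contains exactly one mirror, and the first perpendicular reflection is there. -/
def FF (u : ℂ) (κ : Cell) : Set Om :=
  {ω | (ω κ).1 = 1 ∧ FirstPerp hl (conf ω) u (mir ω (κ, 0))}

/-- Every connected set of cells from the origin to distance `R` contains `A` clear cells. -/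
def Sparse (A R : ℕ) (ω : Om) : Prop :=
  ∀ V : Set Cell, (∃ κ', R ≤ cn κ' ∧
      Relation.ReflTransGen (fun a b => cn (b - a) ≤ 1 ∧ a ∈ V ∧ b ∈ V) (0, 0) κ') →
    ∃ S : Finset Cell, A ≤ S.card ∧ ∀ κ ∈ S, κ ∈ V ∧ Clear ω κ ∧ 5 ≤ cn κ

end Pool.Agent.Lib.MP_3309cd_pr
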