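import Pool.Agent.Lib.MP_3309cd_pr.Defs

/-!
Basic geometry API for MP_3309cd_pr.
-/

namespace Pool.Agent.Lib.MP_3309cd_pr

open MeasureTheory ProbabilityTheory Set Filter Topology

section algebra

variable (θ : ℝ) (a b c v w z p x u : ℂ) (m : Mir) (r s : ℝ)

@[simp] lemma dir_re : (dir θ).re = Real.cos θ := rfl
@[simp] lemma dir_im : (dir θ).im = Real.sin θ := rfl

lemma dir_eq_exp : dir θ = Complex.exp (θ * Complex.I) := by
  apply Complex.ext <;> simp [Complex.exp_ofReal_mul_I_re, Complex.exp_ofReal_mul_I_im]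

@[simp] lemma dt_dir_dir : dt (dir θ) (dir θ) = 1 := by
  have := Real.cos_sq_add_sin_sq θ
  simp only [dt, dir_re, dir_im]; nlinarith

@[simp] lemma norm_dir : ‖dir θ‖ = 1 := by
  rw [dir_eq_exp, Complex.norm_exp_ofReal_mul_I]

lemma dir_ne_zero : dir θ ≠ 0 := by
  intro h
  have := norm_dir θ
  rw [h] at this; simp at this

lemma dt_comm : dt a b = dt b a := by simp only [dt]; ring
lemma cr_comm : cr a b = - cr b a := by simp only [cr]; ring
@[simp] lemma cr_self : cr a a = 0 := by simp only [cr]; ring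
@[simp] lemma cr_zero : cr a 0 = 0 := by simp [cr]
@[simp] lemma zero_cr : cr 0 a = 0 := by simp [cr]
@[simp] lemma dt_zero : dt a 0 = 0 := by simp [dt]
@[simp] lemma zero_dt : dt 0 a = 0 := by simp [dt]
lemma dt_add : dt a (b + c) = dt a b + dt a c := by simp only [dt, Complex.add_re, Complex.add_im]; ring
lemma cr_add : cr a (b + c) = cr a b + cr a c := by simp only [cr, Complex.add_re, Complex.add_im]; ring
lemma dt_sub : dt a (b - c) = dt a b - dt a c := by simp only [dt, Complex.sub_re, Complex.sub_im]; ring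
lemma cr_sub : cr a (b - c) = cr a b - cr a c := by simp only [cr, Complex.sub_re, Complex.sub_im]; ring
lemma add_dt : dt (a + b) c = dt a c + dt b c := by simp only [dt, Complex.add_re, Complex.add_im]; ring
lemma add_cr : cr (a + b) c = cr a c + cr b c := by simp only [cr, Complex.add_re, Complex.add_im]; ring
lemma sub_dt : dt (a - b) c = dt a c - dt b c := by simp only [dt, Complex.sub_re, Complex.sub_im]; ring
lemma sub_cr : cr (a - b) c = cr a c - cr b c := by simp only [cr, Complex.sub_re, Complex.sub_im]; ring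
lemma dt_neg : dt a (-b) = - dt a b := by simp only [dt, Complex.neg_re, Complex.neg_im]; ring
lemma cr_neg : cr a (-b) = - cr a b := by simp only [cr, Complex.neg_re, Complex.neg_im]; ring
lemma neg_dt : dt (-a) b = - dt a b := by simp only [dt, Complex.neg_re, Complex.neg_im]; ring
lemma neg_cr : cr (-a) b = - cr a b := by simp only [cr, Complex.neg_re, Complex.neg_im]; ring
lemma dt_smul : dt a (r • b) = r * dt a b := by simp [dt]; ring
lemma cr_smul : cr a (r • b) = r * cr a b := by simp [cr]; ring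
lemma smul_dt : dt (r • a) b = r * dt a b := by simp [dt]; ring
lemma smul_cr : cr (r • a) b = r * cr a b := by simp [cr]; ring
lemma dt_self : dt a a = ‖a‖ ^ 2 := by
  rw [← Complex.normSq_eq_norm_sq, Complex.normSq_apply]; rfl
lemma dt_I_smul : dt a (Complex.I * b) = - cr a b := by
  simp [dt, cr]; ring
lemma cr_I_smul : cr a (Complex.I * b) = dt a b := by
  simp [dt, cr]
/-- Lagrange identity -/
lemma dt_sq_add_cr_sq : dt a b ^ 2 + cr a b ^ 2 = ‖a‖ ^ 2 * ‖b‖ ^ 2 := by
  rw [← Complex.normSq_eq_norm_sq, ← Complex.normSq_eq_norm_sq, Complex.normSq_apply,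
    Complex.normSq_apply]
  simp only [dt, cr]; ring

lemma abs_dt_le : |dt a b| ≤ ‖a‖ * ‖b‖ := by
  apply abs_le_of_sq_le_sq _ (by positivity)
  have := dt_sq_add_cr_sq a b
  nlinarith [sq_nonneg (cr a b)]

lemma abs_cr_le : |cr a b| ≤ ‖a‖ * ‖b‖ := by
  apply abs_le_of_sq_le_sq _ (by positivity)
  have := dt_sq_add_cr_sq a b
  nlinarith [sq_nonneg (dt a b)]

/-- A vector is determined by its dot and cross product with a unit vector. -/
lemma eq_of_dt_cr {e : ℂ} (he : ‖e‖ = 1) (h1 : dt e v = dt e w) (h2 : cr e v = cr e w) :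
    v = w := by
  have h3 : dt e (v - w) = 0 := by rw [dt_sub, h1, sub_self]
  have h4 : cr e (v - w) = 0 := by rw [cr_sub, h2, sub_self]
  have := dt_sq_add_cr_sq e (v - w)
  rw [h3, h4, he] at this
  have h5 : ‖v - w‖ = 0 := by
    have : ‖v - w‖ ^ 2 = 0 := by nlinarith
    exact pow_eq_zero_iff two_ne_zero |>.1 this
  rwa [norm_eq_zero, sub_eq_zero] at h5

/-- Decomposition in the basis `e, i e`. -/
lemma decomp {e : ℂ} (he : ‖e‖ = 1) : v = dt e v • e + cr e v • (Complex.I * e) := by
  apply eq_of_dt_cr v _ he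
  · rw [dt_add, dt_smul, dt_smul, dt_I_smul, dt_self, he, cr_self]; ring
  · rw [cr_add, cr_smul, cr_smul, cr_I_smul, dt_self, he, cr_self]; ring

/-- Three-term identity: `cr a b * dt a c - ...`. -/
lemma cr_mul_of_unit {e : ℂ} (he : ‖e‖ = 1) : cr v w = dt e v * cr e w - cr e v * dt e w := by
  have h : e.re ^ 2 + e.im ^ 2 = 1 := by
    have := dt_self e
    rw [he] at this
    simp only [dt] at this; nlinarith
  have : cr v w = (e.re ^ 2 + e.im ^ 2) * cr v w := by rw [h, one_mul]
  rw [this]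
  simp only [dt, cr]; ring

lemma dt_mul_of_unit {e : ℂ} (he : ‖e‖ = 1) : dt v w = dt e v * dt e w + cr e v * cr e w := by
  have h : e.re ^ 2 + e.im ^ 2 = 1 := by
    have := dt_self e
    rw [he] at this
    simp only [dt] at this; nlinarith
  have : dt v w = (e.re ^ 2 + e.im ^ 2) * dt v w := by rw [h, one_mul]
  rw [this]
  simp only [dt, cr]; ring

/-! reflections -/

lemma rl_re : (rl m v).re = (Real.cos m.2 ^ 2 - Real.sin m.2 ^ 2) * v.re +
    2 * Real.cos m.2 * Real.sin m.2 * v.im := by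
  rw [rl, pow_two, Complex.mul_re, Complex.mul_re, Complex.mul_im, Complex.conj_re,
    Complex.conj_im]
  simp only [dir_re, dir_im]; ring

lemma rl_im : (rl m v).im = 2 * Real.cos m.2 * Real.sin m.2 * v.re -
    (Real.cos m.2 ^ 2 - Real.sin m.2 ^ 2) * v.im := by
  rw [rl, pow_two, Complex.mul_im, Complex.mul_re, Complex.mul_im, Complex.conj_re,
    Complex.conj_im]
  simp only [dir_re, dir_im]; ring

@[simp] lemma dt_rl : dt (dir m.2) (rl m v) = dt (dir m.2) v := by
  have := Real.cos_sq_add_sin_sq m.2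
  have h : Real.cos m.2 ^ 2 = 1 - Real.sin m.2 ^ 2 := by linarith
  simp only [dt, rl_re, rl_im, dir_re, dir_im]
  have : Real.cos m.2 * ((Real.cos m.2 ^ 2 - Real.sin m.2 ^ 2) * v.re +
    2 * Real.cos m.2 * Real.sin m.2 * v.im) + Real.sin m.2 * (2 * Real.cos m.2 * Real.sin m.2 * v.re -
    (Real.cos m.2 ^ 2 - Real.sin m.2 ^ 2) * v.im) =
    (Real.cos m.2 ^ 2 + Real.sin m.2 ^ 2) * (Real.cos m.2 * v.re + Real.sin m.2 * v.im) := by ring
  rw [this, Real.cos_sq_add_sin_sq, one_mul]

@[simp] lemma cr_rl : cr (dir m.2) (rl m v) = - cr (dir m.2) v := by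
  simp only [cr, rl_re, rl_im, dir_re, dir_im]
  have : Real.cos m.2 * (2 * Real.cos m.2 * Real.sin m.2 * v.re -
    (Real.cos m.2 ^ 2 - Real.sin m.2 ^ 2) * v.im) - Real.sin m.2 * ((Real.cos m.2 ^ 2 - Real.sin m.2 ^ 2) * v.re +
    2 * Real.cos m.2 * Real.sin m.2 * v.im) =
    - ((Real.cos m.2 ^ 2 + Real.sin m.2 ^ 2) * (Real.cos m.2 * v.im - Real.sin m.2 * v.re)) := by ring
  rw [this, Real.cos_sq_add_sin_sq, one_mul]

@[simp] lemma norm_rl : ‖rl m v‖ = ‖v‖ := by
  simp [rl, norm_dir]

@[simp] lemma rl_rl : rl m (rl m v) = v := by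
  apply eq_of_dt_cr _ _ (norm_dir m.2) <;> simp

lemma rl_add : rl m (v + w) = rl m v + rl m w := by
  simp [rl, mul_add]

lemma rl_sub : rl m (v - w) = rl m v - rl m w := by
  simp [rl, mul_sub]

lemma rl_neg : rl m (-v) = - rl m v := by
  simp [rl]

lemma rl_smul : rl m (r • v) = r • rl m v := by
  simp [rl]; ring

@[simp] lemma rl_zero : rl m 0 = 0 := by simp [rl]

@[simp] lemma rl_eq_zero : rl m v = 0 ↔ v = 0 := by
  rw [← norm_eq_zero, norm_rl, norm_eq_zero]

lemma rl_injective : Function.Injective (rl m) := fun x y hxy => by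
  rw [← rl_rl x m, hxy, rl_rl]

/-- reflection reverses the orientation -/
lemma cr_rl_rl : cr (rl m v) (rl m w) = - cr v w := by
  rw [cr_mul_of_unit (rl m v) (rl m w) (norm_dir m.2), cr_mul_of_unit v w (norm_dir m.2)]
  simp; ring

lemma dt_rl_rl : dt (rl m v) (rl m w) = dt v w := by
  rw [dt_mul_of_unit (rl m v) (rl m w) (norm_dir m.2), dt_mul_of_unit v w (norm_dir m.2)]
  simp

lemma rl_I_mul : rl m (Complex.I * v) = - (Complex.I * rl m v) := by
  simp [rl]; ring

lemma rl_eq_self_iff : rl m v = v ↔ cr (dir m.2) v = 0 := by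
  constructor
  · intro h
    have := cr_rl v m
    rw [h] at this; linarith
  · intro h
    apply eq_of_dt_cr _ _ (norm_dir m.2) (by simp)
    simp [h]

lemma rl_eq_neg_iff : rl m v = -v ↔ dt (dir m.2) v = 0 := by
  constructor
  · intro h
    have := dt_rl v m
    rw [h, dt_neg] at this; linarith
  · intro h
    apply eq_of_dt_cr _ _ (norm_dir m.2)
    · simp [h, dt_neg]
    · simp [cr_neg]

lemma rf_sub : rf m z - rf m w = rl m (z - w) := by
  simp only [rf]
  rw [show m.1 + rl m (z - m.1) - (m.1 + rl m (w - m.1)) = rl m (z - m.1) - rl m (w - m.1) by ring,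
    ← rl_sub]
  congr 1; ring

@[simp] lemma rf_rf : rf m (rf m z) = z := by
  simp [rf]

lemma rf_add : rf m (z + v) = rf m z + rl m v := by
  simp only [rf]
  rw [show z + v - m.1 = (z - m.1) + v by ring, rl_add]; ring

lemma rf_eq_self (h : cr (dir m.2) (z - m.1) = 0) : rf m z = z := by
  simp only [rf]
  rw [(rl_eq_self_iff _ _).2 h]; ring

/-! mirrors -/

lemma oseg_subset_seg (h : ℝ) : oseg h m ⊆ seg h m := fun _ hz => ⟨hz.1, hz.2.le⟩

lemma mem_seg_norm {h : ℝ} (hz : z ∈ seg h m) : ‖z - m.1‖ ≤ h := by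
  have h1 := dt_sq_add_cr_sq (dir m.2) (z - m.1)
  rw [hz.1, norm_dir] at h1
  have h2 : ‖z - m.1‖ ^ 2 = |dt (dir m.2) (z - m.1)| ^ 2 := by rw [sq_abs]; linarith
  have h3 : ‖z - m.1‖ = |dt (dir m.2) (z - m.1)| :=
    (pow_left_inj₀ (norm_nonneg _) (abs_nonneg _) two_ne_zero).1 h2
  rw [h3]; exact hz.2

lemma continuous_dt : Continuous fun p : ℂ × ℂ => dt p.1 p.2 := by
  unfold dt; fun_prop

lemma continuous_cr : Continuous fun p : ℂ × ℂ => cr p.1 p.2 := by
  unfold cr; fun_prop

lemma continuous_dt_right : Continuous fun z => dt a z := by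
  unfold dt; fun_prop

lemma continuous_cr_right : Continuous fun z => cr a z := by
  unfold cr; fun_prop

lemma isClosed_seg (h : ℝ) : IsClosed (seg h m) := by
  apply IsClosed.inter (s₁ := {z | cr (dir m.2) (z - m.1) = 0})
    (s₂ := {z | |dt (dir m.2) (z - m.1)| ≤ h})
  · exact isClosed_eq ((continuous_cr_right _).comp (continuous_id.sub continuous_const))
      continuous_const
  · exact isClosed_le (((continuous_dt_right _).comp (continuous_id.sub continuous_const)).abs)
      continuous_const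

lemma isCompact_seg (h : ℝ) : IsCompact (seg h m) := by
  apply Metric.isCompact_of_isClosed_isBounded (isClosed_seg m h)
  apply (Metric.isBounded_closedBall (x := m.1) (r := h)).subset
  intro z hz
  rw [Metric.mem_closedBall, dist_eq_norm]
  exact mem_seg_norm z m hz

end algebra

section hit

variable {h : ℝ} {M : Set Mir} {p v x u z : ℂ} {m m' : Mir} {r s : ℝ}

lemma hit_line (hv : cr (dir m.2) v ≠ 0) :
    cr (dir m.2) (p + hitS m p v • v - m.1) = 0 := by
  rw [show p + hitS m p v • v - m.1 = hitS m p v • v - (m.1 - p) by ring, cr_sub, cr_smul, hitS,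
    div_mul_cancel₀ _ hv, sub_self]

/-- The line of `m` is met only at time `hitS`. -/
lemma eq_hitS (hv : cr (dir m.2) v ≠ 0) (hs : cr (dir m.2) (p + s • v - m.1) = 0) :
    s = hitS m p v := by
  rw [show p + s • v - m.1 = s • v - (m.1 - p) by ring, cr_sub, cr_smul] at hs
  rw [hitS, eq_div_iff hv]; linarith

lemma hitS_shift (hv : cr (dir m.2) v ≠ 0) : hitS m (p + s • v) v = hitS m p v - s := by
  rw [hitS, hitS, show m.1 - (p + s • v) = (m.1 - p) - s • v by ring, cr_sub, cr_smul, sub_div,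
    mul_div_cancel_right₀ _ hv]

lemma hitS_eq_zero (hp : cr (dir m.2) (p - m.1) = 0) : hitS m p v = 0 := by
  rw [hitS, show m.1 - p = -(p - m.1) by ring, cr_neg, hp]; simp

lemma HitAt.unique (h1 : HitAt h M p v m) (h2 : HitAt h M p v m') : m = m' := by
  by_contra hne
  rcases le_total (hitS m p v) (hitS m' p v) with hle | hle
  · exact h2.2.2.2.2 m h1.1 hne _ h1.2.2.1 hle (oseg_subset_seg _ _ h1.2.2.2.1)
  · exact h1.2.2.2.2 m' h2.1 (fun e => hne e.symm) _ h2.2.2.1 hle (oseg_subset_seg _ _ h2.2.2.2.1)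

/-- Before the hit nothing is met. -/
lemma HitAt.free (h1 : HitAt h M p v m) (hr : r < hitS m p v) : Free h M p v r := by
  intro m' hm' r' hr0 hr1 hmem
  by_cases hne : m' = m
  · subst hne
    have := eq_hitS h1.2.1 hmem.1
    linarith
  · exact h1.2.2.2.2 m' hm' hne r' hr0 (by linarith) hmem

lemma HitAt.not_free (h1 : HitAt h M p v m) (hr : hitS m p v ≤ r) : ¬ Free h M p v r :=
  fun hF => hF m h1.1 _ h1.2.2.1 hr (oseg_subset_seg _ _ h1.2.2.2.1)

lemma Free.mono (hF : Free h M p v r) (hs : s ≤ r) : Free h M p v s :=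
  fun m hm r' h0 h1 => hF m hm r' h0 (h1.trans hs)

lemma HitAt.lt_of_free (h1 : HitAt h M p v m) (hF : Free h M p v r) : r < hitS m p v := by
  by_contra hle
  exact h1.not_free (not_lt.1 hle) hF

lemma HitAt.shift (h1 : HitAt h M p v m) (hs : s < hitS m p v) (hs0 : 0 ≤ s) :
    HitAt h M (p + s • v) v m := by
  obtain ⟨a, b, c, d, e⟩ := h1
  have hsh := hitS_shift (p := p) (s := s) b
  refine ⟨a, b, by rw [hsh]; linarith, ?_, ?_⟩
  · rw [hsh, show p + s • v + (hitS m p v - s) • v = p + hitS m p v • v by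
      rw [sub_smul]; ring]
    exact d
  · intro m' hm' hne r hr0 hr1 hmem
    rw [hsh] at hr1
    refine e m' hm' hne (s + r) (by linarith) (by linarith) ?_
    rwa [add_smul, ← add_assoc]

end hit

section run

variable {h : ℝ} {M : Set Mir} {p v x u z : ℂ} {m m' : Mir} {L L' : List Mir} {r s : ℝ}

@[simp] lemma vel_nil : vel u [] = u := rfl
@[simp] lemma vel_cons : vel u (m :: L) = rl m (vel u L) := rfl
@[simp] lemma pos_nil : pos x u [] = x := rfl
@[simp] lemma pos_cons : pos x u (m :: L) = pos x u L + hitS m (pos x u L) (vel u L) • vel u L := rfl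
@[simp] lemma tim_nil : tim x u [] = 0 := rfl
@[simp] lemma tim_cons : tim x u (m :: L) = tim x u L + hitS m (pos x u L) (vel u L) := rfl
@[simp] lemma run_nil : Run h M x u [] ↔ ∀ m ∈ M, x ∉ seg h m := Iff.rfl
@[simp] lemma run_cons : Run h M x u (m :: L) ↔
  Run h M x u L ∧ HitAt h M (pos x u L) (vel u L) m := Iff.rfl
@[simp] lemma unf_nil : unf [] z = z := rfl
@[simp] lemma unf_cons : unf (m :: L) z = unf L (rf m z) := rfl
@[simp] lemma lin_nil : lin [] z = z := rfl
@[simp] lemma lin_cons : lin (m :: L) z = lin L (rl m z) := rfl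

@[simp] lemma norm_vel : ‖vel u L‖ = ‖u‖ := by
  induction L with
  | nil => rfl
  | cons m L ih => simp [ih]

lemma vel_append (L L' : List Mir) : vel u (L ++ L') = vel (vel u L') L := by
  induction L with
  | nil => rfl
  | cons m L ih => simp [ih]

lemma pos_append (L L' : List Mir) :
    pos x u (L ++ L') = pos (pos x u L') (vel u L') L := by
  induction L with
  | nil => rfl
  | cons m L ih => simp [ih, vel_append]

lemma tim_append (L L' : List Mir) :
    tim x u (L ++ L') = tim x u L' + tim (pos x u L') (vel u L') L := by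
  induction L with
  | nil => simp
  | cons m L ih => simp [ih, vel_append, pos_append]; ring

lemma unf_append (L L' : List Mir) : unf (L ++ L') z = unf L' (unf L z) := by
  induction L generalizing z with
  | nil => rfl
  | cons m L ih => simp [ih]

lemma lin_append (L L' : List Mir) : lin (L ++ L') z = lin L' (lin L z) := by
  induction L generalizing z with
  | nil => rfl
  | cons m L ih => simp [ih]

lemma vel_neg : vel (-u) L = - vel u L := by
  induction L with
  | nil => rfl
  | cons m L ih => simp [ih, rl_neg]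

@[simp] lemma norm_lin : ‖lin L z‖ = ‖z‖ := by
  induction L generalizing z with
  | nil => rfl
  | cons m L ih => simp [ih]

lemma lin_add (a b : ℂ) : lin L (a + b) = lin L a + lin L b := by
  induction L generalizing a b with
  | nil => rfl
  | cons m L ih => simp [ih, rl_add]

lemma lin_sub (a b : ℂ) : lin L (a - b) = lin L a - lin L b := by
  induction L generalizing a b with
  | nil => rfl
  | cons m L ih => simp [ih, rl_sub]

lemma lin_smul (r : ℝ) (a : ℂ) : lin L (r • a) = r • lin L a := by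
  induction L generalizing a with
  | nil => rfl
  | cons m L ih => simp only [lin_cons, rl_smul, ih]

lemma lin_neg (a : ℂ) : lin L (-a) = - lin L a := by
  induction L generalizing a with
  | nil => rfl
  | cons m L ih => simp [ih, rl_neg]

lemma unf_add (z a : ℂ) : unf L (z + a) = unf L z + lin L a := by
  induction L generalizing z a with
  | nil => rfl
  | cons m L ih => simp [ih, rf_add]

lemma unf_sub_unf (z w : ℂ) : unf L z - unf L w = lin L (z - w) := by
  have := unf_add (L := L) w (z - w)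
  rw [add_sub_cancel] at this
  rw [this]; ring

/-- The unfolding sends the current velocity to the initial one. -/
@[simp] lemma lin_vel : lin L (vel u L) = u := by
  induction L with
  | nil => rfl
  | cons m L ih => simp [ih]

lemma Run.tail (hL : Run h M x u (m :: L)) : Run h M x u L := hL.1

lemma Run.of_suffix (hL : Run h M x u L) (hs : L' <:+ L) : Run h M x u L' := by
  induction L with
  | nil => rw [List.suffix_nil] at hs; rw [hs]; exact hL
  | cons m L ih =>
    rcases List.suffix_cons_iff.1 hs with h1 | h1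
    · rw [h1]; exact hL
    · exact ih hL.1 h1

lemma Run.start (hL : Run h M x u L) : ∀ m ∈ M, x ∉ seg h m :=
  hL.of_suffix (List.nil_suffix)

lemma Run.mem (hL : Run h M x u L) : ∀ m ∈ L, m ∈ M := by
  induction L with
  | nil => simp
  | cons m L ih =>
    intro m' hm'
    rcases List.mem_cons.1 hm' with h1 | h1
    · rw [h1]; exact hL.2.1
    · exact ih hL.1 m' h1

/-- The vertices of a run are on the open mirror and on no other mirror. -/
lemma Run.pos_mem (hL : Run h M x u (m :: L)) :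
    pos x u (m :: L) ∈ oseg h m ∧ ∀ m' ∈ M, m' ≠ m → pos x u (m :: L) ∉ seg h m' :=
  ⟨hL.2.2.2.2.1, fun m' hm' hne => hL.2.2.2.2.2 m' hm' hne _ hL.2.2.2.1 le_rfl⟩

/-- Each mirror through the current position is transversal to the current velocity. -/
lemma Run.transversal (hL : Run h M x u L) :
    ∀ m' ∈ M, pos x u L ∈ seg h m' → cr (dir m'.2) (vel u L) ≠ 0 := by
  cases L with
  | nil => intro m' hm' hmem; exact absurd hmem (hL m' hm')
  | cons m L =>
    intro m' hm' hmem
    by_cases hne : m' = m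
    · subst hne
      simp only [vel_cons, cr_rl, ne_eq, neg_eq_zero]
      exact hL.2.2.1
    · exact absurd hmem (hL.pos_mem.2 m' hm' hne)

/-- The unfolding of the current position. -/
lemma Run.unf_pos (hL : Run h M x u L) : unf L (pos x u L) = x + tim x u L • u := by
  induction L with
  | nil => simp
  | cons m L ih =>
    have h1 : rf m (pos x u (m :: L)) = pos x u (m :: L) :=
      rf_eq_self _ _ (hit_line hL.2.2.1)
    rw [unf_cons, h1, pos_cons, unf_add, ih hL.1, lin_smul, lin_vel, tim_cons, add_smul, add_assoc]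

lemma Run.unf_pos_add (hL : Run h M x u L) (r : ℝ) :
    unf L (pos x u L + r • vel u L) = x + (tim x u L + r) • u := by
  rw [unf_add, hL.unf_pos, lin_smul, lin_vel, add_smul, add_assoc]

lemma Run.tim_nonneg (hL : Run h M x u L) : 0 ≤ tim x u L := by
  induction L with
  | nil => simp
  | cons m L ih =>
    have := ih hL.1
    have h2 := hL.2.2.2.1
    simp only [tim_cons]; linarith

lemma Run.tim_lt (hL : Run h M x u (m :: L)) : tim x u L < tim x u (m :: L) := by
  have h2 := hL.2.2.2.1
  simp only [tim_cons]; linarith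

/-- Regularity is propagated along runs. -/
lemma SReg.run (hS : SReg h M x u) (hL : Run h M x u L) :
    SReg h M (pos x u L) (vel u L) := by
  intro K hK q hq s hs heq
  have h1 : unf (K ++ L) q = x + (tim x u L + s) • u := by
    rw [unf_append, heq, hL.unf_pos_add]
  exact hS (K ++ L) (fun m hm => by
    rcases List.mem_append.1 hm with h2 | h2
    · exact hK m h2
    · exact hL.mem m h2) q hq _ (by have := hL.tim_nonneg; linarith) h1

/-- Determinism. -/
lemma Run.suffix_or (hL : Run h M x u L) (hL' : Run h M x u L') : L' <:+ L ∨ L <:+ L' := by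
  induction L with
  | nil => right; exact List.nil_suffix
  | cons m L ih =>
    rcases ih hL.1 with h1 | h1
    · left; exact h1.trans (List.suffix_cons m L)
    · obtain ⟨K, rfl⟩ := h1
      rcases K.eq_nil_or_concat with rfl | ⟨K, m', rfl⟩
      · left; simp
      · right
        have h2 : Run h M x u (m' :: L) := hL'.of_suffix ⟨K, by simp⟩
        have h3 : m = m' := hL.2.unique h2.2
        exact ⟨K, by simp [h3]⟩

end run

section next

variable {h : ℝ} {M : Set Mir} {p v x u z : ℂ} {m m' : Mir} {L L' : List Mir} {r s : ℝ}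

/-- mirrors near a bounded set of points are finitely many -/
lemma LF.finite_ball (hM : LF M) (h R : ℝ) :
    {m ∈ M | (seg h m ∩ Metric.closedBall 0 R).Nonempty}.Finite := by
  apply (hM (R + h)).subset
  rintro m ⟨hm, z, hz1, hz2⟩
  refine ⟨hm, ?_⟩
  have h1 := mem_seg_norm z m hz1
  rw [Metric.mem_closedBall, dist_zero_right] at hz2
  calc ‖m.1‖ = ‖z - (z - m.1)‖ := by ring_nf
    _ ≤ ‖z‖ + ‖z - m.1‖ := norm_sub_le _ _
    _ ≤ R + h := add_le_add hz2 h1

/-- The union of the mirrors of a locally finite configuration is closed. -/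
lemma LF.isClosed_iUnion (hM : LF M) (h : ℝ) (N : Set Mir) (hN : N ⊆ M) :
    IsClosed (⋃ m ∈ N, seg h m) := by
  rw [← isSeqClosed_iff_isClosed]
  intro y z hy hz
  obtain ⟨R, hR⟩ : ∃ R, ∀ n, ‖y n‖ ≤ R := by
    obtain ⟨R, hR⟩ := (Metric.isBounded_range_of_tendsto y hz).exists_norm_le
    exact ⟨R, fun n => hR _ ⟨n, rfl⟩⟩
  have hcl : IsClosed (⋃ m ∈ {m ∈ N | (seg h m ∩ Metric.closedBall 0 R).Nonempty}, seg h m) := by
    apply Set.Finite.isClosed_biUnion
    · exact (hM.finite_ball h R).subset fun m hm => ⟨hN hm.1, hm.2⟩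
    · intro m _; exact isClosed_seg m h
  have hz' : z ∈ ⋃ m ∈ {m ∈ N | (seg h m ∩ Metric.closedBall 0 R).Nonempty}, seg h m := by
    apply hcl.mem_of_tendsto hz
    apply Eventually.of_forall
    intro n
    obtain ⟨m, hm, hmem⟩ := mem_iUnion₂.1 (hy n)
    exact mem_iUnion₂.2 ⟨m, ⟨hm, y n, hmem, by
      rw [Metric.mem_closedBall, dist_zero_right]; exact hR n⟩, hmem⟩
  obtain ⟨m, hm, hmem⟩ := mem_iUnion₂.1 hz'
  exact mem_iUnion₂.2 ⟨m, hm.1, hmem⟩

/-- If all mirrors through `p` are transversal to `v`, then nothing is met for a short time. -/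
lemma exists_free (hM : LF M) (hp : ∀ m ∈ M, p ∈ seg h m → cr (dir m.2) v ≠ 0) :
    ∃ r : ℝ, 0 < r ∧ Free h M p v r := by
  -- mirrors not containing p are at positive distance
  have hcl : IsClosed (⋃ m ∈ {m ∈ M | p ∉ seg h m}, seg h m) :=
    hM.isClosed_iUnion h _ (fun m hm => hm.1)
  have hpn : p ∉ ⋃ m ∈ {m ∈ M | p ∉ seg h m}, seg h m := by
    intro hmem
    obtain ⟨m, hm, h2⟩ := mem_iUnion₂.1 hmem
    exact hm.2 h2
  have hev : ∀ᶠ r : ℝ in 𝓝 0, p + r • v ∉ ⋃ m ∈ {m ∈ M | p ∉ seg h m}, seg h m := by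
    have hcont : Tendsto (fun r : ℝ => p + r • v) (𝓝 0) (𝓝 p) := by
      have : Continuous fun r : ℝ => p + r • v := by fun_prop
      have h2 := this.tendsto 0
      simpa using h2
    exact hcont (hcl.isOpen_compl.mem_nhds hpn)
  obtain ⟨ε, hε, hball⟩ := Metric.eventually_nhds_iff.1 hev
  refine ⟨ε / 2, by linarith, fun m hm r' h0 h1 hmem => ?_⟩
  by_cases hpm : p ∈ seg h m
  · have h2 := eq_hitS (hp m hm hpm) hmem.1
    rw [hitS_eq_zero hpm.1] at h2
    linarith
  · apply hball (y := r') (by rw [Real.dist_0_eq_abs, abs_of_pos h0]; linarith)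
    exact mem_iUnion₂.2 ⟨m, ⟨hm, hpm⟩, hmem⟩

/-- The first mirror met. -/
lemma exists_first (hM : LF M) (hp : ∀ m ∈ M, p ∈ seg h m → cr (dir m.2) v ≠ 0)
    (hF : ¬ Free h M p v r) :
    ∃ s : ℝ, 0 < s ∧ s ≤ r ∧ (∃ m ∈ M, p + s • v ∈ seg h m) ∧
      ∀ m ∈ M, ∀ r' : ℝ, 0 < r' → r' < s → p + r' • v ∉ seg h m := by
  obtain ⟨ρ, hρ, hFρ⟩ := exists_free hM hp
  have hρr : ρ < r := by
    by_contra hle
    exact hF (hFρ.mono (not_lt.1 hle))
  set S : Set ℝ := {s | s ∈ Icc ρ r ∧ p + s • v ∈ ⋃ m ∈ M, seg h m} with hS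
  have hScl : IsClosed S := by
    apply isClosed_Icc.inter
    exact (hM.isClosed_iUnion h M subset_rfl).preimage (by fun_prop)
  have hSne : S.Nonempty := by
    simp only [Free, not_forall] at hF
    obtain ⟨m, hm, r', h0, h1, h2⟩ := hF
    refine ⟨r', ⟨?_, h1⟩, mem_iUnion₂.2 ⟨m, hm, not_not.1 h2⟩⟩
    by_contra hlt
    exact hFρ m hm r' h0 (not_le.1 hlt).le (not_not.1 h2)
  have hSc : IsCompact S := isCompact_Icc.of_isClosed_subset hScl fun s hs => hs.1
  obtain ⟨s, hs, hmin⟩ := hSc.exists_isLeast hSne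
  refine ⟨s, by linarith [hs.1.1], hs.1.2, ?_, ?_⟩
  · obtain ⟨m, hm, hmem⟩ := mem_iUnion₂.1 hs.2
    exact ⟨m, hm, hmem⟩
  · intro m hm r' h0 h1 hmem
    rcases lt_or_ge r' ρ with h2 | h2
    · exact hFρ m hm r' h0 h2.le hmem
    · have := hmin ⟨⟨h2, by linarith [hs.1.2]⟩, mem_iUnion₂.2 ⟨m, hm, hmem⟩⟩
      linarith

/-- In a regular direction the first mirror met is hit regularly. -/
lemma exists_hitAt (hM : LF M) (hp : ∀ m ∈ M, p ∈ seg h m → cr (dir m.2) v ≠ 0)
    (hS : SReg h M p v) (hF : ¬ Free h M p v r) :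
    ∃ m, HitAt h M p v m ∧ hitS m p v ≤ r := by
  obtain ⟨s, hs0, hsr, ⟨m, hm, hmem⟩, hfirst⟩ := exists_first hM hp hF
  have hnS : p + s • v ∉ Sg h M := fun hq => hS [] (by simp) _ hq s hs0 rfl
  have hos : p + s • v ∈ oseg h m := by
    by_contra hno
    exact hnS (Or.inl ⟨m, hm, hmem, hno⟩)
  have hother : ∀ m' ∈ M, m' ≠ m → p + s • v ∉ seg h m' := fun m' hm' hne hmem' =>
    hnS (Or.inr ⟨m', hm', m, hm, hne, hmem', hmem⟩)
  have htr : cr (dir m.2) v ≠ 0 := by
    intro h0
    -- the ray slides along m: contradiction with first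
    have hcont : Tendsto (fun r : ℝ => |dt (dir m.2) (p + r • v - m.1)|) (𝓝 s)
        (𝓝 |dt (dir m.2) (p + s • v - m.1)|) := by
      have : Continuous fun r : ℝ => |dt (dir m.2) (p + r • v - m.1)| :=
        ((continuous_dt_right _).comp (by fun_prop)).abs
      exact this.tendsto s
    have hev : ∀ᶠ r in 𝓝 s, |dt (dir m.2) (p + r • v - m.1)| < h :=
      hcont.eventually (gt_mem_nhds hos.2)
    obtain ⟨ε, hε, hball⟩ := Metric.eventually_nhds_iff.1 hev
    have h1 : max (s / 2) (s - ε / 2) < s := max_lt (by linarith) (by linarith)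
    have h2 : 0 < max (s / 2) (s - ε / 2) := lt_max_of_lt_left (by linarith)
    refine hfirst m hm _ h2 h1 ⟨?_, (hball ?_).le⟩
    · have h3 := hos.1
      rw [show p + s • v - m.1 = (p - m.1) + s • v by ring, cr_add, cr_smul, h0] at h3
      rw [show p + max (s / 2) (s - ε / 2) • v - m.1 = (p - m.1) + max (s / 2) (s - ε / 2) • v by ring,
        cr_add, cr_smul, h0]
      linarith
    · rw [Real.dist_eq, abs_lt]
      constructor
      · have := le_max_right (s / 2) (s - ε / 2)
        linarith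
      · linarith
  have hseq : s = hitS m p v := eq_hitS htr hmem.1
  refine ⟨m, ⟨hm, htr, by rw [← hseq]; exact hs0, by rw [← hseq]; exact hos, ?_⟩, by
    rw [← hseq]; exact hsr⟩
  intro m' hm' hne r' h0 h1 hmem'
  rw [← hseq] at h1
  rcases h1.lt_or_eq with h2 | h2
  · exact hfirst m' hm' r' h0 h2 hmem'
  · rw [h2] at hmem'
    exact hother m' hm' hne hmem'

/-- Extension of a run by one reflection. -/
lemma Run.exists_next (hM : LF M) (hS : SReg h M x u) (hL : Run h M x u L)
    (hF : ¬ Free h M (pos x u L) (vel u L) r) :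
    ∃ m, Run h M x u (m :: L) ∧ hitS m (pos x u L) (vel u L) ≤ r := by
  obtain ⟨m, hm, hle⟩ := exists_hitAt hM hL.transversal (hS.run hL) hF
  exact ⟨m, ⟨hL, hm⟩, hle⟩

end next

end Pool.Agent.Lib.MP_3309cd_pr
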