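import Pool.Agent.Lib.MP_3309cd_pr.Geom

/-!
Inserting one perpendicular mirror in a clear cell reached by the ray.
-/

namespace Pool.Agent.Lib.MP_3309cd_pr

open MeasureTheory ProbabilityTheory Set Filter Topology

private theorem ins_sd_pos : 0 < sd := by unfold sd; norm_num

/-! ### angles of level `k` -/

private theorem ins_dk_norm {k : ℕ} {u : ℂ} (hu : u ∈ Dk k) : ‖u‖ = 1 := by
  obtain ⟨j, rfl⟩ := hu
  exact norm_dir _

private theorem ins_rl_dir (m : Mir) (α : ℝ) : rl m (dir α) = dir (2 * m.2 - α) := by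
  apply Complex.ext
  · rw [rl_re]
    simp only [dir_re, dir_im, Real.cos_sub, Real.cos_two_mul, Real.sin_two_mul]
    have := Real.cos_sq_add_sin_sq m.2
    have h : Real.sin m.2 ^ 2 = 1 - Real.cos m.2 ^ 2 := by linarith
    rw [h]; ring
  · rw [rl_im]
    simp only [dir_re, dir_im, Real.sin_sub, Real.cos_two_mul, Real.sin_two_mul]
    have := Real.cos_sq_add_sin_sq m.2
    have h : Real.sin m.2 ^ 2 = 1 - Real.cos m.2 ^ 2 := by linarith
    rw [h]; ring

private theorem ins_vel_dk {k : ℕ} {u : ℂ} (hu : u ∈ Dk k) {L : List Mir}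
    (hL : ∀ m ∈ L, m.2 ∈ Th k) : vel u L ∈ Dk k := by
  induction L with
  | nil => exact hu
  | cons m L ih =>
    obtain ⟨j, hj⟩ := ih fun m' hm' => hL m' (List.mem_cons_of_mem _ hm')
    obtain ⟨i, _, hi⟩ := hL m List.mem_cons_self
    refine ⟨2 * i - j, ?_⟩
    rw [vel_cons, hj, ins_rl_dir, hi]
    congr 1
    push_cast
    ring

private theorem ins_perp {k : ℕ} (hk : 2 ≤ k) {v : ℂ} (hv : v ∈ Dk k) :
    ∃ θ ∈ Th k, dt (dir θ) v = 0 := by
  obtain ⟨j, rfl⟩ := hv
  have hn : 0 < k.factorial := Nat.factorial_pos k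
  obtain ⟨h, hh⟩ : 2 ∣ k.factorial := Nat.dvd_factorial (by norm_num) hk
  have hnZ : (0 : ℤ) < (k.factorial : ℤ) := by exact_mod_cast hn
  have hnR : (k.factorial : ℝ) ≠ 0 := by exact_mod_cast hn.ne'
  set n : ℤ := (k.factorial : ℤ) with hndef
  have h1 := Int.emod_nonneg (j + h) hnZ.ne'
  have h2 := Int.emod_lt_of_pos (j + h) hnZ
  have h3 := Int.emod_add_mul_ediv (j + h) n
  set i : ℕ := ((j + h) % n).toNat with hi
  have hi' : (i : ℤ) = (j + h) % n := Int.toNat_of_nonneg h1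
  refine ⟨Real.pi * i / k.factorial, ⟨i, ?_, rfl⟩, ?_⟩
  · have : (i : ℤ) < n := by rw [hi']; exact h2
    exact Int.ofNat_lt.mp this
  · simp only [dt, dir_re, dir_im]
    rw [← Real.cos_sub, Real.cos_eq_zero_iff]
    refine ⟨-((j + h) / n), ?_⟩
    have e1 : (i : ℝ) = (j : ℝ) + h - k.factorial * (((j + h) / n : ℤ) : ℝ) := by
      have : (i : ℤ) = j + h - n * ((j + h) / n) := by rw [hi']; linarith
      exact_mod_cast this
    have e2 : (k.factorial : ℝ) = 2 * h := by exact_mod_cast hh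
    rw [e1]
    have hh0 : (h : ℝ) ≠ 0 := by
      intro h0
      rw [h0, mul_zero] at e2
      exact hnR e2
    rw [e2]
    push_cast
    field_simp
    ring

/-! ### distances -/

private theorem ins_coord {U x : unitInterval} {a a' : ℤ} (h : 6 ≤ (a' - a).natAbs) {z c' : ℝ}
    (hc' : c' = sd * (a' + (x : ℝ))) (hz : |z - c'| ≤ 2 * sd) :
    3 * sd ≤ |z - sd * (a + (U : ℝ))| := by
  have hs := ins_sd_pos
  have hU := U.2
  have hx := x.2
  rw [abs_le] at hz
  rcases le_total a' a with h1 | h1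
  · have h2 : a' + 6 ≤ a := by omega
    have h3 : (a' : ℝ) + 6 ≤ a := by exact_mod_cast h2
    have h4 : sd * (a' + (x : ℝ)) + 5 * sd ≤ sd * (a + (U : ℝ)) := by
      have : sd * (a' + (x : ℝ) + 5) ≤ sd * (a + (U : ℝ)) :=
        mul_le_mul_of_nonneg_left (by linarith [hU.1, hx.2]) hs.le
      linarith
    rw [← hc'] at h4
    exact le_abs.mpr (Or.inr (by linarith [hz.2]))
  · have h2 : a + 6 ≤ a' := by omega
    have h3 : (a : ℝ) + 6 ≤ a' := by exact_mod_cast h2
    have h4 : sd * (a + (U : ℝ)) + 5 * sd ≤ sd * (a' + (x : ℝ)) := by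
      have : sd * (a + (U : ℝ) + 5) ≤ sd * (a' + (x : ℝ)) :=
        mul_le_mul_of_nonneg_left (by linarith [hU.2, hx.1]) hs.le
      linarith
    rw [← hc'] at h4
    exact le_abs.mpr (Or.inl (by linarith [hz.1]))

/-- The centre with relative position `U` in the cell `κ`. -/
private noncomputable def ctr (κ : Cell) (U : unitInterval × unitInterval) : ℂ :=
  ⟨sd * (κ.1 + (U.1 : ℝ)), sd * (κ.2 + (U.2 : ℝ))⟩

private theorem ins_far {ω : Om} {κ : Cell} (hω : Clear ω κ) (U : unitInterval × unitInterval)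
    {m : Mir} (hm : m ∈ conf ω) {z : ℂ} (hz : z ∈ seg hl m) : 3 * sd ≤ ‖z - ctr κ U‖ := by
  obtain ⟨l, hl1, rfl⟩ := hm
  have h5 : ¬ cn (l.1 - κ) ≤ 5 := fun hcn => by
    have := hω l.1 hcn
    omega
  have hn := mem_seg_norm z _ hz
  have hre : |z.re - (mir ω l).1.re| ≤ 2 * sd := by
    have := (Complex.abs_re_le_norm (z - (mir ω l).1)).trans hn
    simpa [hl] using this
  have him : |z.im - (mir ω l).1.im| ≤ 2 * sd := by
    have := (Complex.abs_im_le_norm (z - (mir ω l).1)).trans hn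
    simpa [hl] using this
  have h6 : 6 ≤ (l.1.1 - κ.1).natAbs ∨ 6 ≤ (l.1.2 - κ.2).natAbs := by
    unfold cn at h5
    rw [Prod.fst_sub, Prod.snd_sub] at h5
    rcases le_total (l.1.1 - κ.1).natAbs (l.1.2 - κ.2).natAbs with h | h
    · rw [max_eq_right h] at h5; right; omega
    · rw [max_eq_left h] at h5; left; omega
  rcases h6 with h | h
  · have h7 := ins_coord (U := U.1) (x := ((ω l.1).2 l.2).1.1) h (c' := (mir ω l).1.re) rfl hre
    refine h7.trans ?_
    have := Complex.abs_re_le_norm (z - ctr κ U)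
    simpa [ctr] using this
  · have h7 := ins_coord (U := U.2) (x := ((ω l.1).2 l.2).1.2) h (c' := (mir ω l).1.im) rfl him
    refine h7.trans ?_
    have := Complex.abs_im_le_norm (z - ctr κ U)
    simpa [ctr] using this

private theorem ins_zero_coord {U : unitInterval} {a : ℤ} (h : 5 ≤ a.natAbs) :
    3 * sd ≤ |0 - sd * (a + (U : ℝ))| := by
  have hs := ins_sd_pos
  have hU := U.2
  rcases le_total a 0 with h1 | h1
  · have h2 : a ≤ -5 := by omega
    have h3 : (a : ℝ) ≤ -5 := by exact_mod_cast h2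
    have h4 : sd * (a + (U : ℝ)) ≤ sd * (-4) :=
      mul_le_mul_of_nonneg_left (by linarith [hU.2]) hs.le
    exact le_abs.mpr (Or.inl (by linarith))
  · have h2 : 5 ≤ a := by omega
    have h3 : (5 : ℝ) ≤ a := by exact_mod_cast h2
    have h4 : sd * 5 ≤ sd * (a + (U : ℝ)) :=
      mul_le_mul_of_nonneg_left (by linarith [hU.1]) hs.le
    exact le_abs.mpr (Or.inr (by linarith))

private theorem ins_zero {κ : Cell} (hκ : 5 ≤ cn κ) (U : unitInterval × unitInterval) :
    3 * sd ≤ ‖0 - ctr κ U‖ := by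
  have h6 : 5 ≤ κ.1.natAbs ∨ 5 ≤ κ.2.natAbs := by
    unfold cn at hκ
    exact le_max_iff.mp hκ
  rcases h6 with h | h
  · refine (ins_zero_coord (U := U.1) h).trans ?_
    have := Complex.abs_re_le_norm (0 - ctr κ U)
    simpa [ctr] using this
  · refine (ins_zero_coord (U := U.2) h).trans ?_
    have := Complex.abs_im_le_norm (0 - ctr κ U)
    simpa [ctr] using this

private theorem ins_near_coord {x : ℝ} {a : ℤ} (h : ⌊x / sd⌋ = a) (U : unitInterval) :
    |x - sd * (a + (U : ℝ))| ≤ sd := by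
  have hs := ins_sd_pos
  have hU := U.2
  rw [Int.floor_eq_iff] at h
  have h1 : (a : ℝ) * sd ≤ x := (le_div_iff₀ hs).mp h.1
  have h2 : x < ((a : ℝ) + 1) * sd := (div_lt_iff₀ hs).mp h.2
  have h3 : 0 ≤ sd * (U : ℝ) := mul_nonneg hs.le hU.1
  have h4 : sd * (U : ℝ) ≤ sd * 1 := mul_le_mul_of_nonneg_left hU.2 hs.le
  rw [abs_le]
  constructor <;> linarith

private theorem ins_near {q : ℂ} {κ : Cell} (h : cell q = κ) (U : unitInterval × unitInterval) :
    ‖q - ctr κ U‖ < hl := by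
  have hs := ins_sd_pos
  have h1 : ⌊q.re / sd⌋ = κ.1 := by rw [← h]; rfl
  have h2 : ⌊q.im / sd⌋ = κ.2 := by rw [← h]; rfl
  have h3 := ins_near_coord h1 U.1
  have h4 := ins_near_coord h2 U.2
  have h5 : ‖q - ctr κ U‖ ^ 2 < hl ^ 2 := by
    rw [← Complex.normSq_eq_norm_sq, Complex.normSq_apply]
    have e1 : (q - ctr κ U).re = q.re - sd * (κ.1 + (U.1 : ℝ)) := by simp [ctr]
    have e2 : (q - ctr κ U).im = q.im - sd * (κ.2 + (U.2 : ℝ)) := by simp [ctr]
    rw [e1, e2]
    have h6 := sq_le_sq' (by linarith [abs_nonneg (q.re - sd * (κ.1 + (U.1 : ℝ)))]) h3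
    have h7 := sq_le_sq' (by linarith [abs_nonneg (q.im - sd * (κ.2 + (U.2 : ℝ)))]) h4
    rw [sq_abs] at h6 h7
    unfold hl
    nlinarith
  exact lt_of_pow_lt_pow_left₀ 2 (by unfold hl; linarith) h5

/-! ### one flight and the disc -/

private theorem ins_norm_sq {p v c : ℂ} (hv : ‖v‖ = 1) (s : ℝ) :
    ‖p + s • v - c‖ ^ 2 = (s - dt v (c - p)) ^ 2 + cr v (c - p) ^ 2 := by
  have h := dt_sq_add_cr_sq v (p + s • v - c)
  rw [hv] at h
  have e1 : dt v (p + s • v - c) = s - dt v (c - p) := by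
    rw [show p + s • v - c = s • v - (c - p) by ring, dt_sub, dt_smul, dt_self, hv]
    ring
  have e2 : cr v (p + s • v - c) = - cr v (c - p) := by
    rw [show p + s • v - c = s • v - (c - p) by ring, cr_sub, cr_smul, cr_self]
    ring
  rw [e1, e2] at h
  linarith

/-- If a flight starting far from `c` meets the disc of radius `hl` around `c`, then the time of
the closest point is positive. -/
private theorem ins_pos {p v c : ℂ} (hv : ‖v‖ = 1) (hp : 3 * sd ≤ ‖p - c‖) {s : ℝ} (hs : 0 ≤ s)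
    (hd : ‖p + s • v - c‖ ≤ hl) : 0 < dt v (c - p) := by
  have hsd := ins_sd_pos
  have h0 := ins_norm_sq (p := p) (c := c) hv 0
  rw [zero_smul, add_zero] at h0
  have h1 := ins_norm_sq (p := p) (c := c) hv s
  have h2 : ‖p + s • v - c‖ ^ 2 ≤ hl ^ 2 := pow_le_pow_left₀ (norm_nonneg _) hd 2
  have h3 : (3 * sd) ^ 2 ≤ ‖p - c‖ ^ 2 := pow_le_pow_left₀ (by linarith) hp 2
  unfold hl at h2
  by_contra hneg
  push Not at hneg
  nlinarith

/-- A point of a line beyond the disc. -/
private theorem ins_beyond {p v c : ℂ} (hv : ‖v‖ = 1) {s S : ℝ} (hsS : s ≤ S)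
    (hd : ‖p + s • v - c‖ ≤ hl) (hS : 3 * sd ≤ ‖p + S • v - c‖) : dt v (c - p) < S := by
  have hsd := ins_sd_pos
  have h0 := ins_norm_sq (p := p) (c := c) hv S
  have h1 := ins_norm_sq (p := p) (c := c) hv s
  have h2 : ‖p + s • v - c‖ ^ 2 ≤ hl ^ 2 := pow_le_pow_left₀ (norm_nonneg _) hd 2
  have h3 : (3 * sd) ^ 2 ≤ ‖p + S • v - c‖ ^ 2 := pow_le_pow_left₀ (by linarith) hS 2
  unfold hl at h2
  by_contra hneg
  push Not at hneg
  nlinarith

private theorem ins_cr_le {p v c : ℂ} (hv : ‖v‖ = 1) {s : ℝ} (hd : ‖p + s • v - c‖ ≤ hl) :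
    |cr v (c - p)| ≤ hl := by
  have h1 := ins_norm_sq (p := p) (c := c) hv s
  have h2 : ‖p + s • v - c‖ ^ 2 ≤ hl ^ 2 := pow_le_pow_left₀ (norm_nonneg _) hd 2
  have hsd := ins_sd_pos
  refine abs_le_of_sq_le_sq ?_ (by unfold hl; linarith)
  nlinarith [sq_nonneg (s - dt v (c - p))]

private theorem ins_closest {p v c : ℂ} (hv : ‖v‖ = 1) :
    ‖p + (dt v (c - p)) • v - c‖ = |cr v (c - p)| := by
  have h1 := ins_norm_sq (p := p) (c := c) hv (dt v (c - p))
  rw [sub_self] at h1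
  have h2 : ‖p + (dt v (c - p)) • v - c‖ ^ 2 = |cr v (c - p)| ^ 2 := by rw [sq_abs]; linarith
  exact (pow_left_inj₀ (norm_nonneg _) (abs_nonneg _) two_ne_zero).1 h2

/-- Between a point of the flight in the disc and the closest point nothing outside the disc is
met. -/
private theorem ins_between {p v c : ℂ} (hv : ‖v‖ = 1) {s r : ℝ} (hsr : s ≤ r)
    (hr : r ≤ dt v (c - p)) (hd : ‖p + s • v - c‖ ≤ hl) : ‖p + r • v - c‖ < 3 * sd := by
  have hsd := ins_sd_pos
  have h0 := ins_norm_sq (p := p) (c := c) hv r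
  have h1 := ins_norm_sq (p := p) (c := c) hv s
  have h2 : ‖p + s • v - c‖ ^ 2 ≤ hl ^ 2 := pow_le_pow_left₀ (norm_nonneg _) hd 2
  unfold hl at h2
  refine lt_of_pow_lt_pow_left₀ 2 (by linarith) ?_
  nlinarith

/-- Data of a flight meeting the disc. -/
private theorem ins_first {ω : Om} {κ : Cell} (hω : Clear ω κ) (hκ : 5 ≤ cn κ)
    (U : unitInterval × unitInterval) {u : ℂ} (hu : ‖u‖ = 1) (n : ℕ) : ∀ {L : List Mir},
    L.length = n → Run hl (conf ω) 0 u L →
    (∀ L', L' <:+ L → |cr (vel u L') (ctr κ U - pos 0 u L')| ≠ hl) →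
    ∀ {r : ℝ}, 0 ≤ r → Free hl (conf ω) (pos 0 u L) (vel u L) r →
    ‖pos 0 u L + r • vel u L - ctr κ U‖ < hl →
    ∃ L', L' <:+ L ∧ (∃ r' : ℝ, 0 ≤ r' ∧ Free hl (conf ω) (pos 0 u L') (vel u L') r' ∧
      ‖pos 0 u L' + r' • vel u L' - ctr κ U‖ < hl) ∧
      ∀ m L'', m :: L'' <:+ L' → ∀ s : ℝ, 0 ≤ s → s ≤ hitS m (pos 0 u L'') (vel u L'') →
        hl < ‖pos 0 u L'' + s • vel u L'' - ctr κ U‖ := by
  induction n using Nat.strong_induction_on with
  | _ n ih =>
    intro L hn hL hnt r hr hF hd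
    by_cases hB : ∀ m L'', m :: L'' <:+ L → ∀ s : ℝ, 0 ≤ s →
        s ≤ hitS m (pos 0 u L'') (vel u L'') → hl < ‖pos 0 u L'' + s • vel u L'' - ctr κ U‖
    · exact ⟨L, List.suffix_rfl, ⟨r, hr, hF, hd⟩, hB⟩
    · push Not at hB
      obtain ⟨m, L₂, hsuf, s, hs0, hsS, hsd⟩ := hB
      have hL2 : L₂ <:+ L := (List.suffix_cons m L₂).trans hsuf
      have hlen : L₂.length < n := by
        have := hsuf.length_le
        simp only [List.length_cons] at this
        omega
      have hrun : Run hl (conf ω) 0 u (m :: L₂) := hL.of_suffix hsuf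
      have hv : ‖vel u L₂‖ = 1 := by rw [norm_vel, hu]
      have hp : 3 * sd ≤ ‖pos 0 u L₂ - ctr κ U‖ := by
        cases L₂ with
        | nil => exact ins_zero hκ U
        | cons m' L₃ =>
          exact ins_far hω U hrun.1.2.1 (oseg_subset_seg _ _ hrun.1.pos_mem.1)
      have hS : 3 * sd ≤ ‖pos 0 u L₂ + hitS m (pos 0 u L₂) (vel u L₂) • vel u L₂ - ctr κ U‖ :=
        ins_far hω U hrun.2.1 (oseg_subset_seg _ _ hrun.2.2.2.2.1)
      have h1 := ins_pos hv hp hs0 hsd
      have h2 := ins_beyond hv hsS hsd hS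
      have h3 : |cr (vel u L₂) (ctr κ U - pos 0 u L₂)| < hl :=
        lt_of_le_of_ne (ins_cr_le hv hsd) (hnt L₂ hL2)
      obtain ⟨L', hL', hrest⟩ := ih L₂.length hlen rfl hrun.1
        (fun L' h' => hnt L' (h'.trans hL2)) h1.le (hrun.2.free h2)
        (by rw [ins_closest hv]; exact h3)
      exact ⟨L', hL'.trans hL2, hrest⟩

/-- The configuration after the insertion. -/
private theorem ins_conf {ω : Om} {κ : Cell} (h0 : (ω κ).1 = 0)
    {pts : ℕ → (unitInterval × unitInterval) × ℝ} {U : unitInterval × unitInterval} {θ : ℝ}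
    (hp : pts 0 = (U, θ)) :
    conf (Function.update ω κ (1, pts)) = insert ((ctr κ U, θ) : Mir) (conf ω) ∧
      mir (Function.update ω κ (1, pts)) (κ, 0) = (ctr κ U, θ) := by
  have hmir : mir (Function.update ω κ (1, pts)) (κ, 0) = (ctr κ U, θ) := by
    simp only [mir, Function.update_self, hp, ctr]
  refine ⟨?_, hmir⟩
  have hother : ∀ l : Cell × ℕ, l.1 ≠ κ → mir (Function.update ω κ (1, pts)) l = mir ω l := by
    intro l hl
    simp only [mir, Function.update_of_ne hl]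
  ext m
  constructor
  · rintro ⟨l, hl1, rfl⟩
    by_cases hl : l.1 = κ
    · left
      rw [hl, Function.update_self] at hl1
      have : l = (κ, 0) := by
        have h2 : l.2 = 0 := by simpa using hl1
        exact Prod.ext hl h2
      rw [this, hmir]
    · right
      rw [Function.update_of_ne hl] at hl1
      exact ⟨l, hl1, hother l hl⟩
  · rintro (rfl | ⟨l, hl1, rfl⟩)
    · refine ⟨(κ, 0), ?_, hmir.symm⟩
      simp only [Function.update_self]
      norm_num
    · have hl : l.1 ≠ κ := by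
        intro h
        rw [h, h0] at hl1
        omega
      exact ⟨l, by rw [Function.update_of_ne hl]; exact hl1, (hother l hl).symm⟩

private theorem ins_run {M : Set Mir} {b : Mir} {u : ℂ} {L : List Mir}
    (hL : Run hl M 0 u L) (h0 : (0 : ℂ) ∉ seg hl b)
    (hfl : ∀ m L'', m :: L'' <:+ L → ∀ s : ℝ, 0 ≤ s → s ≤ hitS m (pos 0 u L'') (vel u L'') →
      pos 0 u L'' + s • vel u L'' ∉ seg hl b) :
    Run hl (insert b M) 0 u L := by
  induction L with
  | nil =>
    rintro m (rfl | hm)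
    · exact h0
    · exact hL m hm
  | cons m L ih =>
    refine ⟨ih hL.1 fun m' L'' h' => hfl m' L'' (h'.trans (List.suffix_cons m L)), ?_⟩
    obtain ⟨a1, a2, a3, a4, a5⟩ := hL.2
    refine ⟨mem_insert_of_mem _ a1, a2, a3, a4, ?_⟩
    rintro m' (rfl | hm') hne r hr0 hr1
    · exact hfl m L List.suffix_rfl r hr0.le hr1
    · exact a5 m' hm' hne r hr0 hr1

/-- The deterministic part. -/
private theorem ins_det {k : ℕ} (hk : 2 ≤ k) {u : ℂ} (hu : u ∈ Dk k) {ω : Om} {κ : Cell}
    (hω : Clear ω κ) (hκ : 5 ≤ cn κ) {L : List Mir} (hL : Run hl (conf ω) 0 u L)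
    (hT : ∀ m ∈ L, m.2 ∈ Th k) (hN : NoPerp u L) {r : ℝ} (hr : 0 ≤ r)
    (hF : Free hl (conf ω) (pos 0 u L) (vel u L) r)
    (hc : cell (pos 0 u L + r • vel u L) = κ) (U : unitInterval × unitInterval)
    (hnt : ∀ L', L' <:+ L → |cr (vel u L') (ctr κ U - pos 0 u L')| ≠ hl) :
    ∃ θ ∈ Th k, ∀ pts : ℕ → (unitInterval × unitInterval) × ℝ, pts 0 = (U, θ) →
      Function.update ω κ (1, pts) ∈ FF u κ := by
  have hsd := ins_sd_pos
  have hu1 := ins_dk_norm hu
  obtain ⟨L', hL', ⟨r', hr', hF', hd'⟩, hfl⟩ :=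
    ins_first hω hκ U hu1 _ rfl hL hnt hr hF (ins_near hc U)
  have hrun := hL.of_suffix hL'
  have hv : ‖vel u L'‖ = 1 := by rw [norm_vel, hu1]
  have hT' : ∀ m ∈ L', m.2 ∈ Th k := fun m hm => hT m (hL'.subset hm)
  obtain ⟨θ, hθ, hperp⟩ := ins_perp hk (ins_vel_dk hu hT')
  refine ⟨θ, hθ, fun pts hpts => ?_⟩
  have h0 : (ω κ).1 = 0 := by
    refine hω κ ?_
    simp [cn]
  obtain ⟨hconf, hmir⟩ := ins_conf h0 hpts
  refine ⟨by simp, ?_⟩
  rw [hconf, hmir]
  set b : Mir := (ctr κ U, θ) with hb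
  have hbseg : ∀ z ∈ seg hl b, ‖z - ctr κ U‖ ≤ hl := fun z hz => mem_seg_norm z b hz
  have h0b : (0 : ℂ) ∉ seg hl b := by
    intro h
    have h1 := hbseg 0 h
    have h2 := ins_zero hκ U
    unfold hl at h1
    linarith
  have hp : 3 * sd ≤ ‖pos 0 u L' - ctr κ U‖ := by
    cases L' with
    | nil => exact ins_zero hκ U
    | cons m' L₃ => exact ins_far hω U hrun.2.1 (oseg_subset_seg _ _ hrun.pos_mem.1)
  -- cross product with the perpendicular mirror
  have hcr2 : cr (dir θ) (vel u L') ^ 2 = 1 := by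
    have := dt_sq_add_cr_sq (dir θ) (vel u L')
    rw [hperp, norm_dir, hv] at this
    linarith
  have hcr : cr (dir θ) (vel u L') ≠ 0 := by
    intro h
    rw [h] at hcr2
    norm_num at hcr2
  set s := dt (vel u L') (ctr κ U - pos 0 u L') with hs
  have hspos : 0 < s := ins_pos hv hp hr' hd'.le
  have hdlt : ‖pos 0 u L' + s • vel u L' - ctr κ U‖ < hl := by
    rw [ins_closest hv]
    exact lt_of_le_of_ne (ins_cr_le hv hd'.le) (hnt L' hL')
  -- components along the mirror
  have hmul := cr_mul_of_unit (dir θ) (pos 0 u L' + s • vel u L' - ctr κ U) hv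
  have hdt0 : dt (vel u L') (pos 0 u L' + s • vel u L' - ctr κ U) = 0 := by
    rw [show pos 0 u L' + s • vel u L' - ctr κ U =
      s • vel u L' - (ctr κ U - pos 0 u L') by ring, dt_sub, dt_smul, dt_self, hv, ← hs]
    ring
  have hline : cr (dir θ) (pos 0 u L' + s • vel u L' - b.1) = 0 := by
    change cr (dir θ) (pos 0 u L' + s • vel u L' - ctr κ U) = 0
    rw [hmul, hdt0, dt_comm, hperp]
    ring
  have hhit : s = hitS b (pos 0 u L') (vel u L') := eq_hitS hcr hline
  have hoseg : pos 0 u L' + s • vel u L' ∈ oseg hl b := by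
    refine ⟨hline, lt_of_le_of_lt ?_ hdlt⟩
    have := abs_dt_le (dir θ) (pos 0 u L' + s • vel u L' - ctr κ U)
    rw [norm_dir, one_mul] at this
    exact this
  have hfree : ∀ m ∈ conf ω, ∀ r₁ : ℝ, 0 < r₁ → r₁ ≤ s →
      pos 0 u L' + r₁ • vel u L' ∉ seg hl m := by
    intro m hm r₁ h1 h2 hmem
    rcases le_total r₁ r' with h3 | h3
    · exact hF' m hm r₁ h1 h3 hmem
    · have h4 := ins_between hv h3 h2 hd'.le
      have h5 := ins_far hω U hm hmem
      linarith
  refine ⟨L', ⟨ins_run hrun h0b ?_, mem_insert _ _, hcr, by rw [← hhit]; exact hspos,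
    by rw [← hhit]; exact hoseg, ?_⟩, hperp, fun m L'' h' => hN m L'' (h'.trans hL')⟩
  · intro m L'' h' t ht0 ht1 hmem
    have h1 := hfl m L'' h' t ht0 ht1
    have h2 := hbseg _ hmem
    linarith
  · rintro m' (h1 | hm') hne r₁ hr0 hr1
    · exact absurd h1 hne
    · rw [← hhit] at hr1
      exact hfree m' hm' r₁ hr0 hr1

/-! ### the null set -/

private theorem ins_line_null {α β γ : ℝ} (h : α ≠ 0 ∨ β ≠ 0) :
    ∀ᵐ U : unitInterval × unitInterval, α * (U.1 : ℝ) + β * (U.2 : ℝ) ≠ γ := by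
  have hmeas : MeasurableSet {U : unitInterval × unitInterval |
      α * (U.1 : ℝ) + β * (U.2 : ℝ) = γ} := by
    apply measurableSet_eq_fun
    · fun_prop
    · fun_prop
  rw [ae_iff]
  simp only [ne_eq, not_not]
  change (volume.prod volume) _ = 0
  rw [Measure.measure_prod_null hmeas]
  by_cases hβ : β = 0
  · have hα : α ≠ 0 := by
      rcases h with h | h
      · exact h
      · exact absurd hβ h
    have hnull : (volume : Measure unitInterval) {x : unitInterval | α * (x : ℝ) = γ} = 0 := by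
      refine Set.Subsingleton.measure_zero ?_ _
      intro x hx y hy
      have : α * (x : ℝ) = α * (y : ℝ) := by
        have hx' : α * (x : ℝ) = γ := hx
        have hy' : α * (y : ℝ) = γ := hy
        rw [hx', hy']
      exact Subtype.ext (mul_left_cancel₀ hα this)
    have hae : ∀ᵐ x : unitInterval, α * (x : ℝ) ≠ γ := by
      rw [ae_iff]
      simpa using hnull
    filter_upwards [hae] with x hx
    have : Prod.mk x ⁻¹' {U : unitInterval × unitInterval |
        α * (U.1 : ℝ) + β * (U.2 : ℝ) = γ} = ∅ := by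
      ext y
      simp [hβ, hx]
    rw [this]
    simp
  · refine Filter.Eventually.of_forall fun x => ?_
    refine Set.Subsingleton.measure_zero ?_ _
    intro y hy z hz
    have hy' : α * (x : ℝ) + β * (y : ℝ) = γ := hy
    have hz' : α * (x : ℝ) + β * (z : ℝ) = γ := hz
    have : β * (y : ℝ) = β * (z : ℝ) := by linarith
    exact Subtype.ext (mul_left_cancel₀ hβ this)

private theorem ins_null (κ : Cell) {v p : ℂ} (hv : v ≠ 0) (t : ℝ) :
    ∀ᵐ U : unitInterval × unitInterval, cr v (ctr κ U - p) ≠ t := by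
  have hs := ins_sd_pos
  have h : -(sd * v.im) ≠ 0 ∨ sd * v.re ≠ 0 := by
    by_contra hcon
    push Not at hcon
    apply hv
    apply Complex.ext
    · have := hcon.2
      simpa [hs.ne'] using this
    · have := hcon.1
      simpa [hs.ne'] using this
  have h2 := ins_line_null (γ := t - (v.re * (sd * κ.2 - p.im) - v.im * (sd * κ.1 - p.re))) h
  filter_upwards [h2] with U hU heq
  apply hU
  rw [← heq]
  simp only [cr, ctr, Complex.sub_re, Complex.sub_im]
  ring

theorem insertion {k : ℕ} (hk : 2 ≤ k) {u : ℂ} (hu : u ∈ Dk k) {ω : Om} {κ : Cell}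
    (hω : ω ∈ GG k u κ) :
    ∀ᵐ U : unitInterval × unitInterval, ∃ θ ∈ Th k,
      ∀ pts : ℕ → (unitInterval × unitInterval) × ℝ, pts 0 = (U, θ) →
        Function.update ω κ (1, pts) ∈ FF u κ := by
  obtain ⟨hcl, hκ, L, hL, hT, hN, r, hr, hF, hc⟩ := hω
  have hu1 := ins_dk_norm hu
  have hae : ∀ᵐ U : unitInterval × unitInterval, ∀ L' ∈ L.tails,
      |cr (vel u L') (ctr κ U - pos 0 u L')| ≠ hl := by
    have hfin : {L' : List Mir | L' ∈ L.tails}.Finite := L.tails.finite_toSet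
    have := (ae_ball_iff (μ := (volume : Measure (unitInterval × unitInterval)))
      (p := fun U L' _ => |cr (vel u L') (ctr κ U - pos 0 u L')| ≠ hl) hfin.countable).2
    refine this fun L' _ => ?_
    have hv : vel u L' ≠ 0 := by
      intro h
      have h1 : ‖vel u L'‖ = 1 := by rw [norm_vel, hu1]
      rw [h, norm_zero] at h1
      exact zero_ne_one h1
    filter_upwards [ins_null κ (p := pos 0 u L') hv hl, ins_null κ (p := pos 0 u L') hv (-hl)]
      with U h1 h2 h3
    rcases eq_or_eq_neg_of_abs_eq h3 with h4 | h4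
    · exact h1 h4
    · exact h2 h4
  filter_upwards [hae] with U hU
  exact ins_det hk hu hcl hκ hL hT hN hr hF hc U fun L' h' => hU L' ((List.mem_tails L' L).2 h')

end Pool.Agent.Lib.MP_3309cd_pr
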