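import Pool.Agent.Lib.MP_3309cd_pr.Defs

/-!
Measurability of the events about the ray (MP_3309cd_pr).
-/

namespace Pool.Agent.Lib.MP_3309cd_pr

open MeasureTheory ProbabilityTheory Set Filter Topology

/-! ### Elementary continuity and measurability -/

private theorem measRun_dir_eq (θ : ℝ) :
    dir θ = ((Real.cos θ : ℝ) : ℂ) + ((Real.sin θ : ℝ) : ℂ) * Complex.I :=
  Complex.mk_eq_add_mul_I _ _

private theorem measRun_cont_dir : Continuous dir := by
  have h : dir = fun θ : ℝ => ((Real.cos θ : ℝ) : ℂ) + ((Real.sin θ : ℝ) : ℂ) * Complex.I :=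
    funext measRun_dir_eq
  rw [h]
  fun_prop

private theorem measRun_cont_cr {X : Type*} [TopologicalSpace X] {f g : X → ℂ}
    (hf : Continuous f) (hg : Continuous g) : Continuous fun x => cr (f x) (g x) := by
  unfold cr
  fun_prop

private theorem measRun_cont_dt {X : Type*} [TopologicalSpace X] {f g : X → ℂ}
    (hf : Continuous f) (hg : Continuous g) : Continuous fun x => dt (f x) (g x) := by
  unfold dt
  fun_prop

private theorem measRun_meas_cr {X : Type*} [MeasurableSpace X] {f g : X → ℂ}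
    (hf : Measurable f) (hg : Measurable g) : Measurable fun x => cr (f x) (g x) := by
  have h : Continuous fun z : ℂ × ℂ => cr z.1 z.2 := measRun_cont_cr continuous_fst continuous_snd
  exact h.measurable.comp (hf.prodMk hg)

private theorem measRun_meas_dt {X : Type*} [MeasurableSpace X] {f g : X → ℂ}
    (hf : Measurable f) (hg : Measurable g) : Measurable fun x => dt (f x) (g x) := by
  have h : Continuous fun z : ℂ × ℂ => dt z.1 z.2 := measRun_cont_dt continuous_fst continuous_snd
  exact h.measurable.comp (hf.prodMk hg)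

private theorem measRun_meas_mir (l : Cell × ℕ) : Measurable fun ω : Om => mir ω l := by
  have h0 : Measurable fun ω : Om => ((ω l.1).2 l.2) :=
    (measurable_pi_apply l.2).comp (measurable_snd.comp (measurable_pi_apply l.1))
  have h1 : Measurable fun ω : Om => (((ω l.1).2 l.2).1.1 : ℝ) :=
    measurable_subtype_coe.comp (measurable_fst.comp (measurable_fst.comp h0))
  have h2 : Measurable fun ω : Om => (((ω l.1).2 l.2).1.2 : ℝ) :=
    measurable_subtype_coe.comp (measurable_snd.comp (measurable_fst.comp h0))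
  have h3 : Measurable fun ω : Om => ((ω l.1).2 l.2).2 := measurable_snd.comp h0
  have h4 : (fun ω : Om => mir ω l) = fun ω : Om =>
      (((sd * (l.1.1 + (((ω l.1).2 l.2).1.1 : ℝ)) : ℝ) : ℂ) +
        ((sd * (l.1.2 + (((ω l.1).2 l.2).1.2 : ℝ)) : ℝ) : ℂ) * Complex.I,
          ((ω l.1).2 l.2).2) := by
    funext ω
    unfold mir
    refine Prod.ext ?_ rfl
    exact Complex.mk_eq_add_mul_I _ _
  rw [h4]
  refine Measurable.prodMk ?_ h3
  have h5 : Measurable fun ω : Om => ((sd * (l.1.1 + (((ω l.1).2 l.2).1.1 : ℝ)) : ℝ) : ℂ) :=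
    Complex.measurable_ofReal.comp ((h1.const_add _).const_mul _)
  have h6 : Measurable fun ω : Om => ((sd * (l.1.2 + (((ω l.1).2 l.2).1.2 : ℝ)) : ℝ) : ℂ) :=
    Complex.measurable_ofReal.comp ((h2.const_add _).const_mul _)
  exact h5.add (h6.mul_const _)

private theorem measRun_meas_dir {X : Type*} [MeasurableSpace X] {m : X → Mir}
    (hm : Measurable m) : Measurable fun x => dir (m x).2 :=
  measRun_cont_dir.measurable.comp (measurable_snd.comp hm)

private theorem measRun_meas_rl {X : Type*} [MeasurableSpace X] {m : X → Mir} {v : X → ℂ}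
    (hm : Measurable m) (hv : Measurable v) : Measurable fun x => rl (m x) (v x) := by
  unfold rl
  have h1 : Measurable fun x => (starRingEnd ℂ) (v x) := Complex.continuous_conj.measurable.comp hv
  exact ((measRun_meas_dir hm).pow_const 2).mul h1

private theorem measRun_meas_hitS {X : Type*} [MeasurableSpace X] {m : X → Mir} {p v : X → ℂ}
    (hm : Measurable m) (hp : Measurable p) (hv : Measurable v) :
    Measurable fun x => hitS (m x) (p x) (v x) := by
  unfold hitS
  have h1 : Measurable fun x => (m x).1 := measurable_fst.comp hm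
  exact (measRun_meas_cr (measRun_meas_dir hm) (h1.sub hp)).div
    (measRun_meas_cr (measRun_meas_dir hm) hv)

theorem meas_vel (u : ℂ) (Λ : List (Cell × ℕ)) :
    Measurable fun ω : Om => vel u (Λ.map (mir ω)) := by
  induction Λ with
  | nil => exact measurable_const
  | cons l Λ ih => exact measRun_meas_rl (measRun_meas_mir l) ih

theorem meas_pos (u : ℂ) (Λ : List (Cell × ℕ)) :
    Measurable fun ω : Om => pos 0 u (Λ.map (mir ω)) := by
  induction Λ with
  | nil => exact measurable_const
  | cons l Λ ih =>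
    have h1 := measRun_meas_hitS (measRun_meas_mir l) ih (meas_vel u Λ)
    exact ih.add (h1.smul (meas_vel u Λ))

theorem meas_tim (u : ℂ) (Λ : List (Cell × ℕ)) :
    Measurable fun ω : Om => tim 0 u (Λ.map (mir ω)) := by
  induction Λ with
  | nil => exact measurable_const
  | cons l Λ ih =>
    have h1 := measRun_meas_hitS (measRun_meas_mir l) (meas_pos u Λ) (meas_vel u Λ)
    exact ih.add h1

/-! ### Segments -/

private theorem measRun_comp {X Y : Type*} [MeasurableSpace X] [MeasurableSpace Y]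
    (P : Y → Prop) (hP : MeasurableSet {y | P y}) (f : X → Y) (hf : Measurable f) :
    MeasurableSet {x | P (f x)} := hf hP

private theorem measRun_closed_seg (h : ℝ) : IsClosed {x : Mir × ℂ | x.2 ∈ seg h x.1} := by
  have h1 : Continuous fun x : Mir × ℂ => dir x.1.2 := measRun_cont_dir.comp (by fun_prop)
  have h2 : Continuous fun x : Mir × ℂ => x.2 - x.1.1 := by fun_prop
  exact (isClosed_eq (measRun_cont_cr h1 h2) continuous_const).inter
    (isClosed_le (measRun_cont_dt h1 h2).abs continuous_const)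

private theorem measRun_meas_seg {X : Type*} [MeasurableSpace X] (h : ℝ) {m : X → Mir}
    {z : X → ℂ} (hm : Measurable m) (hz : Measurable z) :
    MeasurableSet {x | z x ∈ seg h (m x)} :=
  measRun_comp (fun y : Mir × ℂ => y.2 ∈ seg h y.1) (measRun_closed_seg h).measurableSet
    (fun x => (m x, z x)) (hm.prodMk hz)

private theorem measRun_meas_oseg {X : Type*} [MeasurableSpace X] (h : ℝ) {m : X → Mir}
    {z : X → ℂ} (hm : Measurable m) (hz : Measurable z) :
    MeasurableSet {x | z x ∈ oseg h (m x)} := by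
  have h1 := measRun_meas_dir hm
  have h2 : Measurable fun x => z x - (m x).1 := hz.sub (measurable_fst.comp hm)
  exact (measurableSet_eq_fun (measRun_meas_cr h1 h2) measurable_const).inter
    (measurableSet_lt (measRun_meas_dt h1 h2).abs measurable_const)

/-- the flights of length `s` which meet the mirror after time at least `a`: a closed set -/
private theorem measRun_closed_flight (h a : ℝ) :
    IsClosed {x : (Mir × ℂ) × (ℂ × ℝ) | ∃ t : unitInterval,
      x.1.2 + (a + t * (x.2.2 - a)) • x.2.1 ∈ seg h x.1.1} := by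
  have h1 : IsClosed {y : unitInterval × ((Mir × ℂ) × (ℂ × ℝ)) |
      y.2.1.2 + (a + y.1 * (y.2.2.2 - a)) • y.2.2.1 ∈ seg h y.2.1.1} := by
    have h2 : Continuous fun y : unitInterval × ((Mir × ℂ) × (ℂ × ℝ)) =>
        ((y.2.1.1, y.2.1.2 + (a + (y.1 : ℝ) * (y.2.2.2 - a)) • y.2.2.1) : Mir × ℂ) := by
      fun_prop
    exact (measRun_closed_seg h).preimage h2
  have h3 := isClosedMap_snd_of_compactSpace (X := unitInterval)
    (Y := (Mir × ℂ) × (ℂ × ℝ)) _ h1
  have h4 : {x : (Mir × ℂ) × (ℂ × ℝ) | ∃ t : unitInterval,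
      x.1.2 + (a + t * (x.2.2 - a)) • x.2.1 ∈ seg h x.1.1} =
      Prod.snd '' {y : unitInterval × ((Mir × ℂ) × (ℂ × ℝ)) |
      y.2.1.2 + (a + y.1 * (y.2.2.2 - a)) • y.2.2.1 ∈ seg h y.2.1.1} := by
    ext x
    constructor
    · rintro ⟨t, ht⟩
      exact ⟨(t, x), ht, rfl⟩
    · rintro ⟨⟨t, y⟩, ht, rfl⟩
      exact ⟨t, ht⟩
  rw [h4]
  exact h3

private theorem measRun_meas_flight {X : Type*} [MeasurableSpace X] (h : ℝ) {m : X → Mir}
    {p v : X → ℂ} {r : X → ℝ} (hm : Measurable m) (hp : Measurable p) (hv : Measurable v)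
    (hr : Measurable r) :
    MeasurableSet {x | ∀ r' : ℝ, 0 < r' → r' ≤ r x → p x + r' • v x ∉ seg h (m x)} := by
  have hset : {x | ∀ r' : ℝ, 0 < r' → r' ≤ r x → p x + r' • v x ∉ seg h (m x)} =
      (⋃ n : ℕ, ({x | (1 / ((n : ℝ) + 1)) ≤ r x} ∩
        {x | ∃ t : unitInterval, p x + ((1 / ((n : ℝ) + 1)) +
          t * (r x - (1 / ((n : ℝ) + 1)))) • v x ∈ seg h (m x)}))ᶜ := by
    ext x
    simp only [mem_ofPred_eq, mem_compl_iff, mem_iUnion, mem_inter_iff, not_exists, not_and]
    constructor
    · intro hx n hn t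
      have hn0 : (0 : ℝ) < 1 / ((n : ℝ) + 1) := by positivity
      apply hx
      · have : 0 ≤ (t : ℝ) * (r x - (1 / ((n : ℝ) + 1))) :=
          mul_nonneg t.2.1 (by linarith)
        linarith
      · have : (t : ℝ) * (r x - (1 / ((n : ℝ) + 1))) ≤ 1 * (r x - (1 / ((n : ℝ) + 1))) :=
          mul_le_mul_of_nonneg_right t.2.2 (by linarith)
        linarith
    · intro hx r' hr0 hr1 hmem
      obtain ⟨n, hn⟩ := exists_nat_one_div_lt hr0
      have hd : 0 ≤ r x - (1 / ((n : ℝ) + 1)) := by linarith
      rcases hd.eq_or_lt with hd0 | hd0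
      · linarith
      · refine hx n (by linarith) ⟨(r' - (1 / ((n : ℝ) + 1))) / (r x - (1 / ((n : ℝ) + 1))),
          div_nonneg (by linarith) hd, (div_le_one hd0).2 (by linarith)⟩ ?_
        have he : (1 / ((n : ℝ) + 1)) + (r' - (1 / ((n : ℝ) + 1))) /
            (r x - (1 / ((n : ℝ) + 1))) * (r x - (1 / ((n : ℝ) + 1))) = r' := by
          rw [div_mul_cancel₀ _ hd0.ne']
          ring
        simp only
        rw [he]
        exact hmem
  rw [hset]
  refine (MeasurableSet.iUnion fun n => (measurableSet_le measurable_const hr).inter ?_).compl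
  exact measRun_comp (fun y : (Mir × ℂ) × (ℂ × ℝ) => ∃ t : unitInterval,
      y.1.2 + ((1 / ((n : ℝ) + 1)) + t * (y.2.2 - (1 / ((n : ℝ) + 1)))) • y.2.1 ∈ seg h y.1.1)
    (measRun_closed_flight h (1 / ((n : ℝ) + 1))).measurableSet
    (fun x => ((m x, p x), (v x, r x))) ((hm.prodMk hp).prodMk (hv.prodMk hr))

/-- events `for all mirrors of the configuration` -/
private theorem measRun_forall_conf {Q : Om → Mir → Prop}
    (hQ : ∀ l : Cell × ℕ, MeasurableSet {ω : Om | Q ω (mir ω l)}) :
    MeasurableSet {ω : Om | ∀ m ∈ conf ω, Q ω m} := by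
  have h1 : {ω : Om | ∀ m ∈ conf ω, Q ω m} =
      ⋂ l : Cell × ℕ, ({ω : Om | l.2 < (ω l.1).1}ᶜ ∪ {ω : Om | Q ω (mir ω l)}) := by
    ext ω
    simp only [mem_ofPred_eq, mem_iInter, mem_union, mem_compl_iff]
    constructor
    · intro h l
      by_cases hl : l.2 < (ω l.1).1
      · exact Or.inr (h _ ⟨l, hl, rfl⟩)
      · exact Or.inl hl
    · rintro h m ⟨l, hl, rfl⟩
      rcases h l with h' | h'
      · exact absurd hl h'
      · exact h'
  rw [h1]
  refine MeasurableSet.iInter fun l => MeasurableSet.union (MeasurableSet.compl ?_) (hQ l)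
  exact measurableSet_lt measurable_const (measurable_fst.comp (measurable_pi_apply l.1))

private theorem measRun_mem_conf (l : Cell × ℕ) : MeasurableSet {ω : Om | mir ω l ∈ conf ω} := by
  have h1 : {ω : Om | mir ω l ∈ conf ω} =
      {ω : Om | ∀ m ∈ conf ω, m ≠ mir ω l}ᶜ := by
    ext ω
    simp only [mem_ofPred_eq, mem_compl_iff, not_forall]
    constructor
    · intro h
      exact ⟨_, h, fun h' => h' rfl⟩
    · rintro ⟨m, hm, hm'⟩
      push Not at hm'
      rw [← hm']
      exact hm
  rw [h1]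
  refine (measRun_forall_conf fun l' => ?_).compl
  exact (measurableSet_eq_fun (measRun_meas_mir l') (measRun_meas_mir l)).compl

theorem meas_run (u : ℂ) (Λ : List (Cell × ℕ)) :
    MeasurableSet {ω : Om | Run hl (conf ω) 0 u (Λ.map (mir ω))} := by
  induction Λ with
  | nil =>
    exact measRun_forall_conf (Q := fun ω m => (0 : ℂ) ∉ seg hl m) fun l =>
      (measRun_meas_seg hl (measRun_meas_mir l) measurable_const).compl
  | cons l Λ ih =>
    have hm := measRun_meas_mir l
    have hp := meas_pos u Λ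
    have hv := meas_vel u Λ
    have hS := measRun_meas_hitS hm hp hv
    have h1 : MeasurableSet {ω : Om | mir ω l ∈ conf ω} := measRun_mem_conf l
    have h2 : MeasurableSet {ω : Om | cr (dir (mir ω l).2) (vel u (Λ.map (mir ω))) ≠ 0} :=
      (measurableSet_eq_fun (measRun_meas_cr (measRun_meas_dir hm) hv) measurable_const).compl
    have h3 : MeasurableSet {ω : Om | 0 < hitS (mir ω l) (pos 0 u (Λ.map (mir ω)))
        (vel u (Λ.map (mir ω)))} := measurableSet_lt measurable_const hS
    have h4 : MeasurableSet {ω : Om | pos 0 u (Λ.map (mir ω)) +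
        hitS (mir ω l) (pos 0 u (Λ.map (mir ω))) (vel u (Λ.map (mir ω))) •
          vel u (Λ.map (mir ω)) ∈ oseg hl (mir ω l)} :=
      measRun_meas_oseg hl hm (hp.add (hS.smul hv))
    have h5 : MeasurableSet {ω : Om | ∀ m' ∈ conf ω, m' ≠ mir ω l →
        ∀ r : ℝ, 0 < r → r ≤ hitS (mir ω l) (pos 0 u (Λ.map (mir ω))) (vel u (Λ.map (mir ω))) →
          pos 0 u (Λ.map (mir ω)) + r • vel u (Λ.map (mir ω)) ∉ seg hl m'} := by
      refine measRun_forall_conf fun l' => ?_
      have h6 := measRun_meas_flight hl (measRun_meas_mir l') hp hv hS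
      have h7 : MeasurableSet {ω : Om | mir ω l' = mir ω l} :=
        measurableSet_eq_fun (measRun_meas_mir l') hm
      have h8 : {ω : Om | mir ω l' ≠ mir ω l → ∀ r : ℝ, 0 < r →
          r ≤ hitS (mir ω l) (pos 0 u (Λ.map (mir ω))) (vel u (Λ.map (mir ω))) →
            pos 0 u (Λ.map (mir ω)) + r • vel u (Λ.map (mir ω)) ∉ seg hl (mir ω l')} =
          {ω : Om | mir ω l' = mir ω l} ∪ {ω : Om | ∀ r : ℝ, 0 < r →
          r ≤ hitS (mir ω l) (pos 0 u (Λ.map (mir ω))) (vel u (Λ.map (mir ω))) →
            pos 0 u (Λ.map (mir ω)) + r • vel u (Λ.map (mir ω)) ∉ seg hl (mir ω l')} := by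
        ext ω
        simp only [mem_ofPred_eq, mem_union]
        tauto
      rw [h8]
      exact h7.union h6
    exact ih.inter (h1.inter (h2.inter (h3.inter (h4.inter h5))))

theorem meas_free {p v : Om → ℂ} {r : Om → ℝ} (hp : Measurable p) (hv : Measurable v)
    (hr : Measurable r) : MeasurableSet {ω : Om | Free hl (conf ω) (p ω) (v ω) (r ω)} :=
  measRun_forall_conf fun l => measRun_meas_flight hl (measRun_meas_mir l) hp hv hr

/-! ### The first perpendicular reflection -/

private theorem measRun_noPerp_cons (u : ℂ) (m : Mir) (L : List Mir) :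
    NoPerp u (m :: L) ↔ dt (dir m.2) (vel u L) ≠ 0 ∧ NoPerp u L := by
  constructor
  · intro h
    exact ⟨h m L (List.suffix_refl _), fun m' L' h' => h m' L' (h'.trans (List.suffix_cons _ _))⟩
  · rintro ⟨h1, h2⟩ m' L' h'
    rcases List.suffix_cons_iff.1 h' with h3 | h3
    · injection h3 with h4 h5
      rw [h4, h5]
      exact h1
    · exact h2 m' L' h3

private theorem measRun_meas_noPerp (u : ℂ) (Λ : List (Cell × ℕ)) :
    MeasurableSet {ω : Om | NoPerp u (Λ.map (mir ω))} := by
  induction Λ with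
  | nil =>
    have : {ω : Om | NoPerp u (([] : List (Cell × ℕ)).map (mir ω))} = univ := by
      ext ω
      simp only [mem_ofPred_eq, mem_univ, iff_true, List.map_nil]
      intro m L' h
      simp at h
    rw [this]
    exact MeasurableSet.univ
  | cons l Λ ih =>
    have h1 : {ω : Om | NoPerp u ((l :: Λ).map (mir ω))} =
        {ω : Om | dt (dir (mir ω l).2) (vel u (Λ.map (mir ω))) = 0}ᶜ ∩
          {ω : Om | NoPerp u (Λ.map (mir ω))} := by
      ext ω
      simp only [List.map_cons, mem_ofPred_eq, mem_inter_iff, mem_compl_iff,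
        measRun_noPerp_cons, ne_eq]
    rw [h1]
    exact (measurableSet_eq_fun (measRun_meas_dt (measRun_meas_dir (measRun_meas_mir l))
      (meas_vel u Λ)) measurable_const).compl.inter ih

private theorem measRun_run_mem {h : ℝ} {M : Set Mir} {x u : ℂ} {L : List Mir}
    (hL : Run h M x u L) : ∀ m ∈ L, m ∈ M := by
  induction L with
  | nil => intro m hm; simp at hm
  | cons a L ih =>
    intro m hm
    rcases List.mem_cons.1 hm with h1 | h1
    · rw [h1]
      exact hL.2.1
    · exact ih hL.1 m h1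

private theorem measRun_exists_labels (ω : Om) (L : List Mir) (hL : ∀ m ∈ L, m ∈ conf ω) :
    ∃ Λ : List (Cell × ℕ), L = Λ.map (mir ω) := by
  induction L with
  | nil => exact ⟨[], rfl⟩
  | cons a L ih =>
    obtain ⟨Λ, hΛ⟩ := ih fun m hm => hL m (List.mem_cons_of_mem _ hm)
    obtain ⟨l, -, hl⟩ := hL a List.mem_cons_self
    exact ⟨l :: Λ, by rw [List.map_cons, ← hl, ← hΛ]⟩

theorem meas_FF (u : ℂ) (κ : Cell) : MeasurableSet (FF u κ) := by
  have h1 : FF u κ = {ω : Om | (ω κ).1 = 1} ∩ ⋃ Λ : List (Cell × ℕ),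
      ({ω : Om | Run hl (conf ω) 0 u (((κ, 0) :: Λ).map (mir ω))} ∩
        ({ω : Om | dt (dir (mir ω (κ, 0)).2) (vel u (Λ.map (mir ω))) = 0} ∩
          {ω : Om | NoPerp u (Λ.map (mir ω))})) := by
    ext ω
    simp only [FF, FirstPerp, mem_ofPred_eq, mem_inter_iff, mem_iUnion, List.map_cons]
    refine and_congr_right fun _ => ?_
    constructor
    · rintro ⟨L, hL1, hL2, hL3⟩
      obtain ⟨Λ, hΛ⟩ := measRun_exists_labels ω L (measRun_run_mem hL1.1)
      rw [hΛ] at hL1 hL2 hL3
      exact ⟨Λ, hL1, hL2, hL3⟩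
    · rintro ⟨Λ, hL1, hL2, hL3⟩
      exact ⟨_, hL1, hL2, hL3⟩
  rw [h1]
  refine MeasurableSet.inter ?_ (MeasurableSet.iUnion fun Λ => (meas_run u _).inter
    (MeasurableSet.inter ?_ (measRun_meas_noPerp u Λ)))
  · exact measurableSet_eq_fun (measurable_fst.comp (measurable_pi_apply κ)) measurable_const
  · exact measurableSet_eq_fun (measRun_meas_dt (measRun_meas_dir (measRun_meas_mir (κ, 0)))
      (meas_vel u Λ)) measurable_const

end Pool.Agent.Lib.MP_3309cd_pr
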