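import Pool.Agent.Lib.MP_3309cd_pr.AeBasic
import Pool.Agent.Lib.MP_3309cd_pr.MeasRun
import Pool.Agent.Lib.MP_3309cd_pr.Geom
import Pool.Agent.Lib.MP_3309cd_pr.Insertion

/-!
The first perpendicular reflection happens in at most one cell, and the expected number of
clear cells visited before it is bounded (MP_3309cd_pr).
-/

namespace Pool.Agent.Lib.MP_3309cd_pr

open MeasureTheory ProbabilityTheory Set Filter Topology

/-- Uniqueness of the first perpendicular mirror. -/
theorem ggb_firstPerp_unique {h : ℝ} {M : Set Mir} {u : ℂ} {m m' : Mir}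
    (h1 : FirstPerp h M u m) (h2 : FirstPerp h M u m') : m = m' := by
  obtain ⟨L, hL, hd, hn⟩ := h1
  obtain ⟨L', hL', hd', hn'⟩ := h2
  rcases hL.suffix_or hL' with h3 | h3
  · rcases List.suffix_cons_iff.1 h3 with h4 | h4
    · injection h4 with h5 h6
      exact h5.symm
    · exact absurd hd' (hn m' L' h4)
  · rcases List.suffix_cons_iff.1 h3 with h4 | h4
    · injection h4 with h5 h6
    · exact absurd hd (hn' m L h4)

theorem ggb_aedisjoint (μ : Measure ℝ) [IsProbabilityMeasure μ] (u : ℂ) :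
    Pairwise (Function.onFun (AEDisjoint (PP μ)) (FF u)) := by
  intro κ κ' hne
  have hl : ((κ, 0) : Cell × ℕ) ≠ (κ', 0) := fun h => hne (congrArg Prod.fst h)
  have h1 := aeb_pair_line μ hl
  refine measure_mono_null ?_ (ae_iff.1 h1)
  rintro ω ⟨⟨-, h2⟩, ⟨-, h3⟩⟩
  have h4 := ggb_firstPerp_unique h2 h3
  simp only [mem_ofPred_eq, not_not]
  rw [← h4, sub_self]
  simp [cr]

theorem ggb_isProb (μ : Measure ℝ) [IsProbabilityMeasure μ] :
    IsProbabilityMeasure (ptLaw μ) ∧ IsProbabilityMeasure (cellLaw μ) ∧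
      IsProbabilityMeasure (PP μ) := by
  have h1 : IsProbabilityMeasure (ptLaw μ) := by unfold ptLaw; infer_instance
  have h2 : IsProbabilityMeasure (cellLaw μ) := by
    unfold cellLaw
    have h4 : IsProbabilityMeasure (Measure.infinitePi fun _ : ℕ => ptLaw μ) := inferInstance
    infer_instance
  exact ⟨h1, h2, by unfold PP; infer_instance⟩

theorem tsum_FF (μ : Measure ℝ) [IsProbabilityMeasure μ] (u : ℂ) :
    ∑' κ : Cell, PP μ (FF u κ) ≤ 1 := by
  obtain ⟨-, -, h3⟩ := ggb_isProb μ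
  rw [← measure_iUnion₀ (ggb_aedisjoint μ u) fun κ => (meas_FF u κ).nullMeasurableSet]
  exact prob_le_one

/-- The parameter of the Poisson law. -/
noncomputable def ggbR : NNReal := ⟨sd ^ 2, sq_nonneg sd⟩

theorem ggb_sd_pos : 0 < sd := by unfold sd; norm_num

theorem ggb_poisson_one :
    (poissonMeasure ggbR) {1} = ENNReal.ofReal (sd ^ 2) * (poissonMeasure ggbR) {0} := by
  rw [poissonMeasure_singleton, poissonMeasure_singleton, ← ENNReal.ofReal_mul (sq_nonneg sd)]
  congr 1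
  have : (ggbR : ℝ) = sd ^ 2 := rfl
  rw [this]
  simp
  ring

theorem ggb_cell_eq (μ : Measure ℝ) :
    cellLaw μ = (poissonMeasure ggbR).prod (Measure.infinitePi fun _ : ℕ => ptLaw μ) := rfl

/-- A lower bound for the probability of an event about one mark. -/
theorem ggb_pts_lower (μ : Measure ℝ) [IsProbabilityMeasure μ] {w : ENNReal}
    {E : Set (ℕ → (unitInterval × unitInterval) × ℝ)} (hE : MeasurableSet E)
    (h : ∀ᵐ U : unitInterval × unitInterval, ∃ θ : ℝ, w ≤ μ {θ} ∧
      ∀ pts : ℕ → (unitInterval × unitInterval) × ℝ, pts 0 = (U, θ) → pts ∈ E) :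
    w ≤ (Measure.infinitePi fun _ : ℕ => ptLaw μ) E := by
  obtain ⟨h1, -, -⟩ := ggb_isProb μ
  have hres := resample_infinitePi (ptLaw μ) (0 : ℕ)
  rw [← hres.measure_preimage hE.nullMeasurableSet, Measure.prod_apply (hres.measurable hE)]
  have hkey : ∀ pts : ℕ → (unitInterval × unitInterval) × ℝ, w ≤ ptLaw μ (Prod.mk pts ⁻¹'
      ((fun p : (ℕ → (unitInterval × unitInterval) × ℝ) × ((unitInterval × unitInterval) × ℝ) =>
        Function.update p.1 0 p.2) ⁻¹' E)) := by
    intro pts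
    have hB := measurable_prodMk_left (x := pts) (hres.measurable hE)
    unfold ptLaw
    rw [Measure.prod_apply hB]
    calc w = ∫⁻ _ : unitInterval × unitInterval, w := by
          rw [lintegral_const, measure_univ, mul_one]
      _ ≤ _ := by
          refine lintegral_mono_ae ?_
          filter_upwards [h] with U hU
          obtain ⟨θ, hθ, hpts⟩ := hU
          refine hθ.trans (measure_mono ?_)
          rintro θ' rfl
          simp only [mem_preimage]
          exact hpts _ (Function.update_self _ _ _)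
  calc w = ∫⁻ _ : ℕ → (unitInterval × unitInterval) × ℝ, w ∂(Measure.infinitePi fun _ : ℕ =>
        ptLaw μ) := by
        rw [lintegral_const, measure_univ, mul_one]
    _ ≤ _ := lintegral_mono fun pts => hkey pts

/-- The probability of the event `FF` after resampling of the cell `κ`. -/
noncomputable def ggbF (μ : Measure ℝ) (u : ℂ) (κ : Cell) (ω : Om) : ENNReal :=
  cellLaw μ {e : CC | Function.update ω κ e ∈ FF u κ}

theorem ggb_meas_F (μ : Measure ℝ) [IsProbabilityMeasure μ] (u : ℂ) (κ : Cell) :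
    Measurable (ggbF μ u κ) := by
  obtain ⟨-, h2, -⟩ := ggb_isProb μ
  exact measurable_measure_prodMk_left ((resample μ κ).measurable (meas_FF u κ))

theorem ggb_lintegral_F (μ : Measure ℝ) [IsProbabilityMeasure μ] (u : ℂ) (κ : Cell) :
    ∫⁻ ω, ggbF μ u κ ω ∂(PP μ) = PP μ (FF u κ) := by
  obtain ⟨-, h2, h3⟩ := ggb_isProb μ
  rw [← (resample μ κ).measure_preimage (meas_FF u κ).nullMeasurableSet,
    Measure.prod_apply ((resample μ κ).measurable (meas_FF u κ))]
  rfl

theorem ggb_F_update (μ : Measure ℝ) (u : ℂ) (κ : Cell) (ω : Om) (e : CC) :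
    ggbF μ u κ (Function.update ω κ e) = ggbF μ u κ ω := by
  unfold ggbF
  simp only [Function.update_idem]

theorem ggb_F_lower (μ : Measure ℝ) [IsProbabilityMeasure μ] {k : ℕ} (hk : 2 ≤ k) {u : ℂ}
    (hu : u ∈ Dk k) {w : ℝ} (hμ : ∀ θ ∈ Th k, ENNReal.ofReal w ≤ μ {θ}) {κ : Cell} {ω : Om}
    (hω : ω ∈ GG k u κ) :
    (poissonMeasure ggbR) {1} * ENNReal.ofReal w ≤ ggbF μ u κ ω := by
  obtain ⟨h1, -, -⟩ := ggb_isProb μ
  have hup : Measurable fun e : CC => Function.update ω κ e := by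
    have h := (resample μ κ).measurable.comp (measurable_prodMk_left (x := ω) (β := CC))
    exact h
  have hE : MeasurableSet {e : CC | Function.update ω κ e ∈ FF u κ} := hup (meas_FF u κ)
  have hE1 : MeasurableSet {pts : ℕ → (unitInterval × unitInterval) × ℝ |
      Function.update ω κ ((1, pts) : CC) ∈ FF u κ} := by
    have h : Measurable fun pts : ℕ → (unitInterval × unitInterval) × ℝ => ((1, pts) : CC) :=
      measurable_prodMk_left
    exact h hE
  have hlow : ENNReal.ofReal w ≤ (Measure.infinitePi fun _ : ℕ => ptLaw μ)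
      {pts : ℕ → (unitInterval × unitInterval) × ℝ |
        Function.update ω κ ((1, pts) : CC) ∈ FF u κ} := by
    apply ggb_pts_lower μ hE1
    filter_upwards [insertion hk hu hω] with U hU
    obtain ⟨θ, hθ, hpts⟩ := hU
    exact ⟨θ, hμ θ hθ, hpts⟩
  unfold ggbF
  rw [ggb_cell_eq]
  set E1 : Set (ℕ → (unitInterval × unitInterval) × ℝ) :=
    {pts : ℕ → (unitInterval × unitInterval) × ℝ |
      Function.update ω κ ((1, pts) : CC) ∈ FF u κ} with hE1def
  calc (poissonMeasure ggbR) {1} * ENNReal.ofReal w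
      ≤ (poissonMeasure ggbR) {1} * (Measure.infinitePi fun _ : ℕ => ptLaw μ) E1 :=
        mul_le_mul_right hlow _
    _ = ((poissonMeasure ggbR).prod (Measure.infinitePi fun _ : ℕ => ptLaw μ)) ({1} ×ˢ E1) :=
        (Measure.prod_prod _ _).symm
    _ ≤ _ := by
        refine measure_mono ?_
        rintro ⟨N, pts⟩ ⟨hN, hp⟩
        have hN' : N = 1 := hN
        subst hN'
        exact hp

theorem GG_bound (μ : Measure ℝ) [IsProbabilityMeasure μ] {k : ℕ} (hk : 2 ≤ k) {u : ℂ}
    (hu : u ∈ Dk k) {w : ℝ} (hw : 0 < w) (hμ : ∀ θ ∈ Th k, ENNReal.ofReal w ≤ μ {θ}) :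
    ∃ G' : Cell → Set Om, (∀ κ, MeasurableSet (G' κ)) ∧ (∀ κ, GG k u κ ⊆ G' κ) ∧
      ∑' κ : Cell, PP μ (G' κ) ≤ ENNReal.ofReal (1 / (sd ^ 2 * w)) := by
  obtain ⟨-, h2, h3⟩ := ggb_isProb μ
  set c : ENNReal := (poissonMeasure ggbR) {1} * ENNReal.ofReal w with hc
  have hm0 : ∀ κ : Cell, MeasurableSet {ω : Om | (ω κ).1 = 0} := fun κ =>
    (measurable_fst.comp (measurable_pi_apply κ)) (measurableSet_singleton 0)
  have hmF : ∀ κ : Cell, MeasurableSet {ω : Om | c ≤ ggbF μ u κ ω} := fun κ =>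
    measurableSet_le measurable_const (ggb_meas_F μ u κ)
  have hmain : ∀ κ : Cell, ENNReal.ofReal (sd ^ 2 * w) *
      PP μ ({ω : Om | (ω κ).1 = 0} ∩ {ω : Om | c ≤ ggbF μ u κ ω}) ≤ PP μ (FF u κ) := by
    intro κ
    have h4 : PP μ ({ω : Om | (ω κ).1 = 0} ∩ {ω : Om | c ≤ ggbF μ u κ ω}) =
        PP μ {ω : Om | c ≤ ggbF μ u κ ω} * (poissonMeasure ggbR) {0} := by
      rw [← (resample μ κ).measure_preimage ((hm0 κ).inter (hmF κ)).nullMeasurableSet]
      have h5 : (fun p : Om × CC => Function.update p.1 κ p.2) ⁻¹'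
          ({ω : Om | (ω κ).1 = 0} ∩ {ω : Om | c ≤ ggbF μ u κ ω}) =
          {ω : Om | c ≤ ggbF μ u κ ω} ×ˢ (({0} : Set ℕ) ×ˢ univ) := by
        ext ⟨ω, e⟩
        simp only [mem_preimage, mem_inter_iff, mem_ofPred_eq, Function.update_self,
          ggb_F_update, mem_prod, mem_singleton_iff, mem_univ, and_true]
        exact and_comm
      rw [h5, Measure.prod_prod]
      congr 1
      rw [ggb_cell_eq]
      have : IsProbabilityMeasure (ptLaw μ) := (ggb_isProb μ).1
      rw [Measure.prod_prod, measure_univ, mul_one]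
    have h5 : c * PP μ {ω : Om | c ≤ ggbF μ u κ ω} ≤ PP μ (FF u κ) := by
      rw [← ggb_lintegral_F μ u κ]
      exact mul_meas_ge_le_lintegral (ggb_meas_F μ u κ) c
    rw [h4]
    refine le_trans (le_of_eq ?_) h5
    rw [hc, ggb_poisson_one, ENNReal.ofReal_mul (sq_nonneg sd)]
    ring
  refine ⟨fun κ => {ω : Om | (ω κ).1 = 0} ∩ {ω : Om | c ≤ ggbF μ u κ ω},
    fun κ => (hm0 κ).inter (hmF κ), fun κ ω hω => ⟨?_, ?_⟩, ?_⟩
  · exact hω.1 κ (by simp [cn])
  · exact ggb_F_lower μ hk hu hμ hω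
  · have h4 : ENNReal.ofReal (sd ^ 2 * w) * ∑' κ : Cell,
        PP μ ({ω : Om | (ω κ).1 = 0} ∩ {ω : Om | c ≤ ggbF μ u κ ω}) ≤ 1 := by
      rw [← ENNReal.tsum_mul_left]
      exact (ENNReal.tsum_le_tsum hmain).trans (tsum_FF μ u)
    have hpos : 0 < sd ^ 2 * w := mul_pos (pow_pos ggb_sd_pos 2) hw
    rw [one_div, ENNReal.ofReal_inv_of_pos hpos, ENNReal.le_inv_iff_mul_le, mul_comm]
    exact h4

end Pool.Agent.Lib.MP_3309cd_pr
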