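import Pool.Agent.Lib.MP_3309cd_pr.Top
import Pool.Agent.Lib.MP_3309cd_pr.ConfLF

/-!
On the event `E0` no bounded open set around `0` has its frontier inside the mirrors.
-/

namespace Pool.Agent.Lib.MP_3309cd_pr

open MeasureTheory ProbabilityTheory Set Filter Topology

private theorem noEncl_dir_sq (θ : ℝ) : Real.cos θ ^ 2 + Real.sin θ ^ 2 = 1 := by
  rw [add_comm]; exact Real.sin_sq_add_cos_sq θ

/-- Points of a mirror are close to its centre. -/
theorem noEncl_seg_norm {h : ℝ} {m : Mir} {z : ℂ} (hz : z ∈ seg h m) : ‖z - m.1‖ ≤ h := by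
  obtain ⟨h1, h2⟩ := hz
  have hc := noEncl_dir_sq m.2
  have key : Complex.normSq (z - m.1) = dt (dir m.2) (z - m.1) ^ 2 + cr (dir m.2) (z - m.1) ^ 2 := by
    rw [Complex.normSq_apply]
    simp only [dt, cr, dir]
    linear_combination (-((z - m.1).re ^ 2 + (z - m.1).im ^ 2)) * hc
  rw [h1] at key
  have h0 : 0 ≤ h := (abs_nonneg _).trans h2
  rw [Complex.norm_def, Real.sqrt_le_left h0, key]
  have := sq_le_sq' (by linarith [abs_nonneg (dt (dir m.2) (z - m.1))]) h2
  rw [sq_abs] at this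
  linarith

theorem noEncl_seg_closed (h : ℝ) (m : Mir) : IsClosed (seg h m) := by
  have h1 : Continuous fun z : ℂ => cr (dir m.2) (z - m.1) := by
    simp only [cr, Complex.sub_re, Complex.sub_im]; fun_prop
  have h2 : Continuous fun z : ℂ => |dt (dir m.2) (z - m.1)| := by
    simp only [dt, Complex.sub_re, Complex.sub_im]; fun_prop
  exact (isClosed_eq h1 continuous_const).inter (isClosed_le h2 continuous_const)

theorem noEncl_seg_compact (h : ℝ) (m : Mir) : IsCompact (seg h m) := by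
  refine Metric.isCompact_of_isClosed_isBounded (noEncl_seg_closed h m) ?_
  refine (Metric.isBounded_closedBall (x := m.1) (r := h)).subset ?_
  intro z hz
  rw [mem_closedBall_iff_norm]
  exact noEncl_seg_norm hz

private theorem noEncl_abs {h : ℝ} {m : Mir} {z : ℂ} (hz : z ∈ seg h m) :
    |z.re - m.1.re| ≤ h ∧ |z.im - m.1.im| ≤ h := by
  have h1 := noEncl_seg_norm hz
  refine ⟨?_, ?_⟩
  · have := (Complex.abs_re_le_norm (z - m.1)).trans h1
    simpa using this
  · have := (Complex.abs_im_le_norm (z - m.1)).trans h1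
    simpa using this

private theorem noEncl_diff {x y : ℝ} {a b : ℤ} (h1 : sd * a ≤ x) (h2 : x ≤ sd * (a + 1))
    (h3 : sd * b ≤ y) (h4 : y ≤ sd * (b + 1)) (hxy : |x - y| ≤ 4 * sd) :
    (b - a).natAbs ≤ 5 := by
  have hs := confLF_sd_pos
  rw [abs_le] at hxy
  have e1 : (b : ℝ) ≤ a + 5 := by
    have : sd * (b : ℝ) ≤ sd * (a + 5) := by linarith [hxy.1]
    exact le_of_mul_le_mul_left this hs
  have e2 : (a : ℝ) ≤ b + 5 := by
    have : sd * (a : ℝ) ≤ sd * (b + 5) := by linarith [hxy.2]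
    exact le_of_mul_le_mul_left this hs
  have e1' : b ≤ a + 5 := by exact_mod_cast e1
  have e2' : a ≤ b + 5 := by exact_mod_cast e2
  omega

theorem no_enclosure {ω : Om} (hω : E0 ω) {U : Set ℂ} (hU : IsOpen U)
    (hb : Bornology.IsBounded U) (h0 : (0 : ℂ) ∈ U) :
    ¬ frontier U ⊆ ⋃ m ∈ conf ω, seg hl m := by
  classical
  intro hfr
  have hs := confLF_sd_pos
  obtain ⟨R, hR⟩ := hb.closure.subset_closedBall 0
  set Λ : Set (Cell × ℕ) := {l | l.2 < (ω l.1).1 ∧ ‖(mir ω l).1‖ ≤ R + hl} with hΛ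
  have hΛf : Λ.Finite := confLF_labels ω _
  set A : Set Cell := {κ | ∃ κ₀ : Cell, κ₀.2.natAbs ≤ 3 ∧ -3 ≤ κ₀.1 ∧ occ ω κ₀ ∧
    Relation.ReflTransGen (Lnk 5 ω) κ₀ κ} with hA
  have hA3 : ∀ κ ∈ A, 3 < κ.1 := by
    rintro κ ⟨κ₀, h1, h2, h3, h4⟩
    exact hω κ₀ h1 h2 h3 κ h4
  set K1 : Set ℂ := ⋃ l ∈ {l | l ∈ Λ ∧ l.1 ∈ A}, seg hl (mir ω l) with hK1
  set K2 : Set ℂ := ⋃ l ∈ {l | l ∈ Λ ∧ l.1 ∉ A}, seg hl (mir ω l) with hK2
  have hK1c : IsCompact K1 :=
    (hΛf.subset fun l hl => hl.1).isCompact_biUnion fun l _ => noEncl_seg_compact _ _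
  have hK2c : IsCompact K2 :=
    (hΛf.subset fun l hl => hl.1).isCompact_biUnion fun l _ => noEncl_seg_compact _ _
  -- K1 is in the right half plane
  have hpos : ∀ z ∈ K1, 0 < z.re := by
    intro z hz
    simp only [hK1, mem_iUnion, exists_prop, mem_ofPred_eq] at hz
    obtain ⟨l, ⟨_, hlA⟩, hz⟩ := hz
    have h1 := (noEncl_abs hz).1
    have h2 := (confLF_re ω l).1
    have h3 := hA3 _ hlA
    have h4 : (4 : ℝ) ≤ (l.1.1 : ℝ) := by exact_mod_cast h3
    have h5 : sd * 4 ≤ sd * (l.1.1 : ℝ) := mul_le_mul_of_nonneg_left h4 hs.le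
    rw [abs_le] at h1
    unfold hl at h1
    linarith [h1.1]
  -- K2 avoids the closed half axis
  have hneg : ∀ z ∈ K2, -z ∈ Complex.slitPlane := by
    intro z hz
    simp only [hK2, mem_iUnion, exists_prop, mem_ofPred_eq] at hz
    obtain ⟨l, ⟨hlΛ, hlA⟩, hz⟩ := hz
    by_contra hcon
    rw [Complex.mem_slitPlane_iff] at hcon
    push Not at hcon
    obtain ⟨hc1, hc2⟩ := hcon
    have hzre : 0 ≤ z.re := by simpa using hc1
    have hzim : z.im = 0 := by simpa using hc2
    apply hlA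
    obtain ⟨h1, h2⟩ := noEncl_abs hz
    have hre := confLF_re ω l
    have him := confLF_im ω l
    rw [abs_le] at h1 h2
    unfold hl at h1 h2
    rw [hzim] at h2
    refine ⟨l.1, ?_, ?_, ?_, Relation.ReflTransGen.refl⟩
    · have e1 : (l.1.2 : ℝ) ≤ 2 := by
        have : sd * (l.1.2 : ℝ) ≤ sd * 2 := by linarith [h2.1, him.1]
        exact le_of_mul_le_mul_left this hs
      have e2 : (-3 : ℝ) ≤ (l.1.2 : ℝ) := by
        have : sd * (-3) ≤ sd * (l.1.2 : ℝ) := by linarith [h2.2, him.2]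
        exact le_of_mul_le_mul_left this hs
      have e1' : l.1.2 ≤ 2 := by exact_mod_cast e1
      have e2' : -3 ≤ l.1.2 := by exact_mod_cast e2
      omega
    · have e2 : (-3 : ℝ) ≤ (l.1.1 : ℝ) := by
        have : sd * (-3) ≤ sd * (l.1.1 : ℝ) := by linarith [h1.2, hre.2]
        exact le_of_mul_le_mul_left this hs
      exact_mod_cast e2
    · exact lt_of_le_of_lt (Nat.zero_le _) hlΛ.1
  -- disjoint
  have hdisj : ∀ z ∈ K1, z ∉ K2 := by
    intro z hz1 hz2
    simp only [hK1, mem_iUnion, exists_prop, mem_ofPred_eq] at hz1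
    simp only [hK2, mem_iUnion, exists_prop, mem_ofPred_eq] at hz2
    obtain ⟨l1, ⟨hl1, hA1⟩, hz1⟩ := hz1
    obtain ⟨l2, ⟨hl2, hA2⟩, hz2⟩ := hz2
    apply hA2
    obtain ⟨κ₀, g1, g2, g3, g4⟩ := hA1
    refine ⟨κ₀, g1, g2, g3, g4.tail ⟨?_, ?_, ?_⟩⟩
    · exact lt_of_le_of_lt (Nat.zero_le _) hl1.1
    · exact lt_of_le_of_lt (Nat.zero_le _) hl2.1
    · have a1 := noEncl_abs hz1
      have a2 := noEncl_abs hz2
      unfold hl at a1 a2
      have b1 : |(mir ω l1).1.re - (mir ω l2).1.re| ≤ 4 * sd := by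
        have c1 := a1.1
        have c2 := a2.1
        rw [abs_le] at *
        constructor <;> linarith [c1.1, c1.2, c2.1, c2.2]
      have b2 : |(mir ω l1).1.im - (mir ω l2).1.im| ≤ 4 * sd := by
        have c1 := a1.2
        have c2 := a2.2
        rw [abs_le] at *
        constructor <;> linarith [c1.1, c1.2, c2.1, c2.2]
      have d1 := noEncl_diff (confLF_re ω l1).1 (confLF_re ω l1).2 (confLF_re ω l2).1
        (confLF_re ω l2).2 b1
      have d2 := noEncl_diff (confLF_im ω l1).1 (confLF_im ω l1).2 (confLF_im ω l2).1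
        (confLF_im ω l2).2 b2
      exact max_le d1 d2
  -- the logarithm
  set f : ℂ → ℂ := fun z => if z ∈ K1 then Complex.log z else Complex.log (-z) + Real.pi * Complex.I
    with hf
  have hfK1 : EqOn f Complex.log K1 := fun z hz => by simp [hf, hz]
  have hfK2 : EqOn f (fun z => Complex.log (-z) + Real.pi * Complex.I) K2 := fun z hz => by
    have : z ∉ K1 := fun h => hdisj z h hz
    simp [hf, this]
  have hc1 : ContinuousOn f K1 := by
    refine ContinuousOn.congr ?_ hfK1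
    intro z hz
    exact (continuousAt_clog (Or.inl (hpos z hz))).continuousWithinAt
  have hc2 : ContinuousOn f K2 := by
    refine ContinuousOn.congr ?_ hfK2
    intro z hz
    refine ContinuousAt.continuousWithinAt ?_
    exact (ContinuousAt.clog continuous_neg.continuousAt (hneg z hz)).add continuousAt_const
  have hcont : ContinuousOn f (K1 ∪ K2) :=
    hc1.union_of_isClosed hc2 hK1c.isClosed hK2c.isClosed
  refine top_lemma (hK1c.union hK2c) hcont ?_ hU hb h0 ?_
  · rintro z (hz | hz)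
    · rw [hfK1 hz]
      refine Complex.exp_log ?_
      rintro rfl
      exact lt_irrefl _ (hpos 0 hz)
    · rw [hfK2 hz]
      have hz0 : -z ≠ 0 := Complex.slitPlane_ne_zero (hneg z hz)
      simp only [Complex.exp_add, Complex.exp_log hz0, Complex.exp_pi_mul_I]
      ring
  · intro z hz
    have hz1 := hfr hz
    simp only [mem_iUnion, exists_prop] at hz1
    obtain ⟨m, ⟨l, hl1, rfl⟩, hzm⟩ := hz1
    have hzR : ‖z‖ ≤ R := by
      have := hR (frontier_subset_closure hz)
      simpa using this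
    have hn : ‖(mir ω l).1‖ ≤ R + hl := by
      have h1 := noEncl_seg_norm hzm
      calc ‖(mir ω l).1‖ = ‖z - (z - (mir ω l).1)‖ := by congr 1; ring
        _ ≤ ‖z‖ + ‖z - (mir ω l).1‖ := norm_sub_le _ _
        _ ≤ R + hl := add_le_add hzR h1
    by_cases hlA : l.1 ∈ A
    · left
      simp only [hK1, mem_iUnion, exists_prop, mem_ofPred_eq]
      exact ⟨l, ⟨⟨hl1, hn⟩, hlA⟩, hzm⟩
    · right
      simp only [hK2, mem_iUnion, exists_prop, mem_ofPred_eq]
      exact ⟨l, ⟨⟨hl1, hn⟩, hlA⟩, hzm⟩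

end Pool.Agent.Lib.MP_3309cd_pr
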