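import Pool.Agent.Lib.MP_3309cd_pr.Chain

/-!
MP_3309cd_pr: the good event at the origin has probability at least `1 / 2`.
-/

namespace Pool.Agent.Lib.MP_3309cd_pr

open MeasureTheory ProbabilityTheory Set Filter Topology

/-- Starting cell with index `i`, `j`. -/
private def e0_cell (i : ℕ) (j : Fin 7) : Cell := ((i : ℤ) - 3, (j : ℤ) - 3)

private theorem e0_subset : {ω : Om | ¬ E0 ω} ⊆ ⋃ i : ℕ, ⋃ j : Fin 7,
    {ω | occ ω (e0_cell i j) ∧ ∃ κ', Relation.ReflTransGen (Lnk 5 ω) (e0_cell i j) κ' ∧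
      5 * ((i - 6) / 5) ≤ cn (κ' - e0_cell i j)} := by
  intro ω hω
  simp only [mem_ofPred_eq, E0] at hω
  push Not at hω
  obtain ⟨κ, h1, h2, h3, κ', h4, h5⟩ := hω
  obtain ⟨a, b⟩ := κ
  obtain ⟨a', b'⟩ := κ'
  simp only at h1 h2 h5
  obtain ⟨i, hi⟩ := Int.eq_ofNat_of_zero_le (show 0 ≤ a + 3 by omega)
  obtain ⟨j, hj⟩ := Int.eq_ofNat_of_zero_le (show 0 ≤ b + 3 by omega)
  have hj7 : j < 7 := by omega
  have hκ : e0_cell i ⟨j, hj7⟩ = (a, b) := by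
    simp only [e0_cell, Prod.mk.injEq]
    constructor <;> omega
  simp only [mem_iUnion]
  refine ⟨i, ⟨j, hj7⟩, ?_⟩
  rw [hκ]
  refine ⟨h3, (a', b'), h4, ?_⟩
  have h6 : (a' - a).natAbs ≤ cn ((a', b') - (a, b)) := by
    simp [cn]
  refine le_trans ?_ h6
  omega

private theorem e0_term (n i : ℕ) (h : i ≤ 5 * n + 10) :
    (((2 * 5 + 1 : ℕ) : ℝ) ^ 2) ^ n * (sd ^ 2) ^ (n + 1) ≤ 1 / 900 * (1 / 2) ^ i := by
  have h1 : (1 / 2 : ℝ) ^ (5 * n + 10) ≤ (1 / 2) ^ i :=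
    pow_le_pow_of_le_one (by norm_num) (by norm_num) h
  have h2 : (1 / 2 : ℝ) ^ (5 * n + 10) = (1 / 32) ^ n * (1 / 1024) := by
    rw [pow_add, pow_mul]
    norm_num
  have h3 : (((2 * 5 + 1 : ℕ) : ℝ) ^ 2) ^ n * (sd ^ 2) ^ (n + 1) =
      (121 / 1000000) ^ n * (1 / 1000000) := by
    have h3a : (sd ^ 2) ^ (n + 1) = (1 / 1000000) ^ n * (1 / 1000000) := by
      rw [pow_succ (sd ^ 2) n, sd]
      norm_num
    rw [h3a, ← mul_assoc, ← mul_pow]
    norm_num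
  have h4 : (121 / 1000000 : ℝ) ^ n ≤ (1 / 32) ^ n :=
    pow_le_pow_left₀ (by norm_num) (by norm_num) n
  have h5 : (0 : ℝ) ≤ (1 / 32) ^ n := by positivity
  rw [h3]
  nlinarith

/- File ProbE0 (from chain_bound; crude: P <= 1e-4) -/
theorem prob_E0 (μ : Measure ℝ) [IsProbabilityMeasure μ] : PP μ {ω | ¬ E0 ω} ≤ 1 / 2 := by
  refine (measure_mono e0_subset).trans ?_
  refine (measure_iUnion_le _).trans ?_
  have h1 : ∀ i : ℕ, PP μ (⋃ j : Fin 7,
      {ω | occ ω (e0_cell i j) ∧ ∃ κ', Relation.ReflTransGen (Lnk 5 ω) (e0_cell i j) κ' ∧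
        5 * ((i - 6) / 5) ≤ cn (κ' - e0_cell i j)}) ≤
      ENNReal.ofReal (7 * (1 / 900 * (1 / 2) ^ i)) := by
    intro i
    refine (measure_iUnion_le _).trans ?_
    rw [tsum_fintype]
    have h2 : ∀ j ∈ (Finset.univ : Finset (Fin 7)), PP μ
        {ω | occ ω (e0_cell i j) ∧ ∃ κ', Relation.ReflTransGen (Lnk 5 ω) (e0_cell i j) κ' ∧
          5 * ((i - 6) / 5) ≤ cn (κ' - e0_cell i j)} ≤
        ENNReal.ofReal (1 / 900 * (1 / 2) ^ i) := by
      intro j _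
      refine (chain_bound μ 5 ((i - 6) / 5) (by norm_num) (e0_cell i j)).trans ?_
      apply ENNReal.ofReal_le_ofReal
      apply e0_term
      omega
    refine (Finset.sum_le_sum h2).trans ?_
    rw [Finset.sum_const, Finset.card_univ, Fintype.card_fin, nsmul_eq_mul,
      ENNReal.ofReal_mul (by norm_num : (0 : ℝ) ≤ 7)]
    simp
  refine (ENNReal.tsum_le_tsum h1).trans ?_
  have h3 : Summable fun i : ℕ => 7 * (1 / 900 * (1 / 2 : ℝ) ^ i) :=
    (summable_geometric_two.mul_left _).mul_left _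
  rw [← ENNReal.ofReal_tsum_of_nonneg (fun i => by positivity) h3, tsum_mul_left, tsum_mul_left,
    tsum_geometric_two]
  have h4 : (1 / 2 : ENNReal) = ENNReal.ofReal (1 / 2) := by
    rw [ENNReal.ofReal_div_of_pos (by norm_num)]
    simp
  rw [h4]
  apply ENNReal.ofReal_le_ofReal
  norm_num

end Pool.Agent.Lib.MP_3309cd_pr
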