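import Pool.Agent.Lib.MP_3309cd_pr.Geom

/-!
File Restr of MP_3309cd_pr: the first exit of a ball only sees the mirrors near the ball.
-/

namespace Pool.Agent.Lib.MP_3309cd_pr

open MeasureTheory ProbabilityTheory Set Filter Topology

/-- If the endpoint of a flight is outside the closed ball, so are points shortly before. -/
lemma restr_lt_norm {p v : ℂ} {R s : ℝ} (hs : 0 < s) (hlt : R < ‖p + s • v‖) :
    ∃ s', 0 ≤ s' ∧ s' < s ∧ R < ‖p + s' • v‖ := by
  have hcont : Tendsto (fun r : ℝ => ‖p + r • v‖) (𝓝 s) (𝓝 ‖p + s • v‖) := by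
    have : Continuous fun r : ℝ => ‖p + r • v‖ := by fun_prop
    exact this.tendsto s
  have hev : ∀ᶠ r in 𝓝 s, R < ‖p + r • v‖ := hcont.eventually (lt_mem_nhds hlt)
  obtain ⟨ε, hε, hball⟩ := Metric.eventually_nhds_iff.1 hev
  refine ⟨max (s / 2) (s - ε / 2), ?_, ?_, ?_⟩
  · exact le_max_of_le_left (by linarith)
  · exact max_lt (by linarith) (by linarith)
  · apply hball
    rw [Real.dist_eq, abs_lt]
    constructor
    · have := le_max_right (s / 2) (s - ε / 2)
      linarith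
    · have : max (s / 2) (s - ε / 2) < s := max_lt (by linarith) (by linarith)
      linarith

/-- The first flight that leaves the closed ball: all its vertices are in the ball. -/
lemma exit_first {h : ℝ} {M : Set Mir} {u : ℂ} {R : ℝ} (hR : 0 ≤ R) (hE : Exit h M u R) :
    ∃ L, Run h M 0 u L ∧ (∀ L', L' <:+ L → ‖pos 0 u L'‖ ≤ R) ∧
      ∃ r : ℝ, 0 ≤ r ∧ Free h M (pos 0 u L) (vel u L) r ∧ R < ‖pos 0 u L + r • vel u L‖ := by
  obtain ⟨L, hL, r, hr, hF, hlt⟩ := hE
  induction hn : L.length using Nat.strong_induction_on generalizing L r with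
  | _ n ih =>
    by_cases hall : ∀ L', L' <:+ L → ‖pos 0 u L'‖ ≤ R
    · exact ⟨L, hL, hall, r, hr, hF, hlt⟩
    · push Not at hall
      obtain ⟨L₁, hs, hlt₁⟩ := hall
      cases L₁ with
      | nil =>
        rw [pos_nil, norm_zero] at hlt₁
        linarith
      | cons m L₂ =>
        have hrun := hL.of_suffix hs
        obtain ⟨s', h0, h1, h2⟩ := restr_lt_norm hrun.2.2.2.1 hlt₁
        refine ih L₂.length ?_ L₂ hrun.1 s' h0 (hrun.2.free h1) h2 rfl
        have := hs.length_le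
        simp only [List.length_cons] at this
        omega

/-- The points of a segment with endpoints in a closed ball are in the ball. -/
lemma restr_norm_le {p v : ℂ} {R s r : ℝ} (hp : ‖p‖ ≤ R) (hq : ‖p + s • v‖ ≤ R) (h0 : 0 ≤ r)
    (h1 : r ≤ s) : ‖p + r • v‖ ≤ R := by
  rcases eq_or_lt_of_le (h0.trans h1) with hs | hs
  · have : r = 0 := by linarith
    rw [this]; simpa using hp
  have hconv : Convex ℝ (Metric.closedBall (0 : ℂ) R) := convex_closedBall 0 R
  have hmem := hconv (x := p) (by simpa using hp) (y := p + s • v) (by simpa using hq)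
    (a := 1 - r / s) (b := r / s) (by
      have : r / s ≤ 1 := by rw [div_le_one hs]; exact h1
      linarith) (by positivity) (by ring)
  have heq : (1 - r / s) • p + (r / s) • (p + s • v) = p + r • v := by
    rw [smul_add, ← add_assoc, ← add_smul, smul_smul, div_mul_cancel₀ _ hs.ne']
    rw [sub_add_cancel, one_smul]
  rw [heq] at hmem
  simpa using hmem

lemma restr_run {h : ℝ} {M : Set Mir} {u : ℂ} {R : ℝ}
    (hR : 0 ≤ R) {L : List Mir} (hL : Run h {m ∈ M | ‖m.1‖ ≤ R + h + 1} 0 u L)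
    (hb : ∀ L', L' <:+ L → ‖pos 0 u L'‖ ≤ R) : Run h M 0 u L := by
  induction L with
  | nil =>
    intro m hm hmem
    refine hL m ⟨hm, ?_⟩ hmem
    have := mem_seg_norm _ _ hmem
    rw [zero_sub, norm_neg] at this
    linarith
  | cons m L ih =>
    have hb' : ∀ L', L' <:+ L → ‖pos 0 u L'‖ ≤ R := fun L' hs => hb L' (hs.trans (List.suffix_cons m L))
    refine ⟨ih hL.1 hb', hL.2.1.1, hL.2.2.1, hL.2.2.2.1, hL.2.2.2.2.1, ?_⟩
    intro m' hm' hne r h0 h1 hmem
    refine hL.2.2.2.2.2 m' ⟨hm', ?_⟩ hne r h0 h1 hmem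
    have hz : ‖pos 0 u L + r • vel u L‖ ≤ R :=
      restr_norm_le (hb' L List.suffix_rfl) (hb (m :: L) List.suffix_rfl) h0.le h1
    have hc := mem_seg_norm _ _ hmem
    calc ‖m'.1‖ = ‖(pos 0 u L + r • vel u L) - ((pos 0 u L + r • vel u L) - m'.1)‖ := by ring_nf
      _ ≤ ‖pos 0 u L + r • vel u L‖ + ‖(pos 0 u L + r • vel u L) - m'.1‖ := norm_sub_le _ _
      _ ≤ R + h + 1 := by linarith

theorem exit_restrict {h : ℝ} {M : Set Mir} (hh : 0 < h) {u : ℂ} (hu : ‖u‖ = 1) {R : ℝ}
    (hR : 0 ≤ R) (hE : Exit h {m ∈ M | ‖m.1‖ ≤ R + h + 1} u R) : Exit h M u R := by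
  obtain ⟨L, hL, hb, r, hr, hF, hlt⟩ := exit_first hR hE
  have hrun := restr_run hR hL hb
  set p := pos 0 u L with hp
  set v := vel u L with hv
  have hvn : ‖v‖ = 1 := by rw [hv, norm_vel, hu]
  have hpR : ‖p‖ ≤ R := hb L List.suffix_rfl
  -- the last time in the closed ball
  set S : Set ℝ := {s | s ∈ Icc 0 r ∧ ‖p + s • v‖ ≤ R} with hS
  have hSc : IsCompact S := by
    apply isCompact_Icc.of_isClosed_subset _ fun s hs => hs.1
    have hc : Continuous fun s : ℝ => ‖p + s • v‖ := by fun_prop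
    exact isClosed_Icc.inter (isClosed_le hc continuous_const)
  obtain ⟨s₀, hs₀, hmax⟩ := hSc.exists_isGreatest ⟨0, ⟨le_rfl, hr⟩, by simpa using hpR⟩
  have hs₀r : s₀ < r := by
    rcases hs₀.1.2.lt_or_eq with h1 | h1
    · exact h1
    · have := hs₀.2
      rw [h1] at this
      linarith
  refine ⟨L, hrun, min r (s₀ + 1), le_min hr (by linarith [hs₀.1.1]), ?_, ?_⟩
  · intro m hm r' h0 h1 hmem
    refine hF m ⟨hm, ?_⟩ r' h0 (h1.trans (min_le_left _ _)) hmem
    have hz : ‖p + r' • v‖ ≤ R + 1 := by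
      rcases le_or_gt r' s₀ with h2 | h2
      · have := restr_norm_le hpR hs₀.2 h0.le h2
        linarith
      · have h3 : p + r' • v = (p + s₀ • v) + (r' - s₀) • v := by
          rw [sub_smul]; ring
        rw [h3]
        calc ‖p + s₀ • v + (r' - s₀) • v‖ ≤ ‖p + s₀ • v‖ + ‖(r' - s₀) • v‖ := norm_add_le _ _
          _ ≤ R + 1 := by
            rw [norm_smul, hvn, mul_one, Real.norm_of_nonneg (by linarith)]
            have := h1.trans (min_le_right _ _)
            have := hs₀.2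
            linarith
    have hc := mem_seg_norm _ _ hmem
    calc ‖m.1‖ = ‖(p + r' • v) - ((p + r' • v) - m.1)‖ := by ring_nf
      _ ≤ ‖p + r' • v‖ + ‖(p + r' • v) - m.1‖ := norm_sub_le _ _
      _ ≤ R + h + 1 := by linarith
  · by_contra hle
    have hmem : min r (s₀ + 1) ∈ S :=
      ⟨⟨le_min hr (by linarith [hs₀.1.1]), min_le_left _ _⟩, not_lt.1 hle⟩
    have := hmax hmem
    have h2 : s₀ < min r (s₀ + 1) := lt_min hs₀r (by linarith)
    linarith

end Pool.Agent.Lib.MP_3309cd_pr
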