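import Pool.Agent.Lib.MP_3309cd_pr.Harris
import Pool.Agent.Lib.MP_3309cd_pr.NoEncl
import Pool.Agent.Lib.MP_3309cd_pr.Restr
import Pool.Agent.Lib.MP_3309cd_pr.ProbE0
import Pool.Agent.Lib.MP_3309cd_pr.AeBasic
import Pool.Agent.Lib.MP_3309cd_pr.AeNC

/-! For all but countably many directions the ray leaves every ball with probability at
least `1/2`. -/

namespace Pool.Agent.Lib.MP_3309cd_pr

open MeasureTheory ProbabilityTheory Set Filter Topology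

private theorem me_ang_law (μ : Measure ℝ) [IsProbabilityMeasure μ] (l : Cell × ℕ) :
    MeasurePreserving (fun ω : Om => (mir ω l).2) (PP μ) μ := by
  have h1 : MeasurePreserving (fun ω : Om => ω l.1) (PP μ) (cellLaw μ) :=
    measurePreserving_eval_infinitePi (fun _ : Cell => cellLaw μ) l.1
  have h2 : MeasurePreserving (fun x : ℕ → (unitInterval × unitInterval) × ℝ => x l.2)
      (Measure.infinitePi fun _ : ℕ => ptLaw μ) (ptLaw μ) :=
    measurePreserving_eval_infinitePi (fun _ : ℕ => ptLaw μ) l.2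
  have h3 : MeasurePreserving (fun e : CC => e.2) (cellLaw μ)
      (Measure.infinitePi fun _ : ℕ => ptLaw μ) := by
    unfold cellLaw
    exact measurePreserving_snd
  have h4 : MeasurePreserving (fun x : (unitInterval × unitInterval) × ℝ => x.2) (ptLaw μ) μ := by
    unfold ptLaw
    exact measurePreserving_snd
  exact ((h4.comp h2).comp h3).comp h1

private theorem me_sg_mono {h : ℝ} {M M' : Set Mir} (hM : M ⊆ M') : Sg h M ⊆ Sg h M' := by
  rintro q (⟨m, hm, h1, h2⟩ | ⟨m, hm, m', hm', h1, h2, h3⟩)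
  · exact Or.inl ⟨m, hM hm, h1, h2⟩
  · exact Or.inr ⟨m, hM hm, m', hM hm', h1, h2, h3⟩

private theorem me_nc_mono {h : ℝ} {M M' : Set Mir} (hM : M ⊆ M') {u : ℂ} (hN : NC h M' u) :
    NC h M u := by
  intro L₁ L₂ L₃ h1 h2 h3 q hq q' hq' s hs
  exact hN L₁ L₂ L₃ (fun m hm => hM (h1 m hm)) (fun m hm => hM (h2 m hm))
    (fun m hm => hM (h3 m hm)) q (insert_subset_insert (me_sg_mono hM) hq) q'
    (insert_subset_insert (me_sg_mono hM) hq') s hs

/-- Deterministic part: in a good configuration the ray leaves every ball. -/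
private theorem me_exit {ω : Om} {u : ℂ} {R : ℝ} (hR : 0 ≤ R) (hu : ‖u‖ = 1) (hE : E0 ω)
    (hrat : ∀ m ∈ conf ω, ∃ q : ℚ, m.2 = Real.pi * q) (hov : NoOv hl (conf ω))
    (hNC : NC hl (conf ω) u) (h0 : ∀ m ∈ conf ω, (0 : ℂ) ∉ seg hl m) :
    Exit hl (conf ω) u R := by
  have hhl : 0 < hl := by norm_num [hl, sd]
  by_contra hcon
  have h1 : ¬ Exit hl {m ∈ conf ω | ‖m.1‖ ≤ R + hl + 1} u R :=
    fun h => hcon (exit_restrict hhl hu hR h)
  have hsub : {m ∈ conf ω | ‖m.1‖ ≤ R + hl + 1} ⊆ conf ω := fun m hm => hm.1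
  obtain ⟨U, hU, hUb, hU0, hUf⟩ := harris hhl (conf_LF ω (R + hl + 1))
    (fun m hm => hrat m (hsub hm)) hu (fun m hm m' hm' => hov m (hsub hm) m' (hsub hm'))
    (me_nc_mono hsub hNC) (fun m hm => h0 m (hsub hm)) h1
  refine no_enclosure hE hU hUb hU0 (hUf.trans ?_)
  intro z hz
  obtain ⟨m, hm, hz⟩ := mem_iUnion₂.1 hz
  exact mem_iUnion₂.2 ⟨m, hsub hm, hz⟩

private theorem me_exit_mono {h : ℝ} {M : Set Mir} {u : ℂ} {R R' : ℝ} (hR : R ≤ R')
    (hE : Exit h M u R') : Exit h M u R := by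
  obtain ⟨L, hL, r, hr, hF, hlt⟩ := hE
  exact ⟨L, hL, r, hr, hF, lt_of_le_of_lt hR hlt⟩

theorem exit_prob (μ : Measure ℝ) [IsProbabilityMeasure μ]
    (hμ : ∀ᵐ θ ∂μ, ∃ q : ℚ, θ = Real.pi * q) :
    ∃ C : Set ℂ, C.Countable ∧ ∀ u : ℂ, ‖u‖ = 1 → u ∉ C → ∀ R : ℝ,
      1 / 2 ≤ PP μ {ω | Exit hl (conf ω) u R} := by
  obtain ⟨C, hC, hCu⟩ := exists_countable_nc_of μ (ae_noov μ)
  refine ⟨C, hC, fun u hu huC R => ?_⟩
  have hrat : ∀ᵐ ω ∂(PP μ), ∀ m ∈ conf ω, ∃ q : ℚ, m.2 = Real.pi * q := by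
    have h1 : ∀ᵐ ω ∂(PP μ), ∀ l : Cell × ℕ, ∃ q : ℚ, (mir ω l).2 = Real.pi * q :=
      ae_all_iff.2 fun l => (me_ang_law μ l).quasiMeasurePreserving.ae hμ
    filter_upwards [h1] with ω hω
    rintro m ⟨l, -, rfl⟩
    exact hω l
  have hgood : ∀ᵐ ω ∂(PP μ), E0 ω → Exit hl (conf ω) u R := by
    filter_upwards [hrat, ae_noov μ, hCu u hu huC, ae_zero μ] with ω h1 h2 h3 h4 hE
    exact me_exit_mono (le_max_left R 0) (me_exit (le_max_right R 0) hu hE h1 h2 h3 h4)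
  have hle : PP μ {ω | E0 ω} ≤ PP μ {ω | Exit hl (conf ω) u R} := measure_mono_ae hgood
  refine le_trans ?_ hle
  have h1 : (1 : ENNReal) ≤ PP μ {ω | E0 ω} + PP μ {ω | ¬ E0 ω} := by
    have h2 : (univ : Set Om) ⊆ {ω | E0 ω} ∪ {ω | ¬ E0 ω} := fun ω _ => em (E0 ω)
    calc (1 : ENNReal) = PP μ univ := (measure_univ).symm
      _ ≤ PP μ ({ω | E0 ω} ∪ {ω | ¬ E0 ω}) := measure_mono h2
      _ ≤ _ := measure_union_le _ _
  have h2 := prob_E0 μ
  have h3 : (1 : ENNReal) ≤ PP μ {ω | E0 ω} + 1 / 2 := h1.trans (by gcongr)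
  have h4 : (1 / 2 : ENNReal) + 1 / 2 ≤ PP μ {ω | E0 ω} + 1 / 2 := by
    rwa [ENNReal.add_halves 1]
  exact (ENNReal.add_le_add_iff_right (a := (1 / 2 : ENNReal)) (by simp)).1 h4

end Pool.Agent.Lib.MP_3309cd_pr
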