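import Pool.Agent.Lib.MP_3309cd_pr.Defs

/-! Openness of `{u | c < P (E u)}` for families of events with `E u ⊆ liminf E u'`. -/

namespace Pool.Agent.Lib.MP_3309cd_pr

open MeasureTheory ProbabilityTheory Set Filter Topology

theorem isOpen_prob {Ω : Type*} [MeasurableSpace Ω] (P : Measure Ω) (E : ℂ → Set Ω)
    (hE : ∀ u ω, ω ∈ E u → ∀ᶠ u' in 𝓝 u, ω ∈ E u') (c : ENNReal) :
    IsOpen {u | c < P (E u)} := by
  rw [isOpen_iff_mem_nhds]
  intro u hu
  simp only [mem_ofPred_eq] at hu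
  let B : ℕ → Set Ω := fun n => {ω | ∀ u' ∈ Metric.ball u (1 / ((n : ℝ) + 1)), ω ∈ E u'}
  have hBmono : Monotone B := by
    intro n m hnm ω hω u' hu'
    refine hω u' (Metric.ball_subset_ball ?_ hu')
    exact one_div_le_one_div_of_le (by positivity) (by exact_mod_cast Nat.succ_le_succ hnm)
  have hsub : E u ⊆ ⋃ n, B n := by
    intro ω hω
    obtain ⟨ε, hε, hball⟩ := Metric.eventually_nhds_iff_ball.1 (hE u ω hω)
    obtain ⟨n, hn⟩ := exists_nat_one_div_lt hε
    exact mem_iUnion.2 ⟨n, fun u' hu' => hball u' (Metric.ball_subset_ball hn.le hu')⟩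
  have h1 : c < P (⋃ n, B n) := lt_of_lt_of_le hu (measure_mono hsub)
  rw [hBmono.measure_iUnion, lt_iSup_iff] at h1
  obtain ⟨n, hn⟩ := h1
  have hb : Metric.ball u (1 / ((n : ℝ) + 1)) ∈ 𝓝 u := Metric.ball_mem_nhds _ (by positivity)
  filter_upwards [hb] with u' hu'
  exact lt_of_lt_of_le hn (measure_mono fun ω hω => hω u' hu')

end Pool.Agent.Lib.MP_3309cd_pr
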