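import Pool.Agent.Lib.MP_3309cd_pr.StabHit

/-!
The properties `Exit` and `Stay` are open in the direction of the ray.
-/

namespace Pool.Agent.Lib.MP_3309cd_pr

open MeasureTheory ProbabilityTheory Set Filter Topology

/-- A suffix of a run is a run. -/
private lemma run_suffix {h : ℝ} {M : Set Mir} {x u : ℂ} :
    ∀ {L L' : List Mir}, L' <:+ L → Run h M x u L → Run h M x u L'
  | [], L', hs, hL => by
      rw [List.suffix_nil] at hs
      rw [hs]; exact hL
  | m :: L, L', hs, hL => by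
      rw [List.suffix_cons_iff] at hs
      rcases hs with hs | hs
      · rw [hs]; exact hL
      · exact run_suffix hs hL.1

theorem exit_open {h : ℝ} {M : Set Mir} (_hh : 0 < h) (hM : LF M) {u : ℂ} {R : ℝ}
    (hE : Exit h M u R) : ∀ᶠ u' in 𝓝 u, Exit h M u' R := by
  obtain ⟨L, hL, r, hr, hF, hlt⟩ := hE
  obtain ⟨h1, h2, h3, -, h5⟩ := run_stable (l := 𝓝 u) (X := fun _ => (0 : ℂ)) (U := fun u' => u')
    hM tendsto_const_nhds tendsto_id hL
  have h6 := free_stable hM h2 h3 h5 hF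
  have h7 : Tendsto (fun u' => ‖pos 0 u' L + r • vel u' L‖) (𝓝 u)
      (𝓝 ‖pos 0 u L + r • vel u L‖) := (h2.add (h3.const_smul r)).norm
  filter_upwards [h1, h6, h7.eventually_const_lt hlt] with u' a b c
  exact ⟨L, a, r, hr, b, c⟩

theorem stay_open {h : ℝ} {M : Set Mir} (_hh : 0 < h) (hM : LF M) {u : ℂ} {t ρ : ℝ}
    (hE : Stay h M u t ρ) : ∀ᶠ u' in 𝓝 u, Stay h M u' t ρ := by
  obtain ⟨L, hL, ht, hlt⟩ := hE
  obtain ⟨h1, -, -, h4, -⟩ := run_stable (l := 𝓝 u) (X := fun _ => (0 : ℂ)) (U := fun u' => u')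
    hM tendsto_const_nhds tendsto_id hL
  have h5 : ∀ᶠ u' in 𝓝 u, ∀ L' ∈ L.tails, ‖pos 0 u' L'‖ < ρ := by
    have hfin : {L' | L' ∈ L.tails}.Finite := List.finite_toSet _
    have := (hfin.eventually_all (l := 𝓝 u) (p := fun L' u' => ‖pos 0 u' L'‖ < ρ)).2
      (fun L' hL' => by
        have hs : L' <:+ L := (List.mem_tails _ _).1 hL'
        obtain ⟨-, k2, -, -, -⟩ := run_stable (l := 𝓝 u) (X := fun _ => (0 : ℂ))
          (U := fun u' => u') hM tendsto_const_nhds tendsto_id (run_suffix hs hL)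
        exact k2.norm.eventually_lt_const (hlt L' hs))
    exact this
  filter_upwards [h1, h4.eventually_const_lt ht, h5] with u' a b c
  exact ⟨L, a, b, fun L' hs => c L' ((List.mem_tails _ _).2 hs)⟩

end Pool.Agent.Lib.MP_3309cd_pr
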