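import Pool.Agent.Lib.MP_3309cd_pr.RayDefs
import Pool.Agent.Lib.MP_3309cd_pr.OpenP
import Pool.Agent.Lib.MP_3309cd_pr.ConfLF
import Pool.Agent.Lib.MP_3309cd_pr.Stab
import Pool.Agent.Lib.MP_3309cd_pr.MixExit

/-!
Baire category argument for MP_3309cd_pr.
-/

namespace Pool.Agent.Lib.MP_3309cd_pr

open MeasureTheory ProbabilityTheory Set Filter Topology

lemma continuous_dir : Continuous dir := by
  have : dir = fun θ : ℝ => Complex.exp (θ * Complex.I) := funext dir_eq_exp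
  rw [this]; fun_prop

lemma countable_dir_preimage {C : Set ℂ} (hC : C.Countable) : {α : ℝ | dir α ∈ C}.Countable := by
  have h1 : (Complex.exp ⁻¹' C).Countable := hC.preimage_cexp
  have h2 : {α : ℝ | dir α ∈ C} = (fun α : ℝ => (α : ℂ) * Complex.I) ⁻¹' (Complex.exp ⁻¹' C) := by
    ext α; simp [dir_eq_exp]
  rw [h2]
  apply h1.preimage
  intro a b hab
  have := congrArg Complex.im hab
  simpa using this

/-- The set of bad directions is comeagre. -/
theorem generic (μ : Measure ℝ) [IsProbabilityMeasure μ]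
    (hμ : ∀ᵐ θ ∂μ, ∃ q : ℚ, θ = Real.pi * q)
    (hst : ∀ j : ℕ, ∀ u ∈ Dk j, ∀ δ : ℝ, 0 < δ → ∃ R : ℝ, ∀ t ρ : ℝ, R < ρ →
        ENNReal.ofReal (1 - δ) ≤ PP μ {ω | Stay hl (conf ω) u t ρ})
    (g : ℕ → ℝ → ℝ) (hg : ∀ k, Tendsto (g k) atTop atTop) :
    ∀ᶠ α : ℝ in residual ℝ,
      (∀ n : ℕ, 1 / 4 < PP μ {ω | Exit hl (conf ω) (dir α) n}) ∧
      ∀ k : ℕ, ∃ t : ℝ, (k : ℝ) + 1 ≤ t ∧
        ENNReal.ofReal (1 - 1 / (k + 1)) < PP μ {ω | Stay hl (conf ω) (dir α) t (g k t)} := by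
  have hhl : 0 < hl := by norm_num [hl, sd]
  obtain ⟨C, hC, hex⟩ := exit_prob μ hμ
  rw [eventually_and]
  constructor
  · rw [eventually_countable_forall]
    intro n
    have ho : IsOpen {u : ℂ | 1 / 4 < PP μ {ω | Exit hl (conf ω) u n}} :=
      isOpen_prob (PP μ) (fun u => {ω | Exit hl (conf ω) u n})
        (fun u ω hω => exit_open hhl (conf_LF ω) hω) (1 / 4)
    apply residual_of_dense_open (ho.preimage continuous_dir)
    have hd : Dense ({α : ℝ | dir α ∈ C}ᶜ) := (countable_dir_preimage hC).dense_compl ℝ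
    apply hd.mono
    intro α hα
    have h1 := hex (dir α) (norm_dir α) hα n
    refine lt_of_lt_of_le ?_ h1
    rw [ENNReal.div_lt_iff (by simp) (by simp)]
    have : (1 : ENNReal) / 2 * 4 = 2 := by
      rw [show (4 : ENNReal) = 2 * 2 by norm_num, ← mul_assoc, ENNReal.div_mul_cancel (by simp) (by simp),
        one_mul]
    rw [this]; norm_num
  · rw [eventually_countable_forall]
    intro k
    have ho : IsOpen {u : ℂ | ∃ t : ℝ, (k : ℝ) + 1 ≤ t ∧
        ENNReal.ofReal (1 - 1 / (k + 1)) < PP μ {ω | Stay hl (conf ω) u t (g k t)}} := by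
      have : {u : ℂ | ∃ t : ℝ, (k : ℝ) + 1 ≤ t ∧
        ENNReal.ofReal (1 - 1 / (k + 1)) < PP μ {ω | Stay hl (conf ω) u t (g k t)}} =
        ⋃ t : ℝ, ⋃ _ : (k : ℝ) + 1 ≤ t, {u : ℂ | ENNReal.ofReal (1 - 1 / (k + 1)) <
          PP μ {ω | Stay hl (conf ω) u t (g k t)}} := by
        ext u; simp
      rw [this]
      refine isOpen_iUnion fun t => isOpen_iUnion fun _ => ?_
      exact isOpen_prob (PP μ) (fun u => {ω | Stay hl (conf ω) u t (g k t)})
        (fun u ω hω => stay_open hhl (conf_LF ω) hω) _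
    apply residual_of_dense_open (ho.preimage continuous_dir)
    -- rational multiples of pi are dense
    have hd : Dense (range fun q : ℚ => Real.pi * (q : ℝ)) := by
      have h2 : Function.Surjective (fun x : ℝ => Real.pi * x) := fun y =>
        ⟨y / Real.pi, by field_simp⟩
      exact h2.denseRange.comp (Rat.denseRange_cast (𝕜 := ℝ)) (by fun_prop)
    apply hd.mono
    rintro _ ⟨q, rfl⟩
    have hu : dir (Real.pi * q) ∈ Dk q.den := by
      refine ⟨q.num * (q.den - 1).factorial, ?_⟩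
      congr 1
      have h1 : (q.den.factorial : ℝ) = q.den * (q.den - 1).factorial := by
        rw [← Nat.cast_mul, Nat.mul_factorial_pred q.den_pos.ne']
      have h2 : (q : ℝ) = q.num / q.den := by
        rw [← Rat.cast_natCast q.den, ← Rat.cast_intCast q.num, ← Rat.cast_div, Rat.num_div_den]
      have h3 : ((q.den - 1).factorial : ℝ) ≠ 0 := by positivity
      have h4 : (q.den : ℝ) ≠ 0 := by exact_mod_cast q.den_pos.ne'
      rw [h1, h2]; push_cast; field_simp
    obtain ⟨R, hR⟩ := hst _ _ hu (1 / (k + 2)) (by positivity)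
    have hk : (0 : ℝ) < k + 1 := by positivity
    obtain ⟨t, ht, h1⟩ := ((eventually_ge_atTop ((k : ℝ) + 1)).and
      ((hg k).eventually_gt_atTop R)).exists
    refine ⟨t, ht, ?_⟩
    refine lt_of_lt_of_le ?_ (hR t _ h1)
    have h5 : (1 : ℝ) / (k + 2) < 1 / (k + 1) := by
      apply one_div_lt_one_div_of_lt hk; linarith
    have h6 : (1 : ℝ) / (k + 2) < 1 := by
      rw [div_lt_one (by positivity)]; linarith
    exact (ENNReal.ofReal_lt_ofReal_iff (by linarith)).2 (by linarith)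

/-- Small probabilities along a sequence pass to the conditional law. -/
theorem cond_small {Ω : Type*} [MeasurableSpace Ω] (P : Measure Ω) [IsProbabilityMeasure P]
    {X : Ω → ℝ → ℂ} (hXm : ∀ t, 0 ≤ t → AEMeasurable (fun ω => X ω t) P) {E : Set Ω}
    (hpos : P E ≠ 0) (g : ℝ → ℝ) {t : ℕ → ℝ} (ht : ∀ k : ℕ, (k : ℝ) + 1 ≤ t k)
    (hk : ∀ k : ℕ, ENNReal.ofReal (1 - 1 / (k + 1)) ≤ P {ω | ‖X ω (t k)‖ < g (t k)}) :
    Tendsto (fun k => ProbabilityTheory.cond P E {ω | g (t k) ≤ ‖X ω (t k)‖}) atTop (𝓝 0) := by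
  have hle : ∀ k : ℕ, ProbabilityTheory.cond P E {ω | g (t k) ≤ ‖X ω (t k)‖} ≤
      (P E)⁻¹ * ENNReal.ofReal (1 / ((k : ℝ) + 1)) := by
    intro k
    have hk1 : (0 : ℝ) < (k : ℝ) + 1 := by positivity
    have hmeas : AEMeasurable (fun ω => X ω (t k)) P := hXm _ (hk1.le.trans (ht k))
    set A : Set Ω := {ω | ‖X ω (t k)‖ < g (t k)} with hA
    have hAm : NullMeasurableSet A P := nullMeasurableSet_lt hmeas.norm aemeasurable_const
    have hAc : {ω | g (t k) ≤ ‖X ω (t k)‖} = Aᶜ := by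
      ext ω; simp [hA]
    have h1 : P Aᶜ ≤ ENNReal.ofReal (1 / ((k : ℝ) + 1)) := by
      rw [prob_compl_eq_one_sub₀ hAm]
      calc 1 - P A ≤ 1 - ENNReal.ofReal (1 - 1 / (k + 1)) := tsub_le_tsub_left (hk k) _
        _ = ENNReal.ofReal (1 / (k + 1)) := by
          rw [← ENNReal.ofReal_one, ← ENNReal.ofReal_sub _ (by
            rw [sub_nonneg, div_le_one hk1]
            have : (0 : ℝ) ≤ k := Nat.cast_nonneg k
            linarith)]
          congr 1
          ring
    rw [hAc, ProbabilityTheory.cond, Measure.smul_apply, smul_eq_mul]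
    exact mul_le_mul_right ((Measure.restrict_le_self _).trans h1) _
  have hlim : Tendsto (fun k : ℕ => (P E)⁻¹ * ENNReal.ofReal (1 / ((k : ℝ) + 1))) atTop (𝓝 0) := by
    have h1 : Tendsto (fun k : ℕ => ENNReal.ofReal (1 / ((k : ℝ) + 1))) atTop (𝓝 0) := by
      rw [← ENNReal.ofReal_zero]
      exact ENNReal.tendsto_ofReal tendsto_one_div_add_atTop_nhds_zero_nat
    have h2 := ENNReal.Tendsto.const_mul (a := (P E)⁻¹) h1 (Or.inr (ENNReal.inv_ne_top.2 hpos))
    rwa [mul_zero] at h2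
  exact tendsto_of_tendsto_of_tendsto_of_le_of_le tendsto_const_nhds hlim (fun _ => by simp) hle

end Pool.Agent.Lib.MP_3309cd_pr
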