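import Pool.Agent.Lib.MP_3309cd_pr.HDefs

/-! File HBack of MP_3309cd_pr: following a run backwards and forwards inside a family. -/

namespace Pool.Agent.Lib.MP_3309cd_pr

open MeasureTheory ProbabilityTheory Set Filter Topology

theorem fam_back {h : ℝ} {M : Set Mir} {u : ℂ} {R : ℝ} {A : ℂ → Set ℂ} (hA : Fam h M u R A)
    (hM : LF M) {x v : ℂ} {L : List Mir} (hL : Run h M x v L) {r : ℝ} (hr : 0 < r)
    (hF : Free h M (pos x v L) (vel v L) r)
    (hmem : pos x v L + r • vel v L ∈ A (vel v L)) : x ∈ A v := by
  induction L generalizing r with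
  | nil =>
    simp only [pos_nil, vel_nil] at hF hmem
    have hF' : Free h M (x + r • v) (-v) r := by
      intro m hm r' h0 h1 hseg
      have he : x + r • v + r' • (-v) = x + (r - r') • v := by
        rw [sub_smul, smul_neg]; ring
      rw [he] at hseg
      rcases h1.lt_or_eq with h2 | h2
      · exact hF m hm (r - r') (by linarith) (by linarith) hseg
      · rw [h2, sub_self, zero_smul, add_zero] at hseg
        exact hL m hm hseg
    have h3 := hA.freeb v _ hmem r hr.le hF'
    have he : x + r • v + r • (-v) = x := by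
      rw [smul_neg]; ring
    rwa [he] at h3
  | cons m L ih =>
    obtain ⟨hL1, hH⟩ := hL
    have hs := hH.2.2.1
    simp only [pos_cons, vel_cons] at hF hmem
    set p0 := pos x v L with hp0
    set v0 := vel v L with hv0
    set s := hitS m p0 v0 with hsdef
    set P := p0 + s • v0 with hP
    have hcr : cr (dir m.2) (-(rl m v0)) ≠ 0 := by
      rw [cr_neg, cr_rl, neg_neg]
      exact hH.2.1
    have hback : P + r • rl m v0 + r • (-(rl m v0)) = P := by
      rw [smul_neg]; ring
    have hhit : hitS m (P + r • rl m v0) (-(rl m v0)) = r := by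
      refine (eq_hitS hcr ?_).symm
      rw [hback]
      exact hit_line hH.2.1
    have hHb : HitAt h M (P + r • rl m v0) (-(rl m v0)) m := by
      refine ⟨hH.1, hcr, by rw [hhit]; exact hr, ?_, ?_⟩
      · rw [hhit, hback]
        exact hH.2.2.2.1
      · intro m' hm' hne r' h0 h1 hseg
        rw [hhit] at h1
        have he : P + r • rl m v0 + r' • (-(rl m v0)) = P + (r - r') • rl m v0 := by
          rw [sub_smul, smul_neg]; ring
        rw [he] at hseg
        rcases h1.lt_or_eq with h2 | h2
        · exact hF m' hm' (r - r') (by linarith) (by linarith) hseg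
        · rw [h2, sub_self, zero_smul, add_zero] at hseg
          exact hH.2.2.2.2 m' hm' hne s hs le_rfl hseg
    have hfree2 : Free h M (P + r • rl m v0 + hitS m (P + r • rl m v0) (-(rl m v0)) •
        (-(rl m v0))) (-(rl m (rl m v0))) (s / 2) := by
      rw [hhit, hback, rl_rl]
      intro m' hm' r' h0 h1 hseg
      have he : P + r' • (-v0) = p0 + (s - r') • v0 := by
        rw [hP, sub_smul, smul_neg]; ring
      rw [he] at hseg
      exact hH.free (r := s - r') (by linarith) m' hm' (s - r') (by linarith) le_rfl hseg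
    have h4 := hA.hitb (rl m v0) _ hmem m hHb (s / 2) (by linarith) hfree2
    rw [hhit, hback, rl_rl] at h4
    have he : P + (s / 2) • (-v0) = p0 + (s / 2) • v0 := by
      rw [hP, smul_neg]
      have : s • v0 = (s / 2) • v0 + (s / 2) • v0 := by
        rw [← add_smul]; congr 1; ring
      rw [this]; ring
    rw [he] at h4
    exact ih hL1 (r := s / 2) (by linarith) (hH.free (by linarith)) h4

theorem fam_forward {h : ℝ} {M : Set Mir} {u : ℂ} {R : ℝ} {A : ℂ → Set ℂ} (hA : Fam h M u R A)
    {x v : ℂ} (hx : x ∈ A v) {L : List Mir} (hL : Run h M x v L) {r : ℝ} (hr : 0 < r)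
    (hF : Free h M (pos x v L) (vel v L) r) : pos x v L + r • vel v L ∈ A (vel v L) := by
  induction L generalizing r with
  | nil =>
    simp only [pos_nil, vel_nil] at hF ⊢
    exact hA.free v x hx r hr.le hF
  | cons m L ih =>
    obtain ⟨hL1, hH⟩ := hL
    have hs := hH.2.2.1
    simp only [pos_cons, vel_cons] at hF ⊢
    set p0 := pos x v L with hp0
    set v0 := vel v L with hv0
    set s := hitS m p0 v0 with hsdef
    have h1 := ih hL1 (r := s / 2) (by linarith) (hH.free (by linarith))
    have hsh : HitAt h M (p0 + (s / 2) • v0) v0 m := hH.shift (by linarith) (by linarith)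
    have hhit : hitS m (p0 + (s / 2) • v0) v0 = s - s / 2 := hitS_shift hH.2.1
    have he : p0 + (s / 2) • v0 + (s - s / 2) • v0 = p0 + s • v0 := by
      rw [sub_smul]; ring
    have h2 := hA.hit v0 _ h1 m hsh r hr (by rw [hhit, he]; exact hF)
    rw [hhit, he] at h2
    exact h2

end Pool.Agent.Lib.MP_3309cd_pr
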