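import Pool.Agent.Lib.MP_3309cd_pr.Geom

/-!
Definitions for the Harris-type theorem of MP_3309cd_pr.
-/

namespace Pool.Agent.Lib.MP_3309cd_pr

open MeasureTheory ProbabilityTheory Set Filter Topology

/-- The list of the first `n` mirrors of a sequence (latest first). -/
def pre (m : ℕ → Mir) : ℕ → List Mir
  | 0 => []
  | n + 1 => m n :: pre m n

@[simp] lemma pre_zero (m : ℕ → Mir) : pre m 0 = [] := rfl
@[simp] lemma pre_succ (m : ℕ → Mir) (n : ℕ) : pre m (n + 1) = m n :: pre m n := rfl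
@[simp] lemma length_pre (m : ℕ → Mir) (n : ℕ) : (pre m n).length = n := by
  induction n with
  | zero => rfl
  | succ n ih => simp [ih]

/-- An infinite run. -/
def IRun (h : ℝ) (M : Set Mir) (x u : ℂ) (m : ℕ → Mir) : Prop :=
  ∀ n, Run h M x u (pre m n)

/-- The directions in the orbit of `u` (up to sign). -/
def Orb (M : Set Mir) (u : ℂ) : Set ℂ :=
  {v | ∃ L : List Mir, (∀ m ∈ L, m ∈ M) ∧ (lin L v = u ∨ lin L v = -u)}

/-- A bounded family of sets of positions, one for each velocity, closed off the mirrors and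
invariant under the motion of the light in both time directions. -/
structure Fam (h : ℝ) (M : Set Mir) (u : ℂ) (R : ℝ) (A : ℂ → Set ℂ) : Prop where
  off : ∀ v, ∀ p ∈ A v, ∀ m ∈ M, p ∉ seg h m
  bdd : ∀ v, ∀ p ∈ A v, ‖p‖ ≤ R
  orb : ∀ v, ∀ p ∈ A v, v ∈ Orb M u
  closed : ∀ v, ∀ p, (∀ m ∈ M, p ∉ seg h m) → p ∈ closure (A v) → p ∈ A v
  free : ∀ v, ∀ p ∈ A v, ∀ r : ℝ, 0 ≤ r → Free h M p v r → p + r • v ∈ A v
  freeb : ∀ v, ∀ p ∈ A v, ∀ r : ℝ, 0 ≤ r → Free h M p (-v) r → p + r • (-v) ∈ A v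
  hit : ∀ v, ∀ p ∈ A v, ∀ m, HitAt h M p v m → ∀ r : ℝ, 0 < r →
    Free h M (p + hitS m p v • v) (rl m v) r →
      p + hitS m p v • v + r • rl m v ∈ A (rl m v)
  hitb : ∀ v, ∀ p ∈ A v, ∀ m, HitAt h M p (-v) m → ∀ r : ℝ, 0 < r →
    Free h M (p + hitS m p (-v) • (-v)) (-(rl m v)) r →
      p + hitS m p (-v) • (-v) + r • (-(rl m v)) ∈ A (rl m v)

/-- Time reversal. -/
lemma Fam.rev {h : ℝ} {M : Set Mir} {u : ℂ} {R : ℝ} {A : ℂ → Set ℂ} (hA : Fam h M u R A) :
    Fam h M u R (fun v => A (-v)) where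
  off v p hp := hA.off _ p hp
  bdd v p hp := hA.bdd _ p hp
  orb v p hp := by
    obtain ⟨L, hL, h1⟩ := hA.orb _ p hp
    refine ⟨L, hL, ?_⟩
    rw [lin_neg] at h1
    rcases h1 with h1 | h1
    · right; rw [← h1, neg_neg]
    · left; exact neg_injective h1
  closed v p hp hc := hA.closed _ p hp hc
  free v p hp r hr hF := by
    have := hA.freeb _ p hp r hr (by rwa [neg_neg])
    rwa [neg_neg] at this
  freeb v p hp r hr hF := hA.free _ p hp r hr hF
  hit v p hp m hm r hr hF := by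
    have := hA.hitb _ p hp m (by rwa [neg_neg]) r hr (by rw [rl_neg, neg_neg, neg_neg]; exact hF)
    rw [rl_neg, neg_neg, neg_neg] at this
    exact this
  hitb v p hp m hm r hr hF := by
    have := hA.hit _ p hp m hm r hr (by rw [rl_neg]; exact hF)
    rw [rl_neg] at this
    exact this

end Pool.Agent.Lib.MP_3309cd_pr
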