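import Pool.Agent.Lib.MP_3309cd_pr.HDefs

/-! File HGap of MP_3309cd_pr: a point of `A v` on the boundary of a one-sided gap. -/

namespace Pool.Agent.Lib.MP_3309cd_pr

open MeasureTheory ProbabilityTheory Set Filter Topology

lemma hgap_orb_norm {M : Set Mir} {u v : ℂ} (hu : ‖u‖ = 1) (hv : v ∈ Orb M u) : ‖v‖ = 1 := by
  obtain ⟨L, _, h | h⟩ := hv
  · rw [← norm_lin (L := L) (z := v), h, hu]
  · rw [← norm_lin (L := L) (z := v), h, norm_neg, hu]

theorem exists_gap {h : ℝ} {M : Set Mir} {u : ℂ} {R : ℝ} {A : ℂ → Set ℂ} (hM : M.Finite)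
    (hu : ‖u‖ = 1) (hA : Fam h M u R A) {v : ℂ} (hv : ¬ IsOpen (A v)) :
    ∃ x ∈ A v, ∃ σ : ℝ, (σ = 1 ∨ σ = -1) ∧ ∃ w₀ : ℝ, 0 < w₀ ∧
      ∀ w : ℝ, 0 < w → w < w₀ →
        (∀ m ∈ M, x + (σ * w) • (Complex.I * v) ∉ seg h m) ∧
        x + (σ * w) • (Complex.I * v) ∉ A v := by
  -- a point of `A v` which is not interior
  obtain ⟨p, hp, hpi⟩ : ∃ p ∈ A v, ¬ ∃ ε > 0, Metric.ball p ε ⊆ A v := by
    by_contra hcon
    push Not at hcon
    exact hv (Metric.isOpen_iff.2 fun p hp => by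
      obtain ⟨ε, hε, h1⟩ := hcon p hp
      exact ⟨ε, hε, h1⟩)
  have hnv : ‖v‖ = 1 := hgap_orb_norm hu (hA.orb v p hp)
  -- a ball around `p` without mirrors
  obtain ⟨ρ, hρ, hball⟩ : ∃ ρ > 0, ∀ y ∈ Metric.ball p ρ, ∀ m ∈ M, y ∉ seg h m := by
    have hcl : IsClosed (⋃ m ∈ M, seg h m) := hM.isClosed_biUnion fun m _ => isClosed_seg m h
    have hpn : p ∈ (⋃ m ∈ M, seg h m)ᶜ := by
      intro hmem
      obtain ⟨m, hm, h2⟩ := mem_iUnion₂.1 hmem
      exact hA.off v p hp m hm h2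
    obtain ⟨ρ, hρ, h3⟩ := Metric.isOpen_iff.1 hcl.isOpen_compl p hpn
    exact ⟨ρ, hρ, fun y hy m hm hmem => h3 hy (mem_iUnion₂.2 ⟨m, hm, hmem⟩)⟩
  -- a point near `p` which is not in `A v`
  obtain ⟨y, hy, hyA⟩ : ∃ y ∈ Metric.ball p (ρ / 4), y ∉ A v := by
    by_contra hcon
    push Not at hcon
    exact hpi ⟨ρ / 4, by linarith, hcon⟩
  rw [Metric.mem_ball, dist_eq_norm] at hy
  set a := dt v (y - p) with ha
  set b := cr v (y - p) with hb
  have hyp : y = p + a • v + b • (Complex.I * v) := by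
    have := decomp (v := y - p) hnv
    rw [← ha, ← hb] at this
    rw [add_assoc, ← this]; ring
  have hIv : ‖Complex.I * v‖ = 1 := by simp [hnv]
  have hab : |a| ≤ ‖y - p‖ := by
    have := abs_dt_le (a := v) (b := y - p)
    rwa [hnv, one_mul] at this
  have hbb : |b| ≤ ‖y - p‖ := by
    have := abs_cr_le (a := v) (b := y - p)
    rwa [hnv, one_mul] at this
  -- points near p
  have hnear : ∀ s t : ℝ, |s| ≤ |a| → |t| ≤ |b| →
      p + s • v + t • (Complex.I * v) ∈ Metric.ball p ρ := by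
    intro s t hs ht
    rw [Metric.mem_ball, dist_eq_norm]
    have he : p + s • v + t • (Complex.I * v) - p = s • v + t • (Complex.I * v) := by ring
    rw [he]
    calc ‖s • v + t • (Complex.I * v)‖ ≤ ‖s • v‖ + ‖t • (Complex.I * v)‖ := norm_add_le _ _
      _ = |s| + |t| := by rw [norm_smul, norm_smul, hnv, hIv]; simp
      _ < ρ := by linarith
  -- move along `v`
  have hp1 : p + a • v ∈ A v := by
    rcases le_total 0 a with h0 | h0
    · refine hA.free v p hp a h0 ?_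
      intro m hm r' h1 h2 hseg
      have h3 := hnear r' 0 (by rw [abs_of_pos h1, abs_of_nonneg h0]; exact h2)
        (by rw [abs_zero]; exact abs_nonneg _)
      rw [zero_smul, add_zero] at h3
      exact hball _ h3 m hm hseg
    · have h4 := hA.freeb v p hp (-a) (by linarith) (by
        intro m hm r' h1 h2 hseg
        have h3 := hnear (-r') 0 (by rw [abs_neg, abs_of_pos h1, abs_of_nonpos h0]; exact h2)
          (by rw [abs_zero]; exact abs_nonneg _)
        rw [zero_smul, add_zero] at h3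
        have he : p + r' • (-v) = p + (-r') • v := by rw [smul_neg, neg_smul]
        rw [he] at hseg
        exact hball _ h3 m hm hseg)
      have he : p + (-a) • (-v) = p + a • v := by rw [smul_neg, neg_smul, neg_neg]
      rwa [he] at h4
  -- the sign
  obtain ⟨σ, hσ, hσb⟩ : ∃ σ : ℝ, (σ = 1 ∨ σ = -1) ∧ b = σ * |b| := by
    rcases le_total 0 b with h0 | h0
    · exact ⟨1, Or.inl rfl, by rw [abs_of_nonneg h0]; ring⟩
    · exact ⟨-1, Or.inr rfl, by rw [abs_of_nonpos h0]; ring⟩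
  have hσabs : |σ| = 1 := by
    rcases hσ with h0 | h0 <;> rw [h0] <;> simp
  set q : ℝ → ℂ := fun w => p + a • v + (σ * w) • (Complex.I * v) with hq
  have hqc : Continuous q := by
    simp only [hq]
    fun_prop
  have hqoff : ∀ w : ℝ, 0 ≤ w → w ≤ |b| → ∀ m ∈ M, q w ∉ seg h m := by
    intro w h0 h1 m hm
    refine hball _ (hnear a (σ * w) le_rfl ?_) m hm
    rw [abs_mul, hσabs, one_mul, abs_of_nonneg h0]
    exact h1
  set W : Set ℝ := {w | w ∈ Icc 0 |b| ∧ q w ∈ A v} with hW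
  have hWc : IsClosed W := by
    rw [← isSeqClosed_iff_isClosed]
    intro w w' hw hlim
    have h1 : w' ∈ Icc 0 |b| := isClosed_Icc.mem_of_tendsto hlim
      (Eventually.of_forall fun n => (hw n).1)
    refine ⟨h1, hA.closed v _ (hqoff w' h1.1 h1.2) ?_⟩
    exact mem_closure_of_tendsto ((hqc.tendsto w').comp hlim)
      (Eventually.of_forall fun n => (hw n).2)
  have hWne : W.Nonempty := ⟨0, ⟨le_rfl, abs_nonneg b⟩, by
    simp only [hq, mul_zero, zero_smul, add_zero]
    exact hp1⟩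
  have hWcomp : IsCompact W := isCompact_Icc.of_isClosed_subset hWc fun w hw => hw.1
  obtain ⟨ws, hws, hmax⟩ := hWcomp.exists_isGreatest hWne
  have hlt : ws < |b| := by
    refine lt_of_le_of_ne hws.1.2 fun he => hyA ?_
    have h5 := hws.2
    rw [he] at h5
    simp only [hq] at h5
    rw [← hσb] at h5
    rwa [hyp]
  refine ⟨q ws, hws.2, σ, hσ, |b| - ws, by linarith, ?_⟩
  intro w h0 h1
  have he : q ws + (σ * w) • (Complex.I * v) = q (ws + w) := by
    simp only [hq]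
    rw [mul_add, add_smul]; ring
  rw [he]
  have hin : 0 ≤ ws + w := by linarith [hws.1.1]
  have hin2 : ws + w ≤ |b| := by linarith
  refine ⟨hqoff _ hin hin2, fun hmem => ?_⟩
  have := hmax ⟨⟨hin, hin2⟩, hmem⟩
  linarith

end Pool.Agent.Lib.MP_3309cd_pr
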