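import Pool.Agent.Lib.MP_3309cd_pr.HDefs

/-!
Orbit of directions: finiteness, no direction parallel to a mirror, consequences of `NC`.
-/

namespace Pool.Agent.Lib.MP_3309cd_pr

open MeasureTheory ProbabilityTheory Set Filter Topology

lemma horb_eq_vel {L : List Mir} {v w : ℂ} (h1 : lin L v = w) : v = vel w L := by
  have h2 : lin L (vel w L) = w := lin_vel
  have h3 : lin L (v - vel w L) = 0 := by rw [lin_sub, h1, h2, sub_self]
  have h4 : ‖v - vel w L‖ = 0 := by rw [← norm_lin (L := L), h3, norm_zero]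
  exact sub_eq_zero.1 (norm_eq_zero.1 h4)

lemma horb_root {q : ℚ} {N : ℕ} (hN : q.den ∣ N) :
    (dir (Real.pi * q) ^ 2) ^ N = 1 := by
  obtain ⟨k, rfl⟩ := hN
  rw [dir_eq_exp, ← Complex.exp_nat_mul, ← Complex.exp_nat_mul, Complex.exp_eq_one_iff]
  refine ⟨q.num * k, ?_⟩
  have h1 : (q : ℂ) * (q.den : ℂ) = (q.num : ℂ) := by
    exact_mod_cast Rat.mul_den_eq_num q
  push_cast
  calc ((q.den : ℂ) * k) * (2 * ((Real.pi : ℂ) * q * Complex.I))
      = ((q : ℂ) * (q.den : ℂ)) * k * (2 * Real.pi * Complex.I) := by ring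
    _ = _ := by rw [h1]

theorem orb_finite {M : Set Mir} (hM : M.Finite)
    (hrat : ∀ m ∈ M, ∃ q : ℚ, m.2 = Real.pi * q) (u : ℂ) : (Orb M u).Finite := by
  classical
  choose! q hq using hrat
  set N : ℕ := ∏ m ∈ hM.toFinset, (q m).den with hNdef
  have hNpos : 0 < N := Finset.prod_pos fun m _ => (q m).den_pos
  have hdvd : ∀ m ∈ M, (q m).den ∣ N := fun m hm =>
    Finset.dvd_prod_of_mem (fun m => (q m).den) (hM.mem_toFinset.2 hm)
  set S : Set ℂ := {z | z ^ N = 1} with hS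
  have hSfin : S.Finite := by
    have : S ⊆ (Polynomial.nthRootsFinset N (1 : ℂ) : Set ℂ) := by
      intro z hz
      rw [Finset.mem_coe, Polynomial.mem_nthRootsFinset hNpos]
      exact hz
    exact (Finset.finite_toSet _).subset this
  have hroot : ∀ m ∈ M, dir m.2 ^ 2 ∈ S := by
    intro m hm
    have := horb_root (hdvd m hm)
    rw [hS, mem_ofPred_eq, hq m hm]
    exact this
  set T : ℂ → Set ℂ := fun w => (fun z => z * w) '' S ∪ (fun z => z * (starRingEnd ℂ) w) '' S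
    with hT
  have hTfin : ∀ w, (T w).Finite := fun w => (hSfin.image _).union (hSfin.image _)
  have key : ∀ w : ℂ, ∀ L : List Mir, (∀ m ∈ L, m ∈ M) → vel w L ∈ T w := by
    intro w L
    induction L with
    | nil =>
      intro _
      left
      exact ⟨1, by simp [hS], by simp⟩
    | cons m L ih =>
      intro hL
      have h1 := ih fun m' hm' => hL m' (List.mem_cons_of_mem _ hm')
      have h2 := hroot m (hL m List.mem_cons_self)
      rw [vel_cons]
      rcases h1 with ⟨z, hz, hz'⟩ | ⟨z, hz, hz'⟩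
      · right
        refine ⟨dir m.2 ^ 2 * (starRingEnd ℂ) z, ?_, ?_⟩
        · rw [hS, mem_ofPred_eq, mul_pow, ← map_pow, hz, h2, map_one, mul_one]
        · simp only [rl, ← hz', map_mul]; ring
      · left
        refine ⟨dir m.2 ^ 2 * (starRingEnd ℂ) z, ?_, ?_⟩
        · rw [hS, mem_ofPred_eq, mul_pow, ← map_pow, hz, h2, map_one, mul_one]
        · simp only [rl, ← hz', map_mul, Complex.conj_conj]; ring
  refine ((hTfin u).union (hTfin (-u))).subset ?_
  rintro v ⟨L, hL, h1 | h1⟩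
  · left
    rw [horb_eq_vel h1]
    exact key _ _ hL
  · right
    rw [horb_eq_vel h1]
    exact key _ _ hL

lemma horb_nc {h : ℝ} {M : Set Mir} {u : ℂ} (hNC : NC h M u) {v : ℂ} (hv : v ∈ Orb M u)
    {L₁ L₂ : List Mir} (h1 : ∀ m ∈ L₁, m ∈ M) (h2 : ∀ m ∈ L₂, m ∈ M) {q q' : ℂ}
    (hq : q ∈ insert 0 (Sg h M)) (hq' : q' ∈ insert 0 (Sg h M)) {s : ℝ} (hs : 0 < s) :
    unf L₁ q - unf L₂ q' ≠ s • v := by
  intro heq
  obtain ⟨L, hL, h3 | h3⟩ := hv
  · refine hNC L₁ L₂ L h1 h2 hL q hq q' hq' s hs ?_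
    rw [heq, lin_smul, h3]
  · refine hNC L₂ L₁ L h2 h1 hL q' hq' q hq s hs ?_
    rw [← neg_sub, heq, lin_neg, lin_smul, h3, smul_neg, neg_neg]

theorem orb_not_parallel {h : ℝ} {M : Set Mir} (hh : 0 < h) {u : ℂ} (hu : ‖u‖ = 1)
    (hNC : NC h M u) {v : ℂ} (hv : v ∈ Orb M u) : ∀ m ∈ M, cr (dir m.2) v ≠ 0 := by
  intro m hm hcr
  have hvn : ‖v‖ = 1 := by
    obtain ⟨L, _, h1 | h1⟩ := hv
    · rw [← norm_lin (L := L), h1, hu]
    · rw [← norm_lin (L := L), h1, norm_neg, hu]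
  -- `v = c • dir m.2`
  have hdec : v = dt (dir m.2) v • dir m.2 := by
    have := decomp (v := v) (e := dir m.2) (norm_dir _)
    rw [hcr, zero_smul, add_zero] at this
    exact this
  have hc : |dt (dir m.2) v| = 1 := by
    have h1 : ‖v‖ = |dt (dir m.2) v| := by
      conv_lhs => rw [hdec]
      rw [norm_smul, norm_dir, mul_one, Real.norm_eq_abs]
    rw [← h1, hvn]
  have htip : ∀ σ : ℝ, |σ| = 1 → m.1 + (σ * h) • dir m.2 ∈ insert (0 : ℂ) (Sg h M) := by
    intro σ hσ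
    right; left
    refine ⟨m, hm, ⟨?_, ?_⟩, fun hmem => ?_⟩
    · rw [add_sub_cancel_left, cr_smul, cr_self, mul_zero]
    · rw [add_sub_cancel_left, dt_smul, dt_dir_dir, mul_one, abs_mul, hσ, one_mul, abs_of_pos hh]
    · have := hmem.2
      rw [add_sub_cancel_left, dt_smul, dt_dir_dir, mul_one, abs_mul, hσ, one_mul,
        abs_of_pos hh] at this
      exact lt_irrefl _ this
  set c := dt (dir m.2) v with hcdef
  have hcc : c * c = 1 := by
    have := congrArg (fun x => x * x) hc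
    simpa [abs_mul_abs_self] using this
  refine horb_nc hNC hv (L₁ := []) (L₂ := []) (by simp) (by simp)
    (htip c hc) (htip (-c) (by rw [abs_neg, hc])) (s := 2 * h) (by positivity) ?_
  have h2 : (2 * h) • v = (2 * h * c) • dir m.2 := by
    conv_lhs => rw [hdec]
    rw [smul_smul]
  rw [unf_nil, unf_nil, h2]
  have h3 : m.1 + (c * h) • dir m.2 - (m.1 + (-c * h) • dir m.2) =
      (c * h - (-c * h)) • dir m.2 := by
    rw [sub_smul]; ring
  rw [h3]
  congr 1
  ring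

theorem orb_sreg_or {h : ℝ} {M : Set Mir} {u : ℂ} (hNC : NC h M u) {v : ℂ} (hv : v ∈ Orb M u)
    (x : ℂ) : SReg h M x v ∨ SReg h M x (-v) := by
  by_contra hcon
  push Not at hcon
  obtain ⟨h1, h2⟩ := hcon
  simp only [SReg, not_forall, exists_prop, not_not] at h1 h2
  obtain ⟨L₁, hL₁, q, hq, s, hs, h1⟩ := h1
  obtain ⟨L₂, hL₂, q', hq', s', hs', h2⟩ := h2
  refine horb_nc hNC hv hL₁ hL₂ (mem_insert_of_mem _ hq) (mem_insert_of_mem _ hq')
    (s := s + s') (by positivity) ?_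
  rw [h1, h2, smul_neg, add_smul]
  ring

theorem orb_no_period {h : ℝ} {M : Set Mir} {u : ℂ} (hNC : NC h M u) {v : ℂ} (hv : v ∈ Orb M u)
    {L : List Mir} (hL : ∀ m ∈ L, m ∈ M) {s : ℝ} (hs : 0 < s) : unf L 0 ≠ s • v := by
  intro heq
  refine horb_nc hNC hv hL (L₂ := []) (by simp) (mem_insert _ _) (mem_insert _ _) hs ?_
  rw [unf_nil, sub_zero, heq]

theorem nc_sreg_zero {h : ℝ} {M : Set Mir} {u : ℂ} (hNC : NC h M u) : SReg h M 0 u := by
  intro L hL q hq s hs heq
  refine hNC L [] [] hL (by simp) (by simp) q (mem_insert_of_mem _ hq) 0 (mem_insert _ _) s hs ?_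
  rw [lin_nil, unf_nil, sub_zero, heq, zero_add]

theorem sg_finite {h : ℝ} {M : Set Mir} (hh : 0 < h) (hM : M.Finite) (hov : NoOv h M) :
    (Sg h M).Finite := by
  have h1 : (⋃ m ∈ M, ({m.1 + h • dir m.2, m.1 + (-h) • dir m.2} : Set ℂ)).Finite :=
    hM.biUnion fun m _ => by
      exact (Set.finite_singleton _).insert _
  have h2 : (⋃ m ∈ M, ⋃ m' ∈ M, {q | m ≠ m' ∧ q ∈ seg h m ∧ q ∈ seg h m'}).Finite :=
    hM.biUnion fun m hm => hM.biUnion fun m' hm' => by
      by_cases hne : m = m'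
      · have : {q | m ≠ m' ∧ q ∈ seg h m ∧ q ∈ seg h m'} = ∅ := by
          ext q; simp [hne]
        rw [this]; exact Set.finite_empty
      · exact ((hov m hm m' hm' hne).finite).subset fun q hq => ⟨hq.2.1, hq.2.2⟩
  refine (h1.union h2).subset ?_
  rintro q (⟨m, hm, hq, hq'⟩ | ⟨m, hm, m', hm', hne, hq, hq'⟩)
  · left
    rw [mem_iUnion₂]
    refine ⟨m, hm, ?_⟩
    have habs : |dt (dir m.2) (q - m.1)| = h := by
      refine le_antisymm hq.2 (not_lt.1 fun hlt => hq' ⟨hq.1, hlt⟩)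
    have hdec := decomp (v := q - m.1) (e := dir m.2) (norm_dir _)
    rw [hq.1, zero_smul, add_zero] at hdec
    have hqe : q = m.1 + dt (dir m.2) (q - m.1) • dir m.2 := by
      rw [← hdec]; ring
    rcases (abs_eq hh.le).1 habs with h3 | h3
    · left
      rw [hqe, h3]
    · right
      rw [mem_singleton_iff, hqe, h3]
  · right
    rw [mem_iUnion₂]
    refine ⟨m, hm, ?_⟩
    rw [mem_iUnion₂]
    exact ⟨m', hm', hne, hq, hq'⟩

end Pool.Agent.Lib.MP_3309cd_pr
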