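import Pool.Agent.Lib.MP_3309cd_pr.HDefs

/-! Stability of light runs under perturbation (MP_3309cd_pr). -/

namespace Pool.Agent.Lib.MP_3309cd_pr

open MeasureTheory ProbabilityTheory Set Filter Topology

/-- A compact flight off a closed set is stable. -/
private lemma stabHit_tube {ι : Type*} {l : Filter ι} {C : Set ℂ} (hC : IsClosed C) {p w : ℂ}
    {P W : ι → ℂ} (hP : Tendsto P l (𝓝 p)) (hW : Tendsto W l (𝓝 w)) {a b : ℝ}
    (h : ∀ t ∈ Icc a b, p + t • w ∉ C) : ∀ᶠ i in l, ∀ t ∈ Icc a b, P i + t • W i ∉ C := by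
  have h1 : ∀ᶠ z : ℂ × ℂ in 𝓝 (p, w), ∀ t ∈ Icc a b, z.1 + t • z.2 ∉ C := by
    apply isCompact_Icc.eventually_forall_of_forall_eventually
    intro t ht
    have hc : Continuous fun z : (ℂ × ℂ) × ℝ => z.1.1 + z.2 • z.1.2 := by fun_prop
    have h2 := hc.tendsto ((p, w), t)
    exact h2 (hC.isOpen_compl.mem_nhds (h t ht))
  exact (hP.prodMk_nhds hW).eventually h1

private lemma stabHit_cr {ι : Type*} {l : Filter ι} {v : ℂ} {V : ι → ℂ}
    (hV : Tendsto V l (𝓝 v)) (a : ℂ) : Tendsto (fun i => cr a (V i)) l (𝓝 (cr a v)) :=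
  ((continuous_cr_right a).tendsto v).comp hV

private lemma stabHit_dt {ι : Type*} {l : Filter ι} {v : ℂ} {V : ι → ℂ}
    (hV : Tendsto V l (𝓝 v)) (a : ℂ) : Tendsto (fun i => dt a (V i)) l (𝓝 (dt a v)) :=
  ((continuous_dt_right a).tendsto v).comp hV

/-- Continuity of the hitting time. -/
lemma stabHit_hitS {ι : Type*} {l : Filter ι} {p v : ℂ} {m : Mir} {P V : ι → ℂ}
    (hP : Tendsto P l (𝓝 p)) (hV : Tendsto V l (𝓝 v)) (hv : cr (dir m.2) v ≠ 0) :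
    Tendsto (fun i => hitS m (P i) (V i)) l (𝓝 (hitS m p v)) := by
  unfold hitS
  exact (stabHit_cr (tendsto_const_nhds.sub hP) _).div (stabHit_cr hV _) hv

/-- Mirrors through `p`: eventually never met again. -/
private lemma stabHit_through {ι : Type*} {l : Filter ι} {h : ℝ} {M : Set Mir} (hM : LF M)
    {p v : ℂ} {P V : ι → ℂ} (hV : Tendsto V l (𝓝 v))
    (hp : ∀ m' ∈ M, p ∈ seg h m' → cr (dir m'.2) v ≠ 0 ∧
      ∀ᶠ i in l, cr (dir m'.2) (P i - m'.1) = 0) :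
    ∀ᶠ i in l, ∀ m' ∈ M, p ∈ seg h m' → ∀ r : ℝ, r ≠ 0 → P i + r • V i ∉ seg h m' := by
  have hfin : {m' ∈ M | p ∈ seg h m'}.Finite := by
    apply (hM.finite_ball h ‖p‖).subset
    rintro m' ⟨hm', hmem⟩
    exact ⟨hm', p, hmem, by rw [Metric.mem_closedBall, dist_zero_right]⟩
  have h1 : ∀ m' ∈ {m' ∈ M | p ∈ seg h m'}, ∀ᶠ i in l, ∀ r : ℝ, r ≠ 0 →
      P i + r • V i ∉ seg h m' := by
    rintro m' ⟨hm', hmem⟩
    obtain ⟨h2, h3⟩ := hp m' hm' hmem
    have h4 : ∀ᶠ i in l, cr (dir m'.2) (V i) ≠ 0 :=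
      (stabHit_cr hV (dir m'.2)).eventually_ne h2
    filter_upwards [h3, h4] with i h5 h6 r hr hmem'
    have h7 := eq_hitS h6 hmem'.1
    rw [hitS_eq_zero h5] at h7
    exact hr h7
  filter_upwards [(hfin.eventually_all).2 h1] with i hi m' hm' hmem
  exact hi m' ⟨hm', hmem⟩

theorem free_stable {ι : Type*} {l : Filter ι} {h : ℝ} {M : Set Mir} (hM : LF M)
    {p v : ℂ} {r : ℝ} {P V : ι → ℂ} (hP : Tendsto P l (𝓝 p)) (hV : Tendsto V l (𝓝 v))
    (hp : ∀ m' ∈ M, p ∈ seg h m' → cr (dir m'.2) v ≠ 0 ∧ ∀ᶠ i in l, cr (dir m'.2) (P i - m'.1) = 0)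
    (hF : Free h M p v r) : ∀ᶠ i in l, Free h M (P i) (V i) r := by
  have hcl : IsClosed (⋃ m' ∈ {m' ∈ M | p ∉ seg h m'}, seg h m') :=
    hM.isClosed_iUnion h _ (fun m' hm' => hm'.1)
  have h1 : ∀ t ∈ Icc (0 : ℝ) r, p + t • v ∉ ⋃ m' ∈ {m' ∈ M | p ∉ seg h m'}, seg h m' := by
    intro t ht hmem
    obtain ⟨m', hm', h2⟩ := mem_iUnion₂.1 hmem
    rcases ht.1.lt_or_eq with h3 | h3
    · exact hF m' hm'.1 t h3 ht.2 h2
    · rw [← h3, zero_smul, add_zero] at h2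
      exact hm'.2 h2
  filter_upwards [stabHit_tube hcl hP hV h1, stabHit_through hM hV hp] with i h2 h3
  intro m' hm' r' h0 hr hmem
  by_cases hpm : p ∈ seg h m'
  · exact h3 m' hm' hpm r' h0.ne' hmem
  · exact h2 r' ⟨h0.le, hr⟩ (mem_iUnion₂.2 ⟨m', ⟨hm', hpm⟩, hmem⟩)

/- File StabHit : the core stability lemma (P, V perturbed; start points stay on the lines of the
   mirrors through p) -/
theorem hitAt_stable {ι : Type*} {l : Filter ι} {h : ℝ} {M : Set Mir} (hM : LF M)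
    {p v : ℂ} {m : Mir} {P V : ι → ℂ} (hP : Tendsto P l (𝓝 p)) (hV : Tendsto V l (𝓝 v))
    (hp : ∀ m' ∈ M, p ∈ seg h m' → cr (dir m'.2) v ≠ 0 ∧ ∀ᶠ i in l, cr (dir m'.2) (P i - m'.1) = 0)
    (hH : HitAt h M p v m) : ∀ᶠ i in l, HitAt h M (P i) (V i) m := by
  obtain ⟨hm, hv, hs, hos, hoth⟩ := hH
  have hT := stabHit_hitS hP hV hv
  have hW : Tendsto (fun i => hitS m (P i) (V i) • V i) l (𝓝 (hitS m p v • v)) := hT.smul hV
  have hQ : Tendsto (fun i => P i + hitS m (P i) (V i) • V i) l (𝓝 (p + hitS m p v • v)) :=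
    hP.add hW
  have e1 : ∀ᶠ i in l, cr (dir m.2) (V i) ≠ 0 := (stabHit_cr hV (dir m.2)).eventually_ne hv
  have e2 : ∀ᶠ i in l, 0 < hitS m (P i) (V i) := hT.eventually (lt_mem_nhds hs)
  have e3 : ∀ᶠ i in l, |dt (dir m.2) (P i + hitS m (P i) (V i) • V i - m.1)| < h :=
    (stabHit_dt (hQ.sub tendsto_const_nhds) (dir m.2)).abs.eventually (gt_mem_nhds hos.2)
  have hcl : IsClosed (⋃ m' ∈ {m' ∈ M | m' ≠ m ∧ p ∉ seg h m'}, seg h m') :=
    hM.isClosed_iUnion h _ (fun m' hm' => hm'.1)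
  have h1 : ∀ t ∈ Icc (0 : ℝ) 1, p + t • (hitS m p v • v) ∉
      ⋃ m' ∈ {m' ∈ M | m' ≠ m ∧ p ∉ seg h m'}, seg h m' := by
    intro t ht hmem
    obtain ⟨m', hm', h2⟩ := mem_iUnion₂.1 hmem
    rcases ht.1.lt_or_eq with h3 | h3
    · rw [smul_smul] at h2
      exact hoth m' hm'.1 hm'.2.1 _ (mul_pos h3 hs) (by nlinarith [ht.2]) h2
    · rw [← h3, zero_smul, add_zero] at h2
      exact hm'.2.2 h2
  filter_upwards [stabHit_tube hcl hP hW h1, stabHit_through hM hV hp, e1, e2, e3] with i h2 h3 h4 h5 h6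
  refine ⟨hm, h4, h5, ⟨hit_line h4, h6⟩, ?_⟩
  intro m' hm' hne r' h0 hr hmem
  by_cases hpm : p ∈ seg h m'
  · exact h3 m' hm' hpm r' h0.ne' hmem
  · refine h2 (r' / hitS m (P i) (V i)) ⟨by positivity, by rw [div_le_one h5]; exact hr⟩
      (mem_iUnion₂.2 ⟨m', ⟨hm', hne, hpm⟩, ?_⟩)
    rwa [smul_smul, div_mul_cancel₀ _ h5.ne']

/-- stability of runs under perturbation of start and velocity -/
theorem run_stable {ι : Type*} {l : Filter ι} {h : ℝ} {M : Set Mir} (hM : LF M)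
    {x u : ℂ} {L : List Mir} {X U : ι → ℂ} (hX : Tendsto X l (𝓝 x)) (hU : Tendsto U l (𝓝 u))
    (hL : Run h M x u L) :
    (∀ᶠ i in l, Run h M (X i) (U i) L) ∧ Tendsto (fun i => pos (X i) (U i) L) l (𝓝 (pos x u L)) ∧
      Tendsto (fun i => vel (U i) L) l (𝓝 (vel u L)) ∧
      Tendsto (fun i => tim (X i) (U i) L) l (𝓝 (tim x u L)) ∧
      ∀ m' ∈ M, pos x u L ∈ seg h m' → cr (dir m'.2) (vel u L) ≠ 0 ∧
        ∀ᶠ i in l, cr (dir m'.2) (pos (X i) (U i) L - m'.1) = 0 := by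
  induction L with
  | nil =>
    refine ⟨?_, hX, hU, tendsto_const_nhds, fun m' hm' hmem => absurd hmem (hL m' hm')⟩
    have hcl : IsClosed (⋃ m' ∈ M, seg h m') := hM.isClosed_iUnion h _ subset_rfl
    have hx : x ∉ ⋃ m' ∈ M, seg h m' := by
      intro hmem
      obtain ⟨m', hm', h2⟩ := mem_iUnion₂.1 hmem
      exact hL m' hm' h2
    have h1 : ∀ᶠ i in l, X i ∉ ⋃ m' ∈ M, seg h m' := hX (hcl.isOpen_compl.mem_nhds hx)
    filter_upwards [h1] with i hi m' hm' hmem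
    exact hi (mem_iUnion₂.2 ⟨m', hm', hmem⟩)
  | cons m L ih =>
    obtain ⟨ha, hb, hc, hd, he⟩ := ih hL.1
    have hhit := hitAt_stable hM hb hc he hL.2
    have hv := hL.2.2.1
    have hT := stabHit_hitS hb hc hv
    have hrl : Continuous fun z : ℂ => rl m z := by unfold rl; fun_prop
    refine ⟨ha.and hhit, ?_, ?_, ?_, ?_⟩
    · simp only [pos_cons]
      exact hb.add (hT.smul hc)
    · simp only [vel_cons]
      exact (hrl.tendsto _).comp hc
    · simp only [tim_cons]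
      exact hd.add hT
    · intro m' hm' hmem
      have hmm : m' = m := by
        by_contra hne
        exact hL.pos_mem.2 m' hm' hne hmem
      subst hmm
      refine ⟨by simpa using hv, ?_⟩
      filter_upwards [(stabHit_cr hc (dir m'.2)).eventually_ne hv] with i hi
      exact hit_line hi

end Pool.Agent.Lib.MP_3309cd_pr
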