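import Pool.Agent.Lib.MP_3309cd_pr.HDefs

/-!
Infinite runs: existence, no accumulation of reflections, long flights.
-/

namespace Pool.Agent.Lib.MP_3309cd_pr

open MeasureTheory ProbabilityTheory Set Filter Topology

theorem exists_irun {h : ℝ} {M : Set Mir} {x u : ℂ} (hM : LF M) (hx : ∀ m ∈ M, x ∉ seg h m)
    (hS : SReg h M x u)
    (hF : ∀ L, Run h M x u L → ∃ r, ¬ Free h M (pos x u L) (vel u L) r) :
    ∃ m, IRun h M x u m := by
  have hnext : ∀ L : {L : List Mir // Run h M x u L}, ∃ m : Mir, Run h M x u (m :: L.1) := by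
    rintro ⟨L, hL⟩
    obtain ⟨r, hr⟩ := hF L hL
    obtain ⟨m, hm, -⟩ := hL.exists_next hM hS hr
    exact ⟨m, hm⟩
  choose nx hnx using hnext
  let Ls : ℕ → {L : List Mir // Run h M x u L} := fun n =>
    Nat.rec ⟨[], hx⟩ (fun _ L => ⟨nx L :: L.1, hnx L⟩) n
  have hLs : ∀ n, pre (fun n => nx (Ls n)) n = (Ls n).1 := by
    intro n
    induction n with
    | zero => rfl
    | succ n ih => rw [pre_succ, ih]
  refine ⟨fun n => nx (Ls n), fun n => ?_⟩
  rw [hLs]
  exact (Ls n).2

private lemma zeno_step_pos {x u : ℂ} (m : ℕ → Mir) (n : ℕ) :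
    pos x u (pre m (n + 1)) = pos x u (pre m n) +
      hitS (m n) (pos x u (pre m n)) (vel u (pre m n)) • vel u (pre m n) := rfl

private lemma zeno_eq_zero {θ : ℝ} {v z : ℂ} (h1 : cr (dir θ) z = 0) (h2 : cr v z = 0)
    (h3 : cr (dir θ) v ≠ 0) : z = 0 := by
  have h4 := decomp z (norm_dir θ)
  rw [h1, zero_smul, add_zero] at h4
  rw [h4, cr_smul, cr_comm v] at h2
  rcases mul_eq_zero.1 h2 with h5 | h5
  · rw [h4, h5, zero_smul]
  · exact absurd (neg_eq_zero.1 h5) h3

theorem zeno {h : ℝ} {M : Set Mir} {x u : ℂ} {m : ℕ → Mir} (hM : LF M) (hu : u ≠ 0)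
    (hS : SReg h M x u) (hI : IRun h M x u m) (q : ℂ) :
    ¬ Tendsto (fun n => pos x u (pre m n)) atTop (𝓝 q) := by
  intro hT
  have hmem : ∀ n, pos x u (pre m (n + 1)) ∈ seg h (m n) := fun n =>
    oseg_subset_seg _ _ (hI (n + 1)).pos_mem.1
  have hin : ∀ n, m n ∈ M := fun n => (hI (n + 1)).2.1
  -- eventually all mirrors pass through `q`
  have hcl : IsClosed (⋃ a ∈ {a ∈ M | q ∉ seg h a}, seg h a) :=
    hM.isClosed_iUnion h _ (fun a ha => ha.1)
  have hqn : q ∉ ⋃ a ∈ {a ∈ M | q ∉ seg h a}, seg h a := by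
    intro hq
    obtain ⟨a, ha, h2⟩ := mem_iUnion₂.1 hq
    exact ha.2 h2
  have hev : ∀ᶠ n in atTop, pos x u (pre m n) ∉ ⋃ a ∈ {a ∈ M | q ∉ seg h a}, seg h a :=
    hT (hcl.isOpen_compl.mem_nhds hqn)
  obtain ⟨N, hN⟩ := eventually_atTop.1 hev
  have hqm : ∀ n, N ≤ n → q ∈ seg h (m n) := by
    intro n hn
    by_contra hq
    exact hN (n + 1) (by omega) (mem_iUnion₂.2 ⟨m n, ⟨hin n, hq⟩, hmem n⟩)
  -- the distance of the line of flight to `q` is constant
  have hline : ∀ n, N ≤ n → cr (dir (m n).2) (pos x u (pre m (n + 1)) - q) = 0 := by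
    intro n hn
    have h1 := (hmem n).1
    have h2 := (hqm n hn).1
    rw [show pos x u (pre m (n + 1)) - q = (pos x u (pre m (n + 1)) - (m n).1) - (q - (m n).1) by
      ring, cr_sub, h1, h2, sub_zero]
  have hconst : ∀ n, N ≤ n → |cr (vel u (pre m (n + 1))) (pos x u (pre m (n + 1)) - q)| =
      |cr (vel u (pre m n)) (pos x u (pre m n) - q)| := by
    intro n hn
    have h1 : rl (m n) (pos x u (pre m (n + 1)) - q) = pos x u (pre m (n + 1)) - q :=
      (rl_eq_self_iff _ _).2 (hline n hn)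
    have h2 : vel u (pre m (n + 1)) = rl (m n) (vel u (pre m n)) := rfl
    rw [h2, ← h1, cr_rl_rl, abs_neg, zeno_step_pos,
      show pos x u (pre m n) + hitS (m n) (pos x u (pre m n)) (vel u (pre m n)) • vel u (pre m n) -
        q = (pos x u (pre m n) - q) +
          hitS (m n) (pos x u (pre m n)) (vel u (pre m n)) • vel u (pre m n) by ring,
      cr_add, cr_smul, cr_self, mul_zero, add_zero]
  have hconst' : ∀ k, |cr (vel u (pre m (N + k))) (pos x u (pre m (N + k)) - q)| =
      |cr (vel u (pre m N)) (pos x u (pre m N) - q)| := by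
    intro k
    induction k with
    | zero => rfl
    | succ k ih => rw [← ih, ← hconst (N + k) (by omega)]; rfl
  have hzero : |cr (vel u (pre m N)) (pos x u (pre m N) - q)| = 0 := by
    have h1 : Tendsto (fun k => ‖u‖ * ‖pos x u (pre m (N + k)) - q‖) atTop (𝓝 0) := by
      have h2 : Tendsto (fun n => ‖u‖ * ‖pos x u (pre m n) - q‖) atTop (𝓝 (‖u‖ * ‖q - q‖)) :=
        (tendsto_const_nhds).mul (hT.sub tendsto_const_nhds).norm
      rw [sub_self, norm_zero, mul_zero] at h2
      exact h2.comp (tendsto_add_atTop_nat N |>.congr fun k => by ring)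
    refine le_antisymm (ge_of_tendsto' h1 fun k => ?_) (abs_nonneg _)
    rw [← hconst' k]
    refine (abs_cr_le _ _).trans ?_
    rw [norm_vel]
  have hcr : ∀ n, N ≤ n → cr (vel u (pre m n)) (pos x u (pre m n) - q) = 0 := by
    intro n hn
    obtain ⟨k, rfl⟩ := Nat.exists_eq_add_of_le hn
    exact abs_eq_zero.1 ((hconst' k).trans hzero)
  have heq : ∀ n, N ≤ n → pos x u (pre m (n + 1)) = q := by
    intro n hn
    have h1 : cr (dir (m n).2) (vel u (pre m (n + 1))) ≠ 0 := by
      change cr (dir (m n).2) (rl (m n) (vel u (pre m n))) ≠ 0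
      rw [cr_rl, neg_ne_zero]
      exact (hI (n + 1)).2.2.1
    exact sub_eq_zero.1 (zeno_eq_zero (hline n hn) (hcr (n + 1) (by omega)) h1)
  have h1 := heq N le_rfl
  have h2 := heq (N + 1) (by omega)
  rw [zeno_step_pos, h1] at h2
  have h3 : hitS (m (N + 1)) q (vel u (pre m (N + 1))) • vel u (pre m (N + 1)) = 0 := by
    linear_combination h2
  have h4 := (hI (N + 2)).2.2.2.1
  rw [h1] at h4
  rcases smul_eq_zero.1 h3 with h5 | h5
  · linarith
  · apply hu
    rw [← norm_eq_zero, ← norm_vel (u := u) (L := pre m (N + 1)), h5, norm_zero]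

private lemma zeno_dist {h : ℝ} {M : Set Mir} {x u : ℂ} {m : ℕ → Mir} (hI : IRun h M x u m)
    (n : ℕ) : dist (pos x u (pre m n)) (pos x u (pre m (n + 1))) =
      hitS (m n) (pos x u (pre m n)) (vel u (pre m n)) * ‖u‖ := by
  have h1 := (hI (n + 1)).2.2.2.1
  rw [zeno_step_pos, dist_eq_norm, sub_add_cancel_left, norm_neg, norm_smul, norm_vel,
    Real.norm_of_nonneg h1.le]

theorem tim_tendsto {h : ℝ} {M : Set Mir} {x u : ℂ} {m : ℕ → Mir} (hM : LF M) (hu : u ≠ 0)
    (hS : SReg h M x u) (hI : IRun h M x u m) :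
    Tendsto (fun n => tim x u (pre m n)) atTop atTop := by
  have hmono : Monotone fun n => tim x u (pre m n) :=
    monotone_nat_of_le_succ fun n => ((hI (n + 1)).tim_lt).le
  rcases tendsto_atTop_of_monotone hmono with h1 | ⟨l, hl⟩
  · exact h1
  · exfalso
    have hsum : ∀ n, ∑ k ∈ Finset.range n, hitS (m k) (pos x u (pre m k)) (vel u (pre m k)) =
        tim x u (pre m n) := by
      intro n
      induction n with
      | zero => simp
      | succ n ih => rw [Finset.sum_range_succ, ih]; rfl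
    have hS1 : Summable fun k => hitS (m k) (pos x u (pre m k)) (vel u (pre m k)) := by
      refine summable_of_sum_range_le (c := l) (fun n => (hI (n + 1)).2.2.2.1.le) fun n => ?_
      rw [hsum]
      exact hmono.ge_of_tendsto hl n
    have hS2 := hS1.mul_right ‖u‖
    have hC : CauchySeq fun n => pos x u (pre m n) :=
      cauchySeq_of_dist_le_of_summable _ (fun n => (zeno_dist hI n).le) hS2
    obtain ⟨q, hq⟩ := cauchySeq_tendsto_of_complete hC
    exact zeno hM hu hS hI q hq

private lemma zeno_pair {h : ℝ} (a b : Mir) {ε : ℝ} (hε : 0 < ε) :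
    ∃ δ : ℝ, 0 < δ ∧ ∀ y ∈ seg h a, ∀ z ∈ seg h b, dist y z < δ →
      ∃ q ∈ seg h a ∩ seg h b, dist y q < ε := by
  set K : Set (ℂ × ℂ) := {p | p ∈ seg h a ×ˢ seg h b ∧ ∀ q ∈ seg h a ∩ seg h b, ε ≤ dist p.1 q}
    with hK
  have hKc : IsCompact K := by
    apply ((isCompact_seg a h).prod (isCompact_seg b h)).of_isClosed_subset _ fun p hp => hp.1
    apply ((isClosed_seg a h).prod (isClosed_seg b h)).inter
      (s₂ := {p : ℂ × ℂ | ∀ q ∈ seg h a ∩ seg h b, ε ≤ dist p.1 q})
    simp only [ofPred_forall]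
    refine isClosed_biInter fun q _ => ?_
    exact isClosed_le continuous_const (by fun_prop)
  rcases K.eq_empty_or_nonempty with hE | hne
  · refine ⟨1, one_pos, fun y hy z hz _ => ?_⟩
    by_contra hcon
    push Not at hcon
    have : (y, z) ∈ K := ⟨⟨hy, hz⟩, hcon⟩
    rw [hE] at this
    exact this
  · obtain ⟨p, hp, hmin⟩ := hKc.exists_isMinOn hne
      (f := fun p : ℂ × ℂ => dist p.1 p.2) (by fun_prop)
    refine ⟨dist p.1 p.2, ?_, fun y hy z hz hd => ?_⟩
    · rw [dist_pos]
      intro heq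
      have h1 : p.1 ∈ seg h a ∩ seg h b := ⟨hp.1.1, by rw [heq]; exact hp.1.2⟩
      have := hp.2 _ h1
      rw [dist_self] at this
      linarith
    · by_contra hcon
      push Not at hcon
      have h1 : (y, z) ∈ K := ⟨⟨hy, hz⟩, hcon⟩
      have h2 := hmin h1
      simp only [mem_ofPred_eq] at h2
      linarith

private lemma zeno_ne {h : ℝ} {M : Set Mir} {x u : ℂ} {m : ℕ → Mir} (hI : IRun h M x u m)
    (n : ℕ) : m n ≠ m (n + 1) := by
  intro heq
  have h1 := (hI (n + 2)).2.2.2.1
  have h2 : hitS (m (n + 1)) (pos x u (pre m (n + 1))) (vel u (pre m (n + 1))) = 0 := by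
    apply hitS_eq_zero
    rw [← heq]
    exact (hI (n + 1)).pos_mem.1.1
  rw [h2] at h1
  exact lt_irrefl _ h1

theorem long_flights {h : ℝ} {M : Set Mir} {x u : ℂ} {m : ℕ → Mir} (hM : M.Finite) (hu : u ≠ 0)
    (hov : NoOv h M) (hS : SReg h M x u) (hI : IRun h M x u m) :
    ∃ ℓ : ℝ, 0 < ℓ ∧ ∀ N, ∃ n ≥ N, ℓ ≤ hitS (m n) (pos x u (pre m n)) (vel u (pre m n)) := by
  classical
  by_contra hcon
  push Not at hcon
  have hLF : LF M := fun _ => hM.subset fun a ha => ha.1
  have hin : ∀ n, m n ∈ M := fun n => (hI (n + 1)).2.1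
  have hmem : ∀ n, pos x u (pre m (n + 1)) ∈ seg h (m n) := fun n =>
    oseg_subset_seg _ _ (hI (n + 1)).pos_mem.1
  -- small steps
  have hstep : Tendsto (fun n => dist (pos x u (pre m n)) (pos x u (pre m (n + 1)))) atTop
      (𝓝 0) := by
    have h1 : Tendsto (fun n => hitS (m n) (pos x u (pre m n)) (vel u (pre m n))) atTop
        (𝓝 0) := by
      rw [Metric.tendsto_atTop]
      intro ε hε
      obtain ⟨N, hN⟩ := hcon ε hε
      refine ⟨N, fun n hn => ?_⟩
      rw [Real.dist_0_eq_abs, abs_of_pos (hI (n + 1)).2.2.2.1]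
      exact hN n hn
    have h2 := h1.mul_const ‖u‖
    rw [zero_mul] at h2
    exact h2.congr fun n => (zeno_dist hI n).symm
  -- the crossing point
  let g : ℕ → ℂ := fun n =>
    if hn : (seg h (m n) ∩ seg h (m (n + 1))).Nonempty then hn.some else 0
  have hg : ∀ ε : ℝ, 0 < ε → ∀ᶠ n in atTop, g n ∈ seg h (m n) ∩ seg h (m (n + 1)) ∧
      dist (pos x u (pre m (n + 1))) (g n) < ε := by
    intro ε hε
    choose δ hδ0 hδ using fun a b : Mir => zeno_pair (h := h) a b hε
    have h1 : ∀ᶠ n in atTop, ∀ a ∈ M, ∀ b ∈ M,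
        dist (pos x u (pre m (n + 1))) (pos x u (pre m (n + 2))) < δ a b := by
      rw [eventually_all_finite hM]
      intro a _
      rw [eventually_all_finite hM]
      intro b _
      exact (hstep.comp (tendsto_add_atTop_nat 1)).eventually (gt_mem_nhds (hδ0 a b))
    filter_upwards [h1] with n hn
    obtain ⟨q, hq, hd⟩ := hδ (m n) (m (n + 1)) _ (hmem n) _ (hmem (n + 1))
      (hn _ (hin n) _ (hin (n + 1)))
    have hne : (seg h (m n) ∩ seg h (m (n + 1))).Nonempty := ⟨q, hq⟩
    have hgn : g n = hne.some := dif_pos hne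
    have hgq : g n = q := by
      rw [hgn]
      exact hov _ (hin n) _ (hin (n + 1)) (zeno_ne hI n) hne.some_mem hq
    rw [hgq]
    exact ⟨hq, hd⟩
  -- the crossing points form a finite set
  set C : Set ℂ := ⋃ a ∈ M, ⋃ b ∈ M, {q | a ≠ b ∧ q ∈ seg h a ∩ seg h b} with hC
  have hCf : C.Finite := by
    refine hM.biUnion fun a ha => hM.biUnion fun b hb => ?_
    by_cases hab : a = b
    · simp [hab]
    · refine (hov a ha b hb hab).finite.subset ?_
      intro q hq
      exact hq.2
  have hgC : ∀ᶠ n in atTop, g n ∈ C := by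
    filter_upwards [hg 1 one_pos] with n hn
    rw [hC]
    simp only [mem_iUnion]
    exact ⟨m n, hin n, m (n + 1), hin (n + 1), zeno_ne hI n, hn.1⟩
  -- `g` is eventually constant
  have hconst : ∀ᶠ n in atTop, g (n + 1) = g n := by
    have h1 : ∀ᶠ n in atTop, ∀ q ∈ C, ∀ q' ∈ C, q ≠ q' → dist (g n) (g (n + 1)) < dist q q' := by
      rw [eventually_all_finite hCf]
      intro q _
      rw [eventually_all_finite hCf]
      intro q' _
      by_cases hqq : q = q'
      · exact Eventually.of_forall fun n hn => absurd hqq hn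
      · have hd : 0 < dist q q' / 3 := by
          have := dist_pos.2 hqq
          linarith
        have h2 := hg _ hd
        have h3 : ∀ᶠ n in atTop, g (n + 1) ∈ seg h (m (n + 1)) ∩ seg h (m (n + 1 + 1)) ∧
            dist (pos x u (pre m (n + 1 + 1))) (g (n + 1)) < dist q q' / 3 :=
          (tendsto_add_atTop_nat 1).eventually h2
        have h4 : ∀ᶠ n in atTop,
            dist (pos x u (pre m (n + 1))) (pos x u (pre m (n + 1 + 1))) < dist q q' / 3 :=
          (hstep.comp (tendsto_add_atTop_nat 1)).eventually (gt_mem_nhds hd)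
        filter_upwards [h2, h3, h4] with n h5 h6 h7 _
        have h8 := dist_triangle4 (g n) (pos x u (pre m (n + 1))) (pos x u (pre m (n + 1 + 1)))
          (g (n + 1))
        rw [dist_comm (g n) (pos x u (pre m (n + 1)))] at h8
        have h9 := h5.2
        have h10 := h6.2
        linarith
    have h2 : ∀ᶠ n in atTop, g (n + 1) ∈ C := (tendsto_add_atTop_nat 1).eventually hgC
    filter_upwards [h1, hgC, h2] with n h3 h4 h5
    by_contra hne
    exact lt_irrefl _ (h3 _ h4 _ h5 (fun e => hne e.symm))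
  obtain ⟨N, hN⟩ := eventually_atTop.1 hconst
  have hgN : ∀ n, N ≤ n → g n = g N := by
    intro n hn
    induction n, hn using Nat.le_induction with
    | base => rfl
    | succ n hn ih => rw [hN n hn, ih]
  apply zeno hLF hu hS hI (g N)
  rw [← tendsto_add_atTop_iff_nat 1, Metric.tendsto_nhds]
  intro ε hε
  filter_upwards [hg ε hε, eventually_ge_atTop N] with n h1 h2
  rw [← hgN n h2]
  exact h1.2

end Pool.Agent.Lib.MP_3309cd_pr
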