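import Pool.Agent.Lib.MP_3309cd_pr.HDefs
import Pool.Agent.Lib.MP_3309cd_pr.StabHit
import Pool.Agent.Lib.MP_3309cd_pr.Zeno
import Pool.Agent.Lib.MP_3309cd_pr.HOrb

/-!
The omega-limit family of an infinite bounded run (MP_3309cd_pr).
-/

namespace Pool.Agent.Lib.MP_3309cd_pr

open MeasureTheory ProbabilityTheory Set Filter Topology

/-- The points of the flights with velocity `v` and number at least `N`. -/
private def hlG (u : ℂ) (m : ℕ → Mir) (v : ℂ) (N : ℕ) : Set ℂ :=
  {y | ∃ n, N ≤ n ∧ vel u (pre m n) = v ∧ ∃ r : ℝ, 0 < r ∧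
    r < hitS (m n) (pos 0 u (pre m n)) v ∧ y = pos 0 u (pre m n) + r • v}

/-- The limit points of the flights with velocity `v`, off the mirrors. -/
private def hlA (h : ℝ) (M : Set Mir) (u : ℂ) (m : ℕ → Mir) (v : ℂ) : Set ℂ :=
  {p | (∀ m' ∈ M, p ∉ seg h m') ∧ ∀ N, p ∈ closure (hlG u m v N)}

private lemma hlG_anti (u : ℂ) (m : ℕ → Mir) (v : ℂ) {N N' : ℕ} (h : N ≤ N') :
    hlG u m v N' ⊆ hlG u m v N := by
  rintro y ⟨n, hn, h1⟩
  exact ⟨n, h.trans hn, h1⟩

/-- transport of closure membership by a map which is continuous at `p` -/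
private lemma hl_closure {S T : Set ℂ} {p : ℂ} {f : ℂ → ℂ} (hf : ContinuousAt f p)
    (hp : p ∈ closure S) (hev : ∀ᶠ y in 𝓝 p, y ∈ S → f y ∈ T) : f p ∈ closure T := by
  rw [mem_closure_iff_frequently] at hp ⊢
  have h1 : ∃ᶠ y in 𝓝 p, f y ∈ T := (hp.and_eventually hev).mono fun y hy => hy.2 hy.1
  exact hf.tendsto.frequently h1

section

variable {h : ℝ} {M : Set Mir} {u : ℂ} {R : ℝ} {m : ℕ → Mir}

private lemma hl_hitAt (hI : IRun h M 0 u m) (n : ℕ) :
    HitAt h M (pos 0 u (pre m n)) (vel u (pre m n)) (m n) := (hI (n + 1)).2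

private lemma hl_free (hM : LF M) (v p : ℂ) (hI : IRun h M 0 u m)
    (hp : p ∈ hlA h M u m v) (r : ℝ) (hr : 0 ≤ r) (hF : Free h M p v r) :
    p + r • v ∈ hlA h M u m v := by
  refine ⟨?_, fun N => ?_⟩
  · intro m' hm' hmem
    rcases hr.eq_or_lt with h0 | h0
    · rw [← h0, zero_smul, add_zero] at hmem
      exact hp.1 m' hm' hmem
    · exact hF m' hm' r h0 le_rfl hmem
  · have hst : ∀ᶠ y in 𝓝 p, Free h M y v r :=
      free_stable hM tendsto_id tendsto_const_nhds
        (fun m' hm' hmem => absurd hmem (hp.1 m' hm')) hF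
    refine hl_closure (f := fun y => y + r • v) (by fun_prop) (hp.2 N) ?_
    filter_upwards [hst] with y hy
    rintro ⟨n, hn, hv, r', h0, h1, rfl⟩
    have hH := hl_hitAt hI n
    rw [hv] at hH
    have h2 : r < hitS (m n) (pos 0 u (pre m n)) v - r' := by
      have h3 := (hH.shift h1 h0.le).lt_of_free hy
      rwa [hitS_shift hH.2.1] at h3
    refine ⟨n, hn, hv, r' + r, by linarith, by linarith, ?_⟩
    rw [add_smul, add_assoc]

/-- the position after at least one reflection lies on the last mirror -/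
private lemma hl_pos_mem (hI : IRun h M 0 u m) {n : ℕ} (hn : 1 ≤ n) :
    pos 0 u (pre m n) ∈ oseg h (m (n - 1)) ∧ ∀ m' ∈ M, m' ≠ m (n - 1) →
      pos 0 u (pre m n) ∉ seg h m' := by
  obtain ⟨k, rfl⟩ := Nat.exists_eq_add_of_le' hn
  exact (hI (k + 1)).pos_mem

/-- the backward flight from a point of the flight number `n` -/
private lemma hl_back (hI : IRun h M 0 u m) {n : ℕ} (hn : 1 ≤ n) {r' : ℝ} (h0 : 0 < r')
    (h1 : r' < hitS (m n) (pos 0 u (pre m n)) (vel u (pre m n))) :
    HitAt h M (pos 0 u (pre m n) + r' • vel u (pre m n)) (-(vel u (pre m n))) (m (n - 1)) ∧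
      hitS (m (n - 1)) (pos 0 u (pre m n) + r' • vel u (pre m n)) (-(vel u (pre m n))) = r' := by
  obtain ⟨k, rfl⟩ := Nat.exists_eq_add_of_le' hn
  have hH := hl_hitAt hI (k + 1)
  have hK := hl_hitAt hI k
  have hpm := (hI (k + 1)).pos_mem
  have htr : cr (dir (m k).2) (-(vel u (pre m (k + 1)))) ≠ 0 := by
    rw [cr_neg, pre_succ, vel_cons, cr_rl, neg_neg]
    exact hK.2.1
  have hback : ∀ ρ : ℝ, pos 0 u (pre m (k + 1)) + r' • vel u (pre m (k + 1)) +
      ρ • (-(vel u (pre m (k + 1)))) =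
      pos 0 u (pre m (k + 1)) + (r' - ρ) • vel u (pre m (k + 1)) := by
    intro ρ
    rw [smul_neg, sub_smul]; ring
  have hS : hitS (m k) (pos 0 u (pre m (k + 1)) + r' • vel u (pre m (k + 1)))
      (-(vel u (pre m (k + 1)))) = r' := by
    symm
    apply eq_hitS htr
    rw [hback, sub_self, zero_smul, add_zero]
    exact hpm.1.1
  refine ⟨⟨hK.1, htr, ?_, ?_, ?_⟩, hS⟩
  · show 0 < hitS (m k) _ _
    rw [hS]; exact h0
  · show _ + hitS (m k) _ _ • _ ∈ oseg h (m k)
    rw [hS, hback, sub_self, zero_smul, add_zero]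
    exact hpm.1
  · intro m' hm' hne ρ hρ0 hρ1 hmem
    change ρ ≤ hitS (m k) _ _ at hρ1
    rw [hS] at hρ1
    rw [hback] at hmem
    rcases hρ1.eq_or_lt with h2 | h2
    · rw [h2, sub_self, zero_smul, add_zero] at hmem
      exact hpm.2 m' hm' hne hmem
    · exact hH.free h1 m' hm' (r' - ρ) (by linarith) (by linarith) hmem

private lemma hl_freeb (hM : LF M) (v p : ℂ) (hI : IRun h M 0 u m)
    (hp : p ∈ hlA h M u m v) (r : ℝ) (hr : 0 ≤ r) (hF : Free h M p (-v) r) :
    p + r • (-v) ∈ hlA h M u m v := by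
  refine ⟨?_, fun N => ?_⟩
  · intro m' hm' hmem
    rcases hr.eq_or_lt with h0 | h0
    · rw [← h0, zero_smul, add_zero] at hmem
      exact hp.1 m' hm' hmem
    · exact hF m' hm' r h0 le_rfl hmem
  · have hst : ∀ᶠ y in 𝓝 p, Free h M y (-v) r :=
      free_stable hM tendsto_id tendsto_const_nhds
        (fun m' hm' hmem => absurd hmem (hp.1 m' hm')) hF
    refine hl_closure (f := fun y => y + r • (-v)) (by fun_prop) (hp.2 (N + 1)) ?_
    filter_upwards [hst] with y hy
    rintro ⟨n, hn, hv, r', h0, h1, rfl⟩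
    subst hv
    obtain ⟨hB, hS⟩ := hl_back hI (by omega) h0 h1
    have h2 := hB.lt_of_free hy
    rw [hS] at h2
    refine ⟨n, by omega, rfl, r' - r, by linarith, by linarith, ?_⟩
    rw [smul_neg, sub_smul]; ring

private lemma hl_hit (hM : LF M) (v p : ℂ) (hI : IRun h M 0 u m)
    (hp : p ∈ hlA h M u m v) (m' : Mir) (hH : HitAt h M p v m') (r : ℝ) (hr : 0 < r)
    (hF : Free h M (p + hitS m' p v • v) (rl m' v) r) :
    p + hitS m' p v • v + r • rl m' v ∈ hlA h M u m (rl m' v) := by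
  refine ⟨?_, fun N => ?_⟩
  · intro m'' hm'' hmem
    exact hF m'' hm'' r hr le_rfl hmem
  · have hcont : Continuous fun y : ℂ => y + hitS m' y v • v := by
      unfold hitS cr
      fun_prop
    have hst1 : ∀ᶠ y in 𝓝 p, HitAt h M y v m' :=
      hitAt_stable hM tendsto_id tendsto_const_nhds
        (fun m'' hm'' hmem => absurd hmem (hp.1 m'' hm'')) hH
    have hst2 : ∀ᶠ y in 𝓝 p, Free h M (y + hitS m' y v • v) (rl m' v) r := by
      refine free_stable hM hcont.continuousAt tendsto_const_nhds ?_ hF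
      intro m'' hm'' hmem
      by_cases hne : m'' = m'
      · subst hne
        refine ⟨by rw [cr_rl, ne_eq, neg_eq_zero]; exact hH.2.1, Eventually.of_forall fun y => ?_⟩
        exact hit_line hH.2.1
      · exact absurd hmem (hH.2.2.2.2 m'' hm'' hne _ hH.2.2.1 le_rfl)
    refine hl_closure (f := fun y => y + hitS m' y v • v + r • rl m' v)
      ((hcont.add continuous_const).continuousAt) (hp.2 N) ?_
    filter_upwards [hst1, hst2] with y hy1 hy2
    rintro ⟨n, hn, hv, r', h0, h1, rfl⟩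
    have hHn := hl_hitAt hI n
    rw [hv] at hHn
    have hmm : m' = m n := hy1.unique (hHn.shift h1 h0.le)
    subst hmm
    have hpos : pos 0 u (pre m n) + r' • v + hitS (m n) (pos 0 u (pre m n) + r' • v) v • v =
        pos 0 u (pre m (n + 1)) := by
      rw [hitS_shift hHn.2.1, pre_succ, pos_cons, hv, sub_smul]; ring
    have hvel : vel u (pre m (n + 1)) = rl (m n) v := by
      rw [pre_succ, vel_cons, hv]
    rw [hpos] at hy2 ⊢
    have hHn1 := hl_hitAt hI (n + 1)
    rw [hvel] at hHn1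
    exact ⟨n + 1, by omega, hvel, r, hr, hHn1.lt_of_free hy2, rfl⟩

private lemma hl_hitb (hM : LF M) (v p : ℂ) (hI : IRun h M 0 u m)
    (hp : p ∈ hlA h M u m v) (m' : Mir) (hH : HitAt h M p (-v) m') (r : ℝ) (hr : 0 < r)
    (hF : Free h M (p + hitS m' p (-v) • (-v)) (-(rl m' v)) r) :
    p + hitS m' p (-v) • (-v) + r • (-(rl m' v)) ∈ hlA h M u m (rl m' v) := by
  refine ⟨?_, fun N => ?_⟩
  · intro m'' hm'' hmem
    exact hF m'' hm'' r hr le_rfl hmem
  · have hcont : Continuous fun y : ℂ => y + hitS m' y (-v) • (-v) := by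
      unfold hitS cr
      fun_prop
    have hst1 : ∀ᶠ y in 𝓝 p, HitAt h M y (-v) m' :=
      hitAt_stable hM tendsto_id tendsto_const_nhds
        (fun m'' hm'' hmem => absurd hmem (hp.1 m'' hm'')) hH
    have hst2 : ∀ᶠ y in 𝓝 p, Free h M (y + hitS m' y (-v) • (-v)) (-(rl m' v)) r := by
      refine free_stable hM hcont.continuousAt tendsto_const_nhds ?_ hF
      intro m'' hm'' hmem
      by_cases hne : m'' = m'
      · subst hne
        have h1 := hH.2.1
        rw [cr_neg, ne_eq, neg_eq_zero] at h1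
        refine ⟨by rw [cr_neg, cr_rl, neg_neg]; exact h1, Eventually.of_forall fun y => ?_⟩
        exact hit_line hH.2.1
      · exact absurd hmem (hH.2.2.2.2 m'' hm'' hne _ hH.2.2.1 le_rfl)
    refine hl_closure (f := fun y => y + hitS m' y (-v) • (-v) + r • (-(rl m' v)))
      ((hcont.add continuous_const).continuousAt) (hp.2 (N + 2)) ?_
    filter_upwards [hst1, hst2] with y hy1 hy2
    rintro ⟨n, hn, hv, r', h0, h1, rfl⟩
    obtain ⟨k, rfl⟩ : ∃ k, n = k + 1 := ⟨n - 1, by omega⟩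
    subst hv
    obtain ⟨hB, hS⟩ := hl_back hI (Nat.le_add_left 1 k) h0 h1
    change HitAt h M _ _ (m k) at hB
    change hitS (m k) _ _ = r' at hS
    have hmm : m' = m k := hy1.unique hB
    subst hmm
    rw [hS] at hy2 ⊢
    have hpos : pos 0 u (pre m (k + 1)) + r' • vel u (pre m (k + 1)) +
        r' • (-(vel u (pre m (k + 1)))) = pos 0 u (pre m (k + 1)) := by
      rw [smul_neg]; ring
    have hvel : rl (m k) (vel u (pre m (k + 1))) = vel u (pre m k) := by
      rw [pre_succ, vel_cons, rl_rl]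
    rw [hpos, hvel] at hy2 ⊢
    have hHk := hl_hitAt hI k
    -- the length of the flight number k is larger than r
    have hlt : r < hitS (m k) (pos 0 u (pre m k)) (vel u (pre m k)) := by
      by_contra hle
      have hle := not_lt.1 hle
      have hpk := hl_pos_mem hI (n := k) (by omega)
      have hk1 : m (k - 1) ∈ M := (hl_hitAt hI (k - 1)).1
      refine hy2 _ hk1 _ hHk.2.2.1 hle ?_
      have : pos 0 u (pre m (k + 1)) + hitS (m k) (pos 0 u (pre m k)) (vel u (pre m k)) •
          (-(vel u (pre m k))) = pos 0 u (pre m k) := by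
        rw [pre_succ, pos_cons, smul_neg]; ring
      rw [this]
      exact oseg_subset_seg _ _ hpk.1
    refine ⟨k, by omega, rfl, hitS (m k) (pos 0 u (pre m k)) (vel u (pre m k)) - r,
      by linarith, by linarith, ?_⟩
    rw [pre_succ, pos_cons, smul_neg, sub_smul]; ring

end

theorem limit_family {h : ℝ} {M : Set Mir} {u : ℂ} {R : ℝ} {m : ℕ → Mir} (hh : 0 < h)
    (hM : M.Finite) (hfin : (Orb M u).Finite) (hu : ‖u‖ = 1) (hov : NoOv h M) (hNC : NC h M u)
    (hI : IRun h M 0 u m) (hb : ∀ n, ‖pos 0 u (pre m n)‖ ≤ R) :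
    ∃ A : ℂ → Set ℂ, Fam h M u R A ∧ ∃ v, ∃ p ∈ A v, ∀ δ : ℝ, 0 < δ → ∃ n : ℕ,
      vel u (pre m n) = v ∧ ∃ r : ℝ, 0 < r ∧ r < hitS (m n) (pos 0 u (pre m n)) v ∧
        ‖pos 0 u (pre m n) + r • v - p‖ < δ := by
  have hLF : LF M := fun _ => hM.subset (fun m hm => hm.1)
  have hS : SReg h M 0 u := nc_sreg_zero hNC
  have hu0 : u ≠ 0 := by intro h; rw [h] at hu; simp at hu
  have horb : ∀ n, vel u (pre m n) ∈ Orb M u := fun n =>
    ⟨pre m n, (hI n).mem, Or.inl lin_vel⟩
  refine ⟨hlA h M u m, ?_, ?_⟩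
  · constructor
    · intro v p hp
      exact hp.1
    · intro v p hp
      have h1 : hlG u m v 0 ⊆ Metric.closedBall 0 R := by
        rintro y ⟨n, -, hv, r, h0, h1, rfl⟩
        have hc := convex_closedBall (0 : ℂ) R
        have ha : pos 0 u (pre m n) ∈ Metric.closedBall (0 : ℂ) R := by
          rw [Metric.mem_closedBall, dist_zero_right]; exact hb n
        have hb' : pos 0 u (pre m n) + hitS (m n) (pos 0 u (pre m n)) v • v ∈
            Metric.closedBall (0 : ℂ) R := by
          rw [Metric.mem_closedBall, dist_zero_right]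
          have := hb (n + 1)
          rwa [pre_succ, pos_cons, hv] at this
        have hs : 0 < hitS (m n) (pos 0 u (pre m n)) v := h0.trans h1
        have := hc.add_smul_sub_mem ha hb' (t := r / hitS (m n) (pos 0 u (pre m n)) v)
          ⟨by positivity, by rw [div_le_one hs]; exact h1.le⟩
        rw [add_sub_cancel_left, smul_smul, div_mul_cancel₀ _ hs.ne'] at this
        exact this
      have h2 := closure_minimal h1 Metric.isClosed_closedBall (hp.2 0)
      rwa [Metric.mem_closedBall, dist_zero_right] at h2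
    · intro v p hp
      obtain ⟨y, n, -, hv, -⟩ := closure_nonempty_iff.1 ⟨p, hp.2 0⟩
      rw [← hv]
      exact horb n
    · intro v p hp hc
      refine ⟨hp, fun N => ?_⟩
      have h1 : hlA h M u m v ⊆ closure (hlG u m v N) := fun q hq => hq.2 N
      exact closure_minimal h1 isClosed_closure hc
    · intro v p hp r hr hF
      exact hl_free hLF v p hI hp r hr hF
    · intro v p hp r hr hF
      exact hl_freeb hLF v p hI hp r hr hF
    · intro v p hp m' hm' r hr hF
      exact hl_hit hLF v p hI hp m' hm' r hr hF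
    · intro v p hp m' hm' r hr hF
      exact hl_hitb hLF v p hI hp m' hm' r hr hF
  · obtain ⟨ℓ, hℓ, hlong⟩ := long_flights hM hu0 hov hS hI
    -- pigeonhole for the velocity
    have hfreq : ∃ᶠ n in atTop, ℓ ≤ hitS (m n) (pos 0 u (pre m n)) (vel u (pre m n)) := by
      rw [frequently_atTop]
      exact hlong
    obtain ⟨v, hvfreq⟩ : ∃ v, ∃ᶠ n in atTop, vel u (pre m n) = v ∧
        ℓ ≤ hitS (m n) (pos 0 u (pre m n)) (vel u (pre m n)) := by
      by_contra hno
      push Not at hno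
      have h1 : ∀ᶠ n in atTop, ∀ v ∈ Orb M u, ¬ (vel u (pre m n) = v ∧
          ℓ ≤ hitS (m n) (pos 0 u (pre m n)) (vel u (pre m n))) := by
        rw [hfin.eventually_all]
        intro v _
        exact (hno v).mono fun n hn hcon => absurd hcon.2 (not_le.2 (hn hcon.1))
      obtain ⟨n, hn1, hn2⟩ := (hfreq.and_eventually h1).exists
      exact hn2 _ (horb n) ⟨rfl, hn1⟩
    have hvorb : v ∈ Orb M u := by
      obtain ⟨n, hn, -⟩ := hvfreq.exists
      rw [← hn]; exact horb n
    -- a subsequence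
    obtain ⟨φ, hφ, hφP⟩ := extraction_of_frequently_atTop hvfreq
    obtain ⟨q, -, ψ, hψ, hlim⟩ := (isCompact_closedBall (0 : ℂ) R).tendsto_subseq
      (x := fun k => pos 0 u (pre m (φ k))) (fun k => by
        rw [Metric.mem_closedBall, dist_zero_right]; exact hb _)
    have hmem : ∀ r : ℝ, 0 < r → r < ℓ → ∀ N, q + r • v ∈ closure (hlG u m v N) := by
      intro r h0 h1 N
      have hlim2 : Tendsto (fun k => pos 0 u (pre m (φ (ψ k))) + r • v) atTop (𝓝 (q + r • v)) :=
        hlim.add tendsto_const_nhds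
      apply mem_closure_of_tendsto hlim2
      have hge : ∀ᶠ k in atTop, N ≤ φ (ψ k) :=
        (hφ.comp hψ).tendsto_atTop.eventually_ge_atTop N
      filter_upwards [hge] with k hk
      obtain ⟨h2, h3⟩ := hφP (ψ k)
      rw [h2] at h3
      exact ⟨φ (ψ k), hk, h2, r, h0, by linarith, rfl⟩
    -- choose r off the mirrors
    obtain ⟨r, ⟨hr0, hr1⟩, hr2⟩ : ∃ r ∈ Ioo 0 ℓ, r ∉ (fun m' => hitS m' q v) '' M := by
      have hinf : (Ioo 0 ℓ \ (fun m' => hitS m' q v) '' M).Nonempty :=
        ((Ioo_infinite hℓ).sdiff (hM.image _)).nonempty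
      obtain ⟨r, hr⟩ := hinf
      exact ⟨r, hr.1, hr.2⟩
    have hoff : ∀ m' ∈ M, q + r • v ∉ seg h m' := by
      intro m' hm' hmem'
      apply hr2
      exact ⟨m', hm', (eq_hitS (orb_not_parallel hh hu hNC hvorb m' hm') hmem'.1).symm⟩
    refine ⟨v, q + r • v, ⟨hoff, hmem r hr0 hr1⟩, ?_⟩
    intro δ hδ
    obtain ⟨y, ⟨n, -, hv, r', h0, h1, rfl⟩, hy⟩ := Metric.mem_closure_iff.1 (hmem r hr0 hr1 0) δ hδ
    refine ⟨n, hv, r', h0, h1, ?_⟩
    rw [← dist_eq_norm, dist_comm]
    exact hy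

end Pool.Agent.Lib.MP_3309cd_pr
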