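import Pool.Agent.Lib.MP_3309cd_pr.HDefs

/-!
Parallel runs (strips) for MP_3309cd_pr.
-/

namespace Pool.Agent.Lib.MP_3309cd_pr

open MeasureTheory ProbabilityTheory Set Filter Topology

lemma hstrip_cr_lin (L : List Mir) (a b : ℂ) :
    cr (lin L a) (lin L b) = (-1) ^ L.length * cr a b := by
  induction L generalizing a b with
  | nil => simp
  | cons m L ih =>
    rw [lin_cons, lin_cons, ih, cr_rl_rl, List.length_cons, pow_succ]; ring

theorem strip_coord {h : ℝ} {M : Set Mir} {x y v : ℂ} {L : List Mir} {s : ℝ} (hv : ‖v‖ = 1)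
    (hx : Run h M x v L) (hy : Run h M y v L) (hxy : cr v (y - x) = s) :
    cr (vel v L) (pos y v L - pos x v L) = (-1) ^ L.length * s := by
  have h1 : lin L (pos y v L - pos x v L) = (y - x) + (tim y v L - tim x v L) • v := by
    rw [← unf_sub_unf, hx.unf_pos, hy.unf_pos, sub_smul]; ring
  have h2 := hstrip_cr_lin L (vel v L) (pos y v L - pos x v L)
  rw [lin_vel, h1, cr_add, cr_smul, cr_self, hxy, mul_zero, add_zero] at h2
  rw [h2, ← mul_assoc, ← pow_add, ← two_mul, pow_mul]
  norm_num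

private lemma continuous_hitS (m : Mir) (v : ℂ) : Continuous fun p => hitS m p v := by
  unfold hitS cr
  fun_prop

private lemma continuous_pos (v : ℂ) (L : List Mir) : Continuous fun x => pos x v L := by
  induction L with
  | nil => exact continuous_id
  | cons m L ih =>
    simp only [pos_cons]
    exact ih.add (((continuous_hitS m (vel v L)).comp ih).smul continuous_const)

/-- a continuous function without zeros on `(0, w]` which is positive at `0` is positive. -/
private lemma ivt_pos {f : ℝ → ℝ} (hf : Continuous f) {w : ℝ} (hw : 0 < w) (h0 : 0 < f 0)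
    (hne : ∀ u, 0 < u → u ≤ w → f u ≠ 0) : 0 < f w := by
  by_contra hle
  rw [not_lt] at hle
  obtain ⟨u, hu, hfu⟩ := intermediate_value_Icc' hw.le hf.continuousOn ⟨hle, h0.le⟩
  rcases hu.1.eq_or_lt with h1 | h1
  · rw [← h1] at hfu; linarith
  · exact hne u h1 hu.2 hfu

/-- a continuous function without zeros on `(0, w]` which is positive at `w` is positive on
`(0, w]`. -/
private lemma ivt_back {f : ℝ → ℝ} (hf : Continuous f) {w : ℝ} (h1 : 0 < f w)
    (hne : ∀ u, 0 < u → u ≤ w → f u ≠ 0) {u : ℝ} (hu : 0 < u) (huw : u ≤ w) : 0 < f u := by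
  by_contra hle
  rw [not_lt] at hle
  obtain ⟨t, ht, hft⟩ := intermediate_value_Icc huw hf.continuousOn ⟨hle, h1.le⟩
  exact hne t (by linarith [ht.1]) ht.2 hft

private lemma ivt_zero {f : ℝ → ℝ} (hf : Continuous f) {w : ℝ} (hw : 0 < w) (h1 : 0 < f w)
    (hne : ∀ u, 0 < u → u ≤ w → f u ≠ 0) : 0 ≤ f 0 := by
  by_contra hlt
  rw [not_le] at hlt
  obtain ⟨t, ht, hft⟩ := intermediate_value_Icc hw.le hf.continuousOn ⟨hlt.le, h1.le⟩
  rcases ht.1.eq_or_lt with h2 | h2
  · rw [← h2] at hft; linarith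
  · exact hne t h2 ht.2 hft

theorem strip_step {h : ℝ} {M : Set Mir} {x v : ℂ} {σ η : ℝ} {L : List Mir} {m : Mir}
    (hM : M.Finite) (hv : ‖v‖ = 1) (hσ : σ = 1 ∨ σ = -1)
    (hpar : ∀ m' ∈ M, cr (dir m'.2) (vel v L) ≠ 0)
    (h0 : Run h M x v (m :: L))
    (hw : ∀ w : ℝ, 0 < w → w < η → Run h M (x + (σ * w) • (Complex.I * v)) v L)
    (hq : ∀ q ∈ Sg h M, ∀ w : ℝ, 0 < w → w < η →
      cr (vel v L) (q - pos x v L) ≠ (-1) ^ L.length * (σ * w)) :
    ∀ w : ℝ, 0 < w → w < η → Run h M (x + (σ * w) • (Complex.I * v)) v (m :: L) := by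
  intro w hw0 hwη
  set V : ℂ := vel v L with hV
  obtain ⟨P, hP⟩ : ∃ P : ℝ → ℂ, P = fun w => pos (x + (σ * w) • (Complex.I * v)) v L := ⟨_, rfl⟩
  have hPc : Continuous P := by
    rw [hP]
    exact (continuous_pos v L).comp (by fun_prop)
  have hP0 : P 0 = pos x v L := by rw [hP]; simp
  have hmM : m ∈ M := h0.2.1
  -- the hitting times
  have hTc : ∀ m' : Mir, Continuous fun u => hitS m' (P u) V := fun m' =>
    (continuous_hitS m' V).comp hPc
  have hDc : ∀ m' : Mir, Continuous fun u => dt (dir m'.2) (P u + hitS m' (P u) V • V - m'.1) := by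
    intro m'
    exact (continuous_dt_right _).comp ((hPc.add ((hTc m').smul continuous_const)).sub
      continuous_const)
  -- runs on `[0, η)`
  have hrun : ∀ u, 0 ≤ u → u < η → Run h M (x + (σ * u) • (Complex.I * v)) v L := by
    intro u hu huη
    rcases hu.eq_or_lt with h1 | h1
    · rw [← h1]; simpa using h0.1
    · exact hw u h1 huη
  -- coordinate
  have hcoord : ∀ u, 0 < u → u < η → ∀ m' : Mir,
      cr V (P u + hitS m' (P u) V • V - pos x v L) = (-1) ^ L.length * (σ * u) := by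
    intro u hu huη m'
    have h1 := strip_coord (s := σ * u) hv h0.1 (hw u hu huη) (by
      rw [add_sub_cancel_left, cr_smul, cr_I_smul, dt_self, hv]; ring)
    rw [show P u + hitS m' (P u) V • V - pos x v L = (P u - pos x v L) + hitS m' (P u) V • V by
      ring, cr_add, cr_smul, cr_self, mul_zero, add_zero, hP]
    exact h1
  have hSg : ∀ u, 0 < u → u < η → ∀ m' : Mir, P u + hitS m' (P u) V • V ∉ Sg h M :=
    fun u hu huη m' hmem => hq _ hmem u hu huη (hcoord u hu huη m')
  have hline : ∀ u, ∀ m' ∈ M, cr (dir m'.2) (P u + hitS m' (P u) V • V - m'.1) = 0 :=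
    fun u m' hm' => hit_line (hpar m' hm')
  -- F3
  have hF3 : ∀ u, 0 < u → u < η → ∀ m' ∈ M,
      |dt (dir m'.2) (P u + hitS m' (P u) V • V - m'.1)| ≠ h := by
    intro u hu huη m' hm' heq
    apply hSg u hu huη m'
    left
    exact ⟨m', hm', ⟨hline u m' hm', heq.le⟩, fun ho => by
      have := ho.2
      rw [heq] at this
      exact lt_irrefl _ this⟩
  -- F5
  have hF5 : ∀ u, 0 ≤ u → u < η → ∀ m' ∈ M, hitS m' (P u) V = 0 →
      |dt (dir m'.2) (P u + hitS m' (P u) V • V - m'.1)| ≤ h → ∀ u', hitS m' (P u') V = 0 := by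
    intro u hu huη m' hm' hT hD u'
    have hmem : P u ∈ seg h m' := by
      have h1 := hline u m' hm'
      rw [hT, zero_smul, add_zero] at h1 hD
      exact ⟨h1, hD⟩
    have hr := hrun u hu huη
    rw [hP] at hmem
    cases L with
    | nil => exact absurd hmem (hr m' hm')
    | cons m₁ L₁ =>
      have hm1 : m' = m₁ := by
        by_contra hne
        exact hr.pos_mem.2 m' hm' hne hmem
      subst hm1
      apply hitS_eq_zero
      rw [hP]
      simp only [pos_cons]
      exact hit_line h0.1.2.2.1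
  -- the mirror `m`
  have hDm : ∀ u, 0 ≤ u → u ≤ w → |dt (dir m.2) (P u + hitS m (P u) V • V - m.1)| < h := by
    intro u hu huw
    have h00 : |dt (dir m.2) (P 0 + hitS m (P 0) V • V - m.1)| < h := by
      rw [hP0]; exact h0.2.2.2.2.1.2
    rcases hu.eq_or_lt with h1 | h1
    · rw [← h1]; exact h00
    · have := ivt_pos (f := fun u => h - |dt (dir m.2) (P u + hitS m (P u) V • V - m.1)|)
        (continuous_const.sub (hDc m).abs) h1 (by linarith) (by
          intro t ht0 htu heq
          exact hF3 t ht0 (by linarith) m hmM (by linarith))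
      linarith
  have hT0 : 0 < hitS m (P 0) V := by rw [hP0]; exact h0.2.2.2.1
  have hTm : ∀ u, 0 ≤ u → u ≤ w → 0 < hitS m (P u) V := by
    intro u hu huw
    rcases hu.eq_or_lt with h1 | h1
    · rw [← h1]; exact hT0
    · refine ivt_pos (f := fun u => hitS m (P u) V) (hTc m) h1 hT0 ?_
      intro t ht0 htu heq
      have := hF5 t ht0.le (by linarith) m hmM heq (hDm t ht0.le (by linarith)).le 0
      linarith
  refine ⟨hw w hw0 hwη, ?_⟩
  have hPw : pos (x + (σ * w) • (Complex.I * v)) v L = P w := by rw [hP]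
  rw [hPw]
  refine ⟨hmM, hpar m hmM, hTm w hw0.le le_rfl, ⟨hline w m hmM, hDm w hw0.le le_rfl⟩, ?_⟩
  intro m' hm' hne r hr0 hr1 hmem
  have hrT : r = hitS m' (P w) V := eq_hitS (hpar m' hm') hmem.1
  rw [hrT] at hr0 hr1 hmem
  have hDw : |dt (dir m'.2) (P w + hitS m' (P w) V • V - m'.1)| < h :=
    lt_of_le_of_ne hmem.2 (hF3 w hw0 hwη m' hm')
  have hnz : ∀ u, 0 < u → u ≤ w →
      h - |dt (dir m'.2) (P u + hitS m' (P u) V • V - m'.1)| ≠ 0 := by
    intro u hu huw heq
    exact hF3 u hu (by linarith) m' hm' (by linarith)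
  have hDu : ∀ u, 0 < u → u ≤ w → |dt (dir m'.2) (P u + hitS m' (P u) V • V - m'.1)| < h := by
    intro u hu huw
    have := ivt_back (f := fun u => h - |dt (dir m'.2) (P u + hitS m' (P u) V • V - m'.1)|)
      (continuous_const.sub (hDc m').abs) (by linarith) hnz hu huw
    linarith
  have hD0 : |dt (dir m'.2) (P 0 + hitS m' (P 0) V • V - m'.1)| ≤ h := by
    have := ivt_zero (f := fun u => h - |dt (dir m'.2) (P u + hitS m' (P u) V • V - m'.1)|)
      (continuous_const.sub (hDc m').abs) hw0 (by linarith) hnz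
    linarith
  have hDall : ∀ u, 0 ≤ u → u ≤ w →
      |dt (dir m'.2) (P u + hitS m' (P u) V • V - m'.1)| ≤ h := by
    intro u hu huw
    rcases hu.eq_or_lt with h1 | h1
    · rw [← h1]; exact hD0
    · exact (hDu u h1 huw).le
  have hT'ne : ∀ u, 0 ≤ u → u ≤ w → hitS m' (P u) V ≠ 0 := by
    intro u hu huw heq
    have := hF5 u hu (by linarith) m' hm' heq (hDall u hu huw) w
    linarith
  have hT'0 : 0 < hitS m' (P 0) V := by
    have h1 := ivt_zero (f := fun u => hitS m' (P u) V) (hTc m') hw0 hr0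
      (fun u hu huw => hT'ne u hu.le huw)
    exact lt_of_le_of_ne h1 (fun heq => hT'ne 0 le_rfl hw0.le heq.symm)
  -- F4
  have hF4 : ∀ u, 0 < u → u ≤ w → hitS m (P u) V - hitS m' (P u) V ≠ 0 := by
    intro u hu huw heq
    have heq' : hitS m (P u) V = hitS m' (P u) V := by linarith
    apply hSg u hu (by linarith) m
    right
    refine ⟨m, hmM, m', hm', fun e => hne e.symm, ⟨hline u m hmM, (hDm u hu.le huw).le⟩, ?_⟩
    rw [heq']
    exact ⟨hline u m' hm', hDall u hu.le huw⟩
  have hpos : 0 < hitS m (P w) V - hitS m' (P w) V :=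
    lt_of_le_of_ne (by linarith) (fun e => hF4 w hw0 le_rfl e.symm)
  have hle0 := ivt_zero (f := fun u => hitS m (P u) V - hitS m' (P u) V)
    ((hTc m).sub (hTc m')) hw0 hpos hF4
  have hcontra := h0.2.2.2.2.2 m' hm' hne (hitS m' (P 0) V) hT'0 (by
    rw [← hP0]; linarith)
  apply hcontra
  rw [← hP0]
  exact ⟨hline 0 m' hm', hD0⟩

end Pool.Agent.Lib.MP_3309cd_pr
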