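import Pool.Agent.Lib.MP_3309cd_pr.HDefs
import Pool.Agent.Lib.MP_3309cd_pr.Zeno
import Pool.Agent.Lib.MP_3309cd_pr.HOrb
import Pool.Agent.Lib.MP_3309cd_pr.HGap
import Pool.Agent.Lib.MP_3309cd_pr.HBack
import Pool.Agent.Lib.MP_3309cd_pr.HStrip

/-!
Openness of invariant families (records and pigeonhole argument), MP_3309cd_pr.
-/

namespace Pool.Agent.Lib.MP_3309cd_pr

open MeasureTheory ProbabilityTheory Set Filter Topology


section hopen

variable {h : ℝ} {M : Set Mir} {u x v : ℂ} {R : ℝ} {A : ℂ → Set ℂ} {m : ℕ → Mir}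

/-- cr-coordinate of the shifted start -/
lemma hopen_start {σ w : ℝ} (hv : ‖v‖ = 1) :
    cr v (x + (σ * w) • (Complex.I * v) - x) = σ * w := by
  rw [add_sub_cancel_left, cr_smul, cr_I_smul, dt_self, hv]; ring

/-- The flight after a finite run of a point of a family is in the family. -/
lemma hopen_mem (hA : Fam h M u R A) (hM : LF M) (hx : x ∈ A v) {L : List Mir}
    (hL : Run h M x v L) : ∃ r > 0, Free h M (pos x v L) (vel v L) r ∧
      pos x v L + r • vel v L ∈ A (vel v L) := by
  obtain ⟨r, hr, hF⟩ := exists_free hM hL.transversal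
  exact ⟨r, hr, hF, fam_forward hA hx hL hr hF⟩

/-- Two vertices on the same mirror with the same velocity and the same transversal coordinate
coincide. -/
lemma hopen_vertex {y : ℂ} {L L' : List Mir} {b : Mir}
    (hL : Run h M x v (b :: L)) (hL' : Run h M y v (b :: L')) (hvel : vel v L = vel v L')
    (hc : cr (vel v L) (pos x v L - pos y v L') = 0) :
    pos x v (b :: L) = pos y v (b :: L') := by
  have ha : cr (dir b.2) (pos x v (b :: L) - b.1) = 0 := hL.pos_mem.1.1
  have hb : cr (dir b.2) (pos y v (b :: L') - b.1) = 0 := hL'.pos_mem.1.1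
  have hc : cr (vel v L) (pos x v (b :: L) - pos y v (b :: L')) = 0 := by
    rw [pos_cons, pos_cons, ← hvel]
    have h3 : pos x v L + hitS b (pos x v L) (vel v L) • vel v L -
        (pos y v L' + hitS b (pos y v L') (vel v L) • vel v L) =
        (pos x v L - pos y v L') +
          (hitS b (pos x v L) (vel v L) - hitS b (pos y v L') (vel v L)) • vel v L := by
      rw [sub_smul]; ring
    rw [h3, cr_add, hc, cr_smul, cr_self]; ring
  have hd : cr (dir b.2) (pos x v (b :: L) - pos y v (b :: L')) = 0 := by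
    rw [show pos x v (b :: L) - pos y v (b :: L') =
      (pos x v (b :: L) - b.1) - (pos y v (b :: L') - b.1) by ring, cr_sub, ha, hb, sub_zero]
  have htr : cr (dir b.2) (vel v L) ≠ 0 := hL.2.2.1
  set z := pos x v (b :: L) - pos y v (b :: L') with hz
  have hz1 : z = dt (dir b.2) z • dir b.2 := by
    have := decomp z (norm_dir b.2)
    rw [hd, zero_smul, add_zero] at this
    exact this
  have hz2 : dt (dir b.2) z * cr (vel v L) (dir b.2) = 0 := by
    rw [← cr_smul, ← hz1]; exact hc
  rcases mul_eq_zero.1 hz2 with h4 | h4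
  · rw [h4, zero_smul] at hz1
    exact sub_eq_zero.1 hz1
  · exfalso; apply htr; rw [cr_comm, h4, neg_zero]

/-- key collision argument -/
lemma hopen_collide (hA : Fam h M u R A) (hM : LF M) (hx : x ∈ A v) {σ w : ℝ} (hv : ‖v‖ = 1)
    (hgap : x + (σ * w) • (Complex.I * v) ∉ A v) {L L' : List Mir} {b : Mir}
    (hL : Run h M x v (b :: L)) (hL' : Run h M x v (b :: L'))
    (hw : Run h M (x + (σ * w) • (Complex.I * v)) v (b :: L))
    (hvel : vel v L = vel v L')
    (hcr : cr (vel v L) (pos x v L' - pos x v L) = (-1) ^ L.length * (σ * w)) : False := by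
  set y := x + (σ * w) • (Complex.I * v) with hy
  have h1 : pos y v (b :: L) = pos x v (b :: L') := by
    apply hopen_vertex hw hL' hvel
    have h2 : cr (vel v L) (pos y v L - pos x v L) = (-1) ^ L.length * (σ * w) :=
      strip_coord hv hL.1 hw.1 (hopen_start hv)
    rw [show pos y v L - pos x v L' = (pos y v L - pos x v L) - (pos x v L' - pos x v L) by ring,
      cr_sub, h2, hcr, sub_self]
  have hvel' : vel v (b :: L) = vel v (b :: L') := by simp [hvel]
  obtain ⟨r, hr, hF, hmem⟩ := hopen_mem hA hM hx hL'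
  rw [← h1, ← hvel'] at hF hmem
  exact hgap (fam_back hA hM hw hr hF hmem)

lemma hopen_even {L : List Mir} (hL : Even L.length) :
    ∃ ζ : ℂ, ∀ z, lin L z = ζ * z := by
  obtain ⟨k, hk⟩ := hL
  induction k generalizing L with
  | zero =>
    have : L = [] := List.length_eq_zero_iff.1 (by omega)
    exact ⟨1, fun z => by simp [this]⟩
  | succ k ih =>
    match L, hk with
    | [a], hk => simp at hk; omega
    | a :: b :: L, hk =>
      obtain ⟨ζ, hζ⟩ := ih (L := L) (by simp at hk; omega)
      refine ⟨ζ * (dir b.2 ^ 2 * (starRingEnd ℂ) (dir a.2 ^ 2)), fun z => ?_⟩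
      simp only [lin_cons, hζ, rl, map_mul, map_pow, Complex.conj_conj]
      ring

/-- no periodic regular trajectory -/
lemma hopen_period (hNC : NC h M u) {K L : List Mir} (hK : Run h M x v (K ++ L))
    (horb : vel v L ∈ Orb M u) (hne : K ≠ []) (heven : Even K.length)
    (hpos : pos x v (K ++ L) = pos x v L) (hvel : vel v (K ++ L) = vel v L) (hv : ‖v‖ = 1) :
    False := by
  have hv0 : vel v L ≠ 0 := by
    rw [← norm_ne_zero_iff, norm_vel, hv]; exact one_ne_zero
  have hL : Run h M x v L := hK.of_suffix (List.suffix_append K L)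
  obtain ⟨ζ, hζ⟩ := hopen_even heven
  have h1 : lin K (vel v L) = vel v L := by
    have := lin_vel (u := vel v L) (L := K)
    rwa [← vel_append, hvel] at this
  have h2 : ζ = 1 := by
    rw [hζ] at h1
    exact mul_right_cancel₀ hv0 (by rw [h1, one_mul])
  set s := tim x v (K ++ L) - tim x v L with hs
  have h3 : unf K (pos x v L) = pos x v L + s • vel v L := by
    have ha : unf L (unf K (pos x v L)) = x + tim x v (K ++ L) • v := by
      have := hK.unf_pos
      rwa [hpos, unf_append] at this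
    have hb : unf L (pos x v L + s • vel v L) = x + tim x v (K ++ L) • v := by
      rw [hL.unf_pos_add, hs]; congr 2; ring
    have hc : lin L (unf K (pos x v L) - (pos x v L + s • vel v L)) = 0 := by
      rw [← unf_sub_unf, ha, hb, sub_self]
    have hd : ‖unf K (pos x v L) - (pos x v L + s • vel v L)‖ = 0 := by
      rw [← norm_lin (L := L), hc, norm_zero]
    exact sub_eq_zero.1 (norm_eq_zero.1 hd)
  have h4 : unf K 0 = s • vel v L := by
    have h5 := unf_sub_unf (L := K) (pos x v L) 0
    rw [hζ, h2, one_mul, sub_zero, h3] at h5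
    linear_combination -h5
  have htim : 0 < s := by
    have h6 : ∀ K : List Mir, K ≠ [] → Run h M x v (K ++ L) → tim x v L < tim x v (K ++ L) := by
      intro K
      induction K with
      | nil => intro h; exact absurd rfl h
      | cons a K ih =>
        intro _ hr
        have h7 : tim x v (K ++ L) < tim x v (a :: K ++ L) := Run.tim_lt hr
        by_cases hK0 : K = []
        · subst hK0; exact h7
        · exact (ih hK0 hr.1).trans h7
    have := h6 K hne hK
    rw [hs]; linarith
  exact orb_no_period hNC horb (fun a ha => hK.mem a (List.mem_append_left _ ha)) htim h4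

lemma hopen_pre (m : ℕ → Mir) (n k : ℕ) : ∃ K : List Mir, K.length = k ∧
    pre m (n + k) = K ++ pre m n := by
  induction k with
  | zero => exact ⟨[], rfl, rfl⟩
  | succ k ih =>
    obtain ⟨K, hK, hpre⟩ := ih
    exact ⟨m (n + k) :: K, by simp [hK], by rw [← add_assoc, pre_succ, hpre]; rfl⟩

lemma hopen_no_gap (hh : 0 < h) (hM : M.Finite) (hfin : (Orb M u).Finite) (hu : ‖u‖ = 1)
    (hov : NoOv h M) (hNC : NC h M u) (hA : Fam h M u R A) (hx : x ∈ A v) (hv : ‖v‖ = 1)
    {σ w₀ : ℝ} (hσ : σ = 1 ∨ σ = -1) (hw₀ : 0 < w₀)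
    (hgap : ∀ w : ℝ, 0 < w → w < w₀ → (∀ a ∈ M, x + (σ * w) • (Complex.I * v) ∉ seg h a) ∧
      x + (σ * w) • (Complex.I * v) ∉ A v) (hS : SReg h M x v) : False := by
  have hLF : LF M := fun _ => hM.subset (fun m hm => hm.1)
  have hbd : ∀ L, Run h M x v L → ∀ r, 0 < r → Free h M (pos x v L) (vel v L) r →
      ‖pos x v L + r • vel v L‖ ≤ R := fun L hL r hr hF =>
    hA.bdd _ _ (fam_forward hA hx hL hr hF)
  obtain ⟨m, hI⟩ := exists_irun hLF (hA.off v x hx) hS (by
    intro L hL
    by_contra hall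
    push Not at hall
    have hR0 : 0 ≤ R := (norm_nonneg _).trans (hA.bdd v x hx)
    have hpos : 0 < R + ‖pos x v L‖ + 1 := by
      have := norm_nonneg (pos x v L)
      linarith
    have h1 := hbd L hL _ hpos (hall _)
    have h3 : ‖(R + ‖pos x v L‖ + 1) • vel v L‖ = R + ‖pos x v L‖ + 1 := by
      rw [norm_smul, norm_vel, hv, mul_one, Real.norm_of_nonneg hpos.le]
    have h4 : ‖(R + ‖pos x v L‖ + 1) • vel v L‖ ≤
        ‖pos x v L + (R + ‖pos x v L‖ + 1) • vel v L‖ + ‖pos x v L‖ := by
      calc _ = ‖(pos x v L + (R + ‖pos x v L‖ + 1) • vel v L) - pos x v L‖ := by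
            congr 1; ring
        _ ≤ _ := norm_sub_le _ _
    linarith)
  set V : ℕ → ℂ := fun n => vel v (pre m n) with hV
  set P : ℕ → ℂ := fun n => pos x v (pre m n) with hP
  set ε : ℕ → ℝ := fun n => (-1) ^ n * σ with hε
  set D : ℕ → ℂ → ℝ := fun n q => ε n * cr (V n) (q - P n) with hD
  have hσ2 : σ * σ = 1 := by rcases hσ with h1 | h1 <;> rw [h1] <;> norm_num
  have hε2 : ∀ n, ε n * ε n = 1 := by
    intro n
    have : ((-1 : ℝ) ^ n) * ((-1 : ℝ) ^ n) = 1 := by
      rw [← mul_pow]; norm_num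
    calc ε n * ε n = ((-1 : ℝ) ^ n * (-1 : ℝ) ^ n) * (σ * σ) := by simp only [hε]; ring
      _ = 1 := by rw [this, hσ2, one_mul]
  have hεmem : ∀ n, ε n ∈ ({1, -1} : Set ℝ) := by
    intro n
    have := hε2 n
    have h2 : (ε n - 1) * (ε n + 1) = 0 := by linarith [this, mul_comm (ε n) (ε n)]
    rcases mul_eq_zero.1 h2 with h3 | h3
    · left; linarith
    · right
      have : ε n = -1 := by linarith
      exact this
  have hVorb : ∀ n, V n ∈ Orb M u := by
    intro n
    obtain ⟨r, _, _, hmem⟩ := hopen_mem hA hLF hx (hI n)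
    exact hA.orb _ _ hmem
  have hQ : (Sg h M).Finite := sg_finite hh hM hov
  -- the strips
  have hrun : ∀ n (d : ℝ), d ≤ w₀ → (∀ j < n, ∀ q ∈ Sg h M, 0 < D j q → d ≤ D j q) →
      ∀ w : ℝ, 0 < w → w < d → Run h M (x + (σ * w) • (Complex.I * v)) v (pre m n) := by
    intro n
    induction n with
    | zero =>
      intro d hd _ w hw0 hwd
      exact (hgap w hw0 (lt_of_lt_of_le hwd hd)).1
    | succ n ih =>
      intro d hd hj w hw0 hwd
      rw [pre_succ]
      refine strip_step hM hv hσ (orb_not_parallel hh hu hNC (hVorb n)) (hI (n + 1))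
        (fun w' h0 h1 => ih d hd (fun j hj' => hj j (by omega)) w' h0 h1) ?_ w hw0 hwd
      intro q hq w' h0 h1 heq
      rw [length_pre] at heq
      have h2 : D n q = w' := by
        show ε n * cr (vel v (pre m n)) (q - pos x v (pre m n)) = w'
        rw [heq]
        have h3 : ε n * ((-1) ^ n * (σ * w')) = ε n * ε n * w' := by simp only [hε]; ring
        rw [h3, hε2, one_mul]
      have := hj n (by omega) q hq (by rw [h2]; exact h0)
      rw [h2] at this
      linarith
  -- collisions
  have hcoll : ∀ n n' (w : ℝ), 0 < w → w < w₀ → V n = V n' → m n = m n' →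
      ε n * cr (V n) (P n' - P n) = w →
      Run h M (x + (σ * w) • (Complex.I * v)) v (pre m (n + 1)) → False := by
    intro n n' w h0 h1 hVV hmm hcr hr
    have h2 : Run h M x v (m n :: pre m n') := by rw [hmm]; exact hI (n' + 1)
    refine hopen_collide hA hLF hx hv (hgap w h0 h1).2 (hI (n + 1)) h2 hr hVV ?_
    rw [length_pre]
    show cr (V n) (P n' - P n) = _
    have : cr (V n) (P n' - P n) = ε n * ε n * cr (V n) (P n' - P n) := by rw [hε2, one_mul]
    rw [this, mul_assoc, hcr]; simp only [hε]; ring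
  -- records
  set Rec : Set (ℕ × ℂ) := {p | p.2 ∈ Sg h M ∧ 0 < D p.1 p.2 ∧ D p.1 p.2 < w₀ ∧
    (∀ j < p.1, ∀ q ∈ Sg h M, 0 < D j q → D p.1 p.2 < D j q) ∧
    (∀ q ∈ Sg h M, 0 < D p.1 q → D p.1 p.2 ≤ D p.1 q)} with hRec
  have hRinj : ∀ n n' q, n < n' → (n, q) ∈ Rec → (n', q) ∈ Rec → V n = V n' → m n = m n' →
      ε n = ε n' → False := by
    intro n n' q hnn h1 h2 hVV hmm hee
    obtain ⟨hq, ha, hb, hc, hd⟩ := h1
    obtain ⟨-, ha', hb', hc', hd'⟩ := h2
    have hlt : D n' q < D n q := hc' n hnn q hq ha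
    simp only at ha hb hc hd ha' hb' hc' hd'
    refine hcoll n n' (D n q - D n' q) (by linarith) (by linarith) hVV hmm ?_ ?_
    · simp only [hD]
      rw [← hee, ← hVV, ← mul_sub, ← cr_sub]
      congr 2; ring
    · refine hrun (n + 1) (D n q) hb.le ?_ _ (by linarith) (by linarith)
      intro j hj q' hq' hpos
      rcases Nat.lt_succ_iff_lt_or_eq.1 hj with h5 | h5
      · exact (hc j h5 q' hq' hpos).le
      · subst h5; exact hd q' hq' hpos
  have hRfin : Rec.Finite := by
    apply Set.Finite.of_injOn (f := fun p : ℕ × ℂ => (p.2, V p.1, m p.1, ε p.1))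
      (t := (Sg h M) ×ˢ (Orb M u) ×ˢ M ×ˢ ({1, -1} : Set ℝ))
    · rintro ⟨n, q⟩ hp
      exact ⟨hp.1, hVorb n, (hI (n + 1)).mem _ (by simp), hεmem n⟩
    · rintro ⟨n, q⟩ hp ⟨n', q'⟩ hp' heq
      simp only [Prod.mk.injEq] at heq
      obtain ⟨rfl, hVV, hmm, hee⟩ := heq
      rcases lt_trichotomy n n' with h1 | h1 | h1
      · exact (hRinj n n' q h1 hp hp' hVV hmm hee).elim
      · rw [h1]
      · exact (hRinj n' n q h1 hp' hp hVV.symm hmm.symm hee.symm).elim
    · exact hQ.prod (hfin.prod (hM.prod (by simp)))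
  obtain ⟨η, hη0, hηw, hηR⟩ : ∃ η : ℝ, 0 < η ∧ η ≤ w₀ ∧ ∀ p ∈ Rec, η ≤ D p.1 p.2 := by
    have hf : (insert w₀ ((fun p : ℕ × ℂ => D p.1 p.2) '' Rec)).Finite :=
      (hRfin.image _).insert _
    obtain ⟨η, hη, hmin⟩ := Set.exists_min_image _ id hf ⟨w₀, by simp⟩
    refine ⟨η, ?_, hmin w₀ (by simp), fun p hp => hmin _ (by right; exact ⟨p, hp, rfl⟩)⟩
    rcases hη with h1 | ⟨p, hp, h1⟩
    · rw [h1]; exact hw₀
    · rw [← h1]; exact hp.2.1
  have hall : ∀ n, ∀ q ∈ Sg h M, 0 < D n q → η ≤ D n q := by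
    by_contra hne
    push Not at hne
    classical
    have hex : ∃ n, ∃ q ∈ Sg h M, 0 < D n q ∧ D n q < η := hne
    set n := Nat.find hex with hn
    obtain ⟨q₀, hq₀, h1, h2⟩ := Nat.find_spec hex
    obtain ⟨q, hq, hmin⟩ := Set.exists_min_image {q ∈ Sg h M | 0 < D n q} (fun q => D n q)
      (hQ.subset fun q hq => hq.1) ⟨q₀, hq₀, h1⟩
    have h3 : D n q < η := lt_of_le_of_lt (hmin q₀ ⟨hq₀, h1⟩) h2
    have hr : (n, q) ∈ Rec := by
      refine ⟨hq.1, hq.2, lt_of_lt_of_le h3 hηw, ?_, fun q' hq' h0 => hmin q' ⟨hq', h0⟩⟩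
      intro j hj q' hq' h0
      have := Nat.find_min hex hj
      push Not at this
      exact lt_of_lt_of_le h3 (this q' hq' h0)
    have := hηR _ hr
    simp only at this
    linarith
  have hrun' : ∀ n (w : ℝ), 0 < w → w < η →
      Run h M (x + (σ * w) • (Complex.I * v)) v (pre m n) := fun n w h0 h1 =>
    hrun n η hηw (fun j _ q hq h => hall j q hq h) w h0 h1
  -- bounded positions
  have hPb : ∀ n, ‖P n‖ ≤ R + 1 := by
    intro n
    obtain ⟨r, hr, hF⟩ := exists_free hLF (hI n).transversal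
    have h1 : 0 < min r 1 := lt_min hr one_pos
    have h2 := hbd _ (hI n) (min r 1) h1 (hF.mono (min_le_left _ _))
    have h3 : ‖(min r 1) • V n‖ ≤ 1 := by
      rw [norm_smul, hV]
      simp only [norm_vel, hv, mul_one, Real.norm_of_nonneg h1.le]
      exact min_le_right _ _
    calc ‖P n‖ = ‖(P n + (min r 1) • V n) - (min r 1) • V n‖ := by congr 1; ring
      _ ≤ ‖P n + (min r 1) • V n‖ + ‖(min r 1) • V n‖ := norm_sub_le _ _
      _ ≤ R + 1 := add_le_add h2 h3
  set β : ℕ → ℝ := fun n => ε n * cr (V n) (P n) with hβ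
  have hεabs : ∀ n, |ε n| = 1 := by
    intro n
    rcases hεmem n with h1 | h1
    · rw [h1]; simp
    · rw [show ε n = -1 from h1]; simp
  have hβb : ∀ n, |β n| ≤ R + 1 := by
    intro n
    rw [hβ]; simp only
    rw [abs_mul, hεabs, one_mul]
    refine (abs_cr_le _ _).trans ?_
    rw [show ‖V n‖ = 1 by simp [hV, hv], one_mul]
    exact hPb n
  -- pigeonhole
  obtain ⟨n, -, n', -, hnn, heq⟩ := Set.infinite_univ.exists_ne_map_eq_of_mapsTo
    (f := fun n : ℕ => (V n, m n, ε n, ⌊β n / η⌋))
    (t := (Orb M u) ×ˢ M ×ˢ ({1, -1} : Set ℝ) ×ˢ (Icc ⌊-(R + 1) / η⌋ ⌊(R + 1) / η⌋))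
    (by
      intro n _
      refine ⟨hVorb n, (hI (n + 1)).mem _ (by simp), hεmem n, ?_, ?_⟩
      · apply Int.floor_le_floor
        apply div_le_div_of_nonneg_right _ hη0.le
        exact (abs_le.1 (hβb n)).1
      · apply Int.floor_le_floor
        apply div_le_div_of_nonneg_right _ hη0.le
        exact (abs_le.1 (hβb n)).2)
    (hfin.prod (hM.prod ((by simp : ({1, -1} : Set ℝ).Finite).prod (Set.finite_Icc _ _))))
  simp only [Prod.mk.injEq] at heq
  obtain ⟨hVV, hmm, hee, hfl⟩ := heq
  have hclose : |β n - β n'| < η := by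
    have h1 : |β n / η - β n' / η| < 1 := Int.abs_sub_lt_one_of_floor_eq_floor hfl
    rw [← sub_div, abs_div, abs_of_pos hη0, div_lt_one hη0] at h1
    exact h1
  have hstrict : ∀ a b, V a = V b → m a = m b → ε a = ε b → β a < β b → β b - β a < η →
      False := by
    intro a b h1 h2 h3 h4 h5
    refine hcoll a b (β b - β a) (by linarith) (by linarith) h1 h2 ?_
      (hrun' _ _ (by linarith) h5)
    simp only [hβ]
    rw [← h1, ← h3, ← mul_sub, ← cr_sub]
  rcases lt_trichotomy (β n) (β n') with h1 | h1 | h1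
  · exact hstrict n n' hVV hmm hee h1 (by rw [abs_lt] at hclose; linarith)
  · -- periodic
    have hper : ∀ a b, a < b → V a = V b → m a = m b → ε a = ε b → β a = β b → False := by
      intro a b hab h2 h3 h4 h5
      obtain ⟨K, hK, hpre⟩ := hopen_pre m (a + 1) (b - a)
      rw [show a + 1 + (b - a) = b + 1 by omega] at hpre
      have h6 : Run h M x v (K ++ pre m (a + 1)) := by rw [← hpre]; exact hI (b + 1)
      refine hopen_period hNC h6 (hVorb (a + 1)) ?_ ?_ ?_ ?_ hv
      · intro hK0
        rw [hK0] at hK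
        simp at hK; omega
      · rw [hK]
        by_contra hodd
        rw [Nat.not_even_iff_odd] at hodd
        have h7 : ε b = - ε a := by
          simp only [hε]
          have h8 : (-1 : ℝ) ^ b = (-1) ^ a * (-1) ^ (b - a) := by
            rw [← pow_add]; congr 1; omega
          rw [h8, hodd.neg_one_pow]
          ring
        have h8 := hε2 a
        rw [h7] at h4
        have : ε a = 0 := by linarith
        rw [this] at h8; norm_num at h8
      · rw [← hpre, pre_succ, pre_succ, ← h3]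
        symm
        apply hopen_vertex (hI (a + 1)) (by rw [h3]; exact hI (b + 1)) h2
        show cr (V a) (P a - P b) = 0
        have h7 : ε a * cr (V a) (P a - P b) = 0 := by
          rw [cr_sub, mul_sub]
          simp only [hβ] at h5
          rw [h5, h4, h2]; ring
        rcases mul_eq_zero.1 h7 with h8 | h8
        · have := hε2 a
          rw [h8] at this; norm_num at this
        · exact h8
      · rw [← hpre, pre_succ, pre_succ, vel_cons, vel_cons, ← h3]
        show rl (m a) (V b) = rl (m a) (V a)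
        rw [h2]
    rcases lt_or_gt_of_ne hnn with h2 | h2
    · exact hper n n' h2 hVV hmm hee h1
    · exact hper n' n h2 hVV.symm hmm.symm hee.symm h1.symm
  · exact hstrict n' n hVV.symm hmm.symm hee.symm h1 (by rw [abs_lt] at hclose; linarith)

end hopen

theorem fam_open {h : ℝ} {M : Set Mir} {u : ℂ} {R : ℝ} {A : ℂ → Set ℂ} (hh : 0 < h)
    (hM : M.Finite) (hfin : (Orb M u).Finite) (hu : ‖u‖ = 1) (hov : NoOv h M) (hNC : NC h M u)
    (hA : Fam h M u R A) (v : ℂ) : IsOpen (A v) := by
  by_contra hno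
  obtain ⟨x, hx, σ, hσ, w₀, hw₀, hgap⟩ := exists_gap hM hu hA hno
  have horb := hA.orb v x hx
  have hv : ‖v‖ = 1 := by
    obtain ⟨L, -, h1⟩ := horb
    rw [← norm_lin (L := L)]
    rcases h1 with h1 | h1 <;> rw [h1]
    · exact hu
    · rw [norm_neg]; exact hu
  rcases orb_sreg_or hNC horb x with hS | hS
  · exact hopen_no_gap hh hM hfin hu hov hNC hA hx hv hσ hw₀ hgap hS
  · refine hopen_no_gap (A := fun v => A (-v)) (v := -v) (σ := -σ) hh hM hfin hu hov hNC hA.rev
      (by simpa using hx) (by rwa [norm_neg]) ?_ hw₀ ?_ hS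
    · rcases hσ with h1 | h1
      · right; rw [h1]
      · left; rw [h1]; norm_num
    · intro w h0 h1
      have h2 : x + (-σ * w) • (Complex.I * -v) = x + (σ * w) • (Complex.I * v) := by
        congr 1
        simp only [Complex.real_smul]; push_cast; ring
      rw [h2]
      simp only [neg_neg]
      exact hgap w h0 h1

end Pool.Agent.Lib.MP_3309cd_pr
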