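import Pool.Agent.Lib.MP_3309cd_pr.HOpen
import Pool.Agent.Lib.MP_3309cd_pr.HLimit

/-!
Harris-type theorem: a bounded ray in a direction without saddle connections is contained in a
bounded open set whose frontier consists of mirrors.
-/

namespace Pool.Agent.Lib.MP_3309cd_pr

open MeasureTheory ProbabilityTheory Set Filter Topology

theorem harris {h : ℝ} {M : Set Mir} {u : ℂ} {R : ℝ} (hh : 0 < h) (hM : M.Finite)
    (hrat : ∀ m ∈ M, ∃ q : ℚ, m.2 = Real.pi * q) (hu : ‖u‖ = 1) (hov : NoOv h M)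
    (hNC : NC h M u) (h0 : ∀ m ∈ M, (0 : ℂ) ∉ seg h m) (hR : ¬ Exit h M u R) :
    ∃ U : Set ℂ, IsOpen U ∧ Bornology.IsBounded U ∧ (0 : ℂ) ∈ U ∧
      frontier U ⊆ ⋃ m ∈ M, seg h m := by
  have hLF : LF M := fun _ => hM.subset (fun m hm => hm.1)
  have hS : SReg h M 0 u := nc_sreg_zero hNC
  have hu0 : u ≠ 0 := by intro h; rw [h] at hu; simp at hu
  -- the ray stays in the ball
  have hb : ∀ L, Run h M 0 u L → ∀ r : ℝ, 0 ≤ r → Free h M (pos 0 u L) (vel u L) r →
      ‖pos 0 u L + r • vel u L‖ ≤ R := by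
    intro L hL r hr hF
    by_contra hlt
    exact hR ⟨L, hL, r, hr, hF, not_le.1 hlt⟩
  obtain ⟨m, hI⟩ := exists_irun hLF h0 hS (by
    intro L hL
    by_contra hall
    push Not at hall
    have h1 := hb L hL (R + ‖pos 0 u L‖ + 1) (by
      have h2 := hb L hL 0 le_rfl (hall 0)
      simp only [zero_smul, add_zero] at h2
      have := norm_nonneg (pos 0 u L)
      linarith) (hall _)
    have h2 := hb L hL 0 le_rfl (hall 0)
    simp only [zero_smul, add_zero] at h2
    have h3 : ‖(R + ‖pos 0 u L‖ + 1) • vel u L‖ = R + ‖pos 0 u L‖ + 1 := by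
      rw [norm_smul, norm_vel, hu, mul_one, Real.norm_of_nonneg]
      have := norm_nonneg (pos 0 u L)
      linarith
    have h4 : ‖(R + ‖pos 0 u L‖ + 1) • vel u L‖ ≤
        ‖pos 0 u L + (R + ‖pos 0 u L‖ + 1) • vel u L‖ + ‖pos 0 u L‖ := by
      calc _ = ‖(pos 0 u L + (R + ‖pos 0 u L‖ + 1) • vel u L) - pos 0 u L‖ := by ring_nf
        _ ≤ _ := norm_sub_le _ _
    linarith)
  have hfin := orb_finite hM hrat u
  obtain ⟨A, hA, v, p, hp, happ⟩ := limit_family (R := R) hh hM hfin hu hov hNC hI (by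
    intro n
    have := hb (pre m n) (hI n) 0 le_rfl (by intro m _ r' h1 h2; linarith)
    simpa using this)
  have hopen := fun v => fam_open hh hM hfin hu hov hNC hA v
  have h0A : (0 : ℂ) ∈ A u := by
    obtain ⟨δ, hδ, hball⟩ := Metric.isOpen_iff.1 (hopen v) p hp
    obtain ⟨n, hn, r, hr0, hr1, hr2⟩ := happ δ hδ
    have hmem : pos 0 u (pre m n) + r • v ∈ A v := hball (by rwa [Metric.mem_ball, dist_eq_norm])
    rw [← hn] at hmem hr1
    exact fam_back hA hLF (hI n) hr0 ((hI (n + 1)).2.free hr1) hmem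
  refine ⟨A u, hopen u, ?_, h0A, ?_⟩
  · exact (Metric.isBounded_closedBall (x := (0 : ℂ)) (r := R)).subset fun p hp => by
      rw [Metric.mem_closedBall, dist_zero_right]; exact hA.bdd _ p hp
  · intro p hp
    by_contra hne
    have h1 : ∀ m ∈ M, p ∉ seg h m := fun m hm hmem => hne (mem_iUnion₂.2 ⟨m, hm, hmem⟩)
    rw [(hopen u).frontier_eq] at hp
    exact hp.2 (hA.closed u p h1 hp.1)

end Pool.Agent.Lib.MP_3309cd_pr
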