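import Pool.Agent.Lib.MP_3309cd_pr.Defs

/-!
File Mu of MP_3309cd_pr: a fast decreasing mixture of the uniform laws on `Th k`.
-/

namespace Pool.Agent.Lib.MP_3309cd_pr

open MeasureTheory ProbabilityTheory Set Filter Topology

/-- Remaining budgets. -/
private noncomputable def muR (f : ℕ → ℝ → ℝ) : ℕ → ℝ
  | 0 => min (1 / 2) (f 2 (1 / 4))
  | n + 1 => min (muR f n / 2) (f (n + 3) (muR f n / 2 / (n + 3).factorial))

/-- Uniform law on `Th k`. -/
private noncomputable def muNu (k : ℕ) : Measure ℝ :=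
  ∑ j ∈ Finset.range k.factorial,
    ENNReal.ofReal (1 / k.factorial) • Measure.dirac (Real.pi * j / k.factorial)

private lemma muR_pos (f : ℕ → ℝ → ℝ) (hf : ∀ k x, 0 < x → 0 < f k x) (n : ℕ) :
    0 < muR f n := by
  induction n with
  | zero =>
    rw [muR]
    exact lt_min (by norm_num) (hf _ _ (by norm_num))
  | succ n ih =>
    rw [muR]
    exact lt_min (by positivity) (hf _ _ (by positivity))

private lemma muR_le_half (f : ℕ → ℝ → ℝ) (n : ℕ) : muR f (n + 1) ≤ muR f n / 2 := by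
  rw [muR]; exact min_le_left _ _

/-- The masses after `n` sum to at most the budget. -/
private lemma muR_sum (f : ℕ → ℝ → ℝ) (n N : ℕ) :
    ∑ i ∈ Finset.range N, muR f (n + i) / 2 + muR f (n + N) ≤ muR f n := by
  induction N with
  | zero => simp
  | succ N ih =>
    rw [Finset.sum_range_succ]
    have := muR_le_half f (n + N)
    rw [← add_assoc]
    linarith

private lemma muR_tsum (f : ℕ → ℝ → ℝ) (hf : ∀ k x, 0 < x → 0 < f k x) (n : ℕ) :
    ∑' i, ENNReal.ofReal (muR f (n + i) / 2) ≤ ENNReal.ofReal (muR f n) := by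
  apply ENNReal.tsum_le_of_sum_range_le
  intro N
  rw [← ENNReal.ofReal_sum_of_nonneg]
  · apply ENNReal.ofReal_le_ofReal
    have h1 := muR_sum f n N
    have h2 := muR_pos f hf (n + N)
    linarith
  · intro i _
    have := muR_pos f hf (n + i)
    positivity

private lemma muNu_apply (k : ℕ) (s : Set ℝ) : muNu k s =
    ∑ j ∈ Finset.range k.factorial,
      ENNReal.ofReal (1 / k.factorial) * Measure.dirac (Real.pi * j / k.factorial) s := by
  rw [muNu, Measure.finsetSum_apply]
  rfl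

private lemma muNu_univ (k : ℕ) : muNu k univ = 1 := by
  rw [muNu_apply]
  simp only [measure_univ, mul_one, Finset.sum_const, Finset.card_range, nsmul_eq_mul]
  have h : (0 : ℝ) < k.factorial := by exact_mod_cast k.factorial_pos
  rw [← ENNReal.ofReal_natCast, ← ENNReal.ofReal_mul h.le]
  rw [mul_one_div_cancel h.ne', ENNReal.ofReal_one]

private lemma muNu_singleton {k : ℕ} {θ : ℝ} (hθ : θ ∈ Th k) :
    ENNReal.ofReal (1 / k.factorial) ≤ muNu k {θ} := by
  obtain ⟨j, hj, rfl⟩ := hθ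
  rw [muNu_apply]
  refine le_trans ?_ (Finset.single_le_sum (fun _ _ => zero_le) (Finset.mem_range.2 hj))
  rw [Measure.dirac_apply' _ (measurableSet_singleton _)]
  simp

private lemma muNu_null {k : ℕ} {s : Set ℝ}
    (hs : ∀ j, j < k.factorial → (Real.pi * j / k.factorial : ℝ) ∉ s) : muNu k s = 0 := by
  rw [muNu_apply]
  apply Finset.sum_eq_zero
  intro j hj
  rw [Measure.dirac_apply]
  rw [indicator_of_notMem (hs j (Finset.mem_range.1 hj))]
  simp

private lemma muTh_mono {k m : ℕ} (h : k ≤ m) : Th k ⊆ Th m := by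
  rintro θ ⟨j, hj, rfl⟩
  obtain ⟨c, hc⟩ := Nat.factorial_dvd_factorial h
  have hk : (0 : ℝ) < k.factorial := by exact_mod_cast k.factorial_pos
  have hm : 0 < m.factorial := m.factorial_pos
  have hc0 : 0 < c := by
    rcases Nat.eq_zero_or_pos c with h0 | h0
    · subst h0; simp at hc; omega
    · exact h0
  refine ⟨j * c, ?_, ?_⟩
  · rw [hc]; exact Nat.mul_lt_mul_of_pos_right hj hc0
  · rw [hc]
    have hc' : (c : ℝ) ≠ 0 := by exact_mod_cast hc0.ne'
    push_cast
    field_simp

private lemma muTh_prop {k : ℕ} {θ : ℝ} (hθ : θ ∈ Th k) :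
    θ ∈ Ico 0 Real.pi ∧ ∃ q : ℚ, θ = Real.pi * q := by
  obtain ⟨j, hj, rfl⟩ := hθ
  have hk : (0 : ℝ) < k.factorial := by exact_mod_cast k.factorial_pos
  have hj' : (j : ℝ) < k.factorial := by exact_mod_cast hj
  refine ⟨⟨?_, ?_⟩, (j : ℚ) / k.factorial, ?_⟩
  · have := Real.pi_pos
    positivity
  · rw [div_lt_iff₀ hk]
    exact mul_lt_mul_of_pos_left hj' Real.pi_pos
  · push_cast
    ring

theorem exists_mu (f : ℕ → ℝ → ℝ) (hf : ∀ k x, 0 < x → 0 < f k x) :
    ∃ (μ : Measure ℝ) (w : ℕ → ℝ), IsProbabilityMeasure μ ∧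
      (∀ᵐ θ ∂μ, θ ∈ Ico 0 Real.pi ∧ ∃ q : ℚ, θ = Real.pi * q) ∧ (∀ θ, μ {θ} ≠ 1) ∧
      (∀ k, 0 < w k) ∧ (∀ k, 2 ≤ k → ∀ θ ∈ Th k, ENNReal.ofReal (w k) ≤ μ {θ}) ∧
      (∀ k, 2 ≤ k → μ (Th k)ᶜ ≤ ENNReal.ofReal (f k (w k))) := by
  set r := muR f with hr
  have hrp : ∀ n, 0 < r n := muR_pos f hf
  set S : ENNReal := ∑' i, ENNReal.ofReal (r i / 2) with hS
  have hSr : S ≤ ENNReal.ofReal (r 0) := by
    have := muR_tsum f hf 0
    simpa [hS, hr] using this
  have hr0 : r 0 ≤ 1 / 2 := by rw [hr, muR]; exact min_le_left _ _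
  have hS2 : S ≤ ENNReal.ofReal (1 / 2) := hSr.trans (ENNReal.ofReal_le_ofReal hr0)
  have hS1 : S ≤ 1 := hS2.trans (by
    rw [← ENNReal.ofReal_one]; exact ENNReal.ofReal_le_ofReal (by norm_num))
  set a0 : ENNReal := 1 - S with ha0
  have ha0S : a0 + S = 1 := tsub_add_cancel_of_le hS1
  have ha0h : ENNReal.ofReal (1 / 2) ≤ a0 := by
    rw [ha0]
    refine ENNReal.le_sub_of_add_le_left (ne_top_of_le_ne_top ENNReal.one_ne_top hS1) ?_
    calc S + ENNReal.ofReal (1 / 2) ≤ ENNReal.ofReal (1 / 2) + ENNReal.ofReal (1 / 2) := by gcongr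
      _ = 1 := by rw [← ENNReal.ofReal_add (by norm_num) (by norm_num)]; norm_num
  set μ : Measure ℝ := a0 • muNu 2 + Measure.sum fun n => ENNReal.ofReal (r n / 2) • muNu (n + 3)
    with hμ
  have happ : ∀ s, MeasurableSet s → μ s = a0 * muNu 2 s +
      ∑' n, ENNReal.ofReal (r n / 2) * muNu (n + 3) s := by
    intro s hs
    rw [hμ, Measure.add_apply, Measure.sum_apply _ hs]
    rfl
  have hprob : IsProbabilityMeasure μ := by
    constructor
    rw [happ _ MeasurableSet.univ]
    simp only [muNu_univ, mul_one]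
    exact ha0S
  have hThm : ∀ k, MeasurableSet (Th k) := by
    intro k
    have : (Th k).Finite := by
      have : Th k ⊆ (fun j : ℕ => Real.pi * j / k.factorial) '' Set.Iio k.factorial := by
        rintro θ ⟨j, hj, rfl⟩
        exact ⟨j, hj, rfl⟩
      exact (Set.finite_Iio _).image _ |>.subset this
    exact this.measurableSet
  let w : ℕ → ℝ := fun k => match k with
    | 0 => 1
    | 1 => 1
    | 2 => 1 / 4
    | n + 3 => r n / 2 / (n + 3).factorial
  have hw2 : w 2 = 1 / 4 := rfl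
  have hw3 : ∀ n, w (n + 3) = r n / 2 / (n + 3).factorial := fun n => rfl
  have hwpos : ∀ k, 0 < w k := by
    intro k
    match k with
    | 0 => show (0 : ℝ) < 1; norm_num
    | 1 => show (0 : ℝ) < 1; norm_num
    | 2 => show (0 : ℝ) < 1 / 4; norm_num
    | n + 3 =>
      rw [hw3]
      have := hrp n
      positivity
  have hwle : ∀ k, 2 ≤ k → ∀ θ ∈ Th k, ENNReal.ofReal (w k) ≤ μ {θ} := by
    intro k hk θ hθ
    rw [happ _ (measurableSet_singleton _)]
    match k, hk with
    | 2, _ =>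
      rw [hw2]
      refine le_trans ?_ le_self_add
      calc ENNReal.ofReal (1 / 4) = ENNReal.ofReal (1 / 2) * ENNReal.ofReal (1 / (2 : ℕ).factorial) := by
            rw [← ENNReal.ofReal_mul (by norm_num)]; norm_num [Nat.factorial]
        _ ≤ a0 * muNu 2 {θ} := mul_le_mul' ha0h (muNu_singleton hθ)
    | n + 3, _ =>
      rw [hw3]
      refine le_trans ?_ le_add_self
      refine le_trans ?_ (ENNReal.le_tsum n)
      rw [div_eq_mul_one_div, ENNReal.ofReal_mul (by have := hrp n; positivity)]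
      exact mul_le_mul' le_rfl (muNu_singleton hθ)
  refine ⟨μ, w, hprob, ?_, ?_, hwpos, hwle, ?_⟩
  · -- almost everywhere
    have hm : MeasurableSet (⋃ k, Th k) := MeasurableSet.iUnion hThm
    have hnull : μ (⋃ k, Th k)ᶜ = 0 := by
      rw [happ _ hm.compl]
      have h0 : ∀ k, muNu k (⋃ k, Th k)ᶜ = 0 := by
        intro k
        apply muNu_null
        intro j hj hmem
        exact hmem (mem_iUnion.2 ⟨k, j, hj, rfl⟩)
      simp only [h0, mul_zero, tsum_zero, add_zero]
    have : ∀ᵐ θ ∂μ, θ ∈ ⋃ k, Th k := by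
      rw [ae_iff]
      exact hnull
    filter_upwards [this] with θ hθ
    obtain ⟨k, hk⟩ := mem_iUnion.1 hθ
    exact muTh_prop hk
  · intro θ hθ
    have hex : ∃ θ' ∈ Th 2, θ' ≠ θ := by
      by_cases h : θ = 0
      · refine ⟨Real.pi * (1 : ℕ) / (2 : ℕ).factorial, ⟨1, by norm_num [Nat.factorial], rfl⟩, ?_⟩
        rw [h]
        have := Real.pi_pos
        positivity
      · refine ⟨0, ⟨0, by norm_num [Nat.factorial], by simp⟩, ?_⟩
        exact fun h' => h h'.symm
    obtain ⟨θ', hθ', hne⟩ := hex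
    have h1 := hwle 2 le_rfl θ' hθ'
    have h2 : μ {θ'} + μ {θ} ≤ 1 := by
      rw [← measure_union (by simpa using hne) (measurableSet_singleton _)]
      exact prob_le_one
    rw [hθ] at h2
    have h3 : μ {θ'} = 0 := by
      have h4 : μ {θ'} + 1 ≤ 0 + 1 := by simpa using h2
      exact le_antisymm (ENNReal.le_of_add_le_add_right ENNReal.one_ne_top h4) zero_le
    rw [h3, hw2] at h1
    have : ENNReal.ofReal (1 / 4) = 0 := le_antisymm h1 zero_le
    rw [ENNReal.ofReal_eq_zero] at this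
    norm_num at this
  · intro k hk
    rw [happ _ (hThm k).compl]
    have h0 : ∀ m, m ≤ k → muNu m (Th k)ᶜ = 0 := by
      intro m hm
      apply muNu_null
      intro j hj hmem
      exact hmem (muTh_mono hm ⟨j, hj, rfl⟩)
    have hle1 : ∀ m, muNu m (Th k)ᶜ ≤ 1 := by
      intro m
      rw [← muNu_univ m]
      exact measure_mono (subset_univ _)
    rw [h0 2 hk, mul_zero, zero_add]
    match k, hk with
    | 2, _ =>
      rw [hw2]
      calc ∑' n, ENNReal.ofReal (r n / 2) * muNu (n + 3) (Th 2)ᶜ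
          ≤ ∑' n, ENNReal.ofReal (r n / 2) := by
            apply ENNReal.tsum_le_tsum
            intro n
            calc ENNReal.ofReal (r n / 2) * muNu (n + 3) (Th 2)ᶜ
                ≤ ENNReal.ofReal (r n / 2) * 1 := mul_le_mul' le_rfl (hle1 _)
              _ = _ := mul_one _
        _ ≤ ENNReal.ofReal (r 0) := hSr
        _ ≤ ENNReal.ofReal (f 2 (1 / 4)) := by
            apply ENNReal.ofReal_le_ofReal
            rw [hr, muR]
            exact min_le_right _ _
    | k + 3, _ =>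
      rw [hw3]
      have hsplit : ∑' n, ENNReal.ofReal (r n / 2) * muNu (n + 3) (Th (k + 3))ᶜ
          ≤ ∑' i, ENNReal.ofReal (r (k + 1 + i) / 2) := by
        rw [← (ENNReal.summable).sum_add_tsum_nat_add' (k := k + 1)]
        rw [Finset.sum_eq_zero, zero_add]
        · apply ENNReal.tsum_le_tsum
          intro i
          rw [show k + 1 + i = i + (k + 1) by ring]
          calc ENNReal.ofReal (r (i + (k + 1)) / 2) * muNu (i + (k + 1) + 3) (Th (k + 3))ᶜ
              ≤ ENNReal.ofReal (r (i + (k + 1)) / 2) * 1 := mul_le_mul' le_rfl (hle1 _)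
            _ = _ := mul_one _
        · intro i hi
          rw [h0 (i + 3) (by have := Finset.mem_range.1 hi; omega), mul_zero]
      refine hsplit.trans ((muR_tsum f hf (k + 1)).trans ?_)
      apply ENNReal.ofReal_le_ofReal
      rw [hr, muR]
      exact min_le_right _ _

end Pool.Agent.Lib.MP_3309cd_pr
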