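import Pool.Agent.Lib.MP_3309cd_pr.Geom

/-!
File Visit of MP_3309cd_pr: the cells visited by the ray form a connected set.
-/

namespace Pool.Agent.Lib.MP_3309cd_pr

open MeasureTheory ProbabilityTheory Set Filter Topology

private lemma visit_floor {x y : ℝ} (h : |y - x| ≤ sd) : (⌊y / sd⌋ - ⌊x / sd⌋).natAbs ≤ 1 := by
  have hsd : (0 : ℝ) < sd := by norm_num [sd]
  have h1 : |y / sd - x / sd| ≤ 1 := by
    rw [← sub_div, abs_div, abs_of_pos hsd, div_le_one hsd]; exact h
  rw [abs_le] at h1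
  have a1 := Int.floor_le (y / sd)
  have a2 := Int.lt_floor_add_one (y / sd)
  have b1 := Int.floor_le (x / sd)
  have b2 := Int.lt_floor_add_one (x / sd)
  have c1 : (⌊y / sd⌋ : ℝ) - ⌊x / sd⌋ < 2 := by linarith [h1.2]
  have c2 : (-2 : ℝ) < (⌊y / sd⌋ : ℝ) - ⌊x / sd⌋ := by linarith [h1.1]
  have d1 : ⌊y / sd⌋ - ⌊x / sd⌋ < 2 := by exact_mod_cast c1
  have d2 : -2 < ⌊y / sd⌋ - ⌊x / sd⌋ := by exact_mod_cast c2
  omega

private lemma visit_cell {p q : ℂ} (h : ‖q - p‖ ≤ sd) : cn (cell q - cell p) ≤ 1 := by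
  have h1 : |q.re - p.re| ≤ sd := by
    have := Complex.abs_re_le_norm (q - p)
    rw [Complex.sub_re] at this
    exact this.trans h
  have h2 : |q.im - p.im| ≤ sd := by
    have := Complex.abs_im_le_norm (q - p)
    rw [Complex.sub_im] at this
    exact this.trans h
  exact max_le (visit_floor h1) (visit_floor h2)

private lemma visit_seg {Q : Cell → Prop} {p v : ℂ} (hv : ‖v‖ = 1) (n : ℕ) :
    ∀ r : ℝ, 0 ≤ r → r ≤ n * sd → (∀ s : ℝ, 0 ≤ s → s ≤ r → Q (cell (p + s • v))) →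
    Relation.ReflTransGen (fun a b => cn (b - a) ≤ 1 ∧ Q a ∧ Q b) (cell p)
      (cell (p + r • v)) := by
  have hsd : (0 : ℝ) < sd := by norm_num [sd]
  induction n with
  | zero =>
    intro r h0 h1 _
    have : r = 0 := by
      simp only [Nat.cast_zero, zero_mul] at h1
      linarith
    rw [this, zero_smul, add_zero]
  | succ n ih =>
    intro r h0 h1 hQ
    rcases le_or_gt r (n * sd) with h2 | h2
    · exact ih r h0 h2 hQ
    · by_cases h3 : r ≤ sd
      · refine Relation.ReflTransGen.single ⟨?_, ?_, hQ r h0 le_rfl⟩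
        · apply visit_cell
          rw [add_sub_cancel_left, norm_smul, hv, mul_one, Real.norm_of_nonneg h0]
          exact h3
        · have := hQ 0 le_rfl h0
          simpa using this
      · push Not at h3
        have h4 : r - sd ≤ n * sd := by
          push_cast at h1
          linarith
        refine (ih (r - sd) (by linarith) h4 fun s hs0 hs1 => hQ s hs0 (by linarith)).tail ?_
        refine ⟨?_, hQ _ (by linarith) (by linarith), hQ r h0 le_rfl⟩
        apply visit_cell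
        have : p + r • v - (p + (r - sd) • v) = sd • v := by
          rw [sub_smul]; ring
        rw [this, norm_smul, hv, mul_one, Real.norm_of_nonneg hsd.le]

private lemma visit_seg' {Q : Cell → Prop} {p v : ℂ} (hv : ‖v‖ = 1) {r : ℝ} (hr : 0 ≤ r)
    (hQ : ∀ s : ℝ, 0 ≤ s → s ≤ r → Q (cell (p + s • v))) :
    Relation.ReflTransGen (fun a b => cn (b - a) ≤ 1 ∧ Q a ∧ Q b) (cell p)
      (cell (p + r • v)) := by
  have hsd : (0 : ℝ) < sd := by norm_num [sd]
  obtain ⟨n, hn⟩ := exists_nat_ge (r / sd)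
  exact visit_seg hv n r hr (by rwa [div_le_iff₀ hsd] at hn) hQ

private lemma visit_noPerp {u : ℂ} {m : Mir} {L : List Mir} (hp : NoPerp u (m :: L)) :
    NoPerp u L := fun m' L' hs => hp m' L' (hs.trans (List.suffix_cons m L))

private lemma visit_vertex {k : ℕ} {u : ℂ} (hu : ‖u‖ = 1) {ω : Om} {L : List Mir}
    (hL : Run hl (conf ω) 0 u L) (hm : ∀ m ∈ L, m.2 ∈ Th k) (hp : NoPerp u L) :
    Relation.ReflTransGen (fun a b => cn (b - a) ≤ 1 ∧ Reach k u ω a ∧ Reach k u ω b) (0, 0)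
      (cell (pos 0 u L)) := by
  induction L with
  | nil =>
    have : cell (pos 0 u []) = (0, 0) := by simp [cell]
    rw [this]
  | cons m L ih =>
    have hm' : ∀ m ∈ L, m.2 ∈ Th k := fun m' h => hm m' (List.mem_cons_of_mem _ h)
    refine (ih hL.1 hm' (visit_noPerp hp)).trans ?_
    rw [pos_cons]
    refine visit_seg' (by rw [norm_vel, hu]) hL.2.2.2.1.le ?_
    intro s h0 h1
    rcases h1.lt_or_eq with h2 | h2
    · exact ⟨L, hL.1, hm', visit_noPerp hp, s, h0, hL.2.free h2, rfl⟩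
    · refine ⟨m :: L, hL, hm, hp, 0, le_rfl, ?_, ?_⟩
      · intro m' _ r' h3 h4
        linarith
      · rw [zero_smul, add_zero, pos_cons, h2]

theorem reach_chain {k : ℕ} {u : ℂ} (hu : ‖u‖ = 1) {ω : Om} {L : List Mir}
    (hL : Run hl (conf ω) 0 u L) (hm : ∀ m ∈ L, m.2 ∈ Th k) (hp : NoPerp u L) {r : ℝ}
    (hr : 0 ≤ r) (hF : Free hl (conf ω) (pos 0 u L) (vel u L) r) :
    Relation.ReflTransGen (fun a b => cn (b - a) ≤ 1 ∧ Reach k u ω a ∧ Reach k u ω b) (0, 0)
      (cell (pos 0 u L + r • vel u L)) := by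
  refine (visit_vertex hu hL hm hp).trans ?_
  refine visit_seg' (by rw [norm_vel, hu]) hr ?_
  intro s h0 h1
  exact ⟨L, hL, hm, hp, s, h0, hF.mono h1, rfl⟩

end Pool.Agent.Lib.MP_3309cd_pr
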