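import Pool.Agent.Lib.MP_3309cd_pr.GGBound
import Pool.Agent.Lib.MP_3309cd_pr.Visit
import Pool.Agent.Lib.MP_3309cd_pr.Restr

/-!
Rational directions: the ray hits a mirror perpendicularly or stays in a ball (MP_3309cd_pr).
-/

namespace Pool.Agent.Lib.MP_3309cd_pr

open MeasureTheory ProbabilityTheory Set Filter Topology

theorem rat_cell {z : ℂ} {R : ℕ} (hz : 2 * sd * (R + 1) < ‖z‖) : R ≤ cn (cell z) := by
  have hsd := ggb_sd_pos
  have h1 : ‖z‖ ≤ |z.re| + |z.im| := Complex.norm_le_abs_re_add_abs_im z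
  have key : ∀ x : ℝ, sd * (R + 1) < |x| → R ≤ (⌊x / sd⌋ : ℤ).natAbs := by
    intro x hx
    have h2 : (R : ℝ) + 1 < |x / sd| := by
      rw [abs_div, abs_of_pos hsd, lt_div_iff₀ hsd]
      linarith
    have h3 : ((⌊x / sd⌋ : ℤ) : ℝ) ≤ x / sd := Int.floor_le _
    have h4 : x / sd < (⌊x / sd⌋ : ℤ) + 1 := Int.lt_floor_add_one _
    have h5 : (R : ℝ) ≤ |((⌊x / sd⌋ : ℤ) : ℝ)| := by
      rcases le_total 0 (x / sd) with h6 | h6
      · rw [abs_of_nonneg h6] at h2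
        exact le_trans (by linarith) (le_abs_self _)
      · rw [abs_of_nonpos h6] at h2
        exact le_trans (by linarith) (neg_le_abs _)
    have h6 : |((⌊x / sd⌋ : ℤ) : ℝ)| = (((⌊x / sd⌋ : ℤ).natAbs : ℕ) : ℝ) := by
      rw [Nat.cast_natAbs, Int.cast_abs]
    rw [h6] at h5
    exact_mod_cast h5
  unfold cn cell
  rcases lt_or_ge (sd * (R + 1)) |z.re| with h2 | h2
  · exact (key _ h2).trans (le_max_left _ _)
  · exact (key _ (by linarith)).trans (le_max_right _ _)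

/-- The deterministic part. -/
theorem rat_det {k : ℕ} {u : ℂ} (hu : ‖u‖ = 1) {ω : Om} {A R : ℕ}
    (h1 : ¬ (PerpIn hl (conf ω) u (2 * sd * (R + 1)) ∨
      ¬ Exit hl (conf ω) u (2 * sd * (R + 1)))) (h2 : Sparse A R ω)
    (h3 : ∀ m ∈ conf ω, ‖m.1‖ ≤ 2 * sd * (R + 2) → m.2 ∈ Th k) :
    ∃ S : Finset Cell, A ≤ S.card ∧ ∀ κ ∈ S, ω ∈ GG k u κ := by
  have hsd := ggb_sd_pos
  push Not at h1
  obtain ⟨hP, hA⟩ := h1
  obtain ⟨L, hL, hall, r, hr0, hF, hr2⟩ := exit_first (by positivity) hA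
  -- the mirrors of `L` are of level `k`
  have hTh : ∀ m' ∈ L, m'.2 ∈ Th k := by
    intro m' hm'
    obtain ⟨K₁, K₂, rfl⟩ := List.append_of_mem hm'
    have hs : m' :: K₂ <:+ K₁ ++ m' :: K₂ := List.suffix_append _ _
    have hrun : Run hl (conf ω) 0 u (m' :: K₂) := hL.of_suffix hs
    have hmem := hrun.pos_mem.1
    refine h3 m' (hrun.mem m' List.mem_cons_self) ?_
    have h4 := hall _ hs
    have h5 := mem_seg_norm _ _ (oseg_subset_seg _ _ hmem)
    calc ‖m'.1‖ = ‖pos 0 u (m' :: K₂) - (pos 0 u (m' :: K₂) - m'.1)‖ := by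
          congr 1
          ring
      _ ≤ ‖pos 0 u (m' :: K₂)‖ + ‖pos 0 u (m' :: K₂) - m'.1‖ := norm_sub_le _ _
      _ ≤ 2 * sd * (R + 1) + hl := add_le_add h4 h5
      _ = 2 * sd * (R + 2) := by
          unfold hl
          ring
  have hNP : NoPerp u L := by
    intro m' K hK h0
    exact hP ⟨m', K, hL.of_suffix hK, h0, fun K' hK' => hall K' (hK'.trans hK)⟩
  have hchain := reach_chain hu hL hTh hNP hr0 hF
  obtain ⟨S, hS, hS'⟩ := h2 {κ | Reach k u ω κ}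
    ⟨_, rat_cell hr2, hchain⟩
  exact ⟨S, hS, fun κ hκ => ⟨(hS' κ hκ).2.1, (hS' κ hκ).2.2, (hS' κ hκ).1⟩⟩

theorem rational_main (μ : Measure ℝ) [IsProbabilityMeasure μ] {k : ℕ} (hk : 2 ≤ k) {u : ℂ}
    (hu : u ∈ Dk k) {w : ℝ} (hw : 0 < w) (hμ : ∀ θ ∈ Th k, ENNReal.ofReal w ≤ μ {θ})
    {A R : ℕ} (hA : 0 < A) :
    PP μ {ω | ¬ (PerpIn hl (conf ω) u (2 * sd * (R + 1)) ∨
        ¬ Exit hl (conf ω) u (2 * sd * (R + 1)))} ≤
      ENNReal.ofReal (1 / (A * sd ^ 2 * w)) + PP μ {ω | ¬ Sparse A R ω} +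
        PP μ {ω | ∃ m ∈ conf ω, ‖m.1‖ ≤ 2 * sd * (R + 2) ∧ m.2 ∉ Th k} := by
  have hsd := ggb_sd_pos
  have hu1 : ‖u‖ = 1 := by
    obtain ⟨j, rfl⟩ := hu
    exact norm_dir _
  obtain ⟨G', hG'm, hG', hG's⟩ := GG_bound μ hk hu hw hμ
  set f : Om → ENNReal := fun ω => ∑' κ : Cell, (G' κ).indicator (fun _ => (1 : ENNReal)) ω with hf
  have hfm : Measurable f := Measurable.tsum fun κ => measurable_const.indicator (hG'm κ)
  have hfint : ∫⁻ ω, f ω ∂(PP μ) ≤ ENNReal.ofReal (1 / (sd ^ 2 * w)) := by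
    refine le_trans (le_of_eq ?_) hG's
    rw [hf, lintegral_tsum fun κ => (measurable_const.indicator (hG'm κ)).aemeasurable]
    refine tsum_congr fun κ => ?_
    rw [lintegral_indicator (hG'm κ), setLIntegral_const, one_mul]
  have hmark : PP μ {ω | (A : ENNReal) ≤ f ω} ≤ ENNReal.ofReal (1 / (A * sd ^ 2 * w)) := by
    have h1 := (mul_meas_ge_le_lintegral (μ := PP μ) hfm (A : ENNReal)).trans hfint
    have hA' : (0 : ℝ) < A := by exact_mod_cast hA
    have h2 : (A : ENNReal) * ENNReal.ofReal (1 / (A * sd ^ 2 * w)) =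
        ENNReal.ofReal (1 / (sd ^ 2 * w)) := by
      rw [← ENNReal.ofReal_natCast, ← ENNReal.ofReal_mul hA'.le]
      congr 1
      field_simp
    rw [← h2] at h1
    exact (ENNReal.mul_le_mul_iff_right (by exact_mod_cast hA.ne') (ENNReal.natCast_ne_top A)).1 h1
  refine le_trans (measure_mono (t := {ω | (A : ENNReal) ≤ f ω} ∪ {ω | ¬ Sparse A R ω} ∪
    {ω | ∃ m ∈ conf ω, ‖m.1‖ ≤ 2 * sd * (R + 2) ∧ m.2 ∉ Th k}) ?_) ?_
  · intro ω hω
    by_cases h2 : Sparse A R ω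
    · by_cases h3 : ∃ m ∈ conf ω, ‖m.1‖ ≤ 2 * sd * (R + 2) ∧ m.2 ∉ Th k
      · exact Or.inr h3
      · left
        left
        push Not at h3
        obtain ⟨S, hS, hS'⟩ := rat_det hu1 hω h2 h3
        have h4 : ((S.card : ℕ) : ENNReal) ≤ f ω := by
          calc ((S.card : ℕ) : ENNReal) = ∑ κ ∈ S, (G' κ).indicator (fun _ => (1 : ENNReal)) ω := by
                rw [Finset.sum_congr rfl fun κ hκ =>
                  indicator_of_mem (hG' κ (hS' κ hκ)) (fun _ => (1 : ENNReal))]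
                simp
            _ ≤ f ω := ENNReal.sum_le_tsum S
        exact le_trans (by exact_mod_cast hS) h4
    · exact Or.inl (Or.inr h2)
  · refine (measure_union_le _ _).trans (add_le_add ((measure_union_le _ _).trans ?_) le_rfl)
    exact add_le_add hmark le_rfl

end Pool.Agent.Lib.MP_3309cd_pr
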