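import Pool.Agent.Lib.MP_3309cd_pr.Zeno

/-!
Retracing after a perpendicular hit.
-/

namespace Pool.Agent.Lib.MP_3309cd_pr

open MeasureTheory ProbabilityTheory Set Filter Topology

/-- A suffix-closed set of runs of the ray from `0` in direction `w`, in the ball of radius `R`,
each of which can be continued in the set or ends with a reversal of the velocity. -/
private structure RGood (h : ℝ) (M : Set Mir) (R : ℝ) (w : ℂ) (S : Set (List Mir)) : Prop where
  run : ∀ K ∈ S, Run h M 0 w K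
  bdd : ∀ K ∈ S, ‖pos 0 w K‖ ≤ R
  tail : ∀ m K, m :: K ∈ S → K ∈ S
  next : ∀ K ∈ S, (∃ m, m :: K ∈ S) ∨ ∃ m K', K = m :: K' ∧ vel w K = - vel w K'
  nil : [] ∈ S

/-- The states of the forward and backward motion along the runs of `S`. -/
private def RSt (w : ℂ) (S : Set (List Mir)) (x v : ℂ) : Prop :=
  ∃ m K, m :: K ∈ S ∧ x = pos 0 w (m :: K) ∧ (v = vel w (m :: K) ∨ v = - vel w K)

private theorem rgood_exists {h : ℝ} {M : Set Mir} {w : ℂ} {R : ℝ} (hM : LF M)
    (hw : ‖w‖ = 1) (h0 : ∀ m ∈ M, (0 : ℂ) ∉ seg h m) (hr : SReg h M 0 w)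
    (h1 : PerpIn h M w R ∨ ¬ Exit h M w R) : ∃ S, RGood h M R w S := by
  rcases h1 with ⟨m, L, hrun, hperp, hbd⟩ | hE
  · refine ⟨{K | K <:+ m :: L}, ?_, ?_, ?_, ?_, ?_⟩
    · intro K hK
      exact hrun.of_suffix hK
    · intro K hK
      exact hbd K hK
    · intro m' K hK
      exact (List.suffix_cons m' K).trans hK
    · intro K hK
      obtain ⟨T, hT⟩ := hK
      rcases T.eq_nil_or_concat with rfl | ⟨T', m', rfl⟩
      · right
        refine ⟨m, L, by simpa using hT, ?_⟩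
        rw [List.nil_append] at hT
        rw [hT, vel_cons, rl_eq_neg_iff]
        exact hperp
      · left
        exact ⟨m', T', by rw [← hT]; simp⟩
    · exact List.nil_suffix
  · have hb : ∀ L, Run h M 0 w L → ∀ r : ℝ, 0 ≤ r → Free h M (pos 0 w L) (vel w L) r →
        ‖pos 0 w L + r • vel w L‖ ≤ R := by
      intro L hL r hr hF
      by_contra hlt
      exact hE ⟨L, hL, r, hr, hF, not_le.1 hlt⟩
    have hb0 : ∀ L, Run h M 0 w L → ‖pos 0 w L‖ ≤ R := by
      intro L hL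
      have := hb L hL 0 le_rfl (by intro m _ r' h1 h2; linarith)
      simpa using this
    refine ⟨{K | Run h M 0 w K}, fun K hK => hK, fun K hK => hb0 K hK, fun m K hK => hK.1, ?_, h0⟩
    intro K hK
    left
    have hnf : ¬ Free h M (pos 0 w K) (vel w K) (R + ‖pos 0 w K‖ + 1) := by
      intro hF
      have h2 := hb0 K hK
      have hn := norm_nonneg (pos 0 w K)
      have h1 := hb K hK (R + ‖pos 0 w K‖ + 1) (by linarith) hF
      have h3 : ‖(R + ‖pos 0 w K‖ + 1) • vel w K‖ = R + ‖pos 0 w K‖ + 1 := by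
        rw [norm_smul, norm_vel, hw, mul_one, Real.norm_of_nonneg (by linarith)]
      have h4 : ‖(R + ‖pos 0 w K‖ + 1) • vel w K‖ ≤
          ‖pos 0 w K + (R + ‖pos 0 w K‖ + 1) • vel w K‖ + ‖pos 0 w K‖ := by
        calc _ = ‖(pos 0 w K + (R + ‖pos 0 w K‖ + 1) • vel w K) - pos 0 w K‖ := by ring_nf
          _ ≤ _ := norm_sub_le _ _
      linarith
    obtain ⟨m, hm, -⟩ := Run.exists_next hM hr hK hnf
    exact ⟨m, hm⟩

/-- The first mirror of the ray from `0`. -/
private theorem RGood.first {h : ℝ} {M : Set Mir} {w : ℂ} {R : ℝ} {S : Set (List Mir)}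
    (hS : RGood h M R w S) : ∃ m, [m] ∈ S := by
  rcases hS.next [] hS.nil with h1 | ⟨m, K', h1, -⟩
  · exact h1
  · simp at h1

/-- Backward motion along a flight between two vertices. -/
private theorem retr_back {h : ℝ} {M : Set Mir} {w : ℂ} {m m' : Mir} {K : List Mir}
    (hrun : Run h M 0 w (m :: m' :: K)) :
    HitAt h M (pos 0 w (m :: m' :: K)) (-vel w (m' :: K)) m' ∧
      pos 0 w (m :: m' :: K) + hitS m' (pos 0 w (m :: m' :: K)) (-vel w (m' :: K)) •
        (-vel w (m' :: K)) = pos 0 w (m' :: K) := by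
  set p := pos 0 w (m' :: K) with hp
  set v := vel w (m' :: K) with hv
  set s := hitS m p v with hs
  have hq : pos 0 w (m :: m' :: K) = p + s • v := rfl
  rw [hq]
  have hpm := hrun.1.pos_mem
  have htr : cr (dir m'.2) v ≠ 0 :=
    hrun.1.transversal m' hrun.1.2.1 (oseg_subset_seg _ _ hpm.1)
  have htr' : cr (dir m'.2) (-v) ≠ 0 := by rw [cr_neg, neg_ne_zero]; exact htr
  have hspos : 0 < s := hrun.2.2.2.1
  have hback : ∀ r : ℝ, p + s • v + r • (-v) = p + (s - r) • v := by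
    intro r
    rw [smul_neg, sub_smul]
    ring
  have hhit : s = hitS m' (p + s • v) (-v) := by
    refine eq_hitS htr' ?_
    rw [hback, sub_self, zero_smul, add_zero]
    exact hpm.1.1
  have hpt : p + s • v + hitS m' (p + s • v) (-v) • (-v) = p := by
    rw [← hhit, hback, sub_self, zero_smul, add_zero]
  refine ⟨⟨hrun.1.2.1, htr', by rw [← hhit]; exact hspos, by rw [hpt]; exact hpm.1, ?_⟩, hpt⟩
  intro m₂ hm₂ hne r hr0 hr1 hmem
  rw [← hhit] at hr1
  rw [hback] at hmem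
  rcases hr1.lt_or_eq with h1 | h1
  · exact hrun.2.free (show s - r < hitS m p v by rw [← hs]; linarith) m₂ hm₂ (s - r)
      (by linarith) le_rfl hmem
  · rw [h1, sub_self, zero_smul, add_zero] at hmem
    exact hpm.2 m₂ hm₂ hne hmem

/-- Passing through `0`. -/
private theorem retr_zero {h : ℝ} {M : Set Mir} {w : ℂ} {m m₁ : Mir}
    (h0 : ∀ m ∈ M, (0 : ℂ) ∉ seg h m) (hrun : Run h M 0 w [m]) (hrun' : Run h M 0 (-w) [m₁]) :
    HitAt h M (pos 0 w [m]) (-w) m₁ ∧
      pos 0 w [m] + hitS m₁ (pos 0 w [m]) (-w) • (-w) = pos 0 (-w) [m₁] := by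
  set s := hitS m 0 w with hs
  have hq : pos 0 w [m] = 0 + (-s) • (-w) := by
    rw [pos_cons, pos_nil, vel_nil, ← hs, neg_smul, smul_neg, neg_neg]
  have hspos : 0 < s := hrun.2.2.2.1
  obtain ⟨a1, a2, a3, a4, a5⟩ := hrun'.2
  rw [pos_nil, vel_nil] at a3 a4 a5
  rw [vel_nil] at a2
  have hsh : hitS m₁ (0 + (-s) • (-w)) (-w) = hitS m₁ 0 (-w) + s := by
    rw [hitS_shift a2]; ring
  rw [hq]
  have hadd : ∀ r : ℝ, (0 : ℂ) + (-s) • (-w) + r • (-w) = 0 + (r - s) • (-w) := by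
    intro r
    rw [sub_smul, neg_smul]
    ring
  refine ⟨⟨a1, a2, by rw [hsh]; linarith, ?_, ?_⟩, ?_⟩
  · rw [hsh, hadd, add_sub_cancel_right]
    exact a4
  · intro m₂ hm₂ hne r hr0 hr1 hmem
    rw [hsh] at hr1
    rw [hadd] at hmem
    rcases lt_trichotomy r s with h1 | h1 | h1
    · have h2 : (0 : ℂ) + (r - s) • (-w) = 0 + (s - r) • w := by
        rw [smul_neg, ← neg_smul, neg_sub]
      rw [h2] at hmem
      exact hrun.2.free (show s - r < hitS m (pos 0 w []) (vel w []) by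
        rw [pos_nil, vel_nil, ← hs]; linarith) m₂ hm₂ (s - r) (by linarith) le_rfl hmem
    · rw [h1, sub_self, zero_smul, add_zero] at hmem
      exact h0 m₂ hm₂ hmem
    · exact a5 m₂ hm₂ hne (r - s) (by linarith) (by linarith) hmem
  · rw [hsh, hadd, add_sub_cancel_right]
    rfl

/-- The next state. -/
private theorem retr_next {h : ℝ} {M : Set Mir} {w : ℂ} {R : ℝ} {S S' : Set (List Mir)}
    (h0 : ∀ m ∈ M, (0 : ℂ) ∉ seg h m) (hS : RGood h M R w S) (hS' : RGood h M R (-w) S')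
    {x v : ℂ} (hx : RSt w S x v) :
    ∃ m, HitAt h M x v m ∧ (RSt w S (x + hitS m x v • v) (rl m v) ∨
      RSt (-w) S' (x + hitS m x v • v) (rl m v)) := by
  obtain ⟨m, K, hK, rfl, hv⟩ := hx
  have hback : v = -vel w K → ∃ m₁, HitAt h M (pos 0 w (m :: K)) v m₁ ∧
      (RSt w S (pos 0 w (m :: K) + hitS m₁ (pos 0 w (m :: K)) v • v) (rl m₁ v) ∨
      RSt (-w) S' (pos 0 w (m :: K) + hitS m₁ (pos 0 w (m :: K)) v • v) (rl m₁ v)) := by
    intro hv
    cases K with
    | nil =>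
      obtain ⟨m₁, hm₁⟩ := hS'.first
      rw [vel_nil] at hv
      subst hv
      obtain ⟨h1, h2⟩ := retr_zero h0 (hS.run _ hK) (hS'.run _ hm₁)
      exact ⟨m₁, h1, Or.inr ⟨m₁, [], hm₁, h2, Or.inl rfl⟩⟩
    | cons m' K =>
      subst hv
      obtain ⟨h1, h2⟩ := retr_back (hS.run _ hK)
      refine ⟨m', h1, Or.inl ⟨m', K, hS.tail _ _ hK, h2, Or.inr ?_⟩⟩
      rw [rl_neg, vel_cons, rl_rl]
  rcases hv with hv | hv
  · rcases hS.next _ hK with ⟨m₁, hm₁⟩ | ⟨m₁, K', h1, h2⟩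
    · subst hv
      exact ⟨m₁, (hS.run _ hm₁).2, Or.inl ⟨m₁, m :: K, hm₁, rfl, Or.inl rfl⟩⟩
    · apply hback
      have h3 : K = K' := (List.cons.inj h1).2
      rw [hv, h2, h3]
  · exact hback hv

theorem stay_of_perp {h : ℝ} {M : Set Mir} {u : ℂ} {R : ℝ} (hM : LF M)
    (hu : ‖u‖ = 1) (h0 : ∀ m ∈ M, (0 : ℂ) ∉ seg h m) (hr : SReg h M 0 u)
    (hr' : SReg h M 0 (-u)) (h1 : PerpIn h M u R ∨ ¬ Exit h M u R)
    (h2 : PerpIn h M (-u) R ∨ ¬ Exit h M (-u) R) {t ρ : ℝ} (hρ : R < ρ) :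
    Stay h M u t ρ := by
  obtain ⟨S, hS⟩ := rgood_exists hM hu h0 hr h1
  obtain ⟨S', hS'⟩ := rgood_exists hM (by rw [norm_neg]; exact hu) h0 hr' h2
  have hS2 : RGood h M R (- -u) S := by rw [neg_neg]; exact hS
  have hu0 : u ≠ 0 := by
    rintro rfl
    rw [norm_zero] at hu
    exact zero_ne_one hu
  -- all the states of the ray are in the set
  have hstate : ∀ L, Run h M 0 u L → L = [] ∨ RSt u S (pos 0 u L) (vel u L) ∨
      RSt (-u) S' (pos 0 u L) (vel u L) := by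
    intro L
    induction L with
    | nil => intro _; left; rfl
    | cons m L ih =>
      intro hL
      right
      rcases ih hL.1 with rfl | h3 | h3
      · obtain ⟨m₁, hm₁⟩ := hS.first
        have h4 : m = m₁ := hL.2.unique (hS.run _ hm₁).2
        subst h4
        exact Or.inl ⟨m, [], hm₁, rfl, Or.inl rfl⟩
      · obtain ⟨m₁, h4, h5⟩ := retr_next h0 hS hS' h3
        have h6 : m = m₁ := hL.2.unique h4
        subst h6
        exact h5
      · obtain ⟨m₁, h4, h5⟩ := retr_next h0 hS' hS2 h3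
        have h6 : m = m₁ := hL.2.unique h4
        subst h6
        rw [neg_neg] at h5
        exact h5.symm
  have hbd : ∀ L, Run h M 0 u L → ‖pos 0 u L‖ ≤ R := by
    intro L hL
    rcases hstate L hL with rfl | ⟨m, K, hK, h3, -⟩ | ⟨m, K, hK, h3, -⟩
    · have := hS.bdd _ hS.nil
      simpa using this
    · rw [h3]; exact hS.bdd _ hK
    · rw [h3]; exact hS'.bdd _ hK
  obtain ⟨m, hm⟩ := exists_irun hM h0 hr (by
    intro L hL
    rcases hstate L hL with rfl | h3 | h3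
    · obtain ⟨m₁, hm₁⟩ := hS.first
      exact ⟨_, (hS.run _ hm₁).2.not_free le_rfl⟩
    · obtain ⟨m₁, h4, -⟩ := retr_next h0 hS hS' h3
      exact ⟨_, h4.not_free le_rfl⟩
    · obtain ⟨m₁, h4, -⟩ := retr_next h0 hS' hS2 h3
      exact ⟨_, h4.not_free le_rfl⟩)
  obtain ⟨n, hn⟩ := ((tim_tendsto hM hu0 hr hm).eventually_gt_atTop t).exists
  exact ⟨pre m n, hm n, hn, fun L' hL' => (hbd L' ((hm n).of_suffix hL')).trans_lt hρ⟩

end Pool.Agent.Lib.MP_3309cd_pr
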