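import Pool.Agent.Lib.MP_3309cd_pr.Chain

/-!
MP_3309cd_pr: a long path of cells contains many clear cells, with large probability.
-/

namespace Pool.Agent.Lib.MP_3309cd_pr

open MeasureTheory ProbabilityTheory Set Filter Topology

/-- A chain of occupied cells crosses from radius `r` to radius `R`. -/
def sparseBad (r R : ℕ) : Set Om :=
  {ω | ∃ κ : Cell, cn κ ≤ r ∧ occ ω κ ∧
    ∃ κ', Relation.ReflTransGen (Lnk 11 ω) κ κ' ∧ R ≤ cn κ'}

theorem sparse_cn_le (a b : Cell) : cn b ≤ cn a + cn (b - a) := by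
  simp only [cn, Prod.fst_sub, Prod.snd_sub]
  omega

theorem sparse_bad_bound (μ : Measure ℝ) [IsProbabilityMeasure μ] {r R n : ℕ}
    (h : r + 11 * n ≤ R) :
    PP μ (sparseBad r R) ≤
      ENNReal.ofReal ((2 * r + 1) ^ 2 * ((529 / 10 ^ 6 : ℝ) ^ n)) := by
  classical
  have hsub : sparseBad r R ⊆ ⋃ κ ∈ chain_box r (0, 0), {ω | occ ω κ ∧
      ∃ κ', Relation.ReflTransGen (Lnk 11 ω) κ κ' ∧ 11 * n ≤ cn (κ' - κ)} := by
    rintro ω ⟨κ, h1, h2, κ', h3, h4⟩
    simp only [mem_iUnion]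
    refine ⟨κ, chain_mem_box.2 ?_, h2, κ', h3, ?_⟩
    · have : κ - (0, 0) = κ := by ext <;> simp
      rw [this]; exact h1
    · have := sparse_cn_le κ κ'
      omega
  calc PP μ (sparseBad r R)
      ≤ PP μ (⋃ κ ∈ chain_box r (0, 0), {ω | occ ω κ ∧
          ∃ κ', Relation.ReflTransGen (Lnk 11 ω) κ κ' ∧ 11 * n ≤ cn (κ' - κ)}) :=
        measure_mono hsub
    _ ≤ ∑ κ ∈ chain_box r (0, 0), PP μ {ω | occ ω κ ∧
          ∃ κ', Relation.ReflTransGen (Lnk 11 ω) κ κ' ∧ 11 * n ≤ cn (κ' - κ)} :=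
        measure_biUnion_finset_le _ _
    _ ≤ ∑ κ ∈ chain_box r (0, 0), ENNReal.ofReal ((529 / 10 ^ 6 : ℝ) ^ n) := by
        refine Finset.sum_le_sum fun κ _ => (chain_bound μ 11 n (by norm_num) κ).trans ?_
        apply ENNReal.ofReal_le_ofReal
        have h1 : ((((2 * 11 + 1 : ℕ) : ℝ) ^ 2) ^ n * (sd ^ 2) ^ (n + 1)) =
            (529 / 10 ^ 6 : ℝ) ^ n * (1 / 10 ^ 6) := by
          rw [pow_succ (sd ^ 2) n, ← mul_assoc, ← mul_pow, sd]
          norm_num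
        rw [h1]
        have h2 : (0 : ℝ) ≤ (529 / 10 ^ 6 : ℝ) ^ n := by positivity
        nlinarith
    _ = _ := by
        rw [Finset.sum_const, chain_card_box, nsmul_eq_mul, ENNReal.ofReal_mul (by positivity)]
        congr 1
        have h1 : ((2 * (r : ℝ) + 1) ^ 2) = (((2 * r + 1) ^ 2 : ℕ) : ℝ) := by push_cast; ring
        rw [h1, ENNReal.ofReal_natCast]

/-- The deterministic annulus argument. -/
theorem sparse_det {ω : Om} {r R : ℕ} (h5 : 0 < r) (hrR : r < R)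
    (hbad : ω ∉ sparseBad (r + 6) (R - 6)) {V : Set Cell} {κ' : Cell} (hR : R ≤ cn κ')
    (hch : Relation.ReflTransGen (fun a b => cn (b - a) ≤ 1 ∧ a ∈ V ∧ b ∈ V) (0, 0) κ') :
    ∃ x ∈ V, Clear ω x ∧ r ≤ cn x ∧ cn x < R := by
  by_contra hcon
  push Not at hcon
  have hcomp : ∀ x ∈ V, r ≤ cn x → cn x < R → ∃ y, occ ω y ∧ cn (y - x) ≤ 5 := by
    intro x hx h1 h2
    have h3 : ¬ Clear ω x := fun hc => absurd (hcon x hx hc h1) (by omega)
    unfold Clear at h3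
    push Not at h3
    obtain ⟨y, hy, hy'⟩ := h3
    exact ⟨y, Nat.pos_of_ne_zero hy', hy⟩
  have key : ∀ x, Relation.ReflTransGen
      (fun a b => cn (b - a) ≤ 1 ∧ a ∈ V ∧ b ∈ V) (0, 0) x →
      cn x < r ∨ (∃ y κ, occ ω κ ∧ cn κ ≤ r + 6 ∧ Relation.ReflTransGen (Lnk 11 ω) κ y ∧
        occ ω y ∧ cn (y - x) ≤ 5) := by
    intro x hx
    induction hx with
    | refl => left; simpa [cn] using h5
    | @tail a b _ hab ih =>
      obtain ⟨h1, h2, h3⟩ := hab
      have hba := sparse_cn_le a b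
      by_cases hb : cn b < r
      · left; exact hb
      push Not at hb
      right
      have hbR : cn b < R := by
        by_contra hbR
        push Not at hbR
        rcases ih with ih | ⟨y, κ, ih1, ih2, ih3, ih4, ih5⟩
        · omega
        · apply hbad
          refine ⟨κ, ih2, ih1, y, ih3, ?_⟩
          have h6 := sparse_cn_le y a
          have h7 := chain_cn_comm a y
          omega
      obtain ⟨y', hy1, hy2⟩ := hcomp b h3 hb hbR
      rcases ih with ih | ⟨y, κ, ih1, ih2, ih3, ih4, ih5⟩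
      · refine ⟨y', y', hy1, ?_, Relation.ReflTransGen.refl, hy1, hy2⟩
        have h6 := sparse_cn_le b y'
        omega
      · refine ⟨y', κ, ih1, ih2, ih3.tail ⟨ih4, hy1, ?_⟩, hy1, hy2⟩
        have h6 := chain_cn_triangle y b y'
        have h7 := chain_cn_triangle y a b
        have h8 := chain_cn_comm a y
        omega
  rcases key κ' hch with h | ⟨y, κ, h1, h2, h3, h4, h5'⟩
  · omega
  · apply hbad
    refine ⟨κ, h2, h1, y, h3, ?_⟩
    have h6 := sparse_cn_le y κ'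
    have h7 := chain_cn_comm κ' y
    omega

/-- Strengthened version for the induction on `A`. -/
theorem sparse_aux (A : ℕ) : ∀ δ : ℝ, 0 < δ →
    ∃ R : ℕ, 5 ≤ R ∧ ∀ (μ : Measure ℝ) [IsProbabilityMeasure μ],
      PP μ {ω | ¬ ∀ V : Set Cell, (∃ κ', R ≤ cn κ' ∧
        Relation.ReflTransGen (fun a b => cn (b - a) ≤ 1 ∧ a ∈ V ∧ b ∈ V) (0, 0) κ') →
        ∃ S : Finset Cell, A ≤ S.card ∧
          ∀ κ ∈ S, κ ∈ V ∧ Clear ω κ ∧ 5 ≤ cn κ ∧ cn κ < R} ≤ ENNReal.ofReal δ := by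
  classical
  induction A with
  | zero =>
    intro δ hδ
    refine ⟨5, le_rfl, fun μ _ => ?_⟩
    have h1 : {ω : Om | ¬ ∀ V : Set Cell, (∃ κ', 5 ≤ cn κ' ∧
        Relation.ReflTransGen (fun a b => cn (b - a) ≤ 1 ∧ a ∈ V ∧ b ∈ V) (0, 0) κ') →
        ∃ S : Finset Cell, 0 ≤ S.card ∧
          ∀ κ ∈ S, κ ∈ V ∧ Clear ω κ ∧ 5 ≤ cn κ ∧ cn κ < 5} = ∅ := by
      ext ω
      simp only [mem_empty_iff_false, iff_false]
      intro h
      apply h
      intro V _
      exact ⟨∅, by simp, by simp⟩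
    rw [h1, measure_empty]
    exact bot_le
  | succ A ih =>
    intro δ hδ
    obtain ⟨R, hR5, hR⟩ := ih (δ / 2) (by linarith)
    obtain ⟨n, hn⟩ : ∃ n : ℕ, (529 / 10 ^ 6 : ℝ) ^ n < (δ / 2) / (2 * (R + 6 : ℕ) + 1) ^ 2 :=
      exists_pow_lt_of_lt_one (by positivity) (by norm_num)
    have hn' : (2 * ((R + 6 : ℕ) : ℝ) + 1) ^ 2 * (529 / 10 ^ 6 : ℝ) ^ n ≤ δ / 2 := by
      rw [lt_div_iff₀ (by positivity)] at hn
      linarith
    refine ⟨R + 6 + 11 * n + 6, by omega, fun μ _ => ?_⟩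
    have hbad : PP μ (sparseBad (R + 6) ((R + 6 + 11 * n + 6) - 6)) ≤
        ENNReal.ofReal (δ / 2) :=
      (sparse_bad_bound μ (n := n) (by omega)).trans (ENNReal.ofReal_le_ofReal hn')
    have h2 : ENNReal.ofReal δ = ENNReal.ofReal (δ / 2) + ENNReal.ofReal (δ / 2) := by
      rw [← ENNReal.ofReal_add (by linarith) (by linarith)]
      congr 1; ring
    rw [h2]
    refine le_trans (measure_mono ?_) ((measure_union_le _ _).trans (add_le_add (hR μ) hbad))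
    intro ω hω
    by_contra hcon
    rw [mem_union, not_or] at hcon
    obtain ⟨hc1, hc2⟩ := hcon
    simp only [Set.mem_ofPred_eq, not_not] at hc1
    apply hω
    rintro V ⟨κ', h3, h4⟩
    obtain ⟨S, hS1, hS2⟩ := hc1 V ⟨κ', by omega, h4⟩
    obtain ⟨x, hx1, hx2, hx3, hx4⟩ := sparse_det (by omega) (by omega) hc2 h3 h4
    have hxS : x ∉ S := by
      intro hx
      have := (hS2 x hx).2.2.2
      omega
    refine ⟨insert x S, ?_, ?_⟩
    · rw [Finset.card_insert_of_notMem hxS]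
      omega
    · intro κ hκ
      rw [Finset.mem_insert] at hκ
      rcases hκ with rfl | hκ
      · exact ⟨hx1, hx2, by omega, hx4⟩
      · obtain ⟨g1, g2, g3, g4⟩ := hS2 κ hκ
        exact ⟨g1, g2, g3, by omega⟩

theorem sparse_bound (A : ℕ) {δ : ℝ} (hδ : 0 < δ) :
    ∃ R : ℕ, ∀ (μ : Measure ℝ) [IsProbabilityMeasure μ],
      PP μ {ω | ¬ Sparse A R ω} ≤ ENNReal.ofReal δ := by
  obtain ⟨R, _, hR⟩ := sparse_aux A δ hδ
  refine ⟨R, fun μ _ => le_trans (measure_mono ?_) (hR μ)⟩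
  intro ω hω hcon
  apply hω
  intro V hV
  obtain ⟨S, h1, h2⟩ := hcon V hV
  exact ⟨S, h1, fun κ hκ => ⟨(h2 κ hκ).1, (h2 κ hκ).2.1, (h2 κ hκ).2.2.1⟩⟩

end Pool.Agent.Lib.MP_3309cd_pr
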