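import Pool.Agent.Lib.MP_3309cd_pr.ConfLF
import Pool.Agent.Lib.MP_3309cd_pr.SparseB
import Pool.Agent.Lib.MP_3309cd_pr.Mu
import Pool.Agent.Lib.MP_3309cd_pr.Marks
import Pool.Agent.Lib.MP_3309cd_pr.AeBasic
import Pool.Agent.Lib.MP_3309cd_pr.AeSReg
import Pool.Agent.Lib.MP_3309cd_pr.Retr
import Pool.Agent.Lib.MP_3309cd_pr.Rat

/-!
The measure on angles for which the ray in every rational direction stays bounded
(MP_3309cd_pr).
-/

namespace Pool.Agent.Lib.MP_3309cd_pr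

open MeasureTheory ProbabilityTheory Set Filter Topology

private lemma mixstay_ptLaw_prob (μ : Measure ℝ) [IsProbabilityMeasure μ] :
    IsProbabilityMeasure (ptLaw μ) := by
  unfold ptLaw; infer_instance

private lemma mixstay_PP_prob (μ : Measure ℝ) [IsProbabilityMeasure μ] :
    IsProbabilityMeasure (PP μ) := by
  have h1 : IsProbabilityMeasure (ptLaw μ) := mixstay_ptLaw_prob μ
  have h2 : IsProbabilityMeasure (cellLaw μ) := by
    unfold cellLaw; infer_instance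
  unfold PP; infer_instance

private lemma mixstay_sd_pos : 0 < sd := by unfold sd; norm_num

private lemma mixstay_hl_pos : 0 < hl := by
  have := mixstay_sd_pos
  unfold hl; positivity

private lemma mixstay_Dk_mono {j k : ℕ} (h : j ≤ k) {u : ℂ} (hu : u ∈ Dk j) : u ∈ Dk k := by
  obtain ⟨i, rfl⟩ := hu
  obtain ⟨c, hc⟩ := Nat.factorial_dvd_factorial h
  refine ⟨i * c, ?_⟩
  congr 1
  have hj : ((j.factorial : ℕ) : ℝ) ≠ 0 := by exact_mod_cast j.factorial_ne_zero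
  have hk : ((k.factorial : ℕ) : ℝ) ≠ 0 := by exact_mod_cast k.factorial_ne_zero
  rw [div_eq_div_iff hj hk]
  rw [hc]
  push_cast
  ring

private lemma mixstay_Dk_neg {k : ℕ} {u : ℂ} (hu : u ∈ Dk k) : -u ∈ Dk k := by
  obtain ⟨i, rfl⟩ := hu
  refine ⟨i + k.factorial, ?_⟩
  have hk : ((k.factorial : ℕ) : ℝ) ≠ 0 := by exact_mod_cast k.factorial_ne_zero
  have h1 : Real.pi * ((i + (k.factorial : ℤ) : ℤ) : ℝ) / (k.factorial : ℝ) =
      Real.pi * i / k.factorial + Real.pi := by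
    push_cast
    field_simp
  rw [h1]
  apply Complex.ext
  · simp [Real.cos_add_pi]
  · simp [Real.sin_add_pi]

private lemma mixstay_Dk_norm {k : ℕ} {u : ℂ} (hu : u ∈ Dk k) : ‖u‖ = 1 := by
  obtain ⟨i, rfl⟩ := hu
  exact norm_dir _

private lemma mixstay_Th_meas (k : ℕ) : MeasurableSet (Th k) := by
  have h1 : Th k ⊆ (fun j : ℕ => Real.pi * j / k.factorial) '' (Finset.range k.factorial) := by
    rintro θ ⟨j, hj, rfl⟩
    exact ⟨j, by simpa using hj, rfl⟩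
  exact ((Finset.finite_toSet _).image _ |>.subset h1).measurableSet

theorem exists_measure :
    ∃ μ : Measure ℝ, IsProbabilityMeasure μ ∧
      (∀ᵐ θ ∂μ, θ ∈ Ico 0 Real.pi ∧ ∃ q : ℚ, θ = Real.pi * q) ∧ (∀ θ, μ {θ} ≠ 1) ∧
      ∀ j : ℕ, ∀ u ∈ Dk j, ∀ δ : ℝ, 0 < δ → ∃ R : ℝ, ∀ t ρ : ℝ, R < ρ →
        ENNReal.ofReal (1 - δ) ≤ PP μ {ω | Stay hl (conf ω) u t ρ} := by
  obtain ⟨C, hC, hmarks⟩ := marks_bound
  have hsp : ∀ (A k : ℕ), ∃ R : ℕ, ∀ (μ : Measure ℝ) [IsProbabilityMeasure μ],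
      PP μ {ω | ¬ Sparse A R ω} ≤ ENNReal.ofReal (1 / ((k : ℝ) + 1)) := fun A k =>
    sparse_bound A (by positivity)
  choose Rf hRf using hsp
  -- number of clear cells
  set Af : ℕ → ℝ → ℕ := fun k w => ⌈((k : ℝ) + 1) / (sd ^ 2 * w)⌉₊ with hAf
  obtain ⟨μ, w, hμ, hrat, hatom, hw, hlow, hup⟩ := exists_mu
    (fun k x => 1 / (((k : ℝ) + 1) * C (2 * sd * ((Rf (Af k x) k : ℕ) + 2))))
    (fun k x _ => by
      have := hC (2 * sd * ((Rf (Af k x) k : ℕ) + 2))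
      positivity)
  refine ⟨μ, hμ, hrat, hatom, ?_⟩
  intro j u hu δ hδ
  have := mixstay_PP_prob μ
  obtain ⟨k, hk⟩ : ∃ k : ℕ, max (max j 2 : ℕ) (⌈6 / δ⌉₊) ≤ k := ⟨_, le_rfl⟩
  have hkj : j ≤ k := le_trans (le_trans (le_max_left j 2) (le_max_left _ _)) hk
  have hk2 : 2 ≤ k := le_trans (le_trans (le_max_right j 2) (le_max_left _ _)) hk
  have hkδ : 6 / ((k : ℝ) + 1) ≤ δ := by
    have h1 : 6 / δ ≤ k := (Nat.le_ceil _).trans (by exact_mod_cast le_trans (le_max_right _ _) hk)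
    rw [div_le_iff₀ (by positivity)]
    rw [div_le_iff₀ hδ] at h1
    nlinarith
  have huk := mixstay_Dk_mono hkj hu
  have hnu := mixstay_Dk_neg huk
  have hsd := mixstay_sd_pos
  have hwk := hw k
  set A := Af k (w k) with hA
  set R := Rf A k with hR
  have hApos : 0 < A := by
    rw [hA, hAf]
    exact Nat.ceil_pos.2 (by positivity)
  have hAw : 1 / ((A : ℝ) * sd ^ 2 * w k) ≤ 1 / ((k : ℝ) + 1) := by
    have h1 : ((k : ℝ) + 1) / (sd ^ 2 * w k) ≤ A := Nat.le_ceil _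
    rw [div_le_iff₀ (by positivity)] at h1
    apply one_div_le_one_div_of_le (by positivity)
    linarith
  have hCR := hC (2 * sd * ((R : ℝ) + 2))
  have hthird : PP μ {ω | ∃ m ∈ conf ω, ‖m.1‖ ≤ 2 * sd * ((R : ℝ) + 2) ∧ m.2 ∉ Th k} ≤
      ENNReal.ofReal (1 / ((k : ℝ) + 1)) := by
    refine (hmarks μ (Th k) (mixstay_Th_meas k) (2 * sd * ((R : ℝ) + 2))).trans ?_
    calc ENNReal.ofReal (C (2 * sd * ((R : ℝ) + 2))) * μ (Th k)ᶜ
        ≤ ENNReal.ofReal (C (2 * sd * ((R : ℝ) + 2))) *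
          ENNReal.ofReal (1 / (((k : ℝ) + 1) * C (2 * sd * ((R : ℝ) + 2)))) := by
          gcongr
          exact hup k hk2
      _ = ENNReal.ofReal (1 / ((k : ℝ) + 1)) := by
          rw [← ENNReal.ofReal_mul hCR.le]
          congr 1
          field_simp
  have hbad : ∀ v ∈ Dk k, PP μ {ω | ¬ (PerpIn hl (conf ω) v (2 * sd * ((R : ℝ) + 1)) ∨
        ¬ Exit hl (conf ω) v (2 * sd * ((R : ℝ) + 1)))} ≤ ENNReal.ofReal (3 / ((k : ℝ) + 1)) := by
    intro v hv
    refine (rational_main μ hk2 hv hwk (hlow k hk2) hApos (R := R)).trans ?_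
    calc _ ≤ ENNReal.ofReal (1 / ((k : ℝ) + 1)) + ENNReal.ofReal (1 / ((k : ℝ) + 1)) +
          ENNReal.ofReal (1 / ((k : ℝ) + 1)) := by
          gcongr
          exact hRf A k μ
      _ = ENNReal.ofReal (3 / ((k : ℝ) + 1)) := by
          rw [← ENNReal.ofReal_add (by positivity) (by positivity),
            ← ENNReal.ofReal_add (by positivity) (by positivity)]
          congr 1
          ring
  refine ⟨2 * sd * ((R : ℝ) + 1), ?_⟩
  intro t ρ hρ
  set Sbad : Set Om := {ω | ¬ (PerpIn hl (conf ω) u (2 * sd * ((R : ℝ) + 1)) ∨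
        ¬ Exit hl (conf ω) u (2 * sd * ((R : ℝ) + 1)))} with hSbad
  set Sbad' : Set Om := {ω | ¬ (PerpIn hl (conf ω) (-u) (2 * sd * ((R : ℝ) + 1)) ∨
        ¬ Exit hl (conf ω) (-u) (2 * sd * ((R : ℝ) + 1)))} with hSbad'
  have hcompl : PP μ {ω | Stay hl (conf ω) u t ρ}ᶜ ≤ ENNReal.ofReal (6 / ((k : ℝ) + 1)) := by
    have hle : {ω | Stay hl (conf ω) u t ρ}ᶜ ≤ᵐ[PP μ] (Sbad ∪ Sbad' : Set Om) := by
      filter_upwards [ae_zero μ, ae_sreg μ (mixstay_Dk_norm huk),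
        ae_sreg μ (mixstay_Dk_norm hnu)] with ω h0 hr hr'
      intro hns
      by_contra hno
      have hno' : ω ∉ Sbad ∧ ω ∉ Sbad' := by
        constructor
        · intro h; exact hno (Or.inl h)
        · intro h; exact hno (Or.inr h)
      rw [hSbad, hSbad', mem_ofPred_eq, mem_ofPred_eq, not_not, not_not] at hno'
      exact hns (stay_of_perp (conf_LF ω) (mixstay_Dk_norm huk) h0 hr hr'
        hno'.1 hno'.2 hρ)
    calc PP μ {ω | Stay hl (conf ω) u t ρ}ᶜ ≤ PP μ (Sbad ∪ Sbad' : Set Om) := measure_mono_ae hle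
      _ ≤ PP μ Sbad + PP μ Sbad' := measure_union_le _ _
      _ ≤ ENNReal.ofReal (3 / ((k : ℝ) + 1)) + ENNReal.ofReal (3 / ((k : ℝ) + 1)) :=
          add_le_add (hbad u huk) (hbad (-u) hnu)
      _ = ENNReal.ofReal (6 / ((k : ℝ) + 1)) := by
          rw [← ENNReal.ofReal_add (by positivity) (by positivity)]
          congr 1
          ring
  have hone : (1 : ENNReal) ≤ PP μ {ω | Stay hl (conf ω) u t ρ} +
      PP μ {ω | Stay hl (conf ω) u t ρ}ᶜ := by
    have h1 : PP μ univ = 1 := measure_univ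
    rw [← h1, ← union_compl_self {ω | Stay hl (conf ω) u t ρ}]
    exact measure_union_le _ _
  have h2 : ENNReal.ofReal (1 - δ) ≤ 1 - ENNReal.ofReal (6 / ((k : ℝ) + 1)) := by
    rw [← ENNReal.ofReal_one, ← ENNReal.ofReal_sub _ (by positivity)]
    apply ENNReal.ofReal_le_ofReal
    linarith
  refine h2.trans ?_
  rw [tsub_le_iff_right]
  exact hone.trans (by gcongr)

end Pool.Agent.Lib.MP_3309cd_pr
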