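import Pool.Agent.Lib.MP_3309cd_pr.RayDefs

/-! A ray which is at distance `o(√t)` with large probability along a sequence of times is not
diffusive. -/

namespace Pool.Agent.Lib.MP_3309cd_pr

open MeasureTheory ProbabilityTheory Set Filter Topology

/-- The test function `max (0, 1 - ‖z‖)`. -/
private noncomputable def ndF : BoundedContinuousFunction (EuclideanSpace ℝ (Fin 2)) ℝ :=
  BoundedContinuousFunction.ofNormedAddCommGroup (fun z => max 0 (1 - ‖z‖)) (by fun_prop) 1 (by
    intro z
    rw [Real.norm_eq_abs, abs_of_nonneg (le_max_left _ _)]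
    exact max_le zero_le_one (by linarith [norm_nonneg z]))

private lemma ndF_apply (z : EuclideanSpace ℝ (Fin 2)) : ndF z = max 0 (1 - ‖z‖) := rfl

private lemma ndF_nonneg (z : EuclideanSpace ℝ (Fin 2)) : 0 ≤ ndF z := le_max_left _ _

private lemma ndF_le_one (z : EuclideanSpace ℝ (Fin 2)) : ndF z ≤ 1 :=
  max_le zero_le_one (by linarith [norm_nonneg z])

private lemma nd_norm_vec (z : ℂ) : ‖vec z‖ = ‖z‖ := by
  rw [EuclideanSpace.norm_eq, Fin.sum_univ_two, Complex.norm_eq_sqrt_sq_add_sq]
  simp [vec]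

private lemma nd_continuous_vec : Continuous vec := by
  have h : Continuous fun z : ℂ => (![z.re, z.im] : Fin 2 → ℝ) := by
    refine continuous_pi fun i => ?_
    fin_cases i
    · exact Complex.continuous_re
    · exact Complex.continuous_im
  exact (PiLp.continuous_toLp 2 (fun _ : Fin 2 => ℝ)).comp h

private lemma nd_cont (a : ℝ) : Continuous fun z : ℂ => ndF (a • vec z) := by
  have h1 : Continuous fun z : ℂ => a • vec z := (continuous_const_smul a).comp nd_continuous_vec
  exact ndF.continuous.comp h1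

theorem not_diffusive {Ω : Type*} [MeasurableSpace Ω] (P : Measure Ω) [IsProbabilityMeasure P]
    {X : Ω → ℝ → ℂ} (hXm : ∀ t, 0 ≤ t → AEMeasurable (fun ω => X ω t) P) (hpos : P (Unb X) ≠ 0)
    (hk : ∀ k : ℕ, ∃ t : ℝ, (k : ℝ) + 1 ≤ t ∧
      ENNReal.ofReal (1 - 1 / (k + 1)) ≤ P {ω | ‖X ω t‖ < √t / (k + 1)}) :
    ¬ Diffusive P X := by
  rintro ⟨S, hS, -, hconv⟩
  choose T hT1 hT2 using hk
  set Q := ProbabilityTheory.cond P (Unb X) with hQdef
  have hQ : IsProbabilityMeasure Q := cond_isProbabilityMeasure hpos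
  have hQle : ∀ A : Set Ω, Q A ≤ (P (Unb X))⁻¹ * P A := by
    intro A
    rw [hQdef, ProbabilityTheory.cond, Measure.smul_apply, smul_eq_mul]
    exact mul_le_mul_right (Measure.restrict_le_self A) _
  have hac : Q ≪ P := by
    intro A hA
    have := hQle A
    rw [hA, mul_zero] at this
    exact le_antisymm this (by simp)
  set c : ℝ := ((P (Unb X))⁻¹).toReal with hc
  have hcfin : (P (Unb X))⁻¹ ≠ ⊤ := ENNReal.inv_ne_top.2 hpos
  have hc0 : 0 ≤ c := ENNReal.toReal_nonneg
  have hTtop : Tendsto T atTop atTop :=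
    tendsto_atTop_mono hT1 (tendsto_natCast_atTop_atTop.atTop_add tendsto_const_nhds)
  -- the lower bound
  have hlow : ∀ k : ℕ, 1 - (1 + c) / ((k : ℝ) + 1) ≤
      ∫ ω, ndF ((√(T k))⁻¹ • vec (X ω (T k))) ∂Q := by
    intro k
    have hk1 : (0 : ℝ) < (k : ℝ) + 1 := by positivity
    have hTpos : 0 < T k := lt_of_lt_of_le hk1 (hT1 k)
    have hmeas : AEMeasurable (fun ω => X ω (T k)) P := hXm _ hTpos.le
    have hmeasQ : AEMeasurable (fun ω => X ω (T k)) Q := hmeas.mono_ac hac
    set E : Set Ω := {ω | ‖X ω (T k)‖ < √(T k) / (k + 1)} with hE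
    have hEm : NullMeasurableSet E P := nullMeasurableSet_lt hmeas.norm aemeasurable_const
    have hEc : P Eᶜ ≤ ENNReal.ofReal (1 / (k + 1)) := by
      rw [prob_compl_eq_one_sub₀ hEm]
      have h1 := hT2 k
      calc 1 - P E ≤ 1 - ENNReal.ofReal (1 - 1 / (k + 1)) := tsub_le_tsub_left h1 _
        _ = ENNReal.ofReal (1 / (k + 1)) := by
          rw [← ENNReal.ofReal_one, ← ENNReal.ofReal_sub _ (by
            rw [sub_nonneg, div_le_one hk1]
            have : (0 : ℝ) ≤ k := Nat.cast_nonneg k
            linarith)]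
          congr 1
          ring
    have hQEc : Q.real Eᶜ ≤ c * (1 / (k + 1)) := by
      rw [Measure.real]
      calc (Q Eᶜ).toReal ≤ ((P (Unb X))⁻¹ * ENNReal.ofReal (1 / (k + 1))).toReal := by
            apply ENNReal.toReal_mono (ENNReal.mul_ne_top hcfin ENNReal.ofReal_ne_top)
            exact (hQle _).trans (mul_le_mul_right hEc _)
        _ = c * (1 / (k + 1)) := by
            rw [ENNReal.toReal_mul, ENNReal.toReal_ofReal (by positivity)]
    have hEcQ : NullMeasurableSet Eᶜ Q := (hEm.compl).mono_ac hac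
    have hgm : AEStronglyMeasurable (fun ω => ndF ((√(T k))⁻¹ • vec (X ω (T k)))) Q := by
      have h1 : Measurable fun z : ℂ => ndF ((√(T k))⁻¹ • vec z) := (nd_cont _).measurable
      have h2 : AEMeasurable (fun ω => ndF ((√(T k))⁻¹ • vec (X ω (T k)))) Q :=
        h1.comp_aemeasurable hmeasQ
      exact h2.aestronglyMeasurable
    have hgi : Integrable (fun ω => ndF ((√(T k))⁻¹ • vec (X ω (T k)))) Q := by
      refine Integrable.of_bound hgm 1 (Eventually.of_forall fun ω => ?_)
      rw [Real.norm_eq_abs, abs_of_nonneg (ndF_nonneg _)]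
      exact ndF_le_one _
    have hind : Integrable (Eᶜ.indicator (fun _ => (1 : ℝ))) Q :=
      (integrable_const (1 : ℝ)).indicator₀ hEcQ
    have hle : ∀ ω, 1 - ndF ((√(T k))⁻¹ • vec (X ω (T k))) ≤
        1 / ((k : ℝ) + 1) + Eᶜ.indicator (fun _ => (1 : ℝ)) ω := by
      intro ω
      by_cases hω : ω ∈ E
      · rw [indicator_of_notMem (by simpa using hω), add_zero]
        have h1 : ‖X ω (T k)‖ < √(T k) / (k + 1) := hω
        have hs : 0 < √(T k) := Real.sqrt_pos.2 hTpos
        have h2 : ‖(√(T k))⁻¹ • vec (X ω (T k))‖ ≤ 1 / ((k : ℝ) + 1) := by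
          rw [norm_smul, nd_norm_vec, Real.norm_of_nonneg (by positivity), inv_mul_le_iff₀ hs]
          rw [mul_one_div]
          exact h1.le
        have h3 : 1 - ‖(√(T k))⁻¹ • vec (X ω (T k))‖ ≤
            ndF ((√(T k))⁻¹ • vec (X ω (T k))) := le_max_right _ _
        linarith
      · rw [indicator_of_mem (by simpa using hω)]
        have h1 := ndF_nonneg ((√(T k))⁻¹ • vec (X ω (T k)))
        have h2 : (0 : ℝ) ≤ 1 / ((k : ℝ) + 1) := by positivity
        linarith
    have hint : ∫ ω, (1 - ndF ((√(T k))⁻¹ • vec (X ω (T k)))) ∂Q ≤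
        ∫ ω, (1 / ((k : ℝ) + 1) + Eᶜ.indicator (fun _ => (1 : ℝ)) ω) ∂Q :=
      integral_mono ((integrable_const _).sub hgi) ((integrable_const _).add hind) hle
    rw [integral_sub (integrable_const _) hgi, integral_add (integrable_const _) hind,
      integral_indicator₀ hEcQ] at hint
    simp only [integral_const, probReal_univ, smul_eq_mul, one_mul, mul_one,
      measureReal_restrict_apply_univ] at hint
    have h9 : (1 + c) / ((k : ℝ) + 1) = 1 / ((k : ℝ) + 1) + c * (1 / (k + 1)) := by
      field_simp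
    rw [h9]
    linarith
  have hlim := (hconv ndF).comp hTtop
  have hlim2 : Tendsto (fun k : ℕ => 1 - (1 + c) / ((k : ℝ) + 1)) atTop (𝓝 (1 - 0)) := by
    refine tendsto_const_nhds.sub ?_
    exact tendsto_const_nhds.div_atTop
      (tendsto_natCast_atTop_atTop.atTop_add tendsto_const_nhds)
  have hge : 1 - 0 ≤ ∫ z, ndF z ∂(multivariateGaussian 0 S) :=
    le_of_tendsto_of_tendsto' hlim2 hlim hlow
  set γ := multivariateGaussian (0 : EuclideanSpace ℝ (Fin 2)) S with hγ
  have hFi : Integrable (fun z => ndF z) γ := ndF.integrable γ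
  have hzero : ∫ z, (1 - ndF z) ∂γ = 0 := by
    apply le_antisymm
    · rw [integral_sub (integrable_const _) hFi]
      simp only [integral_const, probReal_univ, smul_eq_mul, mul_one]
      linarith
    · exact integral_nonneg fun z => sub_nonneg.2 (ndF_le_one z)
  have hae : (fun z => 1 - ndF z) =ᵐ[γ] 0 :=
    (integral_eq_zero_iff_of_nonneg (fun z => sub_nonneg.2 (ndF_le_one z))
      ((integrable_const _).sub hFi)).1 hzero
  have hae2 : (fun z : EuclideanSpace ℝ (Fin 2) => z 0) =ᵐ[γ] (0 : EuclideanSpace ℝ (Fin 2) → ℝ) := by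
    filter_upwards [hae] with z hz
    have h1 : ndF z = 1 := by
      have : 1 - ndF z = 0 := hz
      linarith
    have h2 : ‖z‖ = 0 := by
      rw [ndF_apply] at h1
      have h3 := norm_nonneg z
      rcases max_choice (0 : ℝ) (1 - ‖z‖) with h | h
      · rw [h] at h1
        norm_num at h1
      · rw [h] at h1
        linarith
    have h4 : z = 0 := norm_eq_zero.1 h2
    rw [h4]
    rfl
  have hvar := variance_eval_multivariateGaussian (μ := (0 : EuclideanSpace ℝ (Fin 2)))
    hS.posSemidef (0 : Fin 2)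
  rw [variance_congr hae2, variance_zero] at hvar
  have := hS.diag_pos (i := (0 : Fin 2))
  linarith

end Pool.Agent.Lib.MP_3309cd_pr
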