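import Pool.Agent.Lib.MP_3309cd_pr.RayDefs
import Pool.Agent.Lib.MP_3309cd_pr.AeBasic
import Pool.Agent.Lib.MP_3309cd_pr.ConfLF

/-! The configuration `conf` under `PP` is a Poisson process of rate `1` with marks. -/

namespace Pool.Agent.Lib.MP_3309cd_pr

open MeasureTheory ProbabilityTheory Set Filter Topology


/-- Marks: relative position and angle. -/
abbrev PoiMk : Type := (unitInterval × unitInterval) × ℝ

/-- The rate of a cell. -/
noncomputable def poiR : NNReal := ⟨sd ^ 2, sq_nonneg sd⟩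

open Classical in
/-- The number of present marks in `A`. -/
noncomputable def poiK (A : Set PoiMk) (e : CC) : ℕ :=
  ∑ i ∈ Finset.range e.1, if e.2 i ∈ A then 1 else 0

theorem poiK_meas {A : Set PoiMk} (hA : MeasurableSet A) : Measurable (poiK A) := by
  classical
  refine measurable_from_prod_countable_right fun n => ?_
  change Measurable fun x : ℕ → PoiMk => ∑ i ∈ Finset.range n, if x i ∈ A then 1 else 0
  refine Finset.measurable_sum _ fun i _ => ?_
  exact Measurable.ite (measurable_pi_apply i hA) measurable_const measurable_const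

/-- One factor of the characteristic function. -/
noncomputable def poiG {ι : Type*} [Fintype ι] (A : ι → Set PoiMk) (t : ι → ℝ) (x : PoiMk) : ℂ :=
  1 + ∑ j, (A j).indicator (fun _ => Complex.exp (t j * Complex.I) - 1) x

theorem poiG_meas {ι : Type*} [Fintype ι] {A : ι → Set PoiMk} (hA : ∀ j, MeasurableSet (A j))
    (t : ι → ℝ) : Measurable (poiG A t) := by
  unfold poiG
  refine measurable_const.add (Finset.measurable_sum _ fun j _ => ?_)
  exact measurable_const.indicator (hA j)

open Classical in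
theorem poiG_eq {ι : Type*} [Fintype ι] {A : ι → Set PoiMk}
    (hd : ∀ i j, i ≠ j → Disjoint (A i) (A j)) (t : ι → ℝ) (x : PoiMk) :
    poiG A t x = Complex.exp ((∑ j, t j * (if x ∈ A j then 1 else 0 : ℝ) : ℝ) * Complex.I) := by
  unfold poiG
  by_cases h : ∃ j, x ∈ A j
  · obtain ⟨j, hj⟩ := h
    have hne : ∀ i, i ≠ j → x ∉ A i := fun i hi hx => (disjoint_left.1 (hd i j hi)) hx hj
    rw [Finset.sum_eq_single j, Finset.sum_eq_single j]
    · simp [hj]
    · intro i _ hi; simp [hne i hi]
    · simp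
    · intro i _ hi; simp [hne i hi]
    · simp
  · push Not at h
    simp [h]

theorem poiG_norm {ι : Type*} [Fintype ι] {A : ι → Set PoiMk}
    (hd : ∀ i j, i ≠ j → Disjoint (A i) (A j)) (t : ι → ℝ) (x : PoiMk) : ‖poiG A t x‖ = 1 := by
  rw [poiG_eq hd, Complex.norm_exp_ofReal_mul_I]

theorem poi_exp_eq {ι : Type*} [Fintype ι] {A : ι → Set PoiMk}
    (hd : ∀ i j, i ≠ j → Disjoint (A i) (A j)) (t : ι → ℝ) (e : CC) :
    Complex.exp ((∑ j, t j * (poiK (A j) e : ℝ) : ℝ) * Complex.I) =
      ∏ i ∈ Finset.range e.1, poiG A t (e.2 i) := by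
  classical
  simp_rw [poiG_eq hd]
  rw [← Complex.exp_sum, ← Finset.sum_mul]
  congr 2
  rw [← Complex.ofReal_sum]
  congr 1
  rw [Finset.sum_comm]
  refine Finset.sum_congr rfl fun j _ => ?_
  unfold poiK
  push_cast
  rw [Finset.mul_sum]

theorem poi_intG {ι : Type*} [Fintype ι] {A : ι → Set PoiMk} (hA : ∀ j, MeasurableSet (A j))
    (μ : Measure ℝ) [IsProbabilityMeasure μ] (t : ι → ℝ) :
    ∫ x, poiG A t x ∂(ptLaw μ) =
      1 + ∑ j, ((ptLaw μ).real (A j) : ℂ) * (Complex.exp (t j * Complex.I) - 1) := by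
  unfold poiG
  rw [integral_add (integrable_const _) (integrable_finsetSum _ fun j _ =>
    (integrable_const _).indicator (hA j)), integral_finsetSum _ fun j _ =>
    (integrable_const _).indicator (hA j)]
  simp only [integral_const, probReal_univ, one_smul]
  congr 1
  refine Finset.sum_congr rfl fun j _ => ?_
  rw [integral_indicator_const _ (hA j)]
  rw [Complex.real_smul]

theorem poi_exp_meas {ι : Type*} [Fintype ι] {A : ι → Set PoiMk} (hA : ∀ j, MeasurableSet (A j))
    (t : ι → ℝ) : Measurable fun e : CC =>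
      Complex.exp ((∑ j, t j * (poiK (A j) e : ℝ) : ℝ) * Complex.I) := by
  have h := fun j => poiK_meas (hA j)
  have h2 : ∀ j, Measurable fun e : CC => (poiK (A j) e : ℝ) := fun j =>
    measurable_from_top.comp (h j)
  fun_prop

theorem poi_cellLaw (μ : Measure ℝ) : cellLaw μ =
    (poissonMeasure poiR).prod (Measure.infinitePi fun _ : ℕ => ptLaw μ) := rfl

/-- Joint characteristic function of the numbers of marks in disjoint sets. -/
theorem poi_joint {ι : Type*} [Fintype ι] {A : ι → Set PoiMk} (hA : ∀ j, MeasurableSet (A j))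
    (hd : ∀ i j, i ≠ j → Disjoint (A i) (A j)) (μ : Measure ℝ) [IsProbabilityMeasure μ]
    (t : ι → ℝ) :
    ∫ e, Complex.exp ((∑ j, t j * (poiK (A j) e : ℝ) : ℝ) * Complex.I) ∂(cellLaw μ) =
      Complex.exp ((poiR : ℝ) *
        ∑ j, ((ptLaw μ).real (A j) : ℂ) * (Complex.exp (t j * Complex.I) - 1)) := by
  have hint : Integrable (fun e : CC =>
      Complex.exp ((∑ j, t j * (poiK (A j) e : ℝ) : ℝ) * Complex.I)) (cellLaw μ) := by
    refine Integrable.of_bound (poi_exp_meas hA t).aestronglyMeasurable 1 (Eventually.of_forall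
      fun e => ?_)
    rw [Complex.norm_exp_ofReal_mul_I]
  rw [poi_cellLaw] at hint ⊢
  rw [integral_prod _ hint]
  have h1 : ∀ n : ℕ, ∫ x, Complex.exp ((∑ j, t j * (poiK (A j) (n, x) : ℝ) : ℝ) * Complex.I)
      ∂(Measure.infinitePi fun _ : ℕ => ptLaw μ) = (∫ x, poiG A t x ∂(ptLaw μ)) ^ n := by
    intro n
    simp_rw [poi_exp_eq hd]
    have h2 : ∀ x : ℕ → PoiMk, ∏ i ∈ Finset.range n, poiG A t (x i) =
        (fun y : (i : Finset.range n) → PoiMk => ∏ i, poiG A t (y i))
          ((Finset.range n).restrict x) := by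
      intro x
      simp only [Finset.restrict]
      rw [Finset.prod_coe_sort (Finset.range n) (fun i => poiG A t (x i))]
    rw [integral_congr_ae (Eventually.of_forall h2)]
    refine (integral_restrict_infinitePi (X := fun _ : ℕ => PoiMk) (μ := fun _ => ptLaw μ)
      (s := Finset.range n) (f := fun y => ∏ i, poiG A t (y i)) ?_).trans ?_
    · refine Measurable.aestronglyMeasurable ?_
      have := poiG_meas hA t
      fun_prop
    · rw [integral_fintype_prod_eq_pow (poiG A t)]
      simp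
  rw [integral_congr_ae (Eventually.of_forall h1), integral_poissonMeasure, poi_intG hA]
  set c : ℂ := 1 + ∑ j, ((ptLaw μ).real (A j) : ℂ) * (Complex.exp (t j * Complex.I) - 1) with hc
  have h3 : (∑ j, ((ptLaw μ).real (A j) : ℂ) * (Complex.exp (t j * Complex.I) - 1)) = c - 1 := by
    rw [hc]; ring
  rw [h3]
  change ∑' n : ℕ, (Real.exp (-(poiR : ℝ)) * (poiR : ℝ) ^ n / (n.factorial : ℝ)) • c ^ n = _
  calc ∑' n : ℕ, (Real.exp (-(poiR : ℝ)) * (poiR : ℝ) ^ n / (n.factorial : ℝ)) • c ^ n
      = ∑' n : ℕ, (Real.exp (-(poiR : ℝ)) : ℂ) * ((((poiR : ℝ) : ℂ) * c) ^ n / (n.factorial : ℂ)) := by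
        congr 1
        ext n
        rw [Complex.real_smul]
        push_cast
        rw [mul_pow]
        ring
    _ = (Real.exp (-(poiR : ℝ)) : ℂ) * Complex.exp (((poiR : ℝ) : ℂ) * c) := by
        rw [tsum_mul_left, (NormedSpace.expSeries_div_hasSum_exp (((poiR : ℝ) : ℂ) * c)).tsum_eq,
          Complex.exp_eq_exp_ℂ]
    _ = _ := by
        rw [Complex.ofReal_exp, ← Complex.exp_add]
        congr 1
        push_cast
        ring


theorem poi_charFun_cell {A : Set PoiMk} (hA : MeasurableSet A) (μ : Measure ℝ)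
    [IsProbabilityMeasure μ] (t : ℝ) :
    charFun ((cellLaw μ).map fun e => (poiK A e : ℝ)) t =
      Complex.exp ((poiR : ℝ) * (((ptLaw μ).real A : ℂ) * (Complex.exp (t * Complex.I) - 1))) := by
  have hm : Measurable fun e : CC => (poiK A e : ℝ) := measurable_from_top.comp (poiK_meas hA)
  rw [charFun_apply, integral_map hm.aemeasurable (by fun_prop)]
  have h := poi_joint (ι := Unit) (A := fun _ => A) (fun _ => hA)
    (fun i j hij => absurd (Subsingleton.elim i j) hij) μ (fun _ => t)
  simp only [Finset.univ_unique, Finset.sum_singleton] at h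
  rw [← h]
  refine integral_congr_ae (Eventually.of_forall fun e => ?_)
  simp only [Real.inner_apply]
  rw [mul_comm t]

theorem poi_law_cell {A : Set PoiMk} (hA : MeasurableSet A) (μ : Measure ℝ)
    [IsProbabilityMeasure μ] :
    (cellLaw μ).map (poiK A) = poissonMeasure (poiR * (ptLaw μ A).toNNReal) := by
  apply (MeasurableEmbedding.natCast (α := ℝ)).map_injective
  apply Measure.ext_of_charFun
  ext t
  rw [charFun_map_cast_poissonMeasure, Measure.map_map measurable_from_top (poiK_meas hA)]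
  have h := poi_charFun_cell hA μ t
  rw [show (Nat.cast ∘ poiK A : CC → ℝ) = fun e => (poiK A e : ℝ) from rfl, h]
  congr 1
  push_cast
  rw [mul_assoc]
  rfl

theorem poi_indep_cell {ι : Type*} [Fintype ι] {A : ι → Set PoiMk}
    (hA : ∀ j, MeasurableSet (A j)) (hd : ∀ i j, i ≠ j → Disjoint (A i) (A j))
    (μ : Measure ℝ) [IsProbabilityMeasure μ] :
    iIndepFun (fun j => poiK (A j)) (cellLaw μ) := by
  have hm : ∀ j, Measurable fun e : CC => (poiK (A j) e : ℝ) := fun j =>
    measurable_from_top.comp (poiK_meas (hA j))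
  have hR : iIndepFun (fun j e => (poiK (A j) e : ℝ)) (cellLaw μ) := by
    rw [iIndepFun_iff_charFun_pi fun j => (hm j).aemeasurable]
    intro t
    simp_rw [poi_charFun_cell (hA _) μ]
    have hm2 : Measurable fun e : CC => WithLp.toLp 2 fun j => (poiK (A j) e : ℝ) :=
      (WithLp.measurable_toLp 2 _).comp (measurable_pi_lambda _ hm)
    rw [charFun_apply, integral_map hm2.aemeasurable (by fun_prop)]
    rw [← Complex.exp_sum, ← Finset.mul_sum, ← poi_joint hA hd μ (fun j => t j)]
    refine integral_congr_ae (Eventually.of_forall fun e => ?_)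
    simp only [PiLp.inner_apply, Real.inner_apply]
    congr 3
    refine Finset.sum_congr rfl fun j _ => ?_
    rw [mul_comm]
  have h := hR.comp (fun _ => Nat.floor) (fun _ => Nat.measurable_floor)
  simpa [Function.comp_def] using h

theorem poi_indep_pull {Ω Ω' ι : Type*} [MeasurableSpace Ω] [MeasurableSpace Ω'] {P : Measure Ω}
    {Q : Measure Ω'} [IsProbabilityMeasure P] [IsProbabilityMeasure Q] {f : Ω → Ω'}
    (hf : MeasurePreserving f P Q) {E : ι → Type*} [∀ i, MeasurableSpace (E i)]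
    {X : ∀ i, Ω' → E i} (hX : ∀ i, Measurable (X i)) (h : iIndepFun X Q) :
    iIndepFun (fun i ω => X i (f ω)) P := by
  rw [iIndepFun_iff_map_fun_eq_infinitePi_map hX, ← hf.map_eq,
    Measure.map_map (measurable_pi_lambda _ hX) hf.measurable] at h
  have hXf : ∀ i, Measurable fun ω => X i (f ω) := fun i => (hX i).comp hf.measurable
  rw [iIndepFun_iff_map_fun_eq_infinitePi_map hXf]
  refine h.trans ?_
  congr 1
  funext i
  rw [Measure.map_map (hX i) hf.measurable]
  rfl

/-- The numbers of marks in the sets `A κ j`, for disjoint `A κ j` with `κ` fixed, are independent. -/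
theorem poi_indep_all {ι : Type*} [Fintype ι] {A : Cell → ι → Set PoiMk}
    (hA : ∀ κ j, MeasurableSet (A κ j)) (hd : ∀ κ i j, i ≠ j → Disjoint (A κ i) (A κ j))
    (μ : Measure ℝ) [IsProbabilityMeasure μ] :
    iIndepFun (fun (p : Cell × ι) (ω : Om) => poiK (A p.1 p.2) (ω p.1)) (PP μ) := by
  have hm : ∀ κ j, Measurable fun ω : Om => poiK (A κ j) (ω κ) := fun κ j =>
    (poiK_meas (hA κ j)).comp (measurable_pi_apply κ)
  refine iIndepFun_uncurry' (X := fun κ j (ω : Om) => poiK (A κ j) (ω κ)) hm ?_ ?_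
  · exact iIndepFun_infinitePi (P := fun _ : Cell => cellLaw μ)
      (X := fun κ (e : CC) j => poiK (A κ j) e)
      (fun κ => measurable_pi_lambda _ fun j => poiK_meas (hA κ j))
  · intro κ
    have hev : MeasurePreserving (fun ω : Om => ω κ) (PP μ) (cellLaw μ) :=
      measurePreserving_eval_infinitePi (fun _ : Cell => cellLaw μ) κ
    exact poi_indep_pull hev (fun j => poiK_meas (hA κ j)) (poi_indep_cell (hA κ) (hd κ) μ)

/-- The rows are independent. -/
theorem poi_indep_rows {ι : Type*} [Fintype ι] {A : Cell → ι → Set PoiMk}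
    (hA : ∀ κ j, MeasurableSet (A κ j)) (hd : ∀ κ i j, i ≠ j → Disjoint (A κ i) (A κ j))
    (μ : Measure ℝ) [IsProbabilityMeasure μ] :
    iIndepFun (fun (j : ι) (ω : Om) (κ : Cell) => poiK (A κ j) (ω κ)) (PP μ) := by
  have hm : ∀ κ j, Measurable fun ω : Om => poiK (A κ j) (ω κ) := fun κ j =>
    (poiK_meas (hA κ j)).comp (measurable_pi_apply κ)
  have hm' : ∀ p : ι × Cell, Measurable fun ω : Om => poiK (A p.2 p.1) (ω p.2) := fun p =>
    hm p.2 p.1
  have h0 := poi_indep_all hA hd μ
  have h1 : iIndepFun (fun (p : ι × Cell) (ω : Om) => poiK (A p.2 p.1) (ω p.2)) (PP μ) :=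
    h0.precomp (g := Prod.swap) Prod.swap_injective
  have hr : ∀ j : ι, iIndepFun (fun (κ : Cell) (ω : Om) => poiK (A κ j) (ω κ)) (PP μ) := fun j =>
    h1.precomp (g := fun κ => (j, κ)) (fun a b hab => congrArg Prod.snd hab)
  have : ∀ j κ, IsProbabilityMeasure ((PP μ).map fun ω : Om => poiK (A κ j) (ω κ)) :=
    fun j κ => Measure.isProbabilityMeasure_map (hm κ j).aemeasurable
  rw [iIndepFun_iff_map_fun_eq_infinitePi_map hm'] at h1
  rw [iIndepFun_iff_map_fun_eq_infinitePi_map fun j => measurable_pi_lambda _ fun κ => hm κ j]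
  have h2 : (PP μ).map (fun ω (j : ι) (κ : Cell) => poiK (A κ j) (ω κ)) =
      ((PP μ).map (fun ω (p : ι × Cell) => poiK (A p.2 p.1) (ω p.2))).map
        (MeasurableEquiv.curry ι Cell ℕ) := by
    rw [Measure.map_map (MeasurableEquiv.measurable _) (measurable_pi_lambda _ hm')]
    rfl
  rw [h2, h1]
  refine (Measure.infinitePi_map_curry
    (fun j κ => (PP μ).map fun ω : Om => poiK (A κ j) (ω κ))).trans ?_
  congr 1
  funext j
  have h3 := hr j
  rw [iIndepFun_iff_map_fun_eq_infinitePi_map fun κ => hm κ j] at h3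
  exact h3.symm


/-- Decomposition of the line into intervals of length `1`. -/
theorem poi_line_one (g : ℝ → ENNReal) :
    ∫⁻ x, g x = ∑' k : ℤ, ∫⁻ u : unitInterval, g (k + (u : ℝ)) := by
  have h1 : ∫⁻ x, g x = ∫⁻ x in ⋃ k : ℤ, Ico (k : ℝ) (k + 1), g x := by
    rw [iUnion_Ico_intCast, Measure.restrict_univ]
  rw [h1, lintegral_iUnion (fun k => measurableSet_Ico) (pairwise_disjoint_Ico_intCast ℝ)]
  refine tsum_congr fun k => ?_
  rw [← lintegral_indicator measurableSet_Ico, ← lintegral_add_left_eq_self _ (k : ℝ)]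
  have h2 : ∀ x : ℝ, (Ico (k : ℝ) (k + 1)).indicator g (k + x) =
      (Ico (0 : ℝ) 1).indicator (fun u => g (k + u)) x := by
    intro x
    simp only [indicator, mem_Ico]
    congr 1
    simp
  simp_rw [h2]
  rw [lintegral_indicator measurableSet_Ico, Measure.restrict_congr_set Ico_ae_eq_Icc,
    ← map_comap_subtype_coe (s := Icc (0 : ℝ) 1) measurableSet_Icc,
    (MeasurableEmbedding.subtype_coe measurableSet_Icc).lintegral_map]
  rfl

/-- Decomposition of the line into intervals of length `sd`. -/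
theorem poi_line (g : ℝ → ENNReal) (hg : Measurable g) :
    ∫⁻ x, g x = ∑' k : ℤ, ENNReal.ofReal sd * ∫⁻ u : unitInterval, g (sd * (k + (u : ℝ))) := by
  have hsd := confLF_sd_pos
  conv_lhs => rw [← Real.smul_map_volume_mul_left hsd.ne', lintegral_smul_measure,
    lintegral_map hg (by fun_prop)]
  rw [abs_of_pos hsd, ENNReal.tsum_mul_left,
    poi_line_one (fun y => g (sd * y)), smul_eq_mul]

theorem poi_aebC_meas (κ : Cell) : Measurable (aebC κ) := by
  unfold aebC
  have h : Continuous fun U : unitInterval × unitInterval =>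
      Complex.equivRealProdCLM.symm (sd * (κ.1 + (U.1 : ℝ)), sd * (κ.2 + (U.2 : ℝ))) := by
    fun_prop
  exact h.measurable

/-- Decomposition of the plane into squares of side `sd`. -/
theorem poi_plane (g : ℂ → ENNReal) (hg : Measurable g) :
    ∫⁻ z, g z = ∑' κ : Cell, ENNReal.ofReal (sd ^ 2) *
      ∫⁻ U : unitInterval × unitInterval, g (aebC κ U) := by
  have hsd := confLF_sd_pos
  rw [← (Complex.volume_preserving_equiv_real_prod.symm).lintegral_comp_emb
    (MeasurableEquiv.measurableEmbedding _)]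
  have hmk : Measurable fun p : ℝ × ℝ => g (Complex.measurableEquivRealProd.symm p) :=
    hg.comp (MeasurableEquiv.measurable _)
  rw [Measure.volume_eq_prod, lintegral_prod _ hmk.aemeasurable]
  rw [poi_line _ hmk.lintegral_prod_right']
  have h1 : ∀ (k : ℤ) (u : unitInterval),
      ∫⁻ y : ℝ, g (Complex.measurableEquivRealProd.symm (sd * (k + (u : ℝ)), y)) =
      ∑' l : ℤ, ENNReal.ofReal sd * ∫⁻ v : unitInterval, g (aebC (k, l) (u, v)) := by
    intro k u
    exact poi_line (fun y => g (Complex.measurableEquivRealProd.symm (sd * (k + (u : ℝ)), y)))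
      (hmk.comp measurable_prodMk_left)
  simp_rw [h1]
  rw [ENNReal.tsum_prod (f := fun k l => ENNReal.ofReal (sd ^ 2) *
      ∫⁻ U : unitInterval × unitInterval, g (aebC (k, l) U))]
  refine tsum_congr fun k => ?_
  have hm : ∀ l : ℤ, Measurable fun U : unitInterval × unitInterval => g (aebC (k, l) U) :=
    fun l => hg.comp (poi_aebC_meas _)
  rw [lintegral_tsum]
  · rw [← ENNReal.tsum_mul_left]
    refine tsum_congr fun l => ?_
    rw [lintegral_const_mul _ (hm l).lintegral_prod_right', ← mul_assoc,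
      ← ENNReal.ofReal_mul hsd.le, Measure.volume_eq_prod, lintegral_prod _ (hm l).aemeasurable,
      sq]
  · intro l
    exact ((hm l).lintegral_prod_right'.const_mul _).aemeasurable

/-- The marks of the cell `κ` for which the mirror is in `B`. -/
def poiA (B : Set Mir) (κ : Cell) : Set ((unitInterval × unitInterval) × ℝ) :=
  {x | (aebC κ x.1, x.2) ∈ B}

theorem poiA_meas {B : Set Mir} (hB : MeasurableSet B) (κ : Cell) : MeasurableSet (poiA B κ) := by
  have : Measurable fun x : (unitInterval × unitInterval) × ℝ => ((aebC κ x.1, x.2) : Mir) :=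
    ((poi_aebC_meas κ).comp measurable_fst).prodMk measurable_snd
  exact this hB

theorem poi_mass (μ : Measure ℝ) [IsProbabilityMeasure μ] {B : Set Mir} (hB : MeasurableSet B) :
    ((volume : Measure ℂ).prod μ) B =
      ∑' κ : Cell, ENNReal.ofReal (sd ^ 2) * ptLaw μ (poiA B κ) := by
  rw [Measure.prod_apply hB, poi_plane _ (measurable_measure_prodMk_left hB)]
  refine tsum_congr fun κ => ?_
  rw [ptLaw, Measure.prod_apply (poiA_meas hB κ)]
  rfl


/-- The cardinality of a random subset of a countable set is measurable. -/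
theorem poi_encard_meas {α L : Type*} [MeasurableSpace α] [Countable L] {p : L → α → Prop}
    (hp : ∀ l, MeasurableSet {a | p l a}) : Measurable fun a => {l | p l a}.encard := by
  have hge : ∀ k : ℕ, MeasurableSet {a | (k : ℕ∞) ≤ {l | p l a}.encard} := by
    intro k
    have : {a | (k : ℕ∞) ≤ {l | p l a}.encard} =
        ⋃ F : {F : Finset L // F.card = k}, ⋂ l ∈ F.1, {a | p l a} := by
      ext a
      simp only [mem_ofPred_eq, mem_iUnion, mem_iInter]
      constructor
      · intro h
        obtain ⟨t, ht, htk⟩ := exists_subset_encard_eq h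
        have hfin : t.Finite := finite_of_encard_eq_coe htk
        refine ⟨⟨hfin.toFinset, ?_⟩, fun l hl => ht (hfin.mem_toFinset.1 hl)⟩
        rw [hfin.encard_eq_coe_toFinset_card] at htk
        exact_mod_cast htk
      · rintro ⟨⟨F, hF⟩, h⟩
        have h1 : (F : Set L) ⊆ {l | p l a} := fun l hl => h l hl
        have h2 := encard_le_encard h1
        rw [encard_coe_eq_coe_finsetCard, hF] at h2
        exact h2
    rw [this]
    refine MeasurableSet.iUnion fun F => ?_
    exact MeasurableSet.biInter F.1.countable_toSet fun l _ => hp l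
  refine measurable_to_countable' fun x => ?_
  induction x using ENat.recTopCoe with
  | top =>
    have : (fun a => {l | p l a}.encard) ⁻¹' {⊤} = ⋂ k : ℕ, {a | (k : ℕ∞) ≤ {l | p l a}.encard} := by
      ext a
      simp only [mem_preimage, mem_singleton_iff, mem_iInter, mem_ofPred_eq]
      exact ENat.eq_top_iff_forall_ge
    rw [this]
    exact MeasurableSet.iInter hge
  | coe n =>
    have : (fun a => {l | p l a}.encard) ⁻¹' {(n : ℕ∞)} =
        {a | (n : ℕ∞) ≤ {l | p l a}.encard} \ {a | ((n + 1 : ℕ) : ℕ∞) ≤ {l | p l a}.encard} := by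
      ext a
      simp only [mem_preimage, mem_singleton_iff, Set.mem_sdiff, mem_ofPred_eq, not_le]
      constructor
      · intro h
        rw [h]
        exact ⟨le_rfl, by exact_mod_cast Nat.lt_succ_self n⟩
      · rintro ⟨h1, h2⟩
        refine le_antisymm ?_ h1
        push_cast at h2
        exact Order.le_of_lt_add_one h2
    rw [this]
    exact (hge n).diff (hge (n + 1))

/-- Total number of labels, given the numbers in the cells. -/
noncomputable def poiPhi (x : Cell → ℕ) : ℕ∞ := {l : Cell × ℕ | l.2 < x l.1}.encard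

theorem poiPhi_meas : Measurable poiPhi := by
  refine poi_encard_meas (p := fun (l : Cell × ℕ) (x : Cell → ℕ) => l.2 < x l.1) fun l => ?_
  exact (measurable_pi_apply l.1) (measurableSet_Ioi (a := l.2))

/-- The number of present labels with mark in `A κ`. -/
theorem poi_encard_labels (A : Cell → Set PoiMk) (ω : Om) :
    {l : Cell × ℕ | l.2 < (ω l.1).1 ∧ (ω l.1).2 l.2 ∈ A l.1}.encard =
      poiPhi fun κ => poiK (A κ) (ω κ) := by
  classical
  have hcard : ∀ κ, Nonempty ({i : ℕ | i < (ω κ).1 ∧ (ω κ).2 i ∈ A κ} ≃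
      {i : ℕ | i < poiK (A κ) (ω κ)}) := by
    intro κ
    have h1 : {i : ℕ | i < (ω κ).1 ∧ (ω κ).2 i ∈ A κ} =
        ((Finset.range (ω κ).1).filter fun i => (ω κ).2 i ∈ A κ : Finset ℕ) := by
      ext i; simp
    have h2 : {i : ℕ | i < poiK (A κ) (ω κ)} = (Finset.range (poiK (A κ) (ω κ)) : Finset ℕ) := by
      ext i; simp
    have h3 : ((Finset.range (ω κ).1).filter fun i => (ω κ).2 i ∈ A κ).card =
        (Finset.range (poiK (A κ) (ω κ))).card := by
      rw [Finset.card_range, Finset.card_filter]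
      unfold poiK
      rfl
    rw [h1, h2]
    exact ⟨Finset.equivOfCardEq h3⟩
  have e := fun κ => Classical.choice (hcard κ)
  unfold poiPhi
  apply Set.encard_congr
  refine ⟨fun l => ⟨(l.1.1, (e l.1.1 ⟨l.1.2, l.2⟩ : ℕ)), (e l.1.1 ⟨l.1.2, l.2⟩).2⟩,
    fun l => ⟨(l.1.1, ((e l.1.1).symm ⟨l.1.2, l.2⟩ : ℕ)), ((e l.1.1).symm ⟨l.1.2, l.2⟩).2⟩, ?_, ?_⟩
  · intro l; apply Subtype.ext; simp
  · intro l; apply Subtype.ext; simp

theorem poi_inj (μ : Measure ℝ) [IsProbabilityMeasure μ] :
    ∀ᵐ ω ∂(PP μ), Function.Injective (mir ω) := by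
  have h : ∀ᵐ ω ∂(PP μ), ∀ l l' : Cell × ℕ, l ≠ l' →
      cr (dir (mir ω l).2) ((mir ω l').1 - (mir ω l).1) ≠ 0 := by
    rw [ae_all_iff]
    intro l
    rw [ae_all_iff]
    intro l'
    by_cases hl : l = l'
    · exact Eventually.of_forall fun ω h => absurd hl h
    · filter_upwards [aeb_pair_line μ hl] with ω hω _
      exact hω
  filter_upwards [h] with ω hω l l' hll
  by_contra hne
  apply hω l l' hne
  rw [hll]
  simp [cr]

theorem poi_encard (μ : Measure ℝ) [IsProbabilityMeasure μ] (B : Set Mir) :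
    (fun ω => (conf ω ∩ B).encard) =ᵐ[PP μ] fun ω => poiPhi fun κ => poiK (poiA B κ) (ω κ) := by
  filter_upwards [poi_inj μ] with ω hω
  rw [← poi_encard_labels, ← hω.encard_image]
  congr 1
  ext m
  constructor
  · rintro ⟨⟨l, hl, rfl⟩, hB⟩
    exact ⟨l, ⟨hl, hB⟩, rfl⟩
  · rintro ⟨l, ⟨hl, hB⟩, rfl⟩
    exact ⟨⟨l, hl, rfl⟩, hB⟩

/-- A finite sum of independent Poisson variables. -/
theorem poi_law_sum (μ : Measure ℝ) [IsProbabilityMeasure μ] {A : Cell → Set PoiMk}
    (hA : ∀ κ, MeasurableSet (A κ)) (F : Finset Cell) :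
    HasLaw (∑ κ ∈ F, fun ω : Om => poiK (A κ) (ω κ))
      (poissonMeasure (∑ κ ∈ F, poiR * (ptLaw μ (A κ)).toNNReal)) (PP μ) := by
  classical
  have hm : ∀ κ, Measurable fun ω : Om => poiK (A κ) (ω κ) := fun κ =>
    (poiK_meas (hA κ)).comp (measurable_pi_apply κ)
  have hind : iIndepFun (fun κ (ω : Om) => poiK (A κ) (ω κ)) (PP μ) :=
    iIndepFun_infinitePi (P := fun _ : Cell => cellLaw μ) (X := fun κ (e : CC) => poiK (A κ) e)
      (fun κ => poiK_meas (hA κ))
  have hone : ∀ κ, HasLaw (fun ω : Om => poiK (A κ) (ω κ))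
      (poissonMeasure (poiR * (ptLaw μ (A κ)).toNNReal)) (PP μ) := by
    intro κ
    refine ⟨(hm κ).aemeasurable, ?_⟩
    have hev : MeasurePreserving (fun ω : Om => ω κ) (PP μ) (cellLaw μ) :=
      measurePreserving_eval_infinitePi (fun _ : Cell => cellLaw μ) κ
    rw [← poi_law_cell (hA κ) μ, ← hev.map_eq, Measure.map_map (poiK_meas (hA κ)) hev.measurable]
    rfl
  induction F using Finset.induction_on with
  | empty =>
    rw [Finset.sum_empty, Finset.sum_empty]
    refine ⟨measurable_const.aemeasurable, ?_⟩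
    rw [show (0 : Om → ℕ) = fun _ => 0 from rfl, Measure.map_const, measure_univ, one_smul]
    ext s hs
    have : ∀ n : ℕ, poissonMeasure 0 {n} = Measure.dirac 0 {n} := by
      intro n
      rw [poissonMeasure_singleton]
      rcases n with _ | n <;> simp
    rw [Measure.ext_of_singleton (fun n => (this n).symm)]
  | insert κ F hκ ih =>
    rw [Finset.sum_insert hκ, Finset.sum_insert hκ, add_comm, add_comm (poiR * _)]
    exact IndepFun.hasLaw_add_poissonMeasure (hind.indepFun_finsetSum_of_notMem hm hκ) ih (hone κ)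

theorem poiPhi_sum {x : Cell → ℕ} {F : Finset Cell} (hx : ∀ κ, κ ∉ F → x κ = 0) :
    poiPhi x = ((∑ κ ∈ F, x κ : ℕ) : ℕ∞) := by
  classical
  have h : {l : Cell × ℕ | l.2 < x l.1} =
      (F.sigma fun κ => Finset.range (x κ)).image (fun s => ((s.1, s.2) : Cell × ℕ)) := by
    ext l
    simp only [mem_ofPred_eq, Finset.coe_image, mem_image, Finset.mem_coe, Finset.mem_sigma,
      Finset.mem_range]
    constructor
    · intro hl
      refine ⟨⟨l.1, l.2⟩, ⟨?_, hl⟩, rfl⟩
      by_contra hc
      rw [hx _ hc] at hl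
      omega
    · rintro ⟨s, ⟨-, hs⟩, rfl⟩
      exact hs
  unfold poiPhi
  rw [h, encard_coe_eq_coe_finsetCard, Finset.card_image_of_injective, Finset.card_sigma]
  · simp
  · rintro ⟨a, b⟩ ⟨c, d⟩ h
    simp only [Prod.mk.injEq] at h
    obtain ⟨rfl, rfl⟩ := h
    rfl

theorem poi_bd {x R : ℝ} {a : ℤ} (h1 : sd * a ≤ x) (h2 : x ≤ sd * (a + 1))
    (hx : |x| ≤ R) : a ∈ Finset.Icc (-⌈R / sd + 1⌉) ⌈R / sd + 1⌉ := by
  have hs := confLF_sd_pos
  rw [abs_le] at hx
  have e1 : (a : ℝ) ≤ R / sd := by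
    rw [le_div_iff₀ hs]; linarith [hx.2]
  have e2 : -(R / sd) ≤ (a : ℝ) + 1 := by
    rw [← neg_div, div_le_iff₀ hs]; linarith [hx.1]
  have e3 := Int.le_ceil (R / sd + 1)
  rw [Finset.mem_Icc]
  constructor
  · have : (-(⌈R / sd + 1⌉ : ℤ) : ℝ) ≤ (a : ℝ) := by linarith
    exact_mod_cast this
  · have : (a : ℝ) ≤ ((⌈R / sd + 1⌉ : ℤ) : ℝ) := by linarith
    exact_mod_cast this

theorem poiA_empty {B : Set Mir} {R : ℝ} (hB : ∀ m ∈ B, ‖m.1‖ ≤ R) {κ : Cell}
    (hκ : κ ∉ Finset.Icc (-⌈R / sd + 1⌉) ⌈R / sd + 1⌉ ×ˢ Finset.Icc (-⌈R / sd + 1⌉) ⌈R / sd + 1⌉) :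
    poiA B κ = ∅ := by
  rw [eq_empty_iff_forall_notMem]
  intro x hx
  apply hκ
  have hn : ‖aebC κ x.1‖ ≤ R := hB _ hx
  have hs := confLF_sd_pos
  have h1 := (Complex.abs_re_le_norm (aebC κ x.1)).trans hn
  have h2 := (Complex.abs_im_le_norm (aebC κ x.1)).trans hn
  have hu := x.1.1.2
  have hv := x.1.2.2
  rw [Finset.mem_product]
  constructor
  · refine poi_bd ?_ ?_ h1
    · exact mul_le_mul_of_nonneg_left (by linarith [hu.1]) hs.le
    · exact mul_le_mul_of_nonneg_left (by linarith [hu.2]) hs.le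
  · refine poi_bd ?_ ?_ h2
    · exact mul_le_mul_of_nonneg_left (by linarith [hv.1]) hs.le
    · exact mul_le_mul_of_nonneg_left (by linarith [hv.2]) hs.le

theorem poiK_empty (e : CC) : poiK ∅ e = 0 := by
  unfold poiK; simp

theorem isPoisson_conf (μ : Measure ℝ) [IsProbabilityMeasure μ] : IsPoisson (PP μ) μ conf := by
  have hm : ∀ B : Set Mir, MeasurableSet B →
      Measurable fun (ω : Om) (κ : Cell) => poiK (poiA B κ) (ω κ) := fun B hB =>
    measurable_pi_lambda _ fun κ => (poiK_meas (poiA_meas hB κ)).comp (measurable_pi_apply κ)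
  refine ⟨?_, ?_, ?_⟩
  · intro B hB
    exact (poiPhi_meas.comp (hm B hB)).aemeasurable.congr (poi_encard μ B).symm
  · intro B hB R hR
    set F : Finset Cell := Finset.Icc (-⌈R / sd + 1⌉) ⌈R / sd + 1⌉ ×ˢ
      Finset.Icc (-⌈R / sd + 1⌉) ⌈R / sd + 1⌉ with hF
    have h1 : (fun ω => (conf ω ∩ B).encard) =ᵐ[PP μ]
        (fun n : ℕ => (n : ℕ∞)) ∘ (∑ κ ∈ F, fun ω : Om => poiK (poiA B κ) (ω κ)) := by
      filter_upwards [poi_encard μ B] with ω hω
      rw [hω, poiPhi_sum (F := F)]
      · simp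
      · intro κ hκ
        rw [poiA_empty hR hκ, poiK_empty]
    have h2 := poi_law_sum μ (fun κ => poiA_meas hB κ) F
    rw [Measure.map_congr h1, ← AEMeasurable.map_map_of_aemeasurable
      (Measurable.aemeasurable measurable_from_top) h2.aemeasurable, h2.map_eq]
    congr 2
    rw [poi_mass μ hB, tsum_eq_sum (s := F)]
    · rw [ENNReal.toNNReal_sum]
      · refine Finset.sum_congr rfl fun κ _ => ?_
        rw [ENNReal.toNNReal_mul]
        congr 1
        apply NNReal.eq
        change sd ^ 2 = max (sd ^ 2) 0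
        rw [max_eq_left (sq_nonneg sd)]
      · intro κ _
        exact ENNReal.mul_ne_top ENNReal.ofReal_ne_top (measure_ne_top _ _)
    · intro κ hκ
      rw [poiA_empty hR hκ, measure_empty, mul_zero]
  · intro n B hB hd
    have h := poi_indep_rows (A := fun κ i => poiA (B i) κ) (fun κ i => poiA_meas (hB i) κ)
      (fun κ i j hij => (hd i j hij).preimage _) μ
    have h2 := h.comp (fun _ => poiPhi) (fun _ => poiPhi_meas)
    exact h2.congr fun i => (poi_encard μ (B i)).symm

end Pool.Agent.Lib.MP_3309cd_pr
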