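import Pool.Agent.Lib.MP_3309cd_pr.RayDefs
import Pool.Agent.Lib.MP_3309cd_pr.Zeno

/-!
Light rays in the sense of `IsRay` and runs.
-/

namespace Pool.Agent.Lib.MP_3309cd_pr

open MeasureTheory ProbabilityTheory Set Filter Topology

/-- Real induction. -/
private lemma ray_induction {P : ℝ → Prop} {b : ℝ} (h0 : P 0)
    (h1 : ∀ s, 0 < s → s < b → (∀ t, 0 ≤ t → t < s → P t) → P s)
    (h2 : ∀ s, 0 ≤ s → s < b → P s → ∃ d > 0, ∀ t, s ≤ t → t ≤ s + d → P t) :
    ∀ t, 0 ≤ t → t < b → P t := by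
  by_contra hcon
  push Not at hcon
  obtain ⟨t₀, ht₀, ht₀b, hPt₀⟩ := hcon
  set B : Set ℝ := {t | 0 ≤ t ∧ t < b ∧ ¬ P t} with hB
  have hne : B.Nonempty := ⟨t₀, ht₀, ht₀b, hPt₀⟩
  have hbd : BddBelow B := ⟨0, fun t ht => ht.1⟩
  have hs0 : 0 ≤ sInf B := le_csInf hne fun t ht => ht.1
  have hsb : sInf B < b := (csInf_le hbd ⟨ht₀, ht₀b, hPt₀⟩).trans_lt ht₀b
  have hlt : ∀ t, 0 ≤ t → t < sInf B → P t := by
    intro t ht hts
    by_contra hP
    exact absurd (csInf_le hbd (⟨ht, hts.trans hsb, hP⟩ : t ∈ B)) (not_le.2 hts)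
  have hPs : P (sInf B) := by
    rcases hs0.lt_or_eq with h | h
    · exact h1 _ h hsb hlt
    · rw [← h]; exact h0
  obtain ⟨d, hd, hP⟩ := h2 _ hs0 hsb hPs
  have hge : sInf B + d ≤ sInf B := by
    refine le_csInf hne fun t ht => ?_
    by_contra hlt'
    exact ht.2.2 (hP t (csInf_le hbd ht) (not_le.1 hlt').le)
  linarith

/-- The motion of a ray along a flight. -/
private lemma ray_flight {h : ℝ} {M : Set Mir} {X V : ℝ → ℂ}
    (hf : ∀ t, 0 ≤ t → ∃ δ > 0, ∀ r, 0 ≤ r → r ≤ δ → X (t + r) = X t + r • V t ∧ V (t + r) = V t)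
    (hb : ∀ t, 0 < t → ∃ v : ℂ,
      (∃ δ > 0, δ ≤ t ∧ ∀ r, 0 < r → r ≤ δ → X (t - r) = X t - r • v ∧ V (t - r) = v) ∧
      ((∀ m ∈ M, X t ∉ seg h m) → V t = v) ∧
      (∀ m ∈ M, X t ∈ oseg h m → (∀ m' ∈ M, m' ≠ m → X t ∉ seg h m') →
        cr (dir m.2) v ≠ 0 → V t = rl m v))
    {s b : ℝ} (hs : 0 ≤ s) (hb0 : 0 < b)
    (hfree : ∀ m ∈ M, ∀ r : ℝ, 0 < r → r < b → X s + r • V s ∉ seg h m) :
    (∀ t, 0 ≤ t → t < b → X (s + t) = X s + t • V s ∧ V (s + t) = V s) ∧
      X (s + b) = X s + b • V s ∧ ((∀ m ∈ M, X (s + b) ∉ seg h m) → V (s + b) = V s) ∧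
      (∀ m ∈ M, X (s + b) ∈ oseg h m → (∀ m' ∈ M, m' ≠ m → X (s + b) ∉ seg h m') →
        cr (dir m.2) (V s) ≠ 0 → V (s + b) = rl m (V s)) := by
  -- passing to the limit
  have hlim : ∀ c, 0 < c → (∀ t, 0 ≤ t → t < c → X (s + t) = X s + t • V s ∧ V (s + t) = V s) →
      X (s + c) = X s + c • V s ∧ ((∀ m ∈ M, X (s + c) ∉ seg h m) → V (s + c) = V s) ∧
      (∀ m ∈ M, X (s + c) ∈ oseg h m → (∀ m' ∈ M, m' ≠ m → X (s + c) ∉ seg h m') →
        cr (dir m.2) (V s) ≠ 0 → V (s + c) = rl m (V s)) := by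
    intro c hc hP
    obtain ⟨v, ⟨δ, hδ, hδc, hv⟩, h1, h2⟩ := hb (s + c) (by linarith)
    have hr0 : 0 < min δ c := lt_min hδ hc
    obtain ⟨h3, h4⟩ := hv (min δ c) hr0 (min_le_left _ _)
    have h5 := hP (c - min δ c) (by linarith [min_le_right δ c]) (by linarith)
    rw [show s + (c - min δ c) = s + c - min δ c by ring] at h5
    have hvV : v = V s := by rw [← h4, h5.2]
    subst hvV
    refine ⟨?_, h1, h2⟩
    have h6 : X (s + c) = X (s + c - min δ c) + min δ c • V s := by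
      rw [h3]; ring
    rw [h6, h5.1, add_assoc, ← add_smul]
    congr 2
    ring
  have hall : ∀ t, 0 ≤ t → t < b → X (s + t) = X s + t • V s ∧ V (s + t) = V s := by
    refine ray_induction (P := fun t => X (s + t) = X s + t • V s ∧ V (s + t) = V s)
      (by simp) ?_ ?_
    · intro c hc hcb hP
      obtain ⟨h1, h2, -⟩ := hlim c hc hP
      refine ⟨h1, h2 fun m hm => ?_⟩
      rw [h1]
      exact hfree m hm c hc hcb
    · intro c hc hcb hP
      obtain ⟨δ, hδ, h1⟩ := hf (s + c) (by linarith)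
      refine ⟨δ, hδ, fun t ht ht' => ?_⟩
      obtain ⟨h2, h3⟩ := h1 (t - c) (by linarith) (by linarith)
      rw [show s + c + (t - c) = s + t by ring] at h2 h3
      refine ⟨?_, h3.trans hP.2⟩
      rw [h2, hP.1, hP.2, add_assoc, ← add_smul]
      congr 2
      ring
  exact ⟨hall, hlim b hb0 hall⟩

/-- a ray (in the sense of `IsRay`) follows the runs -/
theorem ray_pos {h : ℝ} {M : Set Mir} {u : ℂ} {X : ℝ → ℂ} (hM : LF M) (hX : IsRay h M u X)
    {L : List Mir} (hL : Run h M 0 u L) {r : ℝ} (hr : 0 ≤ r)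
    (hF : Free h M (pos 0 u L) (vel u L) r) :
    X (tim 0 u L + r) = pos 0 u L + r • vel u L := by
  obtain ⟨V, hV0, hf, hb⟩ := hX.motion
  have key : ∀ L, Run h M 0 u L → X (tim 0 u L) = pos 0 u L ∧ V (tim 0 u L) = vel u L := by
    intro L
    induction L with
    | nil => intro _; exact ⟨hX.start, hV0⟩
    | cons m L ih =>
      intro hL
      obtain ⟨h1, h2⟩ := ih hL.1
      have hs := hL.2.2.2.1
      obtain ⟨-, h3, -, h4⟩ := ray_flight (h := h) (M := M) hf hb hL.1.tim_nonneg hs (by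
        intro m' hm' r' h0 h3
        rw [h1, h2]
        exact hL.2.free h3 m' hm' r' h0 le_rfl)
      rw [h1, h2] at h3
      have h5 : X (tim 0 u (m :: L)) = pos 0 u (m :: L) := h3
      refine ⟨h5, ?_⟩
      have h6 := h4 m hL.2.1 (by
        change X (tim 0 u (m :: L)) ∈ oseg h m
        rw [h5]; exact hL.pos_mem.1) (by
        intro m' hm' hne
        change X (tim 0 u (m :: L)) ∉ seg h m'
        rw [h5]; exact hL.pos_mem.2 m' hm' hne) (by rw [h2]; exact hL.2.2.1)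
      rw [h2] at h6
      exact h6
  obtain ⟨h1, h2⟩ := key L hL
  rcases hr.lt_or_eq with h0 | h0
  · obtain ⟨-, h3, -⟩ := ray_flight (h := h) (M := M) hf hb hL.tim_nonneg h0 (by
      intro m' hm' r' h0 h3
      rw [h1, h2]
      exact hF m' hm' r' h0 h3.le)
    rw [h3, h1, h2]
  · rw [← h0, add_zero, h1, zero_smul, add_zero]

private lemma ray_tim_mono {h : ℝ} {M : Set Mir} {x u : ℂ} {L L' : List Mir}
    (hL : Run h M x u L) (hs : L' <:+ L) : tim x u L' ≤ tim x u L := by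
  induction L with
  | nil => rw [List.suffix_nil] at hs; rw [hs]
  | cons m L ih =>
    rcases List.suffix_cons_iff.1 hs with h1 | h1
    · rw [h1]
    · exact (ih hL.1 h1).trans hL.tim_lt.le

private lemma ray_rep_unique_aux {h : ℝ} {M : Set Mir} {u : ℂ} {L L' : List Mir} {r r' : ℝ}
    (hL : Run h M 0 u L) (hr : 0 ≤ r)
    (hF' : Free h M (pos 0 u L') (vel u L') r')
    (he : tim 0 u L + r = tim 0 u L' + r') (hs : L' <:+ L) : L = L' := by
  obtain ⟨K, rfl⟩ := hs
  rcases K.eq_nil_or_concat with rfl | ⟨K, m, rfl⟩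
  · simp
  · exfalso
    have hsuf : m :: L' <:+ K.concat m ++ L' := ⟨K, by simp⟩
    have h2 : Run h M 0 u (m :: L') := hL.of_suffix hsuf
    have h3 := ray_tim_mono hL hsuf
    have h4 := h2.2.lt_of_free hF'
    simp only [tim_cons] at h3
    linarith

theorem ray_rep_unique {h : ℝ} {M : Set Mir} {u : ℂ} {L L' : List Mir} {r r' : ℝ}
    (hL : Run h M 0 u L) (hr : 0 ≤ r) (hF : Free h M (pos 0 u L) (vel u L) r)
    (hL' : Run h M 0 u L') (hr' : 0 ≤ r') (hF' : Free h M (pos 0 u L') (vel u L') r')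
    (he : tim 0 u L + r = tim 0 u L' + r') : L = L' ∧ r = r' := by
  have h1 : L = L' := by
    rcases hL.suffix_or hL' with hs | hs
    · exact ray_rep_unique_aux hL hr hF' he hs
    · exact (ray_rep_unique_aux hL' hr' hF he.symm hs).symm
  subst h1
  exact ⟨rfl, by linarith⟩

/-- in a regular direction every time is reached (uses Zeno.lean) -/
theorem ray_rep {h : ℝ} {M : Set Mir} {u : ℂ} (hM : LF M) (hu : u ≠ 0)
    (h0 : ∀ m ∈ M, (0 : ℂ) ∉ seg h m) (hS : SReg h M 0 u) {t : ℝ} (ht : 0 ≤ t) :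
    ∃ L r, Run h M 0 u L ∧ 0 ≤ r ∧ Free h M (pos 0 u L) (vel u L) r ∧ tim 0 u L + r = t := by
  by_contra hcon
  push Not at hcon
  have hnext : ∀ L : {L : List Mir // Run h M 0 u L ∧ tim 0 u L ≤ t}, ∃ m : Mir,
      Run h M 0 u (m :: L.1) ∧ tim 0 u (m :: L.1) ≤ t := by
    rintro ⟨L, hL, hLt⟩
    have hF : ¬ Free h M (pos 0 u L) (vel u L) (t - tim 0 u L) := fun hF =>
      hcon L (t - tim 0 u L) hL (by linarith) hF (by ring)
    obtain ⟨m, hm, hle⟩ := hL.exists_next hM hS hF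
    refine ⟨m, hm, ?_⟩
    simp only [tim_cons]
    linarith
  choose nx hnx using hnext
  let Ls : ℕ → {L : List Mir // Run h M 0 u L ∧ tim 0 u L ≤ t} := fun n =>
    Nat.rec ⟨[], h0, ht⟩ (fun _ L => ⟨nx L :: L.1, hnx L⟩) n
  have hLs : ∀ n, pre (fun n => nx (Ls n)) n = (Ls n).1 := by
    intro n
    induction n with
    | zero => rfl
    | succ n ih => rw [pre_succ, ih]
  have hI : IRun h M 0 u (fun n => nx (Ls n)) := fun n => by
    rw [hLs]
    exact (Ls n).2.1
  have h1 := tim_tendsto hM hu hS hI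
  obtain ⟨n, hn⟩ := (h1.eventually (eventually_gt_atTop t)).exists
  rw [hLs] at hn
  exact absurd (Ls n).2.2 (not_le.2 hn)

theorem isRay_of_pos {h : ℝ} {M : Set Mir} {u : ℂ} (hM : LF M) (hu : u ≠ 0)
    (h0 : ∀ m ∈ M, (0 : ℂ) ∉ seg h m) (hS : SReg h M 0 u) {X : ℝ → ℂ}
    (hX : ∀ L r, Run h M 0 u L → 0 ≤ r → Free h M (pos 0 u L) (vel u L) r →
      X (tim 0 u L + r) = pos 0 u L + r • vel u L) : IsRay h M u X := by
  classical
  have hfree0 : ∀ p v : ℂ, Free h M p v 0 := by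
    intro p v m _ r' h1 h2
    linarith
  -- velocity
  let V : ℝ → ℂ := fun t =>
    if ht : ∃ L r, Run h M 0 u L ∧ 0 ≤ r ∧ Free h M (pos 0 u L) (vel u L) r ∧
      tim 0 u L + r = t then vel u ht.choose else 0
  have hV : ∀ L r, Run h M 0 u L → 0 ≤ r → Free h M (pos 0 u L) (vel u L) r →
      V (tim 0 u L + r) = vel u L := by
    intro L r hL hr hF
    have ht : ∃ L' r', Run h M 0 u L' ∧ 0 ≤ r' ∧ Free h M (pos 0 u L') (vel u L') r' ∧
      tim 0 u L' + r' = tim 0 u L + r := ⟨L, r, hL, hr, hF, rfl⟩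
    have h1 : V (tim 0 u L + r) = vel u ht.choose := dif_pos ht
    obtain ⟨r', hL', hr', hF', he⟩ := ht.choose_spec
    rw [h1, (ray_rep_unique hL' hr' hF' hL hr hF he).1]
  have hXnil := hX [] 0 h0 le_rfl (hfree0 _ _)
  have hVnil := hV [] 0 h0 le_rfl (hfree0 _ _)
  simp only [tim_nil, add_zero, pos_nil, zero_smul, vel_nil] at hXnil hVnil
  refine ⟨hXnil, V, hVnil, ?_, ?_⟩
  · intro t ht
    obtain ⟨L, r, hL, hr, hF, rfl⟩ := ray_rep hM hu h0 hS ht
    obtain ⟨δ, hδ, hFδ⟩ := exists_free (h := h) (p := pos 0 u L + r • vel u L) (v := vel u L) hM (by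
      intro m hm hmem
      rcases hr.lt_or_eq with h1 | h1
      · exact absurd hmem (hF m hm r h1 le_rfl)
      · rw [← h1, zero_smul, add_zero] at hmem
        exact hL.transversal m hm hmem)
    refine ⟨δ, hδ, fun r' hr' hrδ => ?_⟩
    have hF2 : Free h M (pos 0 u L) (vel u L) (r + r') := by
      intro m hm s h1 h2 hmem
      rcases le_or_gt s r with h3 | h3
      · exact hF m hm s h1 h3 hmem
      · refine hFδ m hm (s - r) (by linarith) (by linarith) ?_
        rwa [add_assoc, ← add_smul, add_sub_cancel]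
    rw [add_assoc, hX L (r + r') hL (by linarith) hF2, hV L (r + r') hL (by linarith) hF2,
      hX L r hL hr hF, hV L r hL hr hF, add_smul, add_assoc]
    exact ⟨rfl, rfl⟩
  · intro t ht
    obtain ⟨L, r, hL, hr, hF, rfl⟩ := ray_rep hM hu h0 hS ht.le
    rcases hr.lt_or_eq with h1 | h1
    · refine ⟨vel u L, ⟨r, h1, by linarith [hL.tim_nonneg], fun r' hr' hrr => ?_⟩, ?_, ?_⟩
      · have hF2 : Free h M (pos 0 u L) (vel u L) (r - r') := hF.mono (by linarith)
        rw [add_sub_assoc, hX L (r - r') hL (by linarith) hF2, hV L (r - r') hL (by linarith) hF2,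
          hX L r hL hr hF, sub_smul]
        exact ⟨by ring, rfl⟩
      · intro _
        exact hV L r hL hr hF
      · intro m hm hmem
        rw [hX L r hL hr hF] at hmem
        exact absurd (oseg_subset_seg _ _ hmem) (hF m hm r h1 le_rfl)
    · subst h1
      cases L with
      | nil => simp at ht
      | cons m L =>
        have hs := hL.2.2.2.1
        have hXt := hX (m :: L) 0 hL le_rfl (hfree0 _ _)
        have hVt := hV (m :: L) 0 hL le_rfl (hfree0 _ _)
        rw [zero_smul, add_zero (pos 0 u (m :: L))] at hXt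
        refine ⟨vel u L, ⟨hitS m (pos 0 u L) (vel u L), hs, ?_, fun r' hr' hrr => ?_⟩, ?_, ?_⟩
        · simp only [tim_cons]
          linarith [hL.1.tim_nonneg]
        · have hF2 : Free h M (pos 0 u L) (vel u L) (hitS m (pos 0 u L) (vel u L) - r') :=
            hL.2.free (by linarith)
          rw [hXt, show tim 0 u (m :: L) + 0 - r' =
            tim 0 u L + (hitS m (pos 0 u L) (vel u L) - r') by simp only [tim_cons]; ring,
            hX L _ hL.1 (by linarith) hF2, hV L _ hL.1 (by linarith) hF2, sub_smul, pos_cons]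
          exact ⟨by ring, rfl⟩
        · intro hoff
          exfalso
          apply hoff m hL.2.1
          rw [hXt]
          exact oseg_subset_seg _ _ hL.pos_mem.1
        · intro m' hm' hmem hoth _
          rw [hXt] at hmem hoth
          have hmm : m' = m := by
            by_contra hne
            exact hL.pos_mem.2 m' hm' hne (oseg_subset_seg _ _ hmem)
          rw [hVt, hmm]
          rfl

end Pool.Agent.Lib.MP_3309cd_pr
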