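import Pool.Agent.Lib.MP_3309cd_pr.RayDefs

/-!
A run which stays in a ball until time `t` is in the ball at time `t`.
-/

namespace Pool.Agent.Lib.MP_3309cd_pr

open MeasureTheory ProbabilityTheory Set Filter Topology

private lemma rayB_find {h : ℝ} {M : Set Mir} {u : ℂ} {t : ℝ} (ht : 0 ≤ t) {L : List Mir}
    (hL : Run h M 0 u L) (hlt : t < tim 0 u L) :
    ∃ m L', m :: L' <:+ L ∧ tim 0 u L' ≤ t ∧ t < tim 0 u (m :: L') := by
  induction L with
  | nil => simp only [tim_nil] at hlt; linarith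
  | cons m L ih =>
    rcases lt_or_ge t (tim 0 u L) with h1 | h1
    · obtain ⟨m', L', hs, h2, h3⟩ := ih hL.1 h1
      exact ⟨m', L', hs.trans (List.suffix_cons m L), h2, h3⟩
    · exact ⟨m, L, List.suffix_refl _, h1, hlt⟩

theorem stay_norm_lt {h : ℝ} {M : Set Mir} {u : ℂ} {t ρ : ℝ} (ht : 0 ≤ t)
    (hSt : Stay h M u t ρ) : ∃ L r, Run h M 0 u L ∧ 0 ≤ r ∧
      Free h M (pos 0 u L) (vel u L) r ∧ tim 0 u L + r = t ∧ ‖pos 0 u L + r • vel u L‖ < ρ := by
  obtain ⟨L, hL, hlt, hρ⟩ := hSt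
  obtain ⟨m, L', hs, h1, h2⟩ := rayB_find ht hL hlt
  have hR : Run h M 0 u (m :: L') := hL.of_suffix hs
  have hs0 := hR.2.2.2.1
  simp only [tim_cons] at h2
  refine ⟨L', t - tim 0 u L', hR.1, by linarith, hR.2.free (by linarith), by ring, ?_⟩
  have ha := hρ (m :: L') hs
  have hb := hρ L' ((List.suffix_cons m L').trans hs)
  set s := hitS m (pos 0 u L') (vel u L') with hsdef
  rw [pos_cons, ← hsdef] at ha
  have hconv := (convex_ball (0 : ℂ) ρ) (mem_ball_zero_iff.2 hb) (mem_ball_zero_iff.2 ha)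
    (a := 1 - (t - tim 0 u L') / s) (b := (t - tim 0 u L') / s)
    (by rw [sub_nonneg, div_le_one hs0]; linarith) (div_nonneg (by linarith) hs0.le) (by ring)
  rw [mem_ball_zero_iff] at hconv
  have he : (1 - (t - tim 0 u L') / s) • pos 0 u L' +
      ((t - tim 0 u L') / s) • (pos 0 u L' + s • vel u L') =
      pos 0 u L' + (t - tim 0 u L') • vel u L' := by
    rw [smul_add, smul_smul, div_mul_cancel₀ _ hs0.ne', sub_smul, one_smul]
    abel
  rwa [he] at hconv

end Pool.Agent.Lib.MP_3309cd_pr
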