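import Pool.Agent.Lib.MP_3309cd_pr.Geom

/-!
Light rays, Poisson configurations and diffusivity (final definitions for MP_3309cd_pr).
-/

namespace Pool.Agent.Lib.MP_3309cd_pr

open MeasureTheory ProbabilityTheory Set Filter Topology

/-- `X t`, `t ≥ 0`, is a light ray from `0` with initial velocity `u` among the mirrors of `M` (of
half-length `h`). `V t` is the velocity just after time `t`, constant for a short time. For `t > 0`
there is a velocity `v` just before time `t`; if `X t` is on no mirror then `V t = v`; if `X t` is on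
exactly one mirror, is not a tip of it, and `v` is not parallel to it, then `V t` is the mirror image
of `v`. In the remaining cases `V t` is arbitrary. -/
structure IsRay (h : ℝ) (M : Set Mir) (u : ℂ) (X : ℝ → ℂ) : Prop where
  start : X 0 = 0
  motion : ∃ V : ℝ → ℂ, V 0 = u ∧
    (∀ t, 0 ≤ t → ∃ δ > 0, ∀ r, 0 ≤ r → r ≤ δ → X (t + r) = X t + r • V t ∧ V (t + r) = V t) ∧
    (∀ t, 0 < t → ∃ v : ℂ,
      (∃ δ > 0, δ ≤ t ∧ ∀ r, 0 < r → r ≤ δ → X (t - r) = X t - r • v ∧ V (t - r) = v) ∧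
      ((∀ m ∈ M, X t ∉ seg h m) → V t = v) ∧
      (∀ m ∈ M, X t ∈ oseg h m → (∀ m' ∈ M, m' ≠ m → X t ∉ seg h m') →
        cr (dir m.2) v ≠ 0 → V t = rl m v))

/-- `C` is (the law under `P` of) a Poisson process of rate `1` in the plane with independent marks
of law `μ`, i.e. a Poisson process on `ℂ × ℝ` with intensity `Lebesgue × μ`. -/
structure IsPoisson {Ω : Type*} [MeasurableSpace Ω] (P : Measure Ω) (μ : Measure ℝ)
    (C : Ω → Set Mir) : Prop where
  meas : ∀ B : Set Mir, MeasurableSet B → AEMeasurable (fun ω => (C ω ∩ B).encard) P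
  law : ∀ B : Set Mir, MeasurableSet B → ∀ R : ℝ, (∀ m ∈ B, ‖m.1‖ ≤ R) →
    P.map (fun ω => (C ω ∩ B).encard) =
      (poissonMeasure (((volume : Measure ℂ).prod μ) B).toNNReal).map (fun n : ℕ => (n : ℕ∞))
  indep : ∀ (n : ℕ) (B : Fin n → Set Mir), (∀ i, MeasurableSet (B i)) →
    (∀ i j, i ≠ j → Disjoint (B i) (B j)) →
      iIndepFun (fun i ω => (C ω ∩ B i).encard) P

/-- Coordinates of a point of the plane. -/
noncomputable def vec (z : ℂ) : EuclideanSpace ℝ (Fin 2) := !₂[z.re, z.im]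

/-- The event that the ray is unbounded. -/
def Unb {Ω : Type*} (X : Ω → ℝ → ℂ) : Set Ω := {ω | ∀ R : ℝ, ∃ t, 0 ≤ t ∧ R < ‖X ω t‖}

/-- The ray `X` is diffusive on the event that it is unbounded. -/
def Diffusive {Ω : Type*} [MeasurableSpace Ω] (P : Measure Ω) (X : Ω → ℝ → ℂ) : Prop :=
  ∃ S : Matrix (Fin 2) (Fin 2) ℝ, S.PosDef ∧
    (∀ i j, Tendsto (fun t : ℝ => t⁻¹ * cov[fun ω => vec (X ω t) i, fun ω => vec (X ω t) j;
      ProbabilityTheory.cond P (Unb X)]) atTop (𝓝 (S i j))) ∧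
    ∀ f : BoundedContinuousFunction (EuclideanSpace ℝ (Fin 2)) ℝ,
      Tendsto (fun t : ℝ => ∫ ω, f ((√t)⁻¹ • vec (X ω t)) ∂(ProbabilityTheory.cond P (Unb X))) atTop
        (𝓝 (∫ z, f z ∂(multivariateGaussian 0 S)))

end Pool.Agent.Lib.MP_3309cd_pr
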