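import Pool.Agent.Lib.MP_3309cd_pr.RayDefs
import Pool.Agent.Lib.MP_3309cd_pr.MeasRun

/-! Measurable rays (MP_3309cd_pr). -/

namespace Pool.Agent.Lib.MP_3309cd_pr

open MeasureTheory ProbabilityTheory Set Filter Topology

private theorem rayMeas_exists_labels (ω : Om) (L : List Mir) (hL : ∀ m ∈ L, m ∈ conf ω) :
    ∃ Λ : List (Cell × ℕ), L = Λ.map (mir ω) := by
  induction L with
  | nil => exact ⟨[], rfl⟩
  | cons a L ih =>
    obtain ⟨Λ, hΛ⟩ := ih fun m hm => hL m (List.mem_cons_of_mem _ hm)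
    obtain ⟨l, -, hl⟩ := hL a List.mem_cons_self
    exact ⟨l :: Λ, by rw [List.map_cons, ← hl, ← hΛ]⟩

private lemma rayMeas_tim_le {h : ℝ} {M : Set Mir} {x u : ℂ} {L : List Mir} (K : List Mir)
    (hL : Run h M x u (K ++ L)) : tim x u L ≤ tim x u (K ++ L) := by
  induction K with
  | nil => simp
  | cons m K ih =>
    have h1 := ih hL.1
    have h2 := Run.tim_lt (m := m) (L := K ++ L) hL
    simp only [List.cons_append]
    linarith

private lemma rayMeas_no_ext {h : ℝ} {M : Set Mir} {x u : ℂ} {L L' : List Mir} {r r' : ℝ}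
    (hL : Run h M x u L) (hF : Free h M (pos x u L) (vel u L) r)
    (hL' : Run h M x u L') (hr' : 0 ≤ r')
    (he : tim x u L + r = tim x u L' + r') (hs : L <:+ L') : L = L' := by
  obtain ⟨K, rfl⟩ := hs
  rcases K.eq_nil_or_concat with rfl | ⟨K, m, rfl⟩
  · simp
  · exfalso
    have h1 : Run h M x u (K ++ (m :: L)) := by simpa using hL'
    have h2 : Run h M x u (m :: L) := h1.of_suffix ⟨K, rfl⟩
    have h3 := rayMeas_tim_le K h1
    have h4 := h2.2.lt_of_free hF
    have h5 : tim x u (K.concat m ++ L) = tim x u (K ++ (m :: L)) := by simp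
    rw [h5] at he
    rw [tim_cons] at h3
    linarith

private lemma rayMeas_unique {h : ℝ} {M : Set Mir} {x u : ℂ} {L L' : List Mir} {r r' : ℝ}
    (hL : Run h M x u L) (hr : 0 ≤ r) (hF : Free h M (pos x u L) (vel u L) r)
    (hL' : Run h M x u L') (hr' : 0 ≤ r') (hF' : Free h M (pos x u L') (vel u L') r')
    (he : tim x u L + r = tim x u L' + r') : L = L' := by
  rcases hL.suffix_or hL' with h1 | h1
  · exact (rayMeas_no_ext hL' hF' hL hr he.symm h1).symm
  · exact rayMeas_no_ext hL hF hL' hr' he h1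

theorem exists_meas_ray (u : ℂ) : ∃ X : Om → ℝ → ℂ, (∀ t, Measurable fun ω => X ω t) ∧
    ∀ ω L r, Run hl (conf ω) 0 u L → 0 ≤ r → Free hl (conf ω) (pos 0 u L) (vel u L) r →
      X ω (tim 0 u L + r) = pos 0 u L + r • vel u L := by
  have key : ∀ t : ℝ, ∃ f : Om → ℂ, Measurable f ∧ ∀ Λ : List (Cell × ℕ),
      EqOn f (fun ω => pos 0 u (Λ.map (mir ω)) + (t - tim 0 u (Λ.map (mir ω))) •
        vel u (Λ.map (mir ω))) {ω : Om | Run hl (conf ω) 0 u (Λ.map (mir ω)) ∧
          0 ≤ t - tim 0 u (Λ.map (mir ω)) ∧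
          Free hl (conf ω) (pos 0 u (Λ.map (mir ω))) (vel u (Λ.map (mir ω)))
            (t - tim 0 u (Λ.map (mir ω)))} := by
    intro t
    have hr : ∀ Λ : List (Cell × ℕ), Measurable fun ω : Om => t - tim 0 u (Λ.map (mir ω)) :=
      fun Λ => (meas_tim u Λ).const_sub t
    refine exists_measurable_piecewise _ ?_ _ ?_ ?_
    · intro Λ
      exact (meas_run u Λ).inter ((measurableSet_le measurable_const (hr Λ)).inter
        (meas_free (meas_pos u Λ) (meas_vel u Λ) (hr Λ)))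
    · intro Λ
      exact (meas_pos u Λ).add ((hr Λ).smul (meas_vel u Λ))
    · rintro Λ Λ' - ω ⟨⟨h1, h2, h3⟩, ⟨h1', h2', h3'⟩⟩
      have h4 := rayMeas_unique h1 h2 h3 h1' h2' h3' (by ring)
      simp only [h4]
  choose f hf hfe using key
  refine ⟨fun ω t => f t ω, hf, ?_⟩
  intro ω L r hL hr hF
  obtain ⟨Λ, rfl⟩ := rayMeas_exists_labels ω L hL.mem
  have h1 := hfe (tim 0 u (Λ.map (mir ω)) + r) Λ (x := ω) ⟨hL, by simpa using hr, by
    rw [add_sub_cancel_left]; exact hF⟩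
  simp only [add_sub_cancel_left] at h1
  exact h1

theorem meas_exit (u : ℂ) (R : ℝ) : MeasurableSet {ω : Om | Exit hl (conf ω) u R} := by
  have h1 : {ω : Om | Exit hl (conf ω) u R} = ⋃ Λ : List (Cell × ℕ),
      ({ω : Om | Run hl (conf ω) 0 u (Λ.map (mir ω))} ∩ ⋃ q : ℚ, ⋃ _ : (0 : ℝ) ≤ q,
        ({ω : Om | Free hl (conf ω) (pos 0 u (Λ.map (mir ω))) (vel u (Λ.map (mir ω))) (q : ℝ)} ∩
          {ω : Om | R < ‖pos 0 u (Λ.map (mir ω)) + (q : ℝ) • vel u (Λ.map (mir ω))‖})) := by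
    ext ω
    simp only [Exit, mem_ofPred_eq, mem_iUnion, mem_inter_iff, exists_prop]
    constructor
    · rintro ⟨L, hL, r, hr, hF, hR⟩
      obtain ⟨Λ, rfl⟩ := rayMeas_exists_labels ω L hL.mem
      refine ⟨Λ, hL, ?_⟩
      rcases hr.lt_or_eq with h0 | h0
      · have hc : Continuous fun s : ℝ =>
            ‖pos 0 u (Λ.map (mir ω)) + s • vel u (Λ.map (mir ω))‖ := by fun_prop
        have h2 : ∀ᶠ s in 𝓝 r, R < ‖pos 0 u (Λ.map (mir ω)) + s • vel u (Λ.map (mir ω))‖ :=
          (hc.tendsto r).eventually (lt_mem_nhds hR)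
        obtain ⟨ε, hε, hball⟩ := Metric.eventually_nhds_iff.1 h2
        obtain ⟨q, hq1, hq2⟩ := exists_rat_btwn (show max 0 (r - ε) < r from
          max_lt h0 (by linarith))
        have hq3 := le_max_left 0 (r - ε)
        have hq4 := le_max_right 0 (r - ε)
        refine ⟨q, by linarith, hF.mono hq2.le, hball ?_⟩
        rw [Real.dist_eq, abs_lt]
        constructor <;> linarith
      · refine ⟨0, by simp, ?_, ?_⟩
        · simpa [← h0] using hF
        · simpa [← h0] using hR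
    · rintro ⟨Λ, hL, q, hq, hF, hR⟩
      exact ⟨_, hL, q, hq, hF, hR⟩
  rw [h1]
  refine MeasurableSet.iUnion fun Λ => (meas_run u Λ).inter (MeasurableSet.iUnion fun q =>
    MeasurableSet.iUnion fun _ => ?_)
  refine (meas_free (meas_pos u Λ) (meas_vel u Λ) measurable_const).inter ?_
  exact measurableSet_lt measurable_const
    ((meas_pos u Λ).add ((meas_vel u Λ).const_smul (q : ℝ))).norm

end Pool.Agent.Lib.MP_3309cd_pr
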