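import Pool.Agent.Lib.MP_3309cd_pr.Defs

/-! Resampling one coordinate of an infinite product of probability measures. -/

namespace Pool.Agent.Lib.MP_3309cd_pr

open MeasureTheory ProbabilityTheory Set Filter Topology

/-- Resampling one coordinate of an infinite product. -/
theorem resample_infinitePi {ι X : Type*} [DecidableEq ι] [MeasurableSpace X]
    (ν : Measure X) [IsProbabilityMeasure ν] (κ : ι) :
    MeasurePreserving (fun p : (ι → X) × X => Function.update p.1 κ p.2)
      ((Measure.infinitePi fun _ : ι => ν).prod ν) (Measure.infinitePi fun _ : ι => ν) := by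
  have hmeas : Measurable (fun p : (ι → X) × X => Function.update p.1 κ p.2) := by
    rw [measurable_pi_iff]
    intro i
    by_cases hi : i = κ
    · subst hi
      simpa using measurable_snd
    · simp only [Function.update_of_ne hi]
      exact (measurable_pi_apply i).comp measurable_fst
  refine ⟨hmeas, ?_⟩
  refine Measure.eq_infinitePi _ fun s t ht => ?_
  rw [Measure.map_apply hmeas (.pi s.countable_toSet fun i _ => ht i)]
  have hpre : (fun p : (ι → X) × X => Function.update p.1 κ p.2) ⁻¹' ((s : Set ι).pi t) =
      (((s.erase κ : Finset ι) : Set ι).pi t) ×ˢ (if κ ∈ s then t κ else univ) := by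
    ext p
    simp only [mem_preimage, Set.mem_pi, mem_prod, Finset.mem_coe, Finset.mem_erase]
    constructor
    · intro h
      refine ⟨fun i hi => ?_, ?_⟩
      · have := h i hi.2
        rwa [Function.update_of_ne hi.1] at this
      · split_ifs with hκ
        · simpa using h κ hκ
        · exact mem_univ _
    · rintro ⟨h1, h2⟩ i hi
      by_cases hik : i = κ
      · subst hik
        simpa [hi] using h2
      · rw [Function.update_of_ne hik]
        exact h1 i ⟨hik, hi⟩
  rw [hpre, Measure.prod_prod, Measure.infinitePi_pi _ (fun i _ => ht i)]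
  split_ifs with hκ
  · rw [mul_comm, Finset.mul_prod_erase s (fun i => ν (t i)) hκ]
  · rw [measure_univ, mul_one, Finset.erase_eq_of_notMem hκ]

theorem resample (μ : Measure ℝ) [IsProbabilityMeasure μ] (κ : Cell) :
    MeasurePreserving (fun p : Om × CC => Function.update p.1 κ p.2)
      ((PP μ).prod (cellLaw μ)) (PP μ) := by
  have : IsProbabilityMeasure (ptLaw μ) := by unfold ptLaw; infer_instance
  have : IsProbabilityMeasure (cellLaw μ) := by unfold cellLaw; infer_instance
  exact resample_infinitePi (cellLaw μ) κ

end Pool.Agent.Lib.MP_3309cd_pr
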