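import Mathlib

/-!
There is no continuous logarithm on the frontier of a bounded open set containing `0`.
-/

set_option autoImplicit false

namespace Pool.Agent.Lib.MP_3309cd_pr

open MeasureTheory ProbabilityTheory Set Filter Topology

/-- continuous logarithm -/
private theorem top_lift {f : ℂ → ℂ} (hf : Continuous f) (h0 : ∀ p, f p ≠ 0) :
    ∃ g : ℂ → ℂ, Continuous g ∧ ∀ p, Complex.exp (g p) = f p := by
  obtain ⟨F, ⟨-, hF⟩, -⟩ := Complex.isCoveringMapOn_exp.existsUnique_continuousMap_lifts
    (⟨f, hf⟩ : C(ℂ, ℂ)) (a₀ := (0 : ℂ)) (e₀ := Complex.log (f 0))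
    (Complex.exp_log (h0 0)) (fun a => h0 a)
  exact ⟨F, F.continuous, fun p => congrFun hF p⟩

/-- continuous logarithms of a constant are constant -/
private theorem top_const {g : ℝ → ℂ} (hg : Continuous g) {c : ℂ}
    (h : ∀ p, Complex.exp (g p) = c) (p q : ℝ) : g p = g q := by
  have hc : c ≠ 0 := by
    rw [← h p]; exact Complex.exp_ne_zero _
  obtain ⟨F, -, hu⟩ := Complex.isCoveringMapOn_exp.existsUnique_continuousMap_lifts
    (⟨fun _ => c, continuous_const⟩ : C(ℝ, ℂ)) (a₀ := q) (e₀ := g q)
    (h q) (fun a => hc)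
  have h1 := hu ⟨g, hg⟩ ⟨rfl, funext h⟩
  have h2 := hu ⟨fun _ => g q, continuous_const⟩ ⟨rfl, funext fun _ => h q⟩
  have h3 := h1.trans h2.symm
  exact congrArg (fun f : C(ℝ, ℂ) => f p) h3

/- File Top -/
theorem top_lemma {K U : Set ℂ} (hK : IsCompact K) {f : ℂ → ℂ} (hf : ContinuousOn f K)
    (hexp : ∀ z ∈ K, Complex.exp (f z) = z) (hU : IsOpen U) (hUb : Bornology.IsBounded U)
    (h0 : (0 : ℂ) ∈ U) (hfr : frontier U ⊆ K) : False := by
  classical
  obtain ⟨F, hF⟩ := ContinuousMap.exists_restrict_eq hK.isClosed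
    (⟨K.domRestrict f, hf.domRestrict⟩ : C(K, ℂ))
  have hFK : ∀ z ∈ K, F z = f z := by
    intro z hz
    have := congrArg (fun g : C(K, ℂ) => g ⟨z, hz⟩) hF
    exact this
  have hcont : Continuous (Set.piecewise (closure U) (fun z => Complex.exp (F z)) fun z => z) := by
    apply Continuous.piecewise
    · intro a ha
      have h1 : a ∈ K := hfr (frontier_closure_subset ha)
      change Complex.exp (F a) = a
      rw [hFK a h1, hexp a h1]
    · exact Complex.continuous_exp.comp F.continuous
    · exact continuous_id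
  have hne : ∀ z, Set.piecewise (closure U) (fun z => Complex.exp (F z)) (fun z => z) z ≠ 0 := by
    intro z
    by_cases hz : z ∈ closure U
    · rw [Set.piecewise_eq_of_mem _ _ _ hz]
      exact Complex.exp_ne_zero _
    · rw [Set.piecewise_eq_of_notMem _ _ _ hz]
      rintro rfl
      exact hz (subset_closure h0)
  obtain ⟨G, hG, hGexp⟩ := top_lift hcont hne
  obtain ⟨R, hR0, hR⟩ := hUb.closure.subset_ball_lt 0 0
  have hcirc : ∀ t : ℝ, Complex.exp (G (R * Complex.exp (t * Complex.I))) =
      R * Complex.exp (t * Complex.I) := by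
    intro t
    rw [hGexp, Set.piecewise_eq_of_notMem]
    intro hz
    have h1 := hR hz
    rw [mem_ball_zero_iff, norm_mul, Complex.norm_exp_ofReal_mul_I, mul_one,
      Complex.norm_real, Real.norm_eq_abs, abs_of_pos hR0] at h1
    exact lt_irrefl _ h1
  have hgc : Continuous fun t : ℝ => G (R * Complex.exp (t * Complex.I)) - t * Complex.I := by
    fun_prop
  have hconst := top_const hgc (c := (R : ℂ)) (fun t => by
    rw [Complex.exp_sub, hcirc]
    field_simp) 0 (2 * Real.pi)
  have e1 : Complex.exp (((2 * Real.pi : ℝ) : ℂ) * Complex.I) = 1 := by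
    push_cast
    exact Complex.exp_two_pi_mul_I
  rw [e1] at hconst
  simp only [Complex.ofReal_zero, zero_mul, Complex.exp_zero, mul_one, sub_zero] at hconst
  have h2 : ((2 * Real.pi : ℝ) : ℂ) * Complex.I = 0 := by
    have := sub_eq_self.1 hconst.symm
    exact this
  rw [mul_eq_zero, Complex.ofReal_eq_zero] at h2
  rcases h2 with h2 | h2
  · have := Real.pi_pos
    linarith
  · exact Complex.I_ne_zero h2

end Pool.Agent.Lib.MP_3309cd_pr
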